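import Pool.Agent.Lib.MP_778b46_nt.GL.Defs
import Pool.Agent.Lib.MP_778b46_nt.MA.O1
import Pool.Agent.Lib.MP_2a1a00_nt.Div

/-!
Simple facts on the singular series, the weight and the model.
-/

set_option autoImplicit false

noncomputable section

namespace Pool.Agent.Lib.MP_778b46_nt.GL

open Finset MeasureTheory Filter
open Pool.Agent.Lib.MP_778b46_nt.MA (lp w1 a1S a1M cf cop R1 I0 RR)
open Pool.Agent.Lib.MP_778b46_nt.VA (ee nd)

theorem a5_sum (P : Finset ℕ) (R : ℕ) (f : ℕ → ℝ) :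
    |∑ S ∈ dd P R, ∏ l ∈ S, f l| ≤ ∏ l ∈ P, (1 + |f l|) := by
  rw [prod_one_add]
  refine (abs_sum_le_sum_abs _ _).trans ?_
  simp only [abs_prod]
  exact sum_le_sum_of_subset_of_nonneg (filter_subset _ _) fun S _ _ => by positivity

theorem a5_rho {l : ℕ} (hl : l.Prime) (m : ℤ) : |rho l m| ≤ uu l := by
  have h1 := uu_pos hl
  have h2 := uu_le_one hl
  unfold rho
  split_ifs <;> rw [abs_le] <;> constructor <;> nlinarith

theorem a5_od {y l : ℕ} (h : l ∈ od3 y) : l.Prime := Nat.prime_of_mem_primesLE (mem_of_mem_erase h)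

theorem st_neg (R : ℕ) (m : ℤ) : ST R (-m) = ST R m := by simp only [ST, rho, dvd_neg]

theorem abs_st_le : ∃ C : ℝ, 1 ≤ C ∧ ∀ R : ℕ, 2 ≤ R → ∀ m : ℤ, |ST R m| ≤ C * Real.log R := by
  obtain ⟨C, h1, h2⟩ := mert_le
  refine ⟨C, h1, fun R hR m => (a5_sum _ _ _).trans (le_trans ?_ (h2 R hR _ Subset.rfl))⟩
  exact prod_le_prod (fun _ _ => by positivity) fun l hl =>
    add_le_add_right (a5_rho (Nat.prime_of_mem_primesLE hl) m) 1

theorem st_zero (R : ℕ) : Real.log (R + 1) ≤ ST R 0 := by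
  simpa [ST, rho, gg, mert] using log_le_gg_mul ∅ (Nat.primesLE R) R (by simp)
    (fun _ => Nat.prime_of_mem_primesLE) fun l h1 h2 => Or.inr (Nat.mem_primesLE.2 ⟨h2, h1⟩)

theorem so_nonneg (y : ℕ) (m : ℤ) : 0 ≤ SO y m := prod_nonneg fun l hl => by
  linarith [(abs_le.1 (a5_rho (a5_od hl) m)).1, uu_le_one (a5_od hl)]

theorem a5_sq (y : ℕ) (m : ℤ) :
    0 ≤ ∏ l ∈ (od3 y).filter (fun l : ℕ => ¬ (l : ℤ) ∣ m), (1 - uu l ^ 2) :=
  prod_nonneg fun l hl => by
    have := a5_od (mem_filter.1 hl).1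
    nlinarith [uu_le_one this, uu_pos this]

theorem sm_nonneg (y : ℕ) (m : ℤ) : 0 ≤ SM y m := by
  unfold SM
  split_ifs
  · exact le_rfl
  · exact mul_nonneg (a5_sq y m) (prod_nonneg fun l hl => by
      linarith [uu_pos (Nat.prime_of_mem_primeFactors (mem_of_mem_erase hl))])

theorem so_le (y : ℕ) {m : ℤ} (hm : m ≠ 0) : SO y m ≤ SM y m := by
  rw [SM, if_neg hm, SO, ← prod_filter_not_mul_prod_filter _ fun l : ℕ => (l : ℤ) ∣ m,
    prod_congr rfl (g := fun l => 1 - uu l ^ 2) fun l hl => by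
      rw [rho, if_neg (mem_filter.1 hl).2, sub_eq_add_neg],
    prod_congr (s₁ := filter (fun l : ℕ => (l : ℤ) ∣ m) _) rfl (g := fun l => 1 + uu l)
      fun l hl => by rw [rho, if_pos (mem_filter.1 hl).2]]
  refine mul_le_mul_of_nonneg_left (prod_le_prod_of_subset_of_one_le (fun l hl => ?_)
    (fun l hl => ?_) fun l hl _ => ?_) (a5_sq y m)
  · obtain ⟨h1, h2⟩ := mem_filter.1 hl
    exact mem_erase.2 ⟨(mem_erase.1 h1).1, Nat.mem_primeFactors.2
      ⟨a5_od h1, Int.natCast_dvd.1 h2, Int.natAbs_ne_zero.2 hm⟩⟩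
  · linarith [uu_pos (a5_od (mem_filter.1 hl).1)]
  · linarith [uu_pos (Nat.prime_of_mem_primeFactors (mem_of_mem_erase hl))]

theorem a5_cont : Continuous w1 := MA.wt_w1.smooth.continuous

theorem a5_int {g : ℝ → ℝ} {b : ℝ} (h : ∀ x, x ≤ 0 ∨ b ≤ x → g x = 0) :
    ∫ x, g x = ∫ x in (0 : ℝ)..b, g x :=
  (intervalIntegral.integral_eq_integral_of_support_subset fun x hx => by
    by_contra k
    rw [Set.mem_Ioc, not_and_or, not_lt, not_le] at k
    exact hx (h x (k.imp_right le_of_lt))).symm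

theorem a5_i2 : I2 = ∫ x in (0 : ℝ)..1, w1 x ^ 2 :=
  a5_int fun x hx => by rw [MA.a1_w1_zero hx, sq, mul_zero]

theorem a5_symm (x : ℝ) : w1 (9 / 8 - x) = w1 x := by
  have h : MA.w0 (9 / 8 - x) = MA.w0 x := by
    unfold MA.w0 MP_03e5d0_nt.bump
    rw [mul_comm]
    congr 2 <;> ring
  rw [w1, w1, h]

theorem i2_mem : 3 / 8 ≤ I2 ∧ I2 ≤ 1 := by
  have hc : Continuous fun x => w1 x ^ 2 := a5_cont.pow 2
  rw [a5_i2]
  constructor
  · have h1 : ∫ x in (3 / 8 : ℝ)..(3 / 4), w1 x ^ 2 = ∫ x in (3 / 8 : ℝ)..(3 / 4), (1 : ℝ) :=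
      intervalIntegral.integral_congr fun x hx => by
        rw [Set.uIcc_of_le (by norm_num)] at hx
        simp only [w1, MA.w0_one hx.1 hx.2, mul_one, one_pow]
    have h2 := intervalIntegral.integral_mono_interval (μ := volume) (f := fun x => w1 x ^ 2)
      (c := 0) (a := 3 / 8) (b := 3 / 4) (d := 1) (by norm_num) (by norm_num) (by norm_num)
      (Eventually.of_forall fun x => sq_nonneg _) (hc.intervalIntegrable _ _)
    rw [h1, intervalIntegral.integral_const, smul_eq_mul] at h2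
    linarith
  · have h2 := intervalIntegral.integral_mono_on (μ := volume) (f := fun x => w1 x ^ 2)
      (g := fun _ => (1 : ℝ)) zero_le_one (hc.intervalIntegrable _ _) intervalIntegrable_const
      fun x _ => pow_le_one₀ (MA.w1_mem x).1 (MA.w1_mem x).2
    rw [intervalIntegral.integral_const, smul_eq_mul] at h2
    linarith

theorem i0_near : ∃ K : ℝ, 0 ≤ K ∧ ∀ ν : ℝ, |I0 w1 ν - I2| ≤ K * |ν - 9 / 8| := by
  obtain ⟨K, hK, h⟩ := MA.a1_lip
  refine ⟨K, hK, fun ν => ?_⟩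
  have hc := a5_cont
  have h1 : I0 w1 ν = ∫ x in (0 : ℝ)..1, w1 x * w1 (ν - x) :=
    a5_int fun x hx => by rw [MA.a1_w1_zero hx, zero_mul]
  rw [h1, a5_i2, ← intervalIntegral.integral_sub (Continuous.intervalIntegrable (by fun_prop) _ _)
    (Continuous.intervalIntegrable (by fun_prop) _ _), ← Real.norm_eq_abs]
  refine (intervalIntegral.norm_integral_le_of_norm_le_const (C := K * |ν - 9 / 8|)
    fun x _ => ?_).trans (by simp)
  have h2 := h (ν - x) (9 / 8 - x)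
  rw [a5_symm, sub_sub_sub_cancel_right] at h2
  rw [sq, ← mul_sub, Real.norm_eq_abs, abs_mul, abs_of_nonneg (MA.w1_mem x).1]
  exact (mul_le_of_le_one_left (abs_nonneg _) (MA.w1_mem x).2).trans h2

theorem sum_w2 : ∃ C : ℝ, ∀ X : ℝ, 1 ≤ X →
    |∑ n ∈ Icc 1 ⌊X⌋₊, w1 (n / X) ^ 2 - X * I2| ≤ C := by
  obtain ⟨K, hK, h⟩ := MA.a1_lip
  refine ⟨4 * K, fun X hX => ?_⟩
  have hX0 : 0 < X := by linarith
  have hc : Continuous fun t : ℝ => w1 (t / X) ^ 2 := by
    have := a5_cont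
    fun_prop
  have h1 : X * I2 = ∑ n ∈ range (⌊X⌋₊ + 1), ∫ t in (n : ℝ)..((n + 1 : ℕ) : ℝ), w1 (t / X) ^ 2 := by
    rw [intervalIntegral.sum_integral_adjacent_intervals (a := fun n : ℕ => (n : ℝ))
      fun n _ => hc.intervalIntegrable _ _, Nat.cast_zero, ← a5_int,
      Measure.integral_comp_div (fun x => w1 x ^ 2), abs_of_pos hX0, smul_eq_mul, I2]
    intro x hx
    rw [MA.a1_w1_zero (hx.imp (fun k => div_nonpos_of_nonpos_of_nonneg k hX0.le) fun k => ?_), sq,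
      mul_zero]
    rw [le_div_iff₀ hX0]
    push_cast at k
    linarith [Nat.lt_floor_add_one X]
  have h2 : ∑ n ∈ Icc 1 ⌊X⌋₊, w1 (n / X) ^ 2 = ∑ n ∈ range (⌊X⌋₊ + 1), w1 (n / X) ^ 2 := by
    rw [range_eq_Ico, sum_eq_sum_Ico_succ_bot (Nat.succ_pos _), Nat.cast_zero, zero_div,
      MA.a1_w1_zero (Or.inl le_rfl), sq (0 : ℝ), mul_zero, zero_add]
    rfl
  rw [h1, h2, ← sum_sub_distrib]
  refine (abs_sum_le_sum_abs _ _).trans
    ((sum_le_card_nsmul _ _ (2 * K / X) fun n _ => ?_).trans ?_)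
  · have e : w1 (n / X) ^ 2 = ∫ _ in (n : ℝ)..((n + 1 : ℕ) : ℝ), w1 (n / X) ^ 2 := by simp
    rw [e, ← intervalIntegral.integral_sub intervalIntegrable_const (hc.intervalIntegrable _ _),
      ← Real.norm_eq_abs]
    refine (intervalIntegral.norm_integral_le_of_norm_le_const (C := 2 * K / X)
      fun t ht => ?_).trans (by simp)
    rw [Set.uIoc_of_le (by simp), Nat.cast_succ] at ht
    have k1 := MA.w1_mem (n / X)
    have k2 := MA.w1_mem (t / X)
    have k3 : |w1 (n / X) + w1 (t / X)| ≤ 2 := abs_le.2 ⟨by linarith, by linarith⟩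
    have k4 : |(n : ℝ) / X - t / X| ≤ 1 / X := by
      rw [← sub_div, abs_div, abs_of_pos hX0]
      exact div_le_div_of_nonneg_right (abs_le.2 ⟨by linarith [ht.2], by linarith [ht.1]⟩) hX0.le
    have k5 := mul_le_mul k3 ((h _ _).trans (mul_le_mul_of_nonneg_left k4 hK)) (abs_nonneg _)
      zero_le_two
    rw [sq_sub_sq, Real.norm_eq_abs, abs_mul]
    exact k5.trans_eq (by ring)
  · rw [card_range, nsmul_eq_mul, ← mul_div_assoc, div_le_iff₀ hX0]
    push_cast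
    nlinarith [Nat.floor_le hX0.le]

theorem a5_lm {P : Finset ℕ} (hP : ∀ l ∈ P, l.Prime) (R : ℕ) {n : ℕ} (hn : n ≠ 0) :
    |sig P R n| ≤ n.divisors.card * mert P := by
  have h1 : ∏ l ∈ P.filter (· ∣ n), (2 : ℝ) ≤ n.divisors.card := by
    rw [Nat.card_divisors hn, Nat.cast_prod]
    refine (prod_le_prod_of_subset_of_one_le (t := n.primeFactors) (fun l hl =>
      Nat.mem_primeFactors.2 ⟨hP l (mem_filter.1 hl).1, (mem_filter.1 hl).2, hn⟩)
      (fun _ _ => zero_le_two) fun _ _ _ => one_le_two).trans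
      (prod_le_prod (fun _ _ => zero_le_two) fun l hl => ?_)
    have := (Nat.prime_of_mem_primeFactors hl).factorization_pos_of_dvd hn
      (Nat.dvd_of_mem_primeFactors hl)
    exact_mod_cast Nat.succ_le_succ this
  refine (a5_sum _ _ _).trans (le_trans ?_
    (mul_le_mul_of_nonneg_right h1 (zero_le_one.trans (one_le_mert hP))))
  rw [prod_filter, mert, ← prod_mul_distrib]
  refine prod_le_prod (fun _ _ => by positivity) fun l hl => ?_
  have := uu_pos (hP l hl)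
  simp only [ps, Int.natCast_dvd_natCast]
  split_ifs
  · rw [abs_neg, abs_one]; linarith
  · rw [abs_of_pos this, one_mul]

theorem lm_le {ε : ℝ} (hε : 0 < ε) : ∃ C : ℝ, 0 ≤ C ∧ ∀ (X : ℝ) (R n : ℕ), 2 ≤ X → (R : ℝ) ≤ X →
    1 ≤ n → (n : ℝ) ≤ 2 * X → |lm R n| ≤ C * X ^ ε := by
  obtain ⟨C, h1, h2⟩ := mert_le
  obtain ⟨D, h3, h4⟩ := MP_2a1a00_nt.card_divisors_le (ε / 2) (by positivity)
  refine ⟨D * 2 ^ (ε / 2) * (C / (ε / 2)), by positivity, fun X R n hX hR h5 h6 => ?_⟩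
  have h0 : 0 < X := by linarith
  have h7 : 2 ≤ ⌊X⌋₊ := Nat.le_floor (by exact_mod_cast hX)
  have h8 := (h2 _ h7 (Nat.primesLE R) fun l hl => Nat.mem_primesLE.2
    ⟨(Nat.mem_primesLE.1 hl).1.trans (Nat.le_floor hR), (Nat.mem_primesLE.1 hl).2⟩).trans
    (mul_le_mul_of_nonneg_left ((Real.log_le_log (by positivity) (Nat.floor_le h0.le)).trans
      (Real.log_le_rpow_div h0.le (half_pos hε))) (by positivity))
  have h9 := (h4 n).trans (mul_le_mul_of_nonneg_left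
    (Real.rpow_le_rpow (by positivity) h6 (half_pos hε).le) h3)
  refine (a5_lm (fun _ => Nat.prime_of_mem_primesLE) R (by omega)).trans ((mul_le_mul h9 h8
    (zero_le_one.trans (one_le_mert fun _ => Nat.prime_of_mem_primesLE)) (by positivity)).trans_eq ?_)
  rw [Real.mul_rpow zero_le_two h0.le, show X ^ ε = X ^ (ε / 2) * X ^ (ε / 2) by
    rw [← Real.rpow_add h0, add_halves]]
  ring

end Pool.Agent.Lib.MP_778b46_nt.GL
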