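import Pool.Agent.Lib.MP_778b46_nt.GL.Defs
import Pool.Agent.Lib.MP_778b46_nt.MA.F2

/-!
Ramanujan sums of squarefree moduli.
-/

set_option autoImplicit false

noncomputable section

namespace Pool.Agent.Lib.MP_778b46_nt.GL

open Finset MeasureTheory Filter
open Pool.Agent.Lib.MP_778b46_nt.MA (lp w1 a1S a1M cf cop R1 I0 RR)
open Pool.Agent.Lib.MP_778b46_nt.VA (ee nd)

theorem a4_sqf {S : Finset ℕ} (hS : ∀ l ∈ S, l.Prime) : Squarefree (∏ l ∈ S, l) :=
  Finset.squarefree_prod_of_pairwise_isCoprime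
    (fun _ hp _ hq hpq => Nat.coprime_iff_isRelPrime.1
      ((Nat.coprime_primes (hS _ hp) (hS _ hq)).2 hpq)) fun p hp => (hS p hp).squarefree

theorem a4_div {S : Finset ℕ} (hS : ∀ l ∈ S, l.Prime) (F : ℕ → ℂ) :
    ∑ q ∈ (∏ l ∈ S, l).divisors, F q = ∑ T ∈ S.powerset, F (∏ l ∈ T, l) := by
  have h := a4_sqf hS
  refine sum_nbij' (fun q => q.primeFactors) (fun T => ∏ l ∈ T, l) (fun q hq => ?_)
    (fun T hT => ?_) (fun q hq => ?_) (fun T hT => ?_) fun q hq => ?_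
  · rw [mem_powerset, ← Nat.primeFactors_prod hS]
    exact Nat.primeFactors_mono (Nat.dvd_of_mem_divisors hq) h.ne_zero
  · exact Nat.mem_divisors.2 ⟨prod_dvd_prod_of_subset _ _ _ (mem_powerset.1 hT), h.ne_zero⟩
  · exact Nat.prod_primeFactors_of_squarefree (h.squarefree_of_dvd (Nat.dvd_of_mem_divisors hq))
  · exact Nat.primeFactors_prod fun l hl => hS l (mem_powerset.1 hT hl)
  · rw [Nat.prod_primeFactors_of_squarefree (h.squarefree_of_dvd (Nat.dvd_of_mem_divisors hq))]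

theorem a4_ind {S : Finset ℕ} (hS : ∀ l ∈ S, l.Prime) (m : ℤ) :
    (if ((∏ l ∈ S, l : ℕ) : ℤ) ∣ m then ((∏ l ∈ S, l : ℕ) : ℂ) else 0) =
      ∏ l ∈ S, (1 + ((if (l : ℤ) ∣ m then (l : ℝ) - 1 else -1 : ℝ) : ℂ)) := by
  split_ifs with h
  · rw [Nat.cast_prod]
    refine prod_congr rfl fun l hl => ?_
    rw [if_pos ((Int.natCast_dvd_natCast.2 (dvd_prod_of_mem _ hl)).trans h)]
    push_cast
    ring
  · by_contra h0
    refine h (Int.natCast_dvd.2 (prod_primes_dvd _ (fun l hl => (hS l hl).prime) fun l hl => ?_))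
    by_contra k
    refine h0 (prod_eq_zero hl ?_).symm
    rw [if_neg fun e => k (Int.natCast_dvd.1 e)]
    simp

theorem ram (S : Finset ℕ) (hS : ∀ l ∈ S, l.Prime) (m : ℤ) :
    ∑ c ∈ cop (∏ l ∈ S, l), ee (m * c / (∏ l ∈ S, l : ℕ)) =
      ((∏ l ∈ S, if (l : ℤ) ∣ m then (l : ℝ) - 1 else -1 : ℝ) : ℂ) := by
  induction S using Finset.strongInduction with
  | H S ih =>
    have : NeZero (∏ l ∈ S, l) := ⟨(a4_sqf hS).ne_zero⟩
    have h := MA.sum_ram (N := ∏ l ∈ S, l) m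
    rw [MA.a1_ee, a4_div hS fun q => ∑ c ∈ cop q, ee (m * c / q), a4_ind hS, prod_one_add,
      ← add_sum_erase _ _ (mem_powerset_self S), ← add_sum_erase _ _ (mem_powerset_self S)] at h
    rw [Complex.ofReal_prod]
    refine add_right_cancel (h.trans (congrArg _ (sum_congr rfl fun T hT => Eq.symm ?_)))
    obtain ⟨a, b⟩ := mem_erase.1 hT
    rw [ih T (ssubset_of_subset_of_ne (mem_powerset.1 b) a) fun l hl => hS l (mem_powerset.1 b hl),
      Complex.ofReal_prod]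

theorem tot_prod (S : Finset ℕ) (hS : ∀ l ∈ S, l.Prime) :
    (Nat.totient (∏ l ∈ S, l) : ℝ) * ∏ l ∈ S, uu l = 1 := by
  induction S using Finset.induction_on with
  | empty => simp
  | insert a S ha ih =>
    have p := hS a (mem_insert_self a S)
    have k : ∀ l ∈ S, l.Prime := fun l hl => hS l (mem_insert_of_mem hl)
    have c : Nat.Coprime a (∏ l ∈ S, l) := Nat.Coprime.prod_right fun l hl =>
      (Nat.coprime_primes p (k l hl)).2 fun e => ha (e ▸ hl)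
    have e : (1 : ℝ) < a := by exact_mod_cast p.one_lt
    rw [prod_insert ha, prod_insert ha, Nat.totient_mul c, Nat.totient_prime p, Nat.cast_mul,
      mul_mul_mul_comm, ih k, Nat.cast_pred p.pos, uu, mul_one, mul_one_div_cancel (by linarith)]

theorem rho_prod (S : Finset ℕ) (hS : ∀ l ∈ S, l.Prime) (m : ℤ) :
    ((∏ l ∈ S, rho l m : ℝ) : ℂ) = (((∏ l ∈ S, uu l) ^ 2 : ℝ) : ℂ) *
      ∑ c ∈ cop (∏ l ∈ S, l), ee (m * c / (∏ l ∈ S, l : ℕ)) := by
  rw [ram S hS, ← Complex.ofReal_mul, ← prod_pow, ← prod_mul_distrib]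
  refine congrArg _ (prod_congr rfl fun l hl => ?_)
  have := mul_uu (hS l hl)
  unfold rho
  split_ifs
  · linear_combination (-uu l) * this
  · ring

theorem ps_prod (S : Finset ℕ) (hS : ∀ l ∈ S, l.Prime) (m : ℤ) :
    ((∏ l ∈ S, ps l m : ℝ) : ℂ) = ((∏ l ∈ S, -uu l : ℝ) : ℂ) *
      ∑ c ∈ cop (∏ l ∈ S, l), ee (m * c / (∏ l ∈ S, l : ℕ)) := by
  rw [ram S hS, ← Complex.ofReal_mul, ← prod_mul_distrib]
  refine congrArg _ (prod_congr rfl fun l hl => ?_)
  have := mul_uu (hS l hl)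
  unfold ps
  split_ifs
  · linear_combination this
  · ring

theorem sum_dd_le {P : Finset ℕ} (hP : ∀ l ∈ P, l.Prime) (R : ℕ) {f : ℕ → ℝ}
    (hf : ∀ d, 0 ≤ f d) : ∑ S ∈ dd P R, f (∏ l ∈ S, l) ≤ ∑ d ∈ Icc 1 R, f d := by
  rw [← sum_image (s := dd P R) (g := fun S => ∏ l ∈ S, l) (f := f) fun S hS T hT h => ?_]
  · refine sum_le_sum_of_subset_of_nonneg (fun d hd => ?_) fun d _ _ => hf d
    obtain ⟨S, hS, rfl⟩ := mem_image.1 hd
    exact mem_Icc.2
      ⟨prod_pos fun l hl => (hP l (subset_of_mem_dd hS hl)).pos, (mem_filter.mp hS).2⟩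
  · rw [← Nat.primeFactors_prod (s := S) fun l hl => hP l (subset_of_mem_dd hS hl),
      ← Nat.primeFactors_prod (s := T) fun l hl => hP l (subset_of_mem_dd hT hl)]
    exact congrArg _ h

end Pool.Agent.Lib.MP_778b46_nt.GL
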