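import Pool.Agent.Lib.MP_778b46_nt.GL.B1
import Pool.Agent.Lib.MP_778b46_nt.GL.A5
import Pool.Agent.Lib.MP_778b46_nt.GL.A4

/-!
The discrepancy in one class.
-/

set_option autoImplicit false

noncomputable section

namespace Pool.Agent.Lib.MP_778b46_nt.GL

open Finset MeasureTheory Filter
open Pool.Agent.Lib.MP_778b46_nt.MA (lp w1 a1S a1M cf cop R1 I0 RR)
open Pool.Agent.Lib.MP_778b46_nt.VA (ee nd)
open Pool.Agent.Lib.MP_778b46_nt.MA (Wg Fam bV muV er)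
open Pool.Agent.Lib.MP_c03ca8_nt.Q (prim)
open ArithmeticFunction (vonMangoldt)

theorem pw_nonneg (X : ℝ) (n : ℕ) : 0 ≤ pw X n := mul_nonneg (MA.lp_nonneg n) (sq_nonneg _)

theorem pw_zero {X : ℝ} (hX : 0 < X) {n : ℕ} (h : (n : ℝ) ≤ X / 4 ∨ X ≤ n) : pw X n = 0 := by
  have : w1 (n / X) = 0 := MA.wt_w1.supp _ (h.imp (fun h => by rw [div_le_iff₀ hX]; linarith)
    fun h => by rw [le_div_iff₀ hX]; linarith)
  rw [pw, this]
  simp

theorem b5_cop {X : ℝ} {d : ℕ} (hd : 1 ≤ d) (hX : (d : ℝ) ≤ X / 4) {n : ℕ} (hn : pw X n ≠ 0) :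
    Nat.Coprime n d := by
  have d1 : (1 : ℝ) ≤ d := by exact_mod_cast hd
  have h1 : X / 4 < n := not_le.1 fun h => hn (pw_zero (by linarith) (Or.inl h))
  have h2 : d < n := by exact_mod_cast hX.trans_lt h1
  have h3 : n.Prime := by
    by_contra h
    exact hn (by rw [pw, MA.lp, if_neg h, zero_mul])
  exact (Nat.Prime.coprime_iff_not_dvd h3).2 fun h => absurd (Nat.le_of_dvd hd h) (by omega)

theorem b5_res {d : ℕ} (hd : 1 ≤ d) {h : ℤ} (hc : IsCoprime h d) :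
    ∃ a : ℕ, Nat.Coprime a d ∧ ∀ n : ℕ, (d : ℤ) ∣ n + h ↔ n ≡ a [MOD d] := by
  have d0 : (d : ℤ) ≠ 0 := by omega
  obtain ⟨a, ha⟩ := Int.eq_ofNat_of_zero_le (Int.emod_nonneg (-h) d0)
  have e : (a : ℤ) = -h + d * -(-h / d) := by
    have := Int.emod_add_mul_ediv (-h) d
    rw [← ha]
    linarith
  refine ⟨a, Nat.isCoprime_iff_coprime.1 ?_, fun n => ?_⟩
  · rw [e]
    exact hc.neg_left.add_mul_left_left _
  · rw [Nat.modEq_iff_dvd, e, ← dvd_neg, ← dvd_add_left (dvd_mul_right (d : ℤ) (-(-h / d)))]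
    rw [show -((n : ℤ) + h) + d * -(-h / d) = -h + d * -(-h / d) - n by ring]

theorem b5_main {X : ℝ} {d a : ℕ} (hd : 1 ≤ d) (hX : (d : ℝ) ≤ X / 4) (ha : Nat.Coprime a d)
    (M : ℝ) : |∑ n ∈ (Icc 1 ⌊X⌋₊).filter (fun n : ℕ => n ≡ a [MOD d]), pw X n - M / Nat.totient d| ≤
      1 / (Nat.totient d : ℝ) * (|∑ n ∈ Icc 1 ⌊X⌋₊, pw X n - M| +
      ∑ c ∈ d.divisors.erase 1, ∑ ψ ∈ prim c, ‖∑ n ∈ Icc 1 ⌊X⌋₊, (pw X n : ℂ) * ψ n‖) := by
  classical
  have : NeZero d := ⟨by omega⟩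
  set T : (c : ℕ) → DirichletCharacter ℂ c → ℂ :=
    fun c ψ => ∑ n ∈ Icc 1 ⌊X⌋₊, (pw X n : ℂ) * ψ n with hT
  have hu : IsUnit (a : ZMod d) := (ZMod.isUnit_iff_coprime a d).2 ha
  have e1 : ((∑ n ∈ (Icc 1 ⌊X⌋₊).filter (fun n : ℕ => n ≡ a [MOD d]), pw X n : ℝ) : ℂ) =
      1 / (Nat.totient d : ℂ) * ∑ χ : DirichletCharacter ℂ d, χ (a : ZMod d)⁻¹ * T d χ := by
    rw [Complex.ofReal_sum, sum_filter]
    simp only [hT, mul_sum]
    rw [sum_comm]
    refine sum_congr rfl fun n _ => ?_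
    have := MP_c03ca8_nt.Q.char_orth hd ha n
    rw [mul_sum] at this
    calc (if n ≡ a [MOD d] then (pw X n : ℂ) else 0)
        = (pw X n : ℂ) * if n ≡ a [MOD d] then (1 : ℂ) else 0 := by split_ifs <;> simp
      _ = _ := by
        rw [this, mul_sum]
        exact sum_congr rfl fun χ _ => by ring
  have e2 : ∀ χ : DirichletCharacter ℂ d, T d χ = T χ.conductor χ.primitiveCharacter := fun χ => by
    refine sum_congr rfl fun n _ => ?_
    by_cases hn : pw X n = 0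
    · simp [hn]
    · rw [MP_c03ca8_nt.Q.char_eq_prim, if_pos (b5_cop hd hX hn)]
  have e3 : (1 : DirichletCharacter ℂ d) (a : ZMod d)⁻¹ * T d 1 =
      ((∑ n ∈ Icc 1 ⌊X⌋₊, pw X n : ℝ) : ℂ) := by
    have hv : IsUnit (a : ZMod d)⁻¹ := by
      obtain ⟨u, hu⟩ := hu
      rw [← hu, ZMod.inv_coe_unit]
      exact Units.isUnit _
    rw [MulChar.one_apply hv, one_mul, Complex.ofReal_sum]
    refine sum_congr rfl fun n _ => ?_
    by_cases hn : pw X n = 0
    · simp [hn]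
    · rw [MulChar.one_apply ((ZMod.isUnit_iff_coprime n d).2 (b5_cop hd hX hn)), mul_one]
  set g : (c : ℕ) → DirichletCharacter ℂ c → ℝ := fun c ψ => if c = 1 then 0 else ‖T c ψ‖ with hg
  have g0 : ∀ c ψ, 0 ≤ g c ψ := fun c ψ => by
    simp only [hg]
    split_ifs
    exacts [le_rfl, norm_nonneg _]
  have e4 : ‖∑ χ ∈ (univ : Finset (DirichletCharacter ℂ d)).erase 1, χ (a : ZMod d)⁻¹ * T d χ‖ ≤
      ∑ c ∈ d.divisors.erase 1, ∑ ψ ∈ prim c, ‖T c ψ‖ := by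
    calc _ ≤ ∑ χ ∈ (univ : Finset (DirichletCharacter ℂ d)).erase 1,
          g χ.conductor χ.primitiveCharacter := by
          refine norm_sum_le_of_le _ fun χ hχ => ?_
          have h1 : χ.conductor ≠ 1 := fun h =>
            (mem_erase.1 hχ).1 (χ.eq_one_iff_conductor_eq_one.2 h)
          simp only [hg, if_neg h1]
          rw [norm_mul, e2]
          exact mul_le_of_le_one_left (norm_nonneg _) (χ.norm_le_one _)
      _ ≤ ∑ χ : DirichletCharacter ℂ d, g χ.conductor χ.primitiveCharacter :=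
          sum_le_sum_of_subset_of_nonneg (erase_subset _ _) fun χ _ _ => g0 _ _
      _ ≤ ∑ c ∈ d.divisors, ∑ ψ ∈ prim c, g c ψ := MP_c03ca8_nt.Q.sum_char_le hd g g0
      _ = _ := by
          rw [← sum_erase (a := 1) _ (by simp [hg])]
          exact sum_congr rfl fun c hc => sum_congr rfl fun ψ _ => if_neg (mem_erase.1 hc).1
  rw [← add_sum_erase _ _ (mem_univ 1), e3] at e1
  rw [← Real.norm_eq_abs, ← Complex.norm_real, Complex.ofReal_sub, e1]
  have e5 : ∀ A B : ℂ, 1 / (Nat.totient d : ℂ) * (A + B) - ((M / Nat.totient d : ℝ) : ℂ) =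
      1 / (Nat.totient d : ℂ) * ((A - M) + B) := fun A B => by
    push_cast
    ring
  rw [e5, norm_mul, norm_div, norm_one, Complex.norm_natCast]
  refine mul_le_mul_of_nonneg_left ((norm_add_le _ _).trans (add_le_add ?_ e4)) (by positivity)
  rw [← Complex.ofReal_sub, Complex.norm_real, Real.norm_eq_abs]

theorem b5_card (N : ℕ) {d : ℕ} (h : ℤ) :
    ((Icc 1 N).filter (fun n : ℕ => (d : ℤ) ∣ n + h)).card ≤ N / d + 1 := by
  rw [← card_range (N / d + 1)]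
  refine card_le_card_of_injOn (fun n => n / d) (fun n hn => ?_) fun n hn m hm e => ?_
  · have := (mem_Icc.1 (mem_filter.1 (mem_coe.1 hn)).1).2
    exact mem_coe.2 (mem_range.2 (Nat.lt_succ_of_le (Nat.div_le_div_right this)))
  · have h1 := (mem_filter.1 (mem_coe.1 hn)).2
    have h2 := (mem_filter.1 (mem_coe.1 hm)).2
    have h3 : n ≡ m [MOD d] := Nat.modEq_iff_dvd.2 (by
      have := dvd_sub h2 h1
      rwa [add_sub_add_right_eq_sub] at this)
    have h4 : n / d = m / d := e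
    rw [← Nat.div_add_mod n d, ← Nat.div_add_mod m d, h4, show n % d = m % d from h3]

theorem ds_le {X : ℝ} {d : ℕ} (hd : 1 ≤ d) (hX : (d : ℝ) ≤ X / 4) (h : ℤ) :
    DS X d h ≤ 1 / (Nat.totient d : ℝ) * (|∑ n ∈ Icc 1 ⌊X⌋₊, pw X n - X * I2| +
      ∑ c ∈ d.divisors.erase 1, ∑ ψ ∈ prim c, ‖∑ n ∈ Icc 1 ⌊X⌋₊, (pw X n : ℂ) * ψ n‖) := by
  unfold DS
  split_ifs with hc
  · obtain ⟨a, ha, e⟩ := b5_res hd hc
    rw [filter_congr fun n _ => e n]
    exact b5_main hd hX ha _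
  · rw [sum_eq_zero, sub_zero, abs_zero]
    · positivity
    · intro n hn
      by_contra h0
      obtain ⟨k, hk⟩ := (mem_filter.1 hn).2
      have h1 := Nat.isCoprime_iff_coprime.2 (b5_cop hd hX h0)
      refine hc ?_
      rw [show h = -n + d * k by linarith]
      exact h1.neg_left.add_mul_left_left _

theorem ds_triv {X : ℝ} {d : ℕ} (hd : 1 ≤ d) (hX : (d : ℝ) ≤ X) (h : ℤ) :
    DS X d h ≤ 2 * (1 + Real.log X) * X / Nat.totient d := by
  have d1 : (1 : ℝ) ≤ d := by exact_mod_cast hd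
  have X1 : 1 ≤ X := d1.trans hX
  have l0 := Real.log_nonneg X1
  have t0 : (0 : ℝ) < Nat.totient d := by exact_mod_cast Nat.totient_pos.2 hd
  have t1 : (Nat.totient d : ℝ) ≤ d := by exact_mod_cast Nat.totient_le d
  set A := (Icc 1 ⌊X⌋₊).filter (fun n : ℕ => (d : ℤ) ∣ n + h) with hA
  have c1 : (A.card : ℝ) ≤ 2 * (X / Nat.totient d) := by
    have a1 : (A.card : ℝ) ≤ (⌊X⌋₊ / d : ℕ) + 1 := by exact_mod_cast b5_card ⌊X⌋₊ h
    have a2 : ((⌊X⌋₊ / d : ℕ) : ℝ) ≤ X / d :=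
      Nat.cast_div_le.trans (div_le_div_of_nonneg_right (Nat.floor_le (by linarith)) (by linarith))
    have a3 : 1 ≤ X / d := (one_le_div (by linarith)).2 hX
    have a4 : X / d ≤ X / Nat.totient d := div_le_div_of_nonneg_left (by linarith) t0 t1
    linarith
  have s1 : ∑ n ∈ A, pw X n ≤ A.card * Real.log X := by
    rw [← nsmul_eq_mul]
    refine sum_le_card_nsmul _ _ _ fun n hn => ?_
    obtain ⟨n1, n2⟩ := mem_Icc.1 (mem_filter.1 hn).1
    have n3 : (0 : ℝ) < n := by exact_mod_cast n1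
    have n4 : Real.log n ≤ Real.log X :=
      Real.log_le_log n3 ((Nat.le_floor_iff (by linarith)).1 n2)
    have n5 : MA.lp n ≤ Real.log X := by
      unfold MA.lp
      split_ifs
      exacts [n4, l0]
    have n6 : w1 (n / X) ^ 2 ≤ 1 := pow_le_one₀ (MA.w1_mem _).1 (MA.w1_mem _).2
    exact (mul_le_of_le_one_right (MA.lp_nonneg n) n6).trans n5
  have s0 : 0 ≤ ∑ n ∈ A, pw X n := sum_nonneg fun n _ => pw_nonneg X n
  have s2 := mul_le_mul_of_nonneg_right c1 l0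
  have q0 : 0 ≤ X / Nat.totient d := by positivity
  have m : 0 ≤ (if IsCoprime h d then X * I2 / Nat.totient d else 0) ∧
      (if IsCoprime h d then X * I2 / Nat.totient d else 0) ≤ X / Nat.totient d := by
    obtain ⟨i1, i2⟩ := i2_mem
    split_ifs
    · refine ⟨div_nonneg (mul_nonneg (by linarith) (by linarith)) t0.le, ?_⟩
      exact div_le_div_of_nonneg_right (mul_le_of_le_one_right (by linarith) i2) t0.le
    · exact ⟨le_rfl, q0⟩
  have q1 := mul_nonneg q0 l0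
  rw [mul_div_assoc]
  unfold DS
  rw [abs_le]
  constructor <;> nlinarith [m.1, m.2]

theorem b5_copb (B : Finset ℕ) (hB : ∀ l ∈ B, l.Prime) :
    (B : Set ℕ).Pairwise (Function.onFun IsCoprime fun l : ℕ => (l : ℤ)) := fun a ha b hb hab =>
  Nat.isCoprime_iff_coprime.2 ((Nat.coprime_primes (hB a ha) (hB b hb)).2 hab)

theorem b5_ind (B : Finset ℕ) (hB : ∀ l ∈ B, l.Prime) (m : ℤ) (β : ℕ → ℝ) :
    (∏ l ∈ B, if (l : ℤ) ∣ m then β l else 0) =
      (∏ l ∈ B, β l) * if ((∏ l ∈ B, l : ℕ) : ℤ) ∣ m then 1 else 0 := by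
  rw [Nat.cast_prod]
  split_ifs with h
  · rw [mul_one]
    exact prod_congr rfl fun l hl => if_pos ((dvd_prod_of_mem _ hl).trans h)
  · rw [mul_zero]
    by_contra h1
    refine h (Finset.prod_dvd_of_coprime (b5_copb B hB) fun l hl => ?_)
    by_contra h2
    exact h1 (prod_eq_zero hl (if_neg h2))

theorem b5_mainb (B : Finset ℕ) (hB : ∀ l ∈ B, l.Prime) (h : ℤ) (β : ℕ → ℝ) :
    (∏ l ∈ B, if (l : ℤ) ∣ h then 0 else β l * uu l) = (∏ l ∈ B, β l) *
      if IsCoprime h ((∏ l ∈ B, l : ℕ) : ℤ) then 1 / (Nat.totient (∏ l ∈ B, l) : ℝ) else 0 := by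
  have e : ∀ l ∈ B, (IsCoprime h (l : ℤ) ↔ ¬ (l : ℤ) ∣ h) := fun l hl => by
    rw [isCoprime_comm]
    exact (Nat.prime_iff_prime_int.1 (hB l hl)).coprime_iff_not_dvd
  split_ifs with h0
  · rw [Nat.cast_prod, IsCoprime.prod_right_iff] at h0
    rw [prod_congr rfl fun l hl => if_neg ((e l hl).1 (h0 l hl)), prod_mul_distrib,
      eq_one_div_of_mul_eq_one_right (tot_prod B hB)]
  · rw [Nat.cast_prod, IsCoprime.prod_right_iff] at h0
    rw [mul_zero]
    by_contra h1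
    refine h0 fun l hl => (e l hl).2 fun h2 => h1 (prod_eq_zero hl (if_pos h2))

theorem eq_prod (X : ℝ) (h : ℤ) (U : Finset ℕ) (hU : ∀ l ∈ U, l.Prime) (α β : ℕ → ℝ) :
    |∑ n ∈ Icc 1 ⌊X⌋₊, pw X n * ∏ l ∈ U, (α l + if (l : ℤ) ∣ n + h then β l else 0) -
      X * I2 * ∏ l ∈ U, (α l + if (l : ℤ) ∣ h then 0 else β l * uu l)| ≤
      ∑ B ∈ U.powerset, (∏ l ∈ U \ B, |α l|) * (∏ l ∈ B, |β l|) * DS X (∏ l ∈ B, l) h := by
  simp only [add_comm (α _), Finset.prod_add, Finset.mul_sum]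
  rw [Finset.sum_comm, ← Finset.sum_sub_distrib]
  refine (Finset.abs_sum_le_sum_abs _ _).trans (le_of_eq (sum_congr rfl fun B hB => ?_))
  have hB' : ∀ l ∈ B, l.Prime := fun l hl => hU l (mem_powerset.1 hB hl)
  rw [b5_mainb B hB', DS, ← Finset.abs_prod, ← Finset.abs_prod, ← abs_mul, ← abs_mul, sum_filter,
    mul_sub, Finset.mul_sum]
  congr 2
  · refine sum_congr rfl fun n _ => ?_
    rw [b5_ind B hB']
    split_ifs <;> ring
  · split_ifs <;> ring

end Pool.Agent.Lib.MP_778b46_nt.GL
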