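import Pool.Agent.Lib.MP_778b46_nt.GL.Zo
import Pool.Agent.Lib.MP_03e5d0_nt.TFt

set_option autoImplicit false

noncomputable section

namespace Pool.Agent.Lib.MP_778b46_nt.GL

open Complex Finset Filter
open scoped Real
open Pool.Agent.Lib.MP_778b46_nt.MA
open Pool.Agent.Lib.MP_778b46_nt.GX (DC Lp cd ord lam pr)

open MeasureTheory in
theorem zs_main : ∃ K : ℝ, ∀ (X Y e : ℝ) (f : ℕ → ℂ), 0 ≤ X → 0 < Y → |e| ≤ 1 →
    (∀ n, ‖f n‖ ≤ 1) → (∀ y : ℝ, |y| ≤ Y → ‖SS X f y - e * X * MM w1 y 1‖ ≤ X / Y) →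
      ‖∑ n ∈ Icc 1 ⌊X⌋₊, ((lp n * w1 (n / X) ^ 2 : ℝ) : ℂ) * f n -
        ((e * X * ∫ x : ℝ, w1 x ^ 2 : ℝ) : ℂ)‖ ≤ K * (X / Y) := by
  obtain ⟨B, hW⟩ := MP_03e5d0_nt.exists_sm (W := fun x => (w1 x : ℂ)) (a := 1 / 4) (b := 1) 0
    (ofRealCLM.contDiff.comp wt_w1.smooth) fun y hy => by
      rw [wt_w1.supp y (hy.imp le_of_lt le_of_lt), ofReal_zero]
  have hi : Integrable fun x => (w1 x : ℂ) := by simpa using MP_03e5d0_nt.tft_int hW 0
  have hv := hW.inv
  have h2 := hW.ft_integrable 1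
  have h1 : Integrable (MP_03e5d0_nt.ft fun x => (w1 x : ℂ)) := by
    have := hW.ft_integrable 0
    simp only [pow_zero, mul_one] at this
    exact (integrable_norm_iff hW.ft_cont.aestronglyMeasurable).mp this
  generalize (MP_03e5d0_nt.ft fun x => (w1 x : ℂ)) = F at hv h1 h2
  have m1 : ∀ t, MM w1 t 1 = ∫ x : ℝ, (w1 x : ℂ) * MP_03e5d0_nt.ex t x := fun t => by
    simp [MM, gs]
  obtain ⟨C, hC⟩ : ∃ C : ℝ, C = ∫ x : ℝ, ‖(w1 x : ℂ)‖ := ⟨_, rfl⟩
  have C0 : 0 ≤ C := hC ▸ integral_nonneg fun _ => norm_nonneg _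
  have m2 : ∀ t, ‖MM w1 t 1‖ ≤ C := fun t => by
    rw [m1, hC]
    refine (norm_integral_le_integral_norm _).trans (le_of_eq ?_)
    simp only [norm_mul, MP_03e5d0_nt.norm_ex, mul_one]
  have p1 : Integrable (Function.uncurry fun t x : ℝ => F t * ((w1 x : ℂ) * MP_03e5d0_nt.ex t x))
      (volume.prod volume) :=
    ((h1.mul_prod hi).mul_bdd (c := 1) MP_03e5d0_nt.continuous_ex.aestronglyMeasurable
      (ae_of_all _ fun z => (MP_03e5d0_nt.norm_ex _ _).le)).congr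
        (ae_of_all _ fun z => mul_assoc _ _ _)
  have p2 : Integrable fun t => F t * MM w1 t 1 := by
    simpa only [Function.uncurry, integral_const_mul, m1] using p1.integral_prod_left
  have p3 : ∫ t, F t * MM w1 t 1 = ((∫ x : ℝ, w1 x ^ 2 : ℝ) : ℂ) := by
    simp only [m1, ← integral_const_mul]
    rw [integral_integral_swap p1, ← integral_complex_ofReal]
    refine integral_congr_ae (ae_of_all _ fun x => ?_)
    simp only [mul_left_comm (F _), integral_const_mul, ← hv x]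
    push_cast
    ring
  have p4 : ∀ (c : ℂ) (y : ℝ), Integrable fun t => F t * (c * MP_03e5d0_nt.ex t y) := fun c y =>
    h1.mul_bdd (c := ‖c‖) (by
      refine Continuous.aestronglyMeasurable ?_
      unfold MP_03e5d0_nt.ex
      fun_prop) (ae_of_all _ fun t => by rw [norm_mul, MP_03e5d0_nt.norm_ex, mul_one])
  refine ⟨(∫ t, ‖F t‖ * (1 + |t|) ^ 1) * (3 + C), fun X Y e f hX hY he hf h => ?_⟩
  have q1 : Integrable fun t => F t * SS X f t := by
    simp only [SS, mul_sum]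
    exact integrable_finsetSum _ fun n _ => p4 _ _
  have q2 : ∫ t, F t * SS X f t =
      ∑ n ∈ Icc 1 ⌊X⌋₊, ((lp n * w1 (n / X) ^ 2 : ℝ) : ℂ) * f n := by
    simp only [SS, mul_sum]
    rw [integral_finsetSum _ fun n _ => p4 _ _]
    refine sum_congr rfl fun n _ => ?_
    simp only [mul_left_comm (F _), integral_const_mul, ← hv (n / X)]
    push_cast
    ring
  have q3 : ((e * X * ∫ x : ℝ, w1 x ^ 2 : ℝ) : ℂ) = ∫ t, e * X * (F t * MM w1 t 1) := by
    rw [integral_const_mul, p3]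
    push_cast
    rfl
  rw [← q2, q3, ← integral_sub q1 (p2.const_mul _), mul_assoc, ← integral_mul_const]
  refine norm_integral_le_of_norm_le (h2.mul_const _) (ae_of_all _ fun t => ?_)
  rw [mul_left_comm _ (F t), ← mul_sub, norm_mul, mul_assoc ‖F t‖, pow_one]
  refine mul_le_mul_of_nonneg_left ?_ (norm_nonneg _)
  have z0 : 0 ≤ X / Y := by positivity
  have z1 := abs_nonneg t
  by_cases a : |t| ≤ Y
  · refine (h t a).trans ?_
    have := mul_nonneg z1 (mul_nonneg (show 0 ≤ 3 + C by linarith) z0)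
    have := mul_nonneg C0 z0
    linarith
  · have b1 : ‖(e : ℂ) * X * MM w1 t 1‖ ≤ 1 * X * C := by
      rw [norm_mul, norm_mul, norm_real, norm_real, Real.norm_of_nonneg hX]
      exact mul_le_mul (mul_le_mul_of_nonneg_right he hX) (m2 t) (norm_nonneg _) (by positivity)
    have b2 := (norm_sub_le _ _).trans (add_le_add (norm_SS_le hX hf t) b1)
    have b3 : X ≤ |t| * (X / Y) := by
      rw [← mul_div_assoc, le_div_iff₀ hY, mul_comm]
      exact mul_le_mul_of_nonneg_right (not_le.1 a).le hX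
    have b4 := mul_le_mul_of_nonneg_left b3 (show 0 ≤ 3 + C by linarith)
    have b5 := mul_nonneg (show 0 ≤ 3 + C by linarith) z0
    linarith

/-- The theorem of Siegel and Walfisz for the weight `w1 ^ 2`. -/
theorem sw_sq (A : ℕ) : ∀ᶠ X : ℝ in atTop, ∀ (q : ℕ) [NeZero q] (χ : DC q),
    (q : ℝ) ≤ X / 4 → cd χ ≤ Real.log X ^ A →
      ‖∑ n ∈ Icc 1 ⌊X⌋₊, ((lp n * w1 (n / X) ^ 2 : ℝ) : ℂ) * cf χ n -
        ((s1e χ * X * ∫ x : ℝ, w1 x ^ 2 : ℝ) : ℂ)‖ ≤ X / Real.log X ^ A := by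
  obtain ⟨K, hK⟩ := zs_main
  filter_upwards [sw_ss (A + 1), eventually_ge_atTop (0 : ℝ),
    Real.tendsto_log_atTop.eventually_ge_atTop (max K 1)] with X h X0 hl
  intro q _ χ hq hc
  have l1 : 1 ≤ Real.log X := (le_max_right _ _).trans hl
  have l0 : 0 < Real.log X := by linarith
  refine (hK X _ (s1e χ) (cf χ) X0 (pow_pos l0 (A + 1)) ?_ (norm_cf χ) fun y hy =>
    h q χ y hq (hc.trans (pow_le_pow_right₀ l1 A.le_succ)) hy).trans ?_
  · rw [s1e]
    split_ifs <;> simp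
  · refine (mul_le_mul_of_nonneg_right ((le_max_left _ _).trans hl) (by positivity)).trans
      (le_of_eq ?_)
    field_simp
    ring

end Pool.Agent.Lib.MP_778b46_nt.GL
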