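import Pool.Agent.Lib.MP_778b46_nt.GL.B4
import Pool.Agent.Lib.MP_778b46_nt.GL.B5
import Pool.Agent.Lib.MP_778b46_nt.GL.Zs

/-!
The theorem of Bombieri and Vinogradov.
-/

set_option autoImplicit false

noncomputable section

namespace Pool.Agent.Lib.MP_778b46_nt.GL

open Finset MeasureTheory Filter
open Pool.Agent.Lib.MP_778b46_nt.MA (lp w1 a1S a1M cf cop R1 I0 RR)
open Pool.Agent.Lib.MP_778b46_nt.VA (ee nd)
open Pool.Agent.Lib.MP_778b46_nt.MA (Wg Fam bV muV er)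
open Pool.Agent.Lib.MP_c03ca8_nt.Q (prim)
open ArithmeticFunction (vonMangoldt)

theorem pnt (A : ℕ) : ∀ᶠ X : ℝ in atTop,
    |∑ n ∈ Icc 1 ⌊X⌋₊, pw X n - X * I2| ≤ X / Real.log X ^ A := by
  filter_upwards [sw_sq A, eventually_ge_atTop 4,
    Real.tendsto_log_atTop.eventually_ge_atTop 1] with X h h4 hL
  have h1 := h 1 1 (by push_cast; linarith) (by
    rw [GX.cd, DirichletCharacter.conductor_one, Nat.cast_one]
    exact one_le_pow₀ hL)
  have e : ∀ n : ℕ, cf (1 : DirichletCharacter ℂ 1) n = 1 := fun n => by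
    rw [cf, Subsingleton.elim (n : ZMod 1) 1, map_one]
  simp only [e, mul_one, MA.s1e, if_true, one_mul] at h1
  rw [← Complex.ofReal_sum, ← Complex.ofReal_sub, Complex.norm_real, Real.norm_eq_abs] at h1
  exact h1

theorem b6_split (Q : ℕ) (C0 : ℝ) (T : (c : ℕ) → DirichletCharacter ℂ c → ℂ) :
    BQ Q 1 T ≤ BQ Q C0 T + BQ (min Q ⌊C0⌋₊) 1 T := by
  have nn : ∀ c : ℕ, 0 ≤ 1 / (Nat.totient c : ℝ) * ∑ ψ ∈ prim c, ‖T c ψ‖ := fun c =>
    mul_nonneg (by positivity) (sum_nonneg fun _ _ => norm_nonneg _)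
  unfold BQ
  rw [← sum_filter_add_sum_filter_not _ (fun c : ℕ => C0 < (c : ℝ))]
  refine add_le_add (sum_le_sum_of_subset_of_nonneg (fun c hc => ?_) fun c _ _ => nn c)
    (sum_le_sum_of_subset_of_nonneg (fun c hc => ?_) fun c _ _ => nn c)
  · simp only [mem_filter] at hc ⊢
    exact ⟨hc.1.1, hc.2⟩
  · simp only [mem_filter, mem_Icc, not_lt] at hc ⊢
    exact ⟨⟨hc.1.1.1, le_min hc.1.1.2 (Nat.le_floor hc.2)⟩, hc.1.2⟩

theorem b6_swap (Q : ℕ) (T : (c : ℕ) → DirichletCharacter ℂ c → ℂ) :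
    ∑ d ∈ Icc 1 Q, 1 / (Nat.totient d : ℝ) * ∑ c ∈ d.divisors.erase 1, ∑ ψ ∈ prim c, ‖T c ψ‖ ≤
      BQ Q 1 T * ∑ e ∈ Icc 1 Q, 1 / (Nat.totient e : ℝ) := by
  simp only [mul_sum]
  rw [sum_comm' (t' := (Icc 1 Q).filter (fun c : ℕ => (1 : ℝ) < (c : ℝ)))
    (s' := fun c => (Icc 1 Q).filter (fun d => c ∣ d))]
  · rw [← mul_sum, BQ, sum_mul]
    refine sum_le_sum fun c hc => ?_
    simp only [mem_filter, mem_Icc] at hc
    have c0 : 0 < c := hc.1.1
    simp only [← mul_sum]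
    rw [← sum_mul, mul_right_comm]
    refine mul_le_mul_of_nonneg_right ?_ (sum_nonneg fun _ _ => norm_nonneg _)
    calc ∑ d ∈ (Icc 1 Q).filter (fun d => c ∣ d), 1 / (Nat.totient d : ℝ)
        ≤ ∑ d ∈ (Icc 1 Q).filter (fun d => c ∣ d),
          1 / (Nat.totient c : ℝ) * (1 / (Nat.totient (d / c) : ℝ)) := by
          refine sum_le_sum fun d hd => ?_
          simp only [mem_filter, mem_Icc] at hd
          obtain ⟨⟨d1, _⟩, e, rfl⟩ := hd
          have e0 : 0 < e := Nat.pos_of_mul_pos_left d1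
          rw [Nat.mul_div_cancel_left _ c0, div_mul_div_comm, one_mul]
          refine one_div_le_one_div_of_le (mul_pos (Nat.cast_pos.2 (Nat.totient_pos.2 c0))
            (Nat.cast_pos.2 (Nat.totient_pos.2 e0))) ?_
          exact_mod_cast Nat.totient_super_multiplicative c e
      _ ≤ _ := by
          rw [← mul_sum]
          refine mul_le_mul_of_nonneg_left ?_ (by positivity)
          rw [← sum_image (f := fun e : ℕ => 1 / (Nat.totient e : ℝ)) (g := fun d => d / c)]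
          · refine sum_le_sum_of_subset_of_nonneg (fun e he => ?_) fun _ _ _ => by positivity
            simp only [mem_image, mem_filter, mem_Icc] at he ⊢
            obtain ⟨d, ⟨⟨d1, d2⟩, h⟩, rfl⟩ := he
            exact ⟨Nat.div_pos (Nat.le_of_dvd d1 h) c0, (Nat.div_le_self _ _).trans d2⟩
          · intro d hd d' hd' h
            simp only [coe_filter, Set.mem_ofPred_eq] at hd hd' h
            rw [← Nat.mul_div_cancel' hd.2, ← Nat.mul_div_cancel' hd'.2, h]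
  · intro d c
    simp only [mem_filter, mem_Icc, mem_erase, Nat.mem_divisors, Nat.one_lt_cast]
    constructor
    · rintro ⟨⟨d1, d2⟩, c1, h, _⟩
      have := Nat.pos_of_dvd_of_pos h d1
      have := Nat.le_of_dvd d1 h
      exact ⟨⟨⟨d1, d2⟩, h⟩, ⟨by omega, by omega⟩, by omega⟩
    · rintro ⟨⟨⟨d1, d2⟩, h⟩, _, c1⟩
      exact ⟨⟨d1, d2⟩, by omega, h, by omega⟩

theorem bv {κ : ℝ} (hκ : 0 < κ) (A : ℕ) : ∀ᶠ X : ℝ in atTop, ∀ (Q : ℕ) (h : ℤ),
    (Q : ℝ) ≤ X ^ (1 / 2 - κ) → ∑ d ∈ Icc 1 Q, DS X d h ≤ X / Real.log X ^ A := by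
  obtain ⟨K, hK⟩ := wg_sq
  obtain ⟨B, hB⟩ := bvl hK hκ (A + 3)
  filter_upwards [hB, pnt (A + 3), sw_sq (A + 3 + B), eventually_ge_atTop 16,
    Real.tendsto_log_atTop.eventually_ge_atTop 12] with X h1 h2 h3 hX hL Q h hQ
  have X0 : 0 < X := by linarith
  have hQ4 : (Q : ℝ) ≤ X / 4 := by
    have a : X ^ (1 / 2 - κ) ≤ X ^ (1 / 2 : ℝ) :=
      Real.rpow_le_rpow_of_exponent_le (by linarith) (by linarith)
    rw [← Real.sqrt_eq_rpow] at a
    have b : √X ≤ X / 4 := Real.sqrt_le_iff.2 ⟨by linarith, by nlinarith⟩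
    linarith
  set L := Real.log X with hLd
  have L0 : 0 < L := by linarith
  set T : (c : ℕ) → DirichletCharacter ℂ c → ℂ :=
    fun _ ψ => ∑ n ∈ Icc 1 ⌊X⌋₊, (pw X n : ℂ) * ψ n with hT
  have b1 : BQ Q (L ^ B) T ≤ X / L ^ (A + 3) := by
    have e : T = fun _ ψ => ∑ n ∈ Ioc 0 ⌊X⌋₊, ((w1 (n / X) ^ 2 : ℝ) : ℂ) * ((lp n : ℂ) * ψ n) := by
      funext c ψ
      refine sum_congr (by ext n; simp only [mem_Icc, mem_Ioc]; omega) fun n _ => ?_
      rw [pw]
      push_cast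
      ring
    rw [e]
    exact h1 Q hQ
  have b2 : BQ (min Q ⌊L ^ B⌋₊) 1 T ≤ X / L ^ (A + 3) := by
    have m1 : ((min Q ⌊L ^ B⌋₊ : ℕ) : ℝ) ≤ L ^ B :=
      (Nat.cast_le.2 (min_le_right _ _)).trans (Nat.floor_le (by positivity))
    refine (bq_pt (B := X / L ^ (A + 3 + B)) le_rfl (by positivity) fun c c2 cQ ψ hψ => ?_).trans ?_
    · have : NeZero c := ⟨by omega⟩
      have hp : ψ.conductor = c := by simpa [prim, DirichletCharacter.isPrimitive_def] using hψ
      have n1 : ψ ≠ 1 := fun e => by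
        rw [e, DirichletCharacter.conductor_one] at hp
        omega
      have := h3 c ψ ((Nat.cast_le.2 (cQ.trans (min_le_left _ _))).trans hQ4) (by
        rw [GX.cd, hp]
        exact ((Nat.cast_le.2 cQ).trans m1).trans (pow_le_pow_right₀ (by linarith) (by omega)))
      simp only [MA.s1e, if_neg n1, zero_mul, Complex.ofReal_zero, sub_zero] at this
      exact this
    · calc _ ≤ L ^ B * (X / L ^ (A + 3 + B)) := mul_le_mul_of_nonneg_right m1 (by positivity)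
        _ = _ := by rw [pow_add L (A + 3)]; field_simp
  have b3 := b6_split Q (L ^ B) T
  have b4 := b6_swap Q T
  have b5 : ∑ e ∈ Icc 1 Q, 1 / (Nat.totient e : ℝ) ≤ 4 * L ^ 2 := by
    refine (inv_tot Q).trans ?_
    have l0 : 0 ≤ Real.log Q := Real.log_natCast_nonneg Q
    have l1 : Real.log Q ≤ L := by
      rcases Nat.eq_zero_or_pos Q with rfl | q0
      · simpa using L0.le
      · exact Real.log_le_log (Nat.cast_pos.2 q0) (by linarith)
    nlinarith
  have s0 : 0 ≤ ∑ e ∈ Icc 1 Q, 1 / (Nat.totient e : ℝ) := sum_nonneg fun _ _ => by positivity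
  have y0 : 0 ≤ X / L ^ (A + 3) := by positivity
  calc ∑ d ∈ Icc 1 Q, DS X d h
      ≤ ∑ d ∈ Icc 1 Q, (1 / (Nat.totient d : ℝ) * (X / L ^ (A + 3)) + 1 / (Nat.totient d : ℝ) *
        ∑ c ∈ d.divisors.erase 1, ∑ ψ ∈ prim c, ‖T c ψ‖) := by
        refine sum_le_sum fun d hd => ?_
        rw [mem_Icc] at hd
        refine (ds_le hd.1 ((Nat.cast_le.2 hd.2).trans hQ4) h).trans ?_
        rw [← mul_add]
        exact mul_le_mul_of_nonneg_left (add_le_add h2 le_rfl) (by positivity)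
    _ ≤ 4 * L ^ 2 * (X / L ^ (A + 3)) + 2 * (X / L ^ (A + 3)) * (4 * L ^ 2) := by
        rw [sum_add_distrib, ← sum_mul]
        exact add_le_add (mul_le_mul_of_nonneg_right b5 y0)
          (b4.trans (mul_le_mul (by linarith) b5 s0 (by positivity)))
    _ = 12 / L * (X / L ^ A) := by rw [pow_add]; field_simp; ring
    _ ≤ _ := mul_le_of_le_one_left (by positivity) ((div_le_one L0).2 hL)

end Pool.Agent.Lib.MP_778b46_nt.GL
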