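import Pool.Agent.Lib.MP_778b46_nt.GL.Defs

/-!
Averages over powers of two: linearity and monotonicity.
-/

set_option autoImplicit false

noncomputable section

namespace Pool.Agent.Lib.MP_778b46_nt.GL

open Finset MeasureTheory Filter
open Pool.Agent.Lib.MP_778b46_nt.MA (lp w1 a1S a1M cf cop R1 I0 RR)
open Pool.Agent.Lib.MP_778b46_nt.VA (ee nd)

theorem a1_succ (L k : ℕ) (f : ℤ → ℝ) (N : ℤ) :
    (av L)^[k + 1] f N = (L : ℝ)⁻¹ * ∑ j ∈ range L, (av L)^[k] f (N - 2 ^ (j + 5)) := by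
  rw [Function.iterate_succ_apply']
  rfl

theorem a1_pow_le {L j : ℕ} (h : j < L) : (2 : ℤ) ^ (j + 5) ≤ 2 ^ (L + 4) :=
  pow_le_pow_right₀ (by norm_num) (by omega)

theorem a1_two_dvd (j : ℕ) : (2 : ℤ) ∣ 2 ^ (j + 5) := dvd_pow_self 2 (by omega)

theorem avk_add (L k : ℕ) (f g : ℤ → ℝ) (N : ℤ) :
    (av L)^[k] (fun m => f m + g m) N = (av L)^[k] f N + (av L)^[k] g N := by
  induction k generalizing N with
  | zero => rfl
  | succ k ih =>
    simp only [a1_succ, ih, sum_add_distrib, mul_add]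

theorem avk_mul (L k : ℕ) (c : ℝ) (f : ℤ → ℝ) (N : ℤ) :
    (av L)^[k] (fun m => c * f m) N = c * (av L)^[k] f N := by
  induction k generalizing N with
  | zero => rfl
  | succ k ih =>
    simp only [a1_succ, ih, ← mul_sum]
    ring

theorem avk_sum {ι : Type} (L k : ℕ) (s : Finset ι) (f : ι → ℤ → ℝ) (N : ℤ) :
    (av L)^[k] (fun m => ∑ i ∈ s, f i m) N = ∑ i ∈ s, (av L)^[k] (f i) N := by
  induction k generalizing N with
  | zero => rfl
  | succ k ih =>
    simp only [a1_succ, ih]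
    rw [sum_comm, mul_sum]

theorem avk_const {L : ℕ} (hL : 1 ≤ L) (k : ℕ) (c : ℝ) (N : ℤ) :
    (av L)^[k] (fun _ => c) N = c := by
  have h0 : (L : ℝ) ≠ 0 := by
    have : L ≠ 0 := by omega
    exact_mod_cast this
  induction k generalizing N with
  | zero => rfl
  | succ k ih =>
    simp only [a1_succ, ih, sum_const, card_range, nsmul_eq_mul]
    field_simp

theorem avk_le (L k : ℕ) {f g : ℤ → ℝ} {N : ℤ}
    (h : ∀ m : ℤ, N - k * 2 ^ (L + 4) ≤ m → m ≤ N → 2 ∣ N - m → f m ≤ g m) :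
    (av L)^[k] f N ≤ (av L)^[k] g N := by
  induction k generalizing N with
  | zero => exact h N (by simp) le_rfl (by simp)
  | succ k ih =>
    rw [a1_succ, a1_succ]
    refine mul_le_mul_of_nonneg_left (sum_le_sum fun j hj => ih fun m h1 h2 h3 => ?_)
      (by positivity)
    have hp := a1_pow_le (mem_range.1 hj)
    have hq : (0 : ℤ) < 2 ^ (j + 5) := by positivity
    refine h m ?_ (by linarith) ?_
    · push_cast
      linarith
    · have e : N - m = (N - 2 ^ (j + 5) - m) + 2 ^ (j + 5) := by ring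
      rw [e]
      exact dvd_add h3 (a1_two_dvd j)

theorem avk_zero (L k : ℕ) {f : ℤ → ℝ} {N : ℤ}
    (h : ∀ a : Fin k → ℕ, (∀ i, 5 ≤ a i) → f (N - ∑ i, 2 ^ a i) = 0) : (av L)^[k] f N = 0 := by
  induction k generalizing N with
  | zero => simpa using h (fun i => i.elim0) (fun i => i.elim0)
  | succ k ih =>
    rw [a1_succ, sum_eq_zero, mul_zero]
    intro j _
    refine ih fun a ha => ?_
    have h1 := h (Fin.cons (j + 5) a) (fun i => by
      refine Fin.cases ?_ (fun i => ?_) i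
      · simp
      · simpa using ha i)
    rw [Fin.sum_univ_succ] at h1
    simp only [Fin.cons_zero, Fin.cons_succ] at h1
    rw [sub_sub]
    exact h1

theorem da_sum {ι : Type} (L : ℕ) (s : Finset ι) (f : ι → ℤ → ℝ) (N : ℤ) :
    DA L (fun m => ∑ i ∈ s, f i m) N = ∑ i ∈ s, DA L (f i) N := by
  unfold DA
  rw [avk_sum, avk_sum, sum_sub_distrib, ← mul_sum, ← mul_sum]

theorem da_mul (L : ℕ) (c : ℝ) (f : ℤ → ℝ) (N : ℤ) :
    DA L (fun m => c * f m) N = c * DA L f N := by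
  unfold DA
  rw [avk_mul, avk_mul]
  ring

theorem a1_abs (L k : ℕ) (f g : ℤ → ℝ) (N : ℤ) :
    |(av L)^[k] f N - (av L)^[k] g N| ≤ (av L)^[k] (fun m => |f m - g m|) N := by
  rw [abs_le]
  constructor
  · have h1 : (av L)^[k] g N ≤ (av L)^[k] (fun m => f m + |f m - g m|) N :=
      avk_le L k fun m _ _ _ => by linarith [neg_abs_le (f m - g m)]
    rw [avk_add] at h1
    linarith
  · have h1 : (av L)^[k] f N ≤ (av L)^[k] (fun m => g m + |f m - g m|) N :=
      avk_le L k fun m _ _ _ => by linarith [le_abs_self (f m - g m)]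
    rw [avk_add] at h1
    linarith

theorem da_le {L : ℕ} (hL : 1 ≤ L) {f g : ℤ → ℝ} {N : ℤ} {ε : ℝ}
    (h : ∀ m : ℤ, N - 5 * 2 ^ (L + 4) ≤ m → m ≤ N → 2 ∣ N - m →
      av L (fun m => |f m - g m|) m ≤ ε) : |DA L f N - DA L g N| ≤ 4 * ε := by
  have hp : (0 : ℤ) < 2 ^ (L + 4) := by positivity
  have h6 : |(av L)^[6] f N - (av L)^[6] g N| ≤ ε := by
    refine (a1_abs L 6 f g N).trans ?_
    rw [show (6 : ℕ) = 5 + 1 from rfl, Function.iterate_succ_apply, ← avk_const hL 5 ε N]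
    exact avk_le L 5 fun m h1 h2 h3 => h m (by exact_mod_cast h1) h2 h3
  have h5 : |(av L)^[5] f N - (av L)^[5] g N| ≤ ε := by
    refine (a1_abs L 5 f g N).trans ?_
    rw [show (5 : ℕ) = 4 + 1 from rfl, Function.iterate_succ_apply, ← avk_const hL 4 ε N]
    refine avk_le L 4 fun m h1 h2 h3 => h m ?_ h2 h3
    push_cast at h1
    linarith
  unfold DA
  rw [abs_le] at h5 h6 ⊢
  constructor <;> linarith [h5.1, h5.2, h6.1, h6.2]

theorem av_le (L : ℕ) {f g : ℤ → ℝ} {N : ℤ}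
    (h : ∀ j < L, f (N - 2 ^ (j + 5)) ≤ g (N - 2 ^ (j + 5))) : av L f N ≤ av L g N :=   mul_le_mul_of_nonneg_left (sum_le_sum fun j hj => h j (mem_range.1 hj)) (by positivity)

theorem pav_add (L : ℕ) (f g : ℤ → ℝ) : pav L (fun m => f m + g m) = pav L f + pav L g := by
  unfold pav av
  simp only [sum_add_distrib, mul_add]

theorem pav_mul (L : ℕ) (c : ℝ) (f : ℤ → ℝ) : pav L (fun m => c * f m) = c * pav L f := by
  have h : ∀ N, av L (fun m => c * f m) N = c * av L f N := fun N => avk_mul L 1 c f N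
  unfold pav
  simp only [h, ← mul_sum]
  ring

theorem pav_sum {ι : Type} (L : ℕ) (s : Finset ι) (f : ι → ℤ → ℝ) :
    pav L (fun m => ∑ i ∈ s, f i m) = ∑ i ∈ s, pav L (f i) := by
  have h : ∀ N, av L (fun m => ∑ i ∈ s, f i m) N = ∑ i ∈ s, av L (f i) N :=
    fun N => avk_sum L 1 s f N
  unfold pav
  simp only [h]
  rw [sum_comm, mul_sum]

theorem pav_const {L : ℕ} (hL : 1 ≤ L) (c : ℝ) : pav L (fun _ => c) = c := by
  have h : ∀ N, av L (fun _ => c) N = c := fun N => avk_const hL 1 c N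
  have h0 : (L : ℝ) ≠ 0 := by
    have : L ≠ 0 := by omega
    exact_mod_cast this
  unfold pav
  simp only [h, sum_const, card_range, nsmul_eq_mul]
  field_simp

theorem pav_le (L : ℕ) {f g : ℤ → ℝ}
    (h : ∀ m : ℤ, Even m → |m| ≤ 2 ^ (L + 4) → f m ≤ g m) : pav L f ≤ pav L g := by
  unfold pav
  refine mul_le_mul_of_nonneg_left (sum_le_sum fun i hi => av_le L fun j hj => h _ ?_ ?_)
    (by positivity)
  · exact (even_iff_two_dvd.2 (a1_two_dvd i)).sub (even_iff_two_dvd.2 (a1_two_dvd j))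
  · have h1 := a1_pow_le (mem_range.1 hi)
    have h2 := a1_pow_le hj
    have h3 : (0 : ℤ) < 2 ^ (i + 5) := by positivity
    have h4 : (0 : ℤ) < 2 ^ (j + 5) := by positivity
    rw [abs_le]
    constructor <;> linarith

theorem pav_le_of_av {L : ℕ} (hL : 1 ≤ L) {f : ℤ → ℝ} {ε : ℝ}
    (h : ∀ i < L, av L f (2 ^ (i + 5)) ≤ ε) : pav L f ≤ ε := by
  have h0 : (0 : ℝ) < L := by exact_mod_cast hL
  have h1 : ∑ i ∈ range L, av L f (2 ^ (i + 5)) ≤ L * ε := by
    have := sum_le_card_nsmul (range L) (fun i => av L f (2 ^ (i + 5))) ε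
      fun i hi => h i (mem_range.1 hi)
    simpa using this
  unfold pav
  rw [inv_mul_le_iff₀ h0]
  exact h1

theorem pav_delta {L : ℕ} (hL : 1 ≤ L) (c : ℝ) :
    pav L (fun m => if m = 0 then c else 0) = c / L := by
  have h0 : (L : ℝ) ≠ 0 := by
    have : L ≠ 0 := by omega
    exact_mod_cast this
  have h1 : ∀ i ∈ range L, av L (fun m => if m = 0 then c else 0) (2 ^ (i + 5)) = c / L := by
    intro i hi
    unfold av
    have e : ∀ j ∈ range L, (if (2 : ℤ) ^ (i + 5) - 2 ^ (j + 5) = 0 then c else 0) =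
        if i = j then c else 0 := by
      intro j _
      have : ((2 : ℤ) ^ (i + 5) - 2 ^ (j + 5) = 0) ↔ i = j := by
        rw [sub_eq_zero, pow_right_inj₀ (by norm_num) (by norm_num)]
        omega
      simp only [this]
    rw [sum_congr rfl e, sum_ite_eq, if_pos hi]
    field_simp
  unfold pav
  rw [sum_congr rfl h1, sum_const, card_range, nsmul_eq_mul]
  field_simp

end Pool.Agent.Lib.MP_778b46_nt.GL
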