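import Pool.Agent.Lib.MP_778b46_nt.GL.Defs

/-!
Averages over powers of two on the Fourier side.
-/

set_option autoImplicit false

noncomputable section

namespace Pool.Agent.Lib.MP_778b46_nt.GL

open Finset MeasureTheory Filter
open Pool.Agent.Lib.MP_778b46_nt.MA (lp w1 a1S a1M cf cop R1 I0 RR)
open Pool.Agent.Lib.MP_778b46_nt.VA (ee nd)

theorem zz_cont (L : ℕ) : Continuous (zz L) := by
  unfold zz GE
  refine Continuous.div_const ?_ _
  exact continuous_finsetSum _ fun j _ =>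
    VA.continuous_ee.comp (continuous_const.mul continuous_id)

theorem norm_zz_le (L : ℕ) (x : ℝ) : ‖zz L x‖ ≤ 1 := by
  unfold zz GE
  rw [norm_div, Complex.norm_natCast]
  refine div_le_one_of_le₀ ((norm_sum_le _ _).trans ?_) (Nat.cast_nonneg _)
  simp [VA.norm_ee]

theorem a2_toep (L : ℕ) (e : ℕ → ℂ) (z : ℂ) (hn : ∀ j, ‖e j‖ = 1)
    (hs : ∀ j, e j ^ 2 = e (j + 1)) (hz : ∑ j ∈ range L, e j = L * z) :
    L * (‖z‖ * ‖1 - z‖) ≤ L * (1 - ‖z‖ ^ 2) + 2 := by
  have h1 : ∑ j ∈ range L, e (j + 1) = L * z + (e L - e 0) := by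
    have a := sum_range_succ e L
    have b := sum_range_succ' e L
    rw [← hz]
    linear_combination a - b
  have h2 : ∑ j ∈ range L, (e j - z) ^ 2 = L * (z * (1 - z)) + (e L - e 0) := by
    have : ∀ j ∈ range L, (e j - z) ^ 2 = e (j + 1) - 2 * z * e j + z ^ 2 := by
      intro j _
      rw [← hs]
      ring
    rw [sum_congr rfl this, sum_add_distrib, sum_sub_distrib, ← mul_sum, h1, hz]
    simp only [sum_const, card_range, nsmul_eq_mul]
    ring
  have h3 : ∑ j ∈ range L, ‖e j - z‖ ^ 2 = L * (1 - ‖z‖ ^ 2) := by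
    have hc : ∀ j ∈ range L, ((‖e j - z‖ ^ 2 : ℝ) : ℂ) =
        1 - (starRingEnd ℂ) z * e j - z * (starRingEnd ℂ) (e j) + z * (starRingEnd ℂ) z := by
      intro j _
      have a := Complex.mul_conj' (e j - z)
      have b := Complex.mul_conj' (e j)
      rw [hn] at b
      rw [map_sub] at a
      push_cast at a b ⊢
      linear_combination b - a
    have hz' : ∑ j ∈ range L, (starRingEnd ℂ) (e j) = L * (starRingEnd ℂ) z := by
      rw [← map_sum, hz, map_mul, map_natCast]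
    have c := Complex.mul_conj' z
    apply Complex.ofReal_injective
    rw [Complex.ofReal_sum, sum_congr rfl hc, sum_add_distrib, sum_sub_distrib, sum_sub_distrib,
      ← mul_sum, ← mul_sum, hz, hz']
    simp only [sum_const, card_range, nsmul_eq_mul]
    push_cast
    linear_combination (-(L : ℂ)) * c
  have h4 : ‖∑ j ∈ range L, (e j - z) ^ 2‖ ≤ L * (1 - ‖z‖ ^ 2) := by
    rw [← h3]
    exact (norm_sum_le _ _).trans (le_of_eq (sum_congr rfl fun j _ => norm_pow _ _))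
  have h5 : ‖e L - e 0‖ ≤ 2 := by
    have := norm_sub_le (e L) (e 0)
    rw [hn, hn] at this
    linarith
  have h6 : (L : ℂ) * (z * (1 - z)) = ∑ j ∈ range L, (e j - z) ^ 2 - (e L - e 0) := by
    rw [h2]
    ring
  have h7 := norm_sub_le (∑ j ∈ range L, (e j - z) ^ 2) (e L - e 0)
  rw [← h6, norm_mul, norm_mul, Complex.norm_natCast] at h7
  linarith

theorem zz_toep {L : ℕ} (hL : 1 ≤ L) (x : ℝ) :
    ‖zz L x‖ * ‖1 - zz L x‖ ≤ 1 - ‖zz L x‖ ^ 2 + 2 / L := by
  have hL0 : (0 : ℝ) < L := by exact_mod_cast hL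
  have hLc : (L : ℂ) ≠ 0 := by exact_mod_cast hL0.ne'
  have h := a2_toep L (fun j => ee (2 ^ (j + 5) * x)) (zz L x) (fun j => VA.norm_ee _)
    (fun j => by
      rw [sq, ← VA.ee_add]
      congr 1
      ring)
    (by
      unfold zz GE
      rw [mul_div_cancel₀ _ hLc])
  have e : 1 - ‖zz L x‖ ^ 2 + 2 / (L : ℝ) = (L * (1 - ‖zz L x‖ ^ 2) + 2) / L := by
    field_simp
  rw [e, le_div_iff₀ hL0]
  linarith

theorem pq_le {L : ℕ} (hL : 1 ≤ L) (x : ℝ) : ‖Pq (zz L x)‖ ≤ 1 + 3 / L := by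
  have h1 := zz_toep hL x
  have h2 := norm_zz_le L x
  have hL0 : (0 : ℝ) < L := by exact_mod_cast hL
  generalize zz L x = z at h1 h2 ⊢
  have e : Pq z = z ^ 4 - 3 / 2 * (z ^ 2 * (z * (1 - z))) := by
    unfold Pq
    ring
  have h3 := norm_sub_le (z ^ 4) (3 / 2 * (z ^ 2 * (z * (1 - z))))
  have e2 : ‖(3 / 2 : ℂ)‖ = 3 / 2 := by simp
  rw [← e, norm_mul, norm_mul, norm_mul, norm_pow, norm_pow, e2] at h3
  have h0 := norm_nonneg z
  have hs : ‖z‖ ^ 2 ≤ 1 := by nlinarith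
  have hs0 : 0 ≤ ‖z‖ ^ 2 := sq_nonneg _
  have h4 := mul_le_mul_of_nonneg_left h1 hs0
  have hd : (0 : ℝ) ≤ 2 / L := by positivity
  have h5 := mul_le_mul_of_nonneg_right hs hd
  have e3 : (3 : ℝ) / L = 3 / 2 * (2 / L) := by ring
  have e4 : ‖z‖ ^ 4 = ‖z‖ ^ 2 * ‖z‖ ^ 2 := by ring
  rw [e3]
  rw [e4] at h3
  generalize ‖z‖ ^ 2 = s at *
  nlinarith [mul_nonneg (sub_nonneg.2 hs) (sub_nonneg.2 hs)]

theorem a2b_shift (F : ℝ → ℂ) (N : ℤ) (j : ℕ) (x : ℝ) :
    F x * ee (-(((N - 2 ^ (j + 5) : ℤ) : ℝ) * x)) =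
      F x * ee (2 ^ (j + 5) * x) * ee (-((N : ℝ) * x)) := by
  rw [mul_assoc, ← VA.ee_add]
  congr 2
  push_cast
  ring

theorem av_fc (L : ℕ) {F : ℝ → ℂ} (hF : Continuous F) :
    av L (FC F) = FC fun x => F x * zz L x := by
  have hce := VA.continuous_ee
  funext N
  have e : ∀ x : ℝ, F x * zz L x * ee (-((N : ℝ) * x)) = (((L : ℝ)⁻¹ : ℝ) : ℂ) *
      ∑ j ∈ range L, F x * ee (2 ^ (j + 5) * x) * ee (-((N : ℝ) * x)) := by
    intro x
    rw [← sum_mul, ← mul_sum, zz, GE]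
    push_cast
    ring
  simp only [av, FC, a2b_shift, e]
  rw [intervalIntegral.integral_const_mul, Complex.re_ofReal_mul,
    intervalIntegral.integral_finsetSum fun m _ => Continuous.intervalIntegrable (by fun_prop) _ _,
    Complex.re_sum]

theorem a2b_iter (L k : ℕ) {F : ℝ → ℂ} (hF : Continuous F) :
    (av L)^[k] (FC F) = FC fun x => F x * zz L x ^ k := by
  have hz := zz_cont L
  induction k with
  | zero => simp
  | succ k ih =>
    rw [Function.iterate_succ_apply', ih, av_fc L (by fun_prop)]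
    simp only [pow_succ, mul_assoc]

theorem da_fc (L : ℕ) {F : ℝ → ℂ} (hF : Continuous F) (N : ℤ) :
    DA L (FC F) N = FC (fun x => F x * (zz L x ^ 2 * Pq (zz L x))) N := by
  have hce := VA.continuous_ee
  have hz := zz_cont L
  have e : ∀ x : ℝ, F x * (zz L x ^ 2 * Pq (zz L x)) * ee (-((N : ℝ) * x)) =
      ((5 / 2 : ℝ) : ℂ) * (F x * zz L x ^ 6 * ee (-((N : ℝ) * x))) -
        ((3 / 2 : ℝ) : ℂ) * (F x * zz L x ^ 5 * ee (-((N : ℝ) * x))) := by
    intro x
    rw [Pq]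
    push_cast
    ring
  rw [DA, a2b_iter L 6 hF, a2b_iter L 5 hF]
  simp only [FC, e]
  rw [intervalIntegral.integral_sub (Continuous.intervalIntegrable (by fun_prop) _ _)
    (Continuous.intervalIntegrable (by fun_prop) _ _), intervalIntegral.integral_const_mul,
    intervalIntegral.integral_const_mul, Complex.sub_re, Complex.re_ofReal_mul,
    Complex.re_ofReal_mul]

theorem pav_fc (L : ℕ) {f : ℝ → ℝ} (hf : Continuous f) :
    pav L (FC fun x => (f x : ℂ)) = ∫ x in (0 : ℝ)..1, f x * ‖zz L x‖ ^ 2 := by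
  have hce := VA.continuous_ee
  have hz := zz_cont L
  have e : ∀ x : ℝ, ((f x * ‖zz L x‖ ^ 2 : ℝ) : ℂ) = (((L : ℝ)⁻¹ : ℝ) : ℂ) *
      ∑ i ∈ range L, (f x : ℂ) * zz L x * ee (-((((2 : ℤ) ^ (i + 5) : ℤ) : ℝ) * x)) := by
    intro x
    have h1 : ∑ i ∈ range L, ee (-((((2 : ℤ) ^ (i + 5) : ℤ) : ℝ) * x)) =
        (starRingEnd ℂ) (GE L x) := by
      rw [GE, map_sum]
      refine sum_congr rfl fun i _ => ?_
      rw [VA.conj_ee]
      push_cast
      rfl
    have h2 : (starRingEnd ℂ) (zz L x) = (starRingEnd ℂ) (GE L x) / L := by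
      rw [zz, map_div₀, Complex.conj_natCast]
    rw [← mul_sum, h1, Complex.ofReal_mul, Complex.ofReal_pow, ← Complex.mul_conj', h2]
    push_cast
    ring
  rw [pav, av_fc L (by fun_prop), ← Complex.ofReal_re (∫ x in (0 : ℝ)..1, f x * ‖zz L x‖ ^ 2),
    ← intervalIntegral.integral_ofReal]
  simp only [FC, e]
  rw [intervalIntegral.integral_const_mul, Complex.re_ofReal_mul,
    intervalIntegral.integral_finsetSum fun m _ => Continuous.intervalIntegrable (by fun_prop) _ _,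
    Complex.re_sum]

theorem a2b_pick (K : ℕ) (u : ℕ → ℝ) (hu : ∀ n, K < n → u n = 0) (k : ℕ) {n : ℕ}
    (hn : n ∈ Icc 1 K) :
    ∑ m ∈ Icc 1 K, u n * u m * (if m = n + k then 1 else 0) = u n * u (n + k) := by
  simp only [mul_ite, mul_one, mul_zero]
  rw [sum_ite_eq']
  split_ifs with h
  · rfl
  · rw [mem_Icc] at h hn
    rw [hu (n + k) (by omega), mul_zero]

theorem fc_corr (K : ℕ) (u : ℕ → ℝ) (hu : ∀ n, K < n → u n = 0) (h : ℤ) :
    FC (fun x => ((‖∑ n ∈ Icc 1 K, (u n : ℂ) * ee (n * x)‖ ^ 2 : ℝ) : ℂ)) h =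
      ∑ n ∈ Icc 1 K, u n * u (n + h.natAbs) := by
  have hce := VA.continuous_ee
  have e : ∀ x : ℝ, ((‖∑ n ∈ Icc 1 K, (u n : ℂ) * ee (n * x)‖ ^ 2 : ℝ) : ℂ) * ee (-((h : ℝ) * x)) =
      ∑ n ∈ Icc 1 K, ∑ m ∈ Icc 1 K, ((u n * u m : ℝ) : ℂ) * ee (((m : ℤ) - n - h : ℤ) * x) := by
    intro x
    rw [Complex.ofReal_pow, ← Complex.conj_mul', map_sum, sum_mul_sum, sum_mul]
    refine sum_congr rfl fun n _ => ?_
    rw [sum_mul]
    refine sum_congr rfl fun m _ => ?_
    have : (((m : ℤ) - n - h : ℤ) : ℝ) * x = -(n * x) + m * x + -(h * x) := by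
      push_cast
      ring
    rw [map_mul, VA.conj_ee, this, VA.ee_add, VA.ee_add, Complex.conj_ofReal]
    push_cast
    ring
  have e2 : FC (fun x => ((‖∑ n ∈ Icc 1 K, (u n : ℂ) * ee (n * x)‖ ^ 2 : ℝ) : ℂ)) h =
      ∑ n ∈ Icc 1 K, ∑ m ∈ Icc 1 K, u n * u m * if (m : ℤ) - n - h = 0 then 1 else 0 := by
    simp only [FC, e]
    rw [intervalIntegral.integral_finsetSum fun m _ =>
      Continuous.intervalIntegrable (by fun_prop) _ _, Complex.re_sum]
    refine sum_congr rfl fun n _ => ?_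
    rw [intervalIntegral.integral_finsetSum fun m _ =>
      Continuous.intervalIntegrable (by fun_prop) _ _, Complex.re_sum]
    refine sum_congr rfl fun m _ => ?_
    rw [intervalIntegral.integral_const_mul, VA.ee_orth, Complex.re_ofReal_mul]
    split_ifs <;> simp
  rw [e2]
  rcases le_total 0 h with h0 | h0
  · refine sum_congr rfl fun n hn => ?_
    rw [← a2b_pick K u hu h.natAbs hn]
    refine sum_congr rfl fun m _ => ?_
    have : (m : ℤ) - n - h = 0 ↔ m = n + h.natAbs := by omega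
    simp only [this]
  · rw [sum_comm]
    refine sum_congr rfl fun n hn => ?_
    rw [← a2b_pick K u hu h.natAbs hn]
    refine sum_congr rfl fun m _ => ?_
    have : (n : ℤ) - m - h = 0 ↔ m = n + h.natAbs := by omega
    simp only [this, mul_comm (u m)]

end Pool.Agent.Lib.MP_778b46_nt.GL
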