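import Pool.Agent.Lib.MP_778b46_nt.GL.A1
import Pool.Agent.Lib.MP_778b46_nt.GL.A2

/-!
No representation means that the weighted integral vanishes.
-/

set_option autoImplicit false

noncomputable section

namespace Pool.Agent.Lib.MP_778b46_nt.GL

open Finset MeasureTheory Filter
open Pool.Agent.Lib.MP_778b46_nt.MA (lp w1 a1S a1M cf cop R1 I0 RR)
open Pool.Agent.Lib.MP_778b46_nt.VA (ee nd)

theorem rep_six {N : ℕ} (h : Rep 5 5 N) : Rep 6 1 N := by
  obtain ⟨p, q, hp, hq, a, ha, hN⟩ := h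
  refine ⟨p, q, hp, hq, ![a 0 - 1, a 0 - 1, a 1, a 2, a 3, a 4], fun i => ?_, ?_⟩
  · have h0 := ha 0
    have h1 := ha 1
    have h2 := ha 2
    have h3 := ha 3
    have h4 := ha 4
    fin_cases i <;> simp <;> omega
  · have h0 := ha 0
    have e : 2 ^ a 0 = 2 ^ (a 0 - 1) + 2 ^ (a 0 - 1) := by
      rw [← two_mul, ← pow_succ']
      congr 1
      omega
    rw [hN, Fin.sum_univ_five, Fin.sum_univ_six, e]
    simp

theorem a1M_cont (X P H : ℝ) : Continuous (a1M X P H) :=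
  continuous_finsetSum _ fun ω _ => (MA.a1K_cont X _).comp (by fun_prop)

theorem fc_rep {X : ℝ} (hX : 0 < X) {m : ℤ} (h : FC (fun x => a1S X x * a1S X x) m ≠ 0) :
    ∃ p q : ℕ, p.Prime ∧ q.Prime ∧ m = p + q := by
  have hce := VA.continuous_ee
  have e : ∀ x : ℝ, a1S X x * a1S X x * ee (-(m * x)) = ∑ p ∈ Icc 1 ⌊X⌋₊ ×ˢ Icc 1 ⌊X⌋₊,
      ((MA.a1f X p.1 * MA.a1f X p.2 : ℝ) : ℂ) * ee (((p.1 + p.2 - m : ℤ) : ℝ) * x) := by
    intro x
    rw [a1S, sum_mul_sum, ← sum_product', sum_mul]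
    refine sum_congr rfl fun p _ => ?_
    have : ((p.1 + p.2 - m : ℤ) : ℝ) * x = p.1 * x + p.2 * x + -(m * x) := by
      push_cast
      ring
    rw [this, VA.ee_add, VA.ee_add]
    push_cast
    ring
  have hpr : ∀ n : ℕ, MA.a1f X n ≠ 0 → n.Prime := by
    intro n hn
    by_contra hc
    apply hn
    rw [MA.a1f, MA.lp, if_neg hc, zero_mul]
  by_contra hc
  apply h
  unfold FC
  simp only [e]
  rw [intervalIntegral.integral_finsetSum fun p _ =>
    Continuous.intervalIntegrable (by fun_prop) _ _]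
  simp only [intervalIntegral.integral_const_mul, VA.ee_orth, mul_ite, mul_one, mul_zero]
  rw [sum_eq_zero, Complex.zero_re]
  intro p _
  split_ifs with h1
  · by_contra h2
    rw [Complex.ofReal_eq_zero] at h2
    exact hc ⟨p.1, p.2, hpr _ (left_ne_zero_of_mul h2), hpr _ (right_ne_zero_of_mul h2),
      by omega⟩
  · rfl

theorem a3_zero {X : ℝ} (hX : 0 < X) (L k : ℕ) {N : ℕ} (h : ¬ Rep k 5 N) :
    (av L)^[k] (FC fun x => a1S X x * a1S X x) N = 0 := by
  refine avk_zero L k fun a ha => ?_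
  by_contra hc
  obtain ⟨p, q, hp, hq, e⟩ := fc_rep hX hc
  refine h ⟨p, q, hp, hq, a, ha, ?_⟩
  have : (N : ℤ) = p + q + ∑ i, 2 ^ a i := by linarith
  exact_mod_cast this

theorem da_zero {X : ℝ} (hX : 0 < X) (L : ℕ) {N : ℕ} (h : ¬ Rep 6 1 N) :
    DA L (FC fun x => a1S X x * a1S X x) N = 0 := by
  have h6 : ¬ Rep 6 5 N := fun ⟨p, q, hp, hq, a, ha, e⟩ =>
    h ⟨p, q, hp, hq, a, fun i => le_trans (by norm_num) (ha i), e⟩
  rw [DA, a3_zero hX L 6 h6, a3_zero hX L 5 fun h5 => h (rep_six h5)]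
  norm_num

theorem fc_major {X P H : ℝ} (hP : 1 ≤ P) (hPH : P ≤ H) (hX : P * H ≤ X) (m : ℕ) :
    FC (fun x => (a1M X P H x : ℂ) * (a1S X x * a1S X x)) m = (R1 X P H m).re := by
  have c1 := VA.continuous_ee
  have c2 := MA.a1S_cont X
  have c3 := MA.a1K_cont X
  have e1 : R1 X P H m = ∫ x in (0 : ℝ)..1,
      (a1M X P H x : ℂ) * (a1S X x * a1S X x * ee (-(m * x))) := by
    simp only [a1M, Complex.ofReal_sum, sum_mul]
    rw [intervalIntegral.integral_finsetSum fun ω _ => Continuous.intervalIntegrable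
      (by have := c3 (H / ω.1); fun_prop) _ _, VA.frs, sum_sigma, R1, mul_sum]
    refine sum_congr rfl fun q hq => ?_
    rw [mul_sum]
    have hq' : (1 : ℝ) ≤ q := by exact_mod_cast (mem_Icc.1 hq).1
    exact sum_congr rfl fun c _ => MA.a1_arc (div_pos (by linarith) (by linarith))
      ((div_le_self (by linarith) hq').trans (by nlinarith)) q c m
  rw [e1, FC]
  simp only [Int.cast_natCast, mul_assoc]

theorem major_le {X : ℝ} (hX : 0 < X) (P H : ℝ) (L : ℕ) {N : ℕ} (h : ¬ Rep 6 1 N) :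
    DA L (FC fun x => (a1M X P H x : ℂ) * (a1S X x * a1S X x)) N ≤
      ∫ x in (0 : ℝ)..1, |1 - a1M X P H x| * ‖a1S X x‖ ^ 2 *
        (‖zz L x‖ ^ 2 * ‖Pq (zz L x)‖) := by
  have c1 := VA.continuous_ee
  have c2 := MA.a1S_cont X
  have c3 := a1M_cont X P H
  have c4 := zz_cont L
  have c5 : Continuous fun x => Pq (zz L x) := by
    unfold Pq
    fun_prop
  have h0 := da_zero hX L h
  rw [da_fc L (by fun_prop)] at h0 ⊢
  have h1 : FC (fun x => (a1M X P H x : ℂ) * (a1S X x * a1S X x) * (zz L x ^ 2 * Pq (zz L x))) N =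
      FC (fun x => a1S X x * a1S X x * (zz L x ^ 2 * Pq (zz L x))) N +
        (∫ x in (0 : ℝ)..1, ((a1M X P H x - 1 : ℝ) : ℂ) * (a1S X x * a1S X x) *
          (zz L x ^ 2 * Pq (zz L x)) * ee (-(((N : ℤ) : ℝ) * x))).re := by
    unfold FC
    rw [← Complex.add_re, ← intervalIntegral.integral_add
      (Continuous.intervalIntegrable (by fun_prop) _ _)
      (Continuous.intervalIntegrable (by fun_prop) _ _)]
    congr 1
    refine intervalIntegral.integral_congr fun x _ => ?_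
    simp only
    push_cast
    ring
  rw [h1, h0, zero_add]
  refine (Complex.re_le_norm _).trans ?_
  refine intervalIntegral.norm_integral_le_of_norm_le (by norm_num)
    (Filter.Eventually.of_forall fun x _ => ?_) (Continuous.intervalIntegrable (by fun_prop) _ _)
  rw [norm_mul, norm_mul, norm_mul, norm_mul, norm_mul, VA.norm_ee, mul_one, Complex.norm_real,
    Real.norm_eq_abs, abs_sub_comm, norm_pow, ← sq]

end Pool.Agent.Lib.MP_778b46_nt.GL
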