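import Pool.Agent.Lib.MP_778b46_nt.GL.Defs
import Pool.Agent.Lib.MP_778b46_nt.MA.LVd
import Pool.Agent.Lib.MP_c03ca8_nt.Q.LSBil
import Pool.Agent.Lib.MP_c03ca8_nt.Q.Char

/-!
Tools for the theorem of Bombieri and Vinogradov.
-/

set_option autoImplicit false

noncomputable section

namespace Pool.Agent.Lib.MP_778b46_nt.GL

open Finset MeasureTheory Filter
open Pool.Agent.Lib.MP_778b46_nt.MA (lp w1 a1S a1M cf cop R1 I0 RR)
open Pool.Agent.Lib.MP_778b46_nt.VA (ee nd)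
open Pool.Agent.Lib.MP_778b46_nt.MA (Wg Fam bV muV er)
open Pool.Agent.Lib.MP_c03ca8_nt.Q (prim)
open ArithmeticFunction (vonMangoldt)

/-- The weighted sum over the primitive characters of conductor in `(C0, Q]`. -/
def BQ (Q : ℕ) (C0 : ℝ) (T : (c : ℕ) → DirichletCharacter ℂ c → ℂ) : ℝ :=
  ∑ c ∈ (Icc 1 Q).filter (fun c : ℕ => C0 < (c : ℝ)), 1 / (Nat.totient c : ℝ) *
    ∑ ψ ∈ prim c, ‖T c ψ‖

theorem b1_harm (k N : ℕ) :
    ∑ n ∈ Icc 1 N, (n.divisors.card : ℝ) ^ k / n ≤ (1 + Real.log N) ^ 2 ^ k := by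
  induction k with
  | zero =>
    have h := harmonic_le_one_add_log N
    simp only [harmonic_eq_sum_Icc, Rat.cast_sum, Rat.cast_inv, Rat.cast_natCast] at h
    simpa only [pow_zero, pow_one, one_div] using h
  | succ k ih =>
    let F : ArithmeticFunction ℝ := ⟨fun n => (n.divisors.card : ℝ) ^ k / n, by simp⟩
    have F0 : ∀ n, 0 ≤ F n := fun n => by
      change 0 ≤ (n.divisors.card : ℝ) ^ k / n
      positivity
    have h1 : ∀ n : ℕ, (n.divisors.card : ℝ) ^ (k + 1) / n ≤ (F * F) n := fun n => by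
      rw [ArithmeticFunction.mul_apply, pow_succ', mul_div_assoc, ← MA.card_anti, ← nsmul_eq_mul]
      refine card_nsmul_le_sum _ _ _ fun x hx => ?_
      have e := (Nat.mem_divisorsAntidiagonal.1 hx).1
      have h2 : (n.divisors.card : ℝ) ≤ x.1.divisors.card * x.2.divisors.card := by
        rw [← e, Nat.divisors_mul]
        exact_mod_cast card_mul_le
      change _ ≤ (x.1.divisors.card : ℝ) ^ k / x.1 * ((x.2.divisors.card : ℝ) ^ k / x.2)
      rw [MA.card_anti, div_mul_div_comm, ← mul_pow, ← Nat.cast_mul x.1, e]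
      gcongr
    refine (sum_le_sum fun n _ => h1 n).trans ?_
    change ∑ n ∈ Ioc 0 N, (F * F) n ≤ _
    rw [ArithmeticFunction.sum_Ioc_mul_eq_sum_prod_filter]
    refine (sum_le_sum_of_subset_of_nonneg (filter_subset _ _)
      fun x _ _ => mul_nonneg (F0 _) (F0 _)).trans ?_
    rw [sum_product' (f := fun a b => F a * F b), ← sum_mul_sum, pow_succ, pow_mul, sq]
    exact mul_self_le_mul_self (sum_nonneg fun n _ => F0 n) ih

theorem tau_mom (k : ℕ) : ∃ a : ℕ, ∀ x : ℕ, 1 ≤ x →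
    ∑ n ∈ Icc 1 x, (n.divisors.card : ℝ) ^ k ≤ x * (1 + Real.log x) ^ a := by
  refine ⟨2 ^ k, fun x _ => le_trans ?_ (mul_le_mul_of_nonneg_left (b1_harm k x) x.cast_nonneg)⟩
  rw [mul_sum]
  refine sum_le_sum fun n hn => ?_
  obtain ⟨h1, h2⟩ := mem_Icc.1 hn
  have h3 : (0 : ℝ) < n := by exact_mod_cast h1
  have h4 : (n : ℝ) ≤ x := by exact_mod_cast h2
  rw [← mul_div_assoc, le_div_iff₀ h3, mul_comm]
  gcongr

theorem inv_tot (Q : ℕ) : ∑ d ∈ Icc 1 Q, 1 / (Nat.totient d : ℝ) ≤ (1 + Real.log Q) ^ 2 := by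
  refine le_trans (sum_le_sum fun g hg => ?_) (b1_harm 1 Q)
  have hg0 : 0 < g := (mem_Icc.1 hg).1
  have h1 : g ≤ g.divisors.card * Nat.totient g := by
    conv_lhs => rw [← Nat.sum_totient g]
    exact (sum_le_card_nsmul _ _ _ fun e he => Nat.le_of_dvd (Nat.totient_pos.2 hg0)
      (Nat.totient_dvd_of_dvd (Nat.dvd_of_mem_divisors he))).trans (le_of_eq (smul_eq_mul _ _))
  rw [pow_one, div_le_div_iff₀ (by exact_mod_cast Nat.totient_pos.2 hg0) (by exact_mod_cast hg0),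
    one_mul]
  exact_mod_cast h1

theorem bq_le_sum {ι : Type} (Q : ℕ) (C0 : ℝ) (s : Finset ι)
    (T : (c : ℕ) → DirichletCharacter ℂ c → ℂ) (T' : ι → (c : ℕ) → DirichletCharacter ℂ c → ℂ)
    (h : ∀ c ψ, ‖T c ψ‖ ≤ ∑ i ∈ s, ‖T' i c ψ‖) : BQ Q C0 T ≤ ∑ i ∈ s, BQ Q C0 (T' i) := by
  unfold BQ
  rw [sum_comm]
  refine sum_le_sum fun c _ => ?_
  rw [← mul_sum, sum_comm]
  exact mul_le_mul_of_nonneg_left (sum_le_sum fun ψ _ => h c ψ) (by positivity)

theorem b1_card_prim {c : ℕ} (hc : 1 ≤ c) : (prim c).card ≤ Nat.totient c := by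
  classical
  have : NeZero c := ⟨by omega⟩
  have h1 : (prim c).card ≤ Fintype.card (DirichletCharacter ℂ c) := Finset.card_le_univ _
  have h2 := DirichletCharacter.card_eq_totient_of_hasEnoughRootsOfUnity ℂ c
  rw [Nat.card_eq_fintype_card] at h2
  omega

theorem bq_pt {Q : ℕ} {C0 B : ℝ} (hC : 1 ≤ C0) (hB : 0 ≤ B)
    {T : (c : ℕ) → DirichletCharacter ℂ c → ℂ}
    (h : ∀ c, 2 ≤ c → c ≤ Q → ∀ ψ ∈ prim c, ‖T c ψ‖ ≤ B) : BQ Q C0 T ≤ Q * B := by
  unfold BQ
  refine (sum_le_card_nsmul _ _ B fun c hc => ?_).trans ?_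
  · obtain ⟨k1, k2⟩ := mem_filter.1 hc
    obtain ⟨k3, k4⟩ := mem_Icc.1 k1
    have k5 : 1 < c := by exact_mod_cast hC.trans_lt k2
    have k6 : (0 : ℝ) < Nat.totient c := by exact_mod_cast Nat.totient_pos.2 k3
    have k7 := sum_le_card_nsmul _ _ B (h c k5 k4)
    have k8 : ((prim c).card : ℝ) ≤ Nat.totient c := by exact_mod_cast b1_card_prim k3
    rw [nsmul_eq_mul] at k7
    rw [one_div, inv_mul_le_iff₀ k6]
    exact k7.trans (mul_le_mul_of_nonneg_right k8 hB)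
  · rw [nsmul_eq_mul]
    refine mul_le_mul_of_nonneg_right ?_ hB
    have := card_filter_le (Icc 1 Q) fun c : ℕ => C0 < (c : ℝ)
    rw [Nat.card_Icc] at this
    exact_mod_cast this.trans (by omega)

theorem fam_one {c Q : ℕ} (hc : 2 ≤ c) (hQ : c ≤ Q) {ψ : DirichletCharacter ℂ c}
    (hψ : ψ ∈ prim c) : Fam ({()} : Finset Unit) (fun _ n => ψ n) (fun _ => 0) (Real.exp 40) 1
      (2 * (√Q * (1 + Real.log Q))) := by
  have : NeZero c := ⟨by omega⟩
  have hp : ψ.IsPrimitive := by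
    classical
    simpa [prim] using hψ
  have h1 : ψ ≠ 1 := by
    rintro rfl
    have k := (DirichletCharacter.isPrimitive_def _).1 hp
    rw [DirichletCharacter.conductor_one] at k
    omega
  have c1 : (1 : ℝ) ≤ c := by exact_mod_cast (by omega : 1 ≤ c)
  have cQ : (c : ℝ) ≤ Q := by exact_mod_cast hQ
  have l0 := Real.log_nonneg c1
  have l1 := Real.log_le_log (by linarith) cQ
  refine ⟨fun _ m n => by simp, fun _ n _ => ψ.norm_le_one _, fun U W hU hW a => ?_,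
    fun _ _ K K' k1 k2 k3 => ?_, fun _ => le_rfl, ?_, (Real.exp_pos _).le, le_rfl⟩
  · rw [sum_singleton]
    have e1 : ‖∑ n ∈ Ioc U W, a n * ψ n‖ ≤ ∑ n ∈ Ioc U W, ‖a n‖ := by
      refine norm_sum_le_of_le _ fun n _ => ?_
      rw [norm_mul]
      exact mul_le_of_le_one_right (norm_nonneg _) (ψ.norm_le_one _)
    refine (pow_le_pow_left₀ (norm_nonneg _) e1 2).trans (sq_sum_le_card_mul_sum_sq.trans
      (mul_le_mul_of_nonneg_right ?_ (sum_nonneg fun _ _ => sq_nonneg _)))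
    have e2 : (((Ioc U W).card : ℕ) : ℝ) ≤ W := by
      rw [Nat.card_Ioc]
      exact_mod_cast Nat.sub_le _ _
    have := Real.exp_pos 40
    nlinarith
  · have k := MA.pvt_ne hp h1 (s := 0) rfl k1 k2 k3
    simp only [neg_zero, Complex.cpow_zero, mul_one, norm_zero, mul_zero, add_zero] at k ⊢
    refine k.trans ?_
    gcongr
  · have : 0 ≤ Real.log Q := l0.trans l1
    positivity

theorem wg_sq : ∃ K : ℝ, Wg (fun x => w1 x ^ 2) K := by
  obtain ⟨K, hK, h⟩ := MA.a1_lip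
  refine ⟨2 * K + 1, fun x => ?_, fun x hx => ?_, fun x y => ?_, by linarith⟩
  · rw [abs_of_nonneg (sq_nonneg _)]
    exact pow_le_one₀ (MA.a1_w1_mem x).1 (MA.a1_w1_mem x).2
  · have h0 : MA.w0 x = 0 := MP_03e5d0_nt.bump_eq_zero (by
      rcases hx with h | h
      · exact le_abs.2 (Or.inr (by linarith))
      · exact le_abs.2 (Or.inl (by linarith)))
    simp only [w1, h0, mul_zero, ne_eq, OfNat.ofNat_ne_zero, not_false_eq_true, zero_pow]
  · have h1 := MA.a1_w1_mem x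
    have h2 := MA.a1_w1_mem y
    have h3 : |w1 x + w1 y| ≤ 2 := abs_le.2 ⟨by linarith, by linarith⟩
    have h4 := mul_le_mul h3 (h x y) (abs_nonneg _) zero_le_two
    rw [sq_sub_sq, abs_mul]
    linarith [abs_nonneg (x - y)]

end Pool.Agent.Lib.MP_778b46_nt.GL
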