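import Pool.Agent.Lib.MP_778b46_nt.GL.B1

/-!
The error made by freezing the weight.
-/

set_option autoImplicit false

noncomputable section

namespace Pool.Agent.Lib.MP_778b46_nt.GL

open Finset MeasureTheory Filter
open Pool.Agent.Lib.MP_778b46_nt.MA (lp w1 a1S a1M cf cop R1 I0 RR)
open Pool.Agent.Lib.MP_778b46_nt.VA (ee nd)
open Pool.Agent.Lib.MP_778b46_nt.MA (Wg Fam bV muV er)
open Pool.Agent.Lib.MP_c03ca8_nt.Q (prim)
open ArithmeticFunction (vonMangoldt)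

theorem b2_log {X t : ℝ} (hX : 8 ≤ X) (ht : 0 < t) (h : t ≤ 3 * X) :
    Real.log t ≤ 2 + Real.log X := by
  have h1 := Real.log_le_log ht h
  rw [Real.log_mul (by norm_num) (by linarith)] at h1
  have h2 := Real.log_le_sub_one_of_pos (show (0 : ℝ) < 3 by norm_num)
  linarith

theorem bq_er (K : ℝ) : ∃ (C : ℝ) (a : ℕ), 0 ≤ C ∧ ∀ (w : ℝ → ℝ) (y : ℕ → ℝ) (X δ C0 : ℝ) (V Z Q : ℕ),
    Wg w K → 8 ≤ X → 0 < δ → δ ≤ 1 → 1 ≤ C0 → (Q : ℝ) ^ 2 ≤ X →
    (∀ n : ℕ, V < n → n ≤ Z → y n ≤ n ∧ (n : ℝ) ≤ (1 + 2 * δ) * y n) →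
    BQ Q C0 (fun _ ψ => ∑ m ∈ Ioc 0 Z, er w X V y m * ψ m) ≤
      C * δ * X * (1 + Real.log X) ^ a := by
  obtain ⟨a, ha⟩ := tau_mom 8
  refine ⟨720 * |K| * 3 ^ a, a + 4, by positivity, ?_⟩
  intro w y X δ C0 V Z Q hw hX hδ hδ1 hC hQ hy
  have hK := hw.L1
  have hX0 : 0 < X := by linarith
  have hlX : 0 ≤ Real.log X := Real.log_nonneg (by linarith)
  rw [abs_of_nonneg (by linarith : 0 ≤ K)]
  set l : ℝ := 1 + Real.log X with hl
  have hl1 : 1 ≤ l := by linarith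
  have hy3 : ∀ n, V < n → n ≤ Z → y n ≤ n ∧ (n : ℝ) ≤ 3 * y n := by
    intro n h1 h2
    obtain ⟨k1, k2⟩ := hy n h1 h2
    refine ⟨k1, k2.trans ?_⟩
    have h0 : 0 ≤ y n := by
      by_contra h0
      have h0 := not_le.1 h0
      have := Nat.cast_nonneg (α := ℝ) n
      nlinarith
    nlinarith
  set N : ℕ := ⌊3 * X⌋₊ with hN
  have hN3 : (N : ℝ) ≤ 3 * X := Nat.floor_le (by positivity)
  have hN1 : 1 ≤ N := Nat.le_floor (by push_cast; linarith)
  have hN1' : (1 : ℝ) ≤ N := by exact_mod_cast hN1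
  set f : ℕ → ℂ := fun m => if m ∈ Ioc 0 Z then er w X V y m else 0 with hf
  have e1 : ∀ (c : ℕ) (ψ : DirichletCharacter ℂ c),
      ∑ m ∈ Ioc 0 Z, er w X V y m * ψ m = ∑ m ∈ Ico 1 (1 + N), f m * ψ m := by
    intro c ψ
    have k1 : ∑ m ∈ Ioc 0 Z, er w X V y m * ψ m = ∑ m ∈ Ioc 0 Z, f m * ψ m :=
      sum_congr rfl fun m hm => by simp only [hf, hm, if_true]
    rw [k1]
    rw [← sum_subset (s₁ := Ioc 0 Z ∩ Ico 1 (1 + N)) (s₂ := Ioc 0 Z) inter_subset_left,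
      ← sum_subset (s₁ := Ioc 0 Z ∩ Ico 1 (1 + N)) (s₂ := Ico 1 (1 + N)) inter_subset_right]
    · intro m h1 h2
      have h3 : m ∉ Ioc 0 Z := fun h => h2 (mem_inter.2 ⟨h, h1⟩)
      simp only [hf, h3, if_false, zero_mul]
    · intro m h1 h2
      have h3 : er w X V y m = 0 := by
        by_contra h3
        obtain ⟨k2, -, k3⟩ := MA.er_supp hw hX y hy3 h1 h3
        have k4 : m ≤ N := Nat.le_floor k3
        exact h2 (mem_inter.2 ⟨h1, mem_Ico.2 ⟨by omega, by omega⟩⟩)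
      simp only [hf, h1, if_true, h3, zero_mul]
  have e2 : ∀ m ∈ Ico 1 (1 + N), ‖f m‖ ^ 2 ≤
      (6 * K * δ * l ^ 2) ^ 2 * (m.divisors.card : ℝ) ^ 8 := by
    intro m hm
    obtain ⟨m1, m2⟩ := mem_Ico.1 hm
    by_cases h : m ∈ Ioc 0 Z
    swap
    · simp only [hf, h, if_false, norm_zero, zero_pow two_ne_zero]; positivity
    have t1 : (1 : ℝ) ≤ m.divisors.card := by
      exact_mod_cast card_pos.2 ⟨1, Nat.one_mem_divisors.2 (by omega)⟩
    have t2 : (1 : ℝ) ≤ (m.divisors.card : ℝ) ^ 2 := one_le_pow₀ t1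
    have m3 : (m : ℝ) ≤ N := by exact_mod_cast (by omega : m ≤ N)
    have m4 : (0 : ℝ) < m := by exact_mod_cast m1
    have k1 := b2_log hX m4 (m3.trans hN3)
    have k2 := MA.er_le hw hX0 hδ.le y hy h (E := (m.divisors.card : ℝ) ^ 2 * l)
      (by nlinarith) (by nlinarith)
    simp only [hf, h, if_true]
    calc ‖er w X V y m‖ ^ 2 ≤ (6 * K * δ * ((m.divisors.card : ℝ) ^ 2 * l) ^ 2) ^ 2 :=
          pow_le_pow_left₀ (norm_nonneg _) k2 2
      _ = _ := by ring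
  have e3 : ∑ m ∈ Ico 1 (1 + N), ‖f m‖ ^ 2 ≤ (6 * K * δ * l ^ 2 * (2 * √X) * (3 * l) ^ a) ^ 2 := by
    refine (sum_le_sum e2).trans ?_
    rw [← mul_sum]
    have k1 : Ico 1 (1 + N) = Icc 1 N := by
      ext m; simp only [mem_Ico, mem_Icc]; omega
    rw [k1]
    have k2 := ha N hN1
    have k3 := b2_log hX (by linarith) hN3
    have k4 : 0 ≤ Real.log N := Real.log_nonneg hN1'
    have k5 : (1 + Real.log N) ^ a ≤ (3 * l) ^ a :=
      pow_le_pow_left₀ (by linarith) (by linarith) a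
    have k6 : (1 : ℝ) ≤ (3 * l) ^ a := one_le_pow₀ (by linarith)
    have k7 : (N : ℝ) * (1 + Real.log N) ^ a ≤ (4 * X) * ((3 * l) ^ a) ^ 2 :=
      mul_le_mul (by linarith) (by nlinarith) (by positivity) (by positivity)
    calc _ ≤ (6 * K * δ * l ^ 2) ^ 2 * ((4 * X) * ((3 * l) ^ a) ^ 2) :=
          mul_le_mul_of_nonneg_left (k2.trans k7) (by positivity)
      _ = (6 * K * δ * l ^ 2) ^ 2 * ((4 * √X ^ 2) * ((3 * l) ^ a) ^ 2) := by
          rw [Real.sq_sqrt hX0.le]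
      _ = _ := by
          generalize (3 * l) ^ a = u
          ring
  have e4 : √(∑ m ∈ Ico 1 (1 + N), ‖f m‖ ^ 2) ≤ 6 * K * δ * l ^ 2 * (2 * √X) * (3 * l) ^ a :=
    Real.sqrt_le_iff.2 ⟨by positivity, e3⟩
  have key := MP_c03ca8_nt.Q.ls_bil Q 1 N 1 1 f (fun _ => 1) hC
  have k1 : Ico 1 (1 + 1) = ({1} : Finset ℕ) := rfl
  simp only [k1, sum_singleton, Nat.cast_one, map_one, mul_one, norm_one, one_pow,
    Real.sqrt_one] at key
  unfold BQ
  simp only [e1]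
  refine key.trans ?_
  have hs1 : 1 ≤ √X := Real.one_le_sqrt.2 (by linarith)
  have hss : √X * √X = X := Real.mul_self_sqrt hX0.le
  have q1 : (Q : ℝ) ≤ √X := Real.le_sqrt_of_sq_le hQ
  have q2 : √(N : ℝ) ≤ 2 * √X := Real.sqrt_le_iff.2 ⟨by positivity, by nlinarith⟩
  have q3 : √(N : ℝ) / C0 ≤ 2 * √X := (div_le_self (Real.sqrt_nonneg _) hC).trans q2
  have q4 : 0 ≤ Real.log Q := Real.log_natCast_nonneg Q
  have q5 : Real.log Q ≤ Real.log X := by
    rcases Nat.eq_zero_or_pos Q with rfl | h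
    · simpa using hlX
    · have : (1 : ℝ) ≤ Q := by exact_mod_cast h
      exact Real.log_le_log (by linarith) (by nlinarith)
  have q6 : (1 + Real.log Q) ^ 2 ≤ l ^ 2 := pow_le_pow_left₀ (by linarith) (by linarith) 2
  have hC0 : 0 < C0 := by linarith
  calc _ ≤ 10 * l ^ 2 * (6 * √X) * (6 * K * δ * l ^ 2 * (2 * √X) * (3 * l) ^ a) := by
        refine mul_le_mul (mul_le_mul (by linarith) (by linarith) (by positivity)
          (by positivity)) e4 (Real.sqrt_nonneg _) (by positivity)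
    _ = 720 * K * 3 ^ a * δ * (√X * √X) * l ^ (a + 4) := by
        rw [mul_pow 3 l a, pow_add l a 4]; ring
    _ = _ := by rw [hss]

end Pool.Agent.Lib.MP_778b46_nt.GL
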