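import Pool.Agent.Lib.MP_778b46_nt.GL.B1

/-!
One range of the bilinear term.
-/

set_option autoImplicit false

noncomputable section

namespace Pool.Agent.Lib.MP_778b46_nt.GL

open Finset MeasureTheory Filter
open Pool.Agent.Lib.MP_778b46_nt.MA (lp w1 a1S a1M cf cop R1 I0 RR)
open Pool.Agent.Lib.MP_778b46_nt.VA (ee nd)
open Pool.Agent.Lib.MP_778b46_nt.MA (Wg Fam bV muV er)
open Pool.Agent.Lib.MP_c03ca8_nt.Q (prim)
open ArithmeticFunction (vonMangoldt)

theorem b3_cut {w : ℝ → ℝ} {K X y : ℝ} {b : ℕ} (hw : Wg w K) (hX : 1 ≤ X) (hb : 1 ≤ b)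
    (hy : (b : ℝ) ≤ y) (Z : ℕ) : ∃ g : ℕ → ℂ,
    (∀ l ∈ Ico 1 (1 + ⌊X / b⌋₊), ‖g l‖ ≤ 1 + Real.log X) ∧ ∀ f : ℕ → ℂ,
      ∑ l ∈ Ioc 0 Z, ((vonMangoldt l * w (y * l / X) : ℝ) : ℂ) * f l =
        ∑ l ∈ Ico 1 (1 + ⌊X / b⌋₊), g l * f l := by
  have hb1 : (1 : ℝ) ≤ b := by exact_mod_cast hb
  have hX0 : 0 < X := by linarith
  have hlog : 0 ≤ Real.log X := Real.log_nonneg hX
  refine ⟨fun l => if l ∈ Ioc 0 Z then ((vonMangoldt l * w (y * l / X) : ℝ) : ℂ) else 0,
    fun l hl => ?_, fun f => ?_⟩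
  · dsimp only
    split_ifs
    · rw [Complex.norm_real, Real.norm_eq_abs, abs_mul,
        abs_of_nonneg ArithmeticFunction.vonMangoldt_nonneg]
      refine (mul_le_of_le_one_right ArithmeticFunction.vonMangoldt_nonneg (hw.le _)).trans
        (ArithmeticFunction.vonMangoldt_le_log.trans ?_)
      rw [mem_Ico] at hl
      have k1 : (l : ℝ) ≤ X / b := (Nat.le_floor_iff (by positivity)).1 (by omega)
      have k2 : X / b ≤ X := div_le_self hX0.le hb1
      have := Real.log_le_log (by exact_mod_cast hl.1) (k1.trans k2)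
      linarith
    · rw [norm_zero]; linarith
  · simp only [ite_mul, zero_mul]
    rw [← sum_filter]
    refine (sum_subset (fun l hl => (mem_filter.1 hl).2) fun l hl hl' => ?_).symm
    have k1 : ⌊X / b⌋₊ < l := by
      by_contra hc
      exact hl' (mem_filter.2 ⟨mem_Ico.2 ⟨(mem_Ioc.1 hl).1, by omega⟩, hl⟩)
    have k2 : X / b < l := (Nat.floor_lt (by positivity)).1 k1
    rw [div_lt_iff₀ (by linarith)] at k2
    have k3 := mul_le_mul_of_nonneg_right hy (Nat.cast_nonneg (α := ℝ) l)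
    rw [hw.zero _ (Or.inr (by rw [le_div_iff₀ hX0]; linarith))]
    simp

theorem b3_q {Q : ℕ} {X : ℝ} (h : (Q : ℝ) ^ 2 ≤ X) : (Q : ℝ) * √Q ≤ X ^ (3 / 4 : ℝ) := by
  have h0 : (0 : ℝ) ≤ Q := Nat.cast_nonneg Q
  refine le_trans (le_of_eq ?_) (Real.rpow_le_rpow (by positivity) h (by norm_num))
  rw [← Real.rpow_natCast, ← Real.rpow_mul h0, Real.sqrt_eq_rpow, ← Real.rpow_one_add' h0
    (by norm_num)]
  norm_num

theorem bq_prod (K : ℝ) : ∃ (C : ℝ) (a : ℕ), 0 ≤ C ∧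
    ∀ (w : ℝ → ℝ) (X y U C0 : ℝ) (V Z Q b b' : ℕ),
    Wg w K → 8 ≤ X → 1 ≤ U → 1 ≤ C0 → 1 ≤ V → V ≤ b → b ≤ b' → b' ≤ 6 * b → (b : ℝ) ≤ y →
    (Q : ℝ) ^ 2 ≤ X →
    BQ Q C0 (fun _ ψ => (∑ n ∈ Ioc b b', bV V n * ψ n) *
      ∑ l ∈ Ioc 0 Z, ((vonMangoldt l * w (y * l / X) : ℝ) : ℂ) * ψ l) ≤
      C * (1 + Real.log X) ^ a *
        (X / C0 + X / √U + X / √V + Q * √X + X ^ (3 / 4 : ℝ) * V * U) := by
  obtain ⟨a, ha⟩ := tau_mom 2
  refine ⟨90 * 2 ^ a, a + 3, by positivity, ?_⟩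
  intro w X y U C0 V Z Q b b' hw hX hU hC hV hVb hbb hb6 hy hQ
  have hb : 1 ≤ b := hV.trans hVb
  have hb1 : (1 : ℝ) ≤ b := by exact_mod_cast hb
  have hV1 : (1 : ℝ) ≤ V := by exact_mod_cast hV
  have hVb' : (V : ℝ) ≤ b := by exact_mod_cast hVb
  have hX0 : 0 < X := by linarith
  have hlog : 0 ≤ Real.log X := Real.log_nonneg (by linarith)
  obtain ⟨g, hg, hs⟩ := b3_cut hw (show 1 ≤ X by linarith) hb hy Z
  have hQ0 : 0 ≤ Real.log Q := Real.log_natCast_nonneg Q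
  have hQl : Real.log Q ≤ Real.log X := by
    rcases Nat.eq_zero_or_pos Q with rfl | h
    · simpa using hlog
    · have k1 : (1 : ℝ) ≤ Q := by exact_mod_cast h
      exact Real.log_le_log (by linarith) (by nlinarith)
  have hM : (⌊X / b⌋₊ : ℝ) ≤ X / b := Nat.floor_le (by positivity)
  have h2a : (1 : ℝ) ≤ 2 ^ a := one_le_pow₀ (by norm_num)
  obtain ⟨E, hE⟩ : ∃ E, E = 1 + Real.log X := ⟨_, rfl⟩
  have hE1 : 1 ≤ E := by linarith
  have hQE : 1 + Real.log Q ≤ E := by linarith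
  rw [← hE] at hg ⊢
  generalize ⌊X / b⌋₊ = M at hg hs hM
  have t1 : 0 ≤ X / C0 := by positivity
  have t2 : 0 ≤ X / √U := by positivity
  have t3 : 0 ≤ X / √V := by positivity
  have t4 : 0 ≤ Q * √X := by positivity
  have t5 : 0 ≤ X ^ (3 / 4 : ℝ) * V * U := by positivity
  rcases le_total (X / b) U with hc | hc
  · refine (bq_pt hC (B := V * (2 * (√Q * (1 + Real.log Q))) * (U * E)) (by positivity)
      fun c hc2 hcQ ψ hψ => ?_).trans ?_
    · have F := fam_one hc2 hcQ hψ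
      have k1 := F.bpoint (mem_singleton_self ()) hV hVb hbb hb6
      rw [mul_zero, zero_mul, add_zero] at k1
      rw [norm_mul, hs fun l => ψ l]
      refine mul_le_mul k1 ?_ (norm_nonneg _) (by positivity)
      refine (norm_sum_le_of_le _ (n := fun _ => E) fun l hl => ?_).trans ?_
      · rw [norm_mul]
        exact (mul_le_of_le_one_right (norm_nonneg _) (ψ.norm_le_one _)).trans (hg l hl)
      · rw [sum_const, Nat.card_Ico, Nat.add_sub_cancel_left, nsmul_eq_mul]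
        exact mul_le_mul_of_nonneg_right (hM.trans hc) (by linarith)
    · have k1 := b3_q hQ
      have k2 : E ^ 2 ≤ E ^ (a + 3) := pow_le_pow_right₀ hE1 (by omega)
      calc _ = 2 * ((1 + Real.log Q) * E) * (Q * √Q * V * U) := by ring
        _ ≤ 2 * (E * E) * (X ^ (3 / 4 : ℝ) * V * U) := by gcongr
        _ = 2 * E ^ 2 * (X ^ (3 / 4 : ℝ) * V * U) := by ring
        _ ≤ _ := mul_le_mul (mul_le_mul (by linarith) k2 (by positivity) (by positivity))
            (by linarith) t5 (by positivity)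
  · have hU0 : 0 < U := by linarith
    have hbX : (b : ℝ) ≤ X / U := by
      rw [le_div_iff₀ (by linarith)] at hc
      rw [le_div_iff₀ hU0]
      linarith
    have hbX' : (b : ℝ) ≤ X := hbX.trans (div_le_self hX0.le hU)
    have eI : Ioc b b' = Ico (b + 1) (b + 1 + (b' - b)) := by
      ext n
      simp only [mem_Ioc, mem_Ico]
      omega
    have h := Pool.Agent.Lib.MP_c03ca8_nt.Q.ls_bil Q (b + 1) (b' - b) 1 M (bV V) g hC
    rw [← eI] at h
    have hN : ((b' - b : ℕ) : ℝ) ≤ 5 * b := by exact_mod_cast (show b' - b ≤ 5 * b by omega)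
    have hb' : (b' : ℝ) ≤ 6 * b := by exact_mod_cast hb6
    have hb'1 : (1 : ℝ) ≤ b' := by exact_mod_cast hb.trans hbb
    have s1 : ∑ n ∈ Ioc b b', ‖bV V n‖ ^ 2 ≤ 9 * b * ((2 * E) ^ a) ^ 2 := by
      have k1 : ∑ n ∈ Ioc b b', ‖bV V n‖ ^ 2 ≤ ∑ n ∈ Icc 1 b', (n.divisors.card : ℝ) ^ 2 :=
        (sum_le_sum fun n _ => pow_le_pow_left₀ (norm_nonneg _)
          (Pool.Agent.Lib.MP_778b46_nt.MA.bV_le V n) 2).trans
          (sum_le_sum_of_subset_of_nonneg (fun n hn => by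
            rw [mem_Ioc] at hn
            exact mem_Icc.2 ⟨by omega, hn.2⟩) fun _ _ _ => by positivity)
      have k2 : 1 + Real.log b' ≤ 2 * E := by
        have := Real.log_le_log (by linarith) (show (b' : ℝ) ≤ X * X by nlinarith)
        rw [Real.log_mul hX0.ne' hX0.ne'] at this
        linarith
      have k3 : 0 ≤ Real.log b' := Real.log_natCast_nonneg b'
      have k4 : (1 : ℝ) ≤ (2 * E) ^ a := one_le_pow₀ (by linarith)
      refine (k1.trans (ha b' (hb.trans hbb))).trans ?_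
      calc _ ≤ 9 * b * (2 * E) ^ a := by gcongr; linarith
        _ ≤ _ := by gcongr; nlinarith
    have s2 : ∑ l ∈ Ico 1 (1 + M), ‖g l‖ ^ 2 ≤ X / b * E ^ 2 := by
      refine (sum_le_card_nsmul _ _ (E ^ 2) fun l hl =>
        pow_le_pow_left₀ (norm_nonneg _) (hg l hl) 2).trans ?_
      rw [Nat.card_Ico, Nat.add_sub_cancel_left, nsmul_eq_mul]
      exact mul_le_mul_of_nonneg_right hM (by positivity)
    have hsX : √X * √X = X := Real.mul_self_sqrt hX0.le
    have s3 : √(∑ n ∈ Ioc b b', ‖bV V n‖ ^ 2) * √(∑ l ∈ Ico 1 (1 + M), ‖g l‖ ^ 2) ≤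
        3 * (2 * E) ^ a * E * √X := by
      rw [← Real.sqrt_mul (by positivity)]
      refine Real.sqrt_le_iff.2 ⟨by positivity, ?_⟩
      refine (mul_le_mul s1 s2 (by positivity) (by positivity)).trans (le_of_eq ?_)
      rw [mul_pow (3 * (2 * E) ^ a * E), Real.sq_sqrt hX0.le]
      field_simp
      norm_num
    have u1 : √(((b' - b : ℕ) : ℝ) * M) ≤ 3 * √X := by
      refine Real.sqrt_le_iff.2 ⟨by positivity, ?_⟩
      refine (mul_le_mul hN hM (by positivity) (by positivity)).trans ?_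
      rw [mul_pow, Real.sq_sqrt hX0.le, show 5 * (b : ℝ) * (X / b) = 5 * X by field_simp]
      linarith
    have u2 : √((b' - b : ℕ) : ℝ) ≤ 3 * (√X / √U) := by
      refine Real.sqrt_le_iff.2 ⟨by positivity, ?_⟩
      rw [mul_pow, div_pow, Real.sq_sqrt hX0.le, Real.sq_sqrt hU0.le]
      linarith
    have u3 : √(M : ℝ) ≤ 3 * (√X / √V) := by
      refine Real.sqrt_le_iff.2 ⟨by positivity, ?_⟩
      rw [mul_pow, div_pow, Real.sq_sqrt hX0.le, Real.sq_sqrt (by positivity)]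
      have k1 : X / b ≤ X / V := div_le_div_of_nonneg_left hX0.le (by linarith) hVb'
      have k2 : 0 ≤ X / V := by positivity
      linarith
    have u4 : (Q : ℝ) ≤ 3 * Q := by linarith [Nat.cast_nonneg (α := ℝ) Q]
    refine le_trans (le_of_eq ?_) (h.trans ?_)
    · unfold BQ
      refine sum_congr rfl fun c _ => ?_
      congr 1
      refine sum_congr rfl fun ψ _ => ?_
      rw [norm_mul, hs fun l => ψ l]
    · calc _ ≤ 10 * E ^ 2 * (3 * √X / C0 + 3 * (√X / √U) + 3 * (√X / √V) + 3 * Q) *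
            (3 * (2 * E) ^ a * E * √X) := by gcongr
        _ = 90 * 2 ^ a * E ^ (a + 3) *
            (√X * √X / C0 + √X * √X / √U + √X * √X / √V + Q * √X) := by ring
        _ ≤ _ := by
          rw [hsX]
          exact mul_le_mul_of_nonneg_left (by linarith) (by positivity)

end Pool.Agent.Lib.MP_778b46_nt.GL
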