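import Pool.Agent.Lib.MP_778b46_nt.GL.B2
import Pool.Agent.Lib.MP_778b46_nt.GL.B3

/-!
The large conductors.
-/

set_option autoImplicit false

noncomputable section

namespace Pool.Agent.Lib.MP_778b46_nt.GL

open Finset MeasureTheory Filter
open Pool.Agent.Lib.MP_778b46_nt.MA (lp w1 a1S a1M cf cop R1 I0 RR)
open Pool.Agent.Lib.MP_778b46_nt.VA (ee nd)
open Pool.Agent.Lib.MP_778b46_nt.MA (Wg Fam bV muV er)
open Pool.Agent.Lib.MP_c03ca8_nt.Q (prim)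
open ArithmeticFunction (vonMangoldt)

theorem b4_add (Q : ℕ) (C0 : ℝ) {T T1 T2 : (c : ℕ) → DirichletCharacter ℂ c → ℂ}
    (h : ∀ c ψ, ‖T c ψ‖ ≤ ‖T1 c ψ‖ + ‖T2 c ψ‖) : BQ Q C0 T ≤ BQ Q C0 T1 + BQ Q C0 T2 := by
  have := bq_le_sum Q C0 (univ : Finset Bool) T (fun b => cond b T1 T2)
    (fun c ψ => by simpa using h c ψ)
  simpa using this

theorem b4_id {w : ℝ → ℝ} {L X δ : ℝ} (hw : Wg w L) (hX0 : 0 < X) (hδ1 : δ ≤ 1) {V K : ℕ}
    (hV : 1 ≤ V) (a : ℕ → ℕ) (y yy : ℕ → ℝ) (ham : Monotone a) (a0 : a 0 = V)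
    (hZ1 : 3 * X ≤ a K) (hyy : ∀ r, ∀ n ∈ Ioc (a r) (a (r + 1)), yy n = y r)
    (hy : ∀ n, V < n → n ≤ a K → yy n ≤ n ∧ (n : ℝ) ≤ (1 + 2 * δ) * yy n) (hδ : 0 < δ)
    (f : ℕ → ℂ) (hf : ∀ m n, f (m * n) = f m * f n) :
    ∑ n ∈ Ioc 0 ⌊X⌋₊, (w (n / X) : ℂ) * ((lp n : ℂ) * f n) =
      ∑ m ∈ Ioc 0 (a K), (w (m / X) : ℂ) * (((lp m - vonMangoldt m : ℝ) : ℂ) * f m) +
      (∑ m ∈ Ioc 0 (a K), (w (m / X) : ℂ) *
        ((∑ x ∈ m.divisorsAntidiagonal, muV V x.1 * (Real.log x.2 : ℝ)) * f m) -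
      (∑ r ∈ range K, (∑ n ∈ Ioc (a r) (a (r + 1)), bV V n * f n) *
        ∑ l ∈ Ioc 0 (a K), ((vonMangoldt l * w (y r * l / X) : ℝ) : ℂ) * f l +
      ∑ m ∈ Ioc 0 (a K), er w X V yy m * f m)) := by
  have hZ0 : ⌊X⌋₊ ≤ a K := by
    exact_mod_cast (show (⌊X⌋₊ : ℝ) ≤ a K by linarith [Nat.floor_le hX0.le])
  have e1 := MA.decomp hw hX0 hZ1 yy (fun n h1 h2 => ((hy n h1 h2).2.trans
    (mul_le_mul_of_nonneg_right (by linarith) (by
      by_contra hc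
      have k1 := (hy n h1 h2).2
      have k2 : (0 : ℝ) ≤ n := Nat.cast_nonneg n
      have k3 : (V : ℝ) < n := by exact_mod_cast h1
      nlinarith)))) f hf
  have e2 : ∑ n ∈ Ioc V (a K), bV V n * f n *
      ∑ l ∈ Ioc 0 (a K), ((vonMangoldt l * w (yy n * l / X) : ℝ) : ℂ) * f l =
      ∑ r ∈ range K, (∑ n ∈ Ioc (a r) (a (r + 1)), bV V n * f n) *
        ∑ l ∈ Ioc 0 (a K), ((vonMangoldt l * w (y r * l / X) : ℝ) : ℂ) * f l := by
    have e3 := MA.sum_tele a ham K (fun n => bV V n * f n *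
      ∑ l ∈ Ioc 0 (a K), ((vonMangoldt l * w (yy n * l / X) : ℝ) : ℂ) * f l)
    rw [a0] at e3
    rw [e3]
    refine sum_congr rfl fun r _ => ?_
    rw [sum_mul]
    exact sum_congr rfl fun n hn => by rw [hyy r n hn]
  rw [e2] at e1
  rw [← e1, hw.cut hX0 le_rfl, ← hw.cut hX0 hZ0, ← sum_sub_distrib, ← sum_add_distrib]
  refine sum_congr rfl fun m _ => ?_
  have := MA.vM_split hV m
  rw [Complex.ofReal_sub]
  linear_combination (w (m / X) : ℂ) * f m * this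

theorem b4_core {w : ℝ → ℝ} {L : ℝ} (hw : Wg w L) : ∃ (C2 C3 : ℝ) (a2 a3 : ℕ), 0 ≤ C2 ∧ 0 ≤ C3 ∧
    ∀ (X t Y δ C0 E : ℝ) (Q : ℕ), X = t ^ 40 → 2 ≤ t → 1 ≤ Y → Y ≤ t → 0 < δ → δ ≤ 1 → 1 ≤ C0 →
      Q * t ^ 20 * Y ≤ X → 1 + Real.log X ≤ E →
      BQ Q C0 (fun _ ψ => ∑ n ∈ Ioc 0 ⌊X⌋₊, (w (n / X) : ℂ) * ((lp n : ℂ) * ψ n)) ≤
        2 * E * (X / Y) + (34 * L * E ^ 2 * (X / Y) +
          (3 * E / δ * (C2 * E ^ a2 * (X / C0 + 5 * (X / Y))) + C3 * δ * X * E ^ a3)) := by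
  obtain ⟨C2, a2, hC2, h2⟩ := bq_prod L
  obtain ⟨C3, a3, hC3, h3⟩ := bq_er L
  refine ⟨C2, C3, a2, a3, hC2, hC3, ?_⟩
  intro X t Y δ C0 E Q hXt ht hY hYt hδ hδ1 hC0 hQ hE
  have t1 : 1 ≤ t := by linarith
  have t0 : 0 < t := by linarith
  have Y0 : 0 < Y := by linarith
  have hL := hw.L1
  set V : ℕ := ⌊t ^ 2⌋₊ with hVd
  have hVt : (V : ℝ) ≤ t ^ 2 := Nat.floor_le (by positivity)
  have htV : t ^ 2 < V + 1 := Nat.lt_floor_add_one _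
  have hV : 1 ≤ V := Nat.le_floor (by rw [Nat.cast_one]; exact one_le_pow₀ t1)
  have hV1 : (1 : ℝ) ≤ V := by exact_mod_cast hV
  have hp : ∀ {i j : ℕ}, i ≤ j → t ^ i ≤ t ^ j := fun h => pow_le_pow_right₀ t1 h
  have hVX : 8 * (V : ℝ) ≤ X := by
    have k1 : (8 : ℝ) ≤ t ^ 3 := by
      have := pow_le_pow_left₀ (by norm_num : (0 : ℝ) ≤ 2) ht 3
      norm_num at this
      exact this
    calc 8 * (V : ℝ) ≤ t ^ 3 * t ^ 2 := by gcongr
      _ = t ^ 5 := by ring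
      _ ≤ X := hXt ▸ hp (by norm_num)
  have hX : 8 ≤ X := by linarith
  have hX0 : 0 < X := by linarith
  have hlog : 0 ≤ Real.log X := Real.log_nonneg (by linarith)
  have hE0 : 0 ≤ E := by linarith
  have hsX : √X = t ^ 20 := by
    rw [hXt, show t ^ 40 = (t ^ 20) ^ 2 by ring, Real.sqrt_sq (by positivity)]
  have h34 : X ^ (3 / 4 : ℝ) = t ^ 30 := by
    rw [hXt, ← Real.rpow_natCast, ← Real.rpow_mul t0.le, ← Real.rpow_natCast]
    norm_num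
  have hQ0 : (0 : ℝ) ≤ Q := Nat.cast_nonneg Q
  have hQY : Q * t ^ 20 ≤ X / Y := by rw [le_div_iff₀ Y0]; exact hQ
  have hQt : (Q : ℝ) ≤ t ^ 20 := by
    have k1 : Q * t ^ 20 ≤ t ^ 20 * t ^ 20 := by
      calc Q * t ^ 20 ≤ Q * t ^ 20 * Y := le_mul_of_one_le_right (by positivity) hY
        _ ≤ X := hQ
        _ = _ := by rw [hXt]; ring
    exact le_of_mul_le_mul_right k1 (by positivity)
  have hQ2 : (Q : ℝ) ^ 2 ≤ X := by
    calc (Q : ℝ) ^ 2 ≤ (t ^ 20) ^ 2 := pow_le_pow_left₀ hQ0 hQt 2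
      _ = X := by rw [hXt]; ring
  have hsQ : √(Q : ℝ) ≤ t ^ 10 := by
    rw [Real.sqrt_le_left (by positivity)]
    calc (Q : ℝ) ≤ t ^ 20 := hQt
      _ = _ := by ring
  have hlQ : 1 + Real.log Q ≤ E := by
    rcases Nat.eq_zero_or_pos Q with rfl | hq
    · simp only [Nat.cast_zero, Real.log_zero]; linarith
    · have k1 : (Q : ℝ) ≤ X := hQt.trans (hXt ▸ hp (by norm_num))
      linarith [Real.log_le_log (by exact_mod_cast hq) k1]
  have hlQ0 : 0 ≤ 1 + Real.log Q := by linarith [Real.log_natCast_nonneg Q]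
  have hXY : ∀ {i : ℕ}, i ≤ 39 → t ^ i ≤ X / Y := fun {i} hi => by
    rw [le_div_iff₀ Y0]
    calc t ^ i * Y ≤ t ^ 39 * t := mul_le_mul (hp hi) hYt Y0.le (by positivity)
      _ = X := by rw [hXt]; ring
  obtain ⟨K, a, y, yy, ham, a0, hZ1, -, hK, ha6, hay, hyy, hy⟩ := MA.ranges hV hVX hδ hδ1
  have hZ0 : ⌊X⌋₊ ≤ a K := by
    exact_mod_cast (show (⌊X⌋₊ : ℝ) ≤ a K by linarith [Nat.floor_le hX0.le])
  have hVa : ∀ r, V ≤ a r := fun r => a0 ▸ ham (Nat.zero_le r)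
  have hle : ∀ (c : ℕ) (ψ : DirichletCharacter ℂ c) (n : ℕ), 0 < n → ‖ψ n‖ ≤ 1 :=
    fun c ψ n _ => ψ.norm_le_one _
  have e : ∀ (c : ℕ) (ψ : DirichletCharacter ℂ c), _ := fun c ψ =>
    b4_id hw hX0 hδ1 hV a y yy ham a0 hZ1 hyy hy hδ (fun n => ψ n)
      (fun m n => by rw [Nat.cast_mul, map_mul])
  refine (b4_add Q C0 (fun c ψ => (congrArg norm (e c ψ)).trans_le (norm_add_le _ _))).trans
    (add_le_add ?_ ((b4_add Q C0 (fun c ψ => norm_sub_le _ _)).trans (add_le_add ?_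
      ((b4_add Q C0 (fun c ψ => norm_add_le _ _)).trans (add_le_add ?_ ?_)))))
  · refine (bq_pt hC0 (B := 2 * √X * Real.log X) (by positivity) fun c _ _ ψ _ =>
      MA.prime_pow hw (by linarith) hZ0 (fun n => ψ n) (hle c ψ)).trans ?_
    rw [hsX]
    calc _ = 2 * Real.log X * (Q * t ^ 20) := by ring
      _ ≤ _ := by gcongr; linarith
  · refine (bq_pt hC0 (B := 17 * L * E * (V * (2 * (√Q * (1 + Real.log Q))))) (by positivity)
      fun c hc hcQ ψ hψ => ?_).trans ?_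
    · have := (fam_one hc hcQ hψ).term1 hw (mem_singleton_self ()) hV hVX hZ0 hE
      simpa only [mul_zero, zero_mul, add_zero] using this
    · calc _ = 34 * L * (E * (1 + Real.log Q)) * (Q * V * √Q) := by ring
        _ ≤ 34 * L * (E * E) * (t ^ 20 * t ^ 2 * t ^ 10) := by gcongr
        _ = 34 * L * E ^ 2 * t ^ 32 := by ring
        _ ≤ _ := by gcongr; exact hXY (by norm_num)
  · refine (bq_le_sum Q C0 (range K) _ (fun r _ ψ => (∑ n ∈ Ioc (a r) (a (r + 1)), bV V n * ψ n) *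
        ∑ l ∈ Ioc 0 (a K), ((vonMangoldt l * w (y r * l / X) : ℝ) : ℂ) * ψ l)
      (fun c ψ => norm_sum_le _ _)).trans ?_
    have k0 : 0 ≤ X / C0 := by positivity
    have k1 : 0 ≤ X / Y := by positivity
    refine (sum_le_card_nsmul _ _ (C2 * E ^ a2 * (X / C0 + 5 * (X / Y))) fun r _ => ?_).trans ?_
    · refine (h2 w X (y r) (t ^ 2) C0 V (a K) Q (a r) (a (r + 1)) hw hX (one_le_pow₀ t1) hC0 hV
        (hVa r) (ham (Nat.le_succ r)) (ha6 r) (hay r) hQ2).trans ?_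
      have p1 : X / √(t ^ 2) ≤ X / Y := by
        rw [Real.sqrt_sq t0.le]; exact div_le_div_of_nonneg_left hX0.le Y0 hYt
      have p2 : X / √(V : ℝ) ≤ 2 * (X / Y) := by
        have q1 : Y / 2 ≤ √(V : ℝ) := Real.le_sqrt_of_sq_le (by nlinarith)
        calc _ ≤ X / (Y / 2) := div_le_div_of_nonneg_left hX0.le (by positivity) q1
          _ = _ := by field_simp
      have p3 : X ^ (3 / 4 : ℝ) * V * t ^ 2 ≤ X / Y := by
        rw [h34]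
        calc _ ≤ t ^ 30 * t ^ 2 * t ^ 2 := by gcongr
          _ = t ^ 34 := by ring
          _ ≤ _ := hXY (by norm_num)
      rw [hsX]
      refine mul_le_mul (by gcongr) (by linarith) (by positivity) (by positivity)
    · rw [card_range, nsmul_eq_mul]
      exact mul_le_mul_of_nonneg_right (hK.trans (by gcongr)) (by positivity)
  · exact (h3 w yy X δ C0 V (a K) Q hw hX hδ hδ1 hC0 hQ2 hy).trans (by gcongr)

theorem b4_log (M : ℝ) (N : ℕ) {η : ℝ} (hη : 0 < η) :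
    ∀ᶠ X : ℝ in atTop, M * Real.log X ^ N ≤ X ^ η := by
  have h := (isLittleO_log_rpow_rpow_atTop (N : ℝ) hη).bound (c := 1 / (|M| + 1)) (by positivity)
  filter_upwards [h, eventually_ge_atTop 1] with X h1 h2
  have hl : 0 ≤ Real.log X := Real.log_nonneg h2
  rw [Real.rpow_natCast, Real.norm_of_nonneg (by positivity),
    Real.norm_of_nonneg (by positivity), one_div, ← div_eq_inv_mul, le_div_iff₀ (by positivity)] at h1
  refine le_trans ?_ h1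
  rw [mul_comm]
  exact mul_le_mul_of_nonneg_left (by linarith [le_abs_self M]) (by positivity)

theorem b4_num {l X Y L C2 C3 : ℝ} {A a2 a3 : ℕ} (hl : 1 ≤ l) (hX : 0 < X) (hY : 0 < Y)
    (hL : 1 ≤ L)
    (h1 : 2 * (4 + 136 * L + 30 * 2 ^ a2 * C2) * l ^ (A + a3 + 1 + a2 + 1 + A) ≤ Y)
    (h2 : 24 * 2 ^ a2 * C2 ≤ l) (h3 : 4 * 2 ^ a3 * C3 ≤ l) :
    2 * (2 * l) * (X / Y) + (34 * L * (2 * l) ^ 2 * (X / Y) +
      (3 * (2 * l) / (1 / l ^ (A + a3 + 1)) * (C2 * (2 * l) ^ a2 *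
        (X / l ^ (A + a3 + 1 + a2 + 1 + A + 1) + 5 * (X / Y))) +
        C3 * (1 / l ^ (A + a3 + 1)) * X * (2 * l) ^ a3)) ≤ X / l ^ A := by
  have l0 : 0 < l := by linarith
  have hp : ∀ {i j : ℕ}, i ≤ j → l ^ i ≤ l ^ j := fun h => pow_le_pow_right₀ hl h
  have e : 2 * (2 * l) * (X / Y) + (34 * L * (2 * l) ^ 2 * (X / Y) +
      (3 * (2 * l) / (1 / l ^ (A + a3 + 1)) * (C2 * (2 * l) ^ a2 *
        (X / l ^ (A + a3 + 1 + a2 + 1 + A + 1) + 5 * (X / Y))) +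
        C3 * (1 / l ^ (A + a3 + 1)) * X * (2 * l) ^ a3)) = X / l ^ A *
      ((4 * l ^ (A + 1) + 136 * L * l ^ (A + 2) +
        30 * 2 ^ a2 * C2 * l ^ (A + a3 + 1 + a2 + 1 + A)) / Y +
        6 * 2 ^ a2 * C2 / l + 2 ^ a3 * C3 / l) := by
    field_simp
    ring
  rw [e]
  refine mul_le_of_le_one_right (by positivity) ?_
  have k1 : (4 * l ^ (A + 1) + 136 * L * l ^ (A + 2) +
      30 * 2 ^ a2 * C2 * l ^ (A + a3 + 1 + a2 + 1 + A)) / Y ≤ 1 / 2 := by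
    rw [div_le_iff₀ hY]
    have q1 : l ^ (A + 1) ≤ l ^ (A + a3 + 1 + a2 + 1 + A) := hp (by omega)
    have q2 : L * l ^ (A + 2) ≤ L * l ^ (A + a3 + 1 + a2 + 1 + A) :=
      mul_le_mul_of_nonneg_left (hp (by omega)) (by linarith)
    linarith
  have k2 : 6 * 2 ^ a2 * C2 / l ≤ 1 / 4 := by rw [div_le_iff₀ l0]; linarith
  have k3 : 2 ^ a3 * C3 / l ≤ 1 / 4 := by rw [div_le_iff₀ l0]; linarith
  linarith

theorem bvl {w : ℝ → ℝ} {K κ : ℝ} (hw : Wg w K) (hκ : 0 < κ) (A : ℕ) : ∃ B : ℕ,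
    ∀ᶠ X : ℝ in atTop, ∀ Q : ℕ, (Q : ℝ) ≤ X ^ (1 / 2 - κ) →
      BQ Q (Real.log X ^ B)
        (fun _ ψ => ∑ n ∈ Ioc 0 ⌊X⌋₊, (w (n / X) : ℂ) * ((lp n : ℂ) * ψ n)) ≤
        X / Real.log X ^ A := by
  obtain ⟨C2, C3, a2, a3, -, -, h⟩ := b4_core hw
  refine ⟨A + a3 + 1 + a2 + 1 + A + 1, ?_⟩
  have hη : 0 < min κ (1 / 40) := lt_min hκ (by norm_num)
  filter_upwards [b4_log (2 * (4 + 136 * K + 30 * 2 ^ a2 * C2)) (A + a3 + 1 + a2 + 1 + A) hη,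
    Real.tendsto_log_atTop.eventually_ge_atTop 1,
    Real.tendsto_log_atTop.eventually_ge_atTop (24 * 2 ^ a2 * C2),
    Real.tendsto_log_atTop.eventually_ge_atTop (4 * 2 ^ a3 * C3),
    (tendsto_rpow_atTop (show (0 : ℝ) < 1 / 40 by norm_num)).eventually_ge_atTop 2,
    eventually_ge_atTop 1] with X h1 hl h2 h3 ht hX Q hQ
  have hX0 : 0 < X := by linarith
  have l0 : 0 < Real.log X := by linarith
  have hY : 1 ≤ X ^ min κ (1 / 40) := Real.one_le_rpow hX hη.le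
  have hpw : ∀ n : ℕ, (X ^ (1 / 40 : ℝ)) ^ n = X ^ ((n : ℝ) / 40) := fun n => by
    rw [← Real.rpow_natCast, ← Real.rpow_mul hX0.le]
    congr 1
    ring
  refine (h X (X ^ (1 / 40 : ℝ)) (X ^ min κ (1 / 40)) (1 / Real.log X ^ (A + a3 + 1))
    (Real.log X ^ (A + a3 + 1 + a2 + 1 + A + 1)) (2 * Real.log X) Q ?_ ht hY
    (Real.rpow_le_rpow_of_exponent_le hX (min_le_right _ _)) (by positivity)
    ((div_le_one (by positivity)).2 (one_le_pow₀ hl)) (one_le_pow₀ hl) ?_ (by linarith)).trans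
    (b4_num hl hX0 (by linarith) hw.L1 h1 h2 h3)
  · rw [hpw]; norm_num
  · rw [hpw]
    calc _ ≤ X ^ (1 / 2 - κ) * X ^ (((20 : ℕ) : ℝ) / 40) * X ^ κ := by
          gcongr
          exact min_le_left _ _
      _ = X := by
          rw [← Real.rpow_add hX0, ← Real.rpow_add hX0,
            show 1 / 2 - κ + ((20 : ℕ) : ℝ) / 40 + κ = 1 by push_cast; ring, Real.rpow_one]

end Pool.Agent.Lib.MP_778b46_nt.GL
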