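import Pool.Agent.Lib.MP_778b46_nt.GL.B6
import Pool.Agent.Lib.MP_778b46_nt.GL.A4

/-!
The same with divisor weights.
-/

set_option autoImplicit false

noncomputable section

namespace Pool.Agent.Lib.MP_778b46_nt.GL

open Finset MeasureTheory Filter
open Pool.Agent.Lib.MP_778b46_nt.MA (lp w1 a1S a1M cf cop R1 I0 RR)
open Pool.Agent.Lib.MP_778b46_nt.VA (ee nd)
open Pool.Agent.Lib.MP_778b46_nt.MA (Wg Fam bV muV er)
open Pool.Agent.Lib.MP_c03ca8_nt.Q (prim)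
open ArithmeticFunction (vonMangoldt)

theorem b7_sum {P : Finset ℕ} (hP : ∀ l ∈ P, l.Prime) {Q n : ℕ} (hQ : Q ≤ n) :
    ∑ B ∈ dd P Q, ∏ l ∈ B, 36 * uu l ≤ mert (Nat.primesLE n) ^ 36 := by
  have h0 : ∀ l ∈ Nat.primesLE n, 0 < uu l := fun l hl => uu_pos (Nat.prime_of_mem_primesLE hl)
  refine (sum_le_sum_of_subset_of_nonneg (t := (Nat.primesLE n).powerset) (fun B hB => ?_)
    fun B hB _ => prod_nonneg fun l hl => by linarith [h0 l (mem_powerset.1 hB hl)]).trans ?_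
  · obtain ⟨h1, h2⟩ := mem_filter.1 hB
    have h3 := fun l hl => hP l (mem_powerset.1 h1 hl)
    exact mem_powerset.2 fun l hl => Nat.mem_primesLE.2 ⟨((Nat.le_of_dvd
      (prod_pos fun l hl => (h3 l hl).pos) (dvd_prod_of_mem _ hl)).trans h2).trans hQ, h3 l hl⟩
  · rw [← prod_one_add, mert, ← prod_pow]
    exact prod_le_prod (fun l hl => by linarith [h0 l hl]) fun l hl => by
      exact_mod_cast one_add_mul_le_pow (by linarith [h0 l hl] : -2 ≤ uu l) 36

theorem bvw {κ : ℝ} (hκ : 0 < κ) (A : ℕ) : ∀ᶠ X : ℝ in atTop, ∀ (P : Finset ℕ) (Q : ℕ) (h : ℤ),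
    (∀ l ∈ P, l.Prime) → (Q : ℝ) ≤ X ^ (1 / 2 - κ) →
      ∑ B ∈ dd P Q, 6 ^ B.card * DS X (∏ l ∈ B, l) h ≤ X / Real.log X ^ A := by
  obtain ⟨C, hC, hm⟩ := mert_le
  filter_upwards [bv hκ (2 * A + 39), eventually_ge_atTop (2 : ℝ),
    Real.tendsto_log_atTop.eventually_ge_atTop (8 * C ^ 36)] with X h1 h2 h3 P Q h hP hQ
  have c1 : 1 ≤ C ^ 36 := one_le_pow₀ hC
  have hQX : (Q : ℝ) ≤ X := hQ.trans (by
    simpa using Real.rpow_le_rpow_of_exponent_le (by linarith : 1 ≤ X)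
      (by linarith : 1 / 2 - κ ≤ 1))
  have hn : 2 ≤ ⌊X⌋₊ := Nat.le_floor (by exact_mod_cast h2)
  have h4 := (hm _ hn _ Subset.rfl).trans (mul_le_mul_of_nonneg_left (Real.log_le_log
    (by exact_mod_cast (by omega : 0 < ⌊X⌋₊)) (Nat.floor_le (by linarith))) (by linarith))
  have h5 := (b7_sum hP (Nat.le_floor hQX)).trans (pow_le_pow_left₀ (zero_le_one.trans
    (one_le_mert fun l hl => Nat.prime_of_mem_primesLE hl)) h4 36)
  have h6 := (sum_dd_le hP Q (f := fun d => DS X d h) fun d => abs_nonneg _).trans (h1 Q h hQ)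
  generalize hL : Real.log X = L at h3 h5 h6 ⊢
  have L0 : 0 < L := by linarith
  have T0 : 0 < L ^ (A + 38) := by positivity
  have h7 : ∀ B ∈ dd P Q, 6 ^ B.card * DS X (∏ l ∈ B, l) h ≤
      L ^ (A + 38) * DS X (∏ l ∈ B, l) h + 4 * L * X / L ^ (A + 38) * ∏ l ∈ B, 36 * uu l := by
    intro B hB
    obtain ⟨b1, b2⟩ := mem_filter.1 hB
    have b3 := fun l hl => hP l (mem_powerset.1 b1 hl)
    have b4 : 0 < ∏ l ∈ B, l := prod_pos fun l hl => (b3 l hl).pos
    have b5 := ds_triv b4 ((Nat.cast_le.2 b2).trans hQX) h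
    have b6 : 0 ≤ ∏ l ∈ B, uu l := prod_nonneg fun l hl => (uu_pos (b3 l hl)).le
    rw [hL, div_eq_mul_inv, ← eq_inv_of_mul_eq_one_right (tot_prod B b3)] at b5
    have b7 : DS X (∏ l ∈ B, l) h ≤ 4 * L * X * ∏ l ∈ B, uu l :=
      b5.trans (mul_le_mul_of_nonneg_right
        (mul_le_mul_of_nonneg_right (by linarith) (by linarith)) b6)
    have b8 : (6 : ℝ) ^ B.card ≤ L ^ (A + 38) + 36 ^ B.card / L ^ (A + 38) := by
      rw [add_div' _ _ _ T0.ne', le_div_iff₀ T0, show (36 : ℝ) = 6 * 6 by norm_num, mul_pow]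
      nlinarith [sq_nonneg (L ^ (A + 38) - 6 ^ B.card), pow_pos (by norm_num : (0 : ℝ) < 6) B.card]
    refine (mul_le_mul_of_nonneg_right b8 (abs_nonneg _)).trans ?_
    rw [add_mul, prod_mul_distrib, prod_const]
    refine add_le_add le_rfl ((mul_le_mul_of_nonneg_left b7 (by positivity)).trans_eq ?_)
    ring
  refine (sum_le_sum h7).trans ?_
  rw [sum_add_distrib, ← mul_sum, ← mul_sum]
  refine (add_le_add (mul_le_mul_of_nonneg_left h6 T0.le)
    (mul_le_mul_of_nonneg_left h5 (by positivity))).trans ?_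
  have e : L ^ (A + 38) * (X / L ^ (2 * A + 39)) + 4 * L * X / L ^ (A + 38) * (C * L) ^ 36 =
      X / L ^ A * ((1 + 4 * C ^ 36) / L) := by
    field_simp
    ring
  rw [e]
  exact mul_le_of_le_one_right (by positivity) ((div_le_one L0).2 (by linarith))

end Pool.Agent.Lib.MP_778b46_nt.GL
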