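import Pool.Agent.Lib.MP_778b46_nt.MA.A1
import Pool.Agent.Lib.MP_778b46_nt.Sieve

/-!
Two primes and six powers of two: definitions.
-/

set_option autoImplicit false

noncomputable section

namespace Pool.Agent.Lib.MP_778b46_nt.GL

open Finset MeasureTheory
open Pool.Agent.Lib.MP_778b46_nt.MA (lp w1 a1S a1M cf)
open Pool.Agent.Lib.MP_778b46_nt.VA (ee)

/-- `N` is a sum of two primes and `k` powers of two with exponents at least `e`. -/
def Rep (k e N : ℕ) : Prop :=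
  ∃ p q : ℕ, p.Prime ∧ q.Prime ∧ ∃ a : Fin k → ℕ, (∀ i, e ≤ a i) ∧ N = p + q + ∑ i, 2 ^ a i

/-- The exponential sum over the powers of two. -/
def GE (L : ℕ) (x : ℝ) : ℂ := ∑ j ∈ range L, ee (2 ^ (j + 5) * x)

/-- Its mean. -/
def zz (L : ℕ) (x : ℝ) : ℂ := GE L x / L

/-- The polynomial weight; its value at one is one. -/
def Pq (z : ℂ) : ℂ := z ^ 3 * (5 * z - 3) / 2

/-- The average over one power of two. -/
def av (L : ℕ) (f : ℤ → ℝ) (N : ℤ) : ℝ := (L : ℝ)⁻¹ * ∑ j ∈ range L, f (N - 2 ^ (j + 5))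

/-- The signed average over six and five powers of two. -/
def DA (L : ℕ) (f : ℤ → ℝ) (N : ℤ) : ℝ := 5 / 2 * (av L)^[6] f N - 3 / 2 * (av L)^[5] f N

/-- The average over the differences of two powers of two. -/
def pav (L : ℕ) (f : ℤ → ℝ) : ℝ := (L : ℝ)⁻¹ * ∑ i ∈ range L, av L f (2 ^ (i + 5))

/-- The real part of a Fourier coefficient. -/
def FC (F : ℝ → ℂ) (m : ℤ) : ℝ := (∫ x in (0 : ℝ)..1, F x * ee (-(m * x))).re

/-- The singular series over the squarefree moduli up to `R`. -/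
def ST (R : ℕ) (m : ℤ) : ℝ := ∑ S ∈ dd (Nat.primesLE R) R, ∏ l ∈ S, rho l m

/-- The odd primes up to `y`. -/
def od3 (y : ℕ) : Finset ℕ := (Nat.primesLE y).erase 2

/-- The singular series over the products of odd primes up to `y`. -/
def SO (y : ℕ) (m : ℤ) : ℝ := ∏ l ∈ od3 y, (1 + rho l m)

/-- A majorant of half the complete singular series, zero at zero. -/
def SM (y : ℕ) (h : ℤ) : ℝ :=
  if h = 0 then 0 else (∏ l ∈ (od3 y).filter (fun l : ℕ => ¬ (l : ℤ) ∣ h), (1 - uu l ^ 2)) *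
    ∏ l ∈ h.natAbs.primeFactors.erase 2, (1 + uu l)

/-- The factor of Romanov type. -/
def fr (t : ℕ) : ℝ := ∏ l ∈ (2 ^ t - 1 : ℕ).primeFactors, (1 + 1 / (((l : ℕ) : ℝ) - 2))

/-- The mean of the square of the weight. -/
def I2 : ℝ := ∫ x : ℝ, w1 x ^ 2

/-- The weights of the primes. -/
def pw (X : ℝ) (n : ℕ) : ℝ := lp n * w1 (n / X) ^ 2

/-- The discrepancy of the primes in the class `-h` modulo `d`. -/
def DS (X : ℝ) (d : ℕ) (h : ℤ) : ℝ :=
  |∑ n ∈ (Icc 1 ⌊X⌋₊).filter (fun n : ℕ => (d : ℤ) ∣ n + h), pw X n -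
    if IsCoprime h d then X * I2 / Nat.totient d else 0|

/-- The weighted number of prime pairs with difference `h`. -/
def RP (X : ℝ) (h : ℕ) : ℝ := ∑ n ∈ Icc 1 ⌊X⌋₊, pw X n * lp (n + h)

/-- The model of the primes. -/
def lm (R n : ℕ) : ℝ := sig (Nat.primesLE R) R n

/-- The exponential sum of the model. -/
def VS (X : ℝ) (R : ℕ) (x : ℝ) : ℂ :=
  ∑ n ∈ Icc 1 ⌊X⌋₊, ((lm R n * w1 (n / X) : ℝ) : ℂ) * ee (n * x)

/-- The coefficients of the difference. -/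
def uf (X : ℝ) (R n : ℕ) : ℝ := (lp n - lm R n) * w1 (n / X)

/-- Their correlation. -/
def CU (X : ℝ) (R h : ℕ) : ℝ := ∑ n ∈ Icc 1 ⌊X⌋₊, uf X R n * uf X R (n + h)

/-- Large deviations: outside a small set the polynomial weight is small. -/
def LD : Prop :=
  ∃ r C : ℝ, 0 < r ∧ r ^ 12 < 1 / 128 ∧ ∀ L : ℕ, 1 ≤ L → ∃ u : ℝ → ℝ, Continuous u ∧
    (∀ x, 0 ≤ u x) ∧ ∫ x in (0 : ℝ)..1, u x ≤ C * r ^ L ∧
      ∀ x, u x < 1 → ‖Pq (zz L x)‖ ≤ 28 / 125

end Pool.Agent.Lib.MP_778b46_nt.GL
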