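import Pool.Agent.Lib.MP_778b46_nt.GL.A2
import Pool.Agent.Lib.MP_778b46_nt.GL.A3
import Pool.Agent.Lib.MP_778b46_nt.MB.Mi

/-!
The exceptional part of the minor arcs.
-/

set_option autoImplicit false

noncomputable section

namespace Pool.Agent.Lib.MP_778b46_nt.GL

open Finset MeasureTheory Filter
open Pool.Agent.Lib.MP_778b46_nt.MA (lp w1 a1S a1M cf cop R1 I0 RR)
open Pool.Agent.Lib.MP_778b46_nt.VA (ee nd)

theorem f1a_pt {σ z p ρ t u : ℝ} (hσ : 0 ≤ σ) (hz0 : 0 ≤ z) (hz : z ≤ 1) (hp : p ≤ 4) (hρ : 0 ≤ ρ)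
    (ht : 0 < t) (h0 : 0 ≤ u) (h1 : u < 1 → p ≤ ρ) :
    σ * (z ^ 2 * p) ≤ ρ * (σ * z ^ 2) + 2 * t * u + 2 / t * σ ^ 2 := by
  have a1 : 0 ≤ σ * z ^ 2 := by positivity
  have a2 : 0 ≤ 2 / t * σ ^ 2 := by positivity
  have a3 : 0 ≤ 2 * t * u := by positivity
  rcases lt_or_ge u 1 with h | h
  · nlinarith [mul_le_mul_of_nonneg_left (h1 h) a1]
  · have b1 : z ^ 2 ≤ 1 := pow_le_one₀ hz0 hz
    have b2 : σ * z ^ 2 * p ≤ 4 * σ := by
      nlinarith [mul_le_mul_of_nonneg_left hp a1, mul_le_mul_of_nonneg_left b1 hσ]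
    have b3 : 4 * σ ≤ 2 * t + 2 / t * σ ^ 2 := by
      have e : 2 * t + 2 / t * σ ^ 2 - 4 * σ = 2 / t * (σ - t) ^ 2 := by
        field_simp
        ring
      have : 0 ≤ 2 / t * (σ - t) ^ 2 := by positivity
      linarith
    nlinarith [mul_nonneg hρ a1, mul_le_mul_of_nonneg_left h ht.le]

theorem e_part {X P H ρ t : ℝ} {L : ℕ} (hL : 1 ≤ L) (hρ : 0 ≤ ρ) (ht : 0 < t) {u : ℝ → ℝ}
    (hu : Continuous u) (h0 : ∀ x, 0 ≤ u x) (h1 : ∀ x, u x < 1 → ‖Pq (zz L x)‖ ≤ ρ) :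
    ∫ x in (0 : ℝ)..1, |1 - a1M X P H x| * ‖a1S X x‖ ^ 2 * (‖zz L x‖ ^ 2 * ‖Pq (zz L x)‖) ≤
      ρ * (∫ x in (0 : ℝ)..1, |1 - a1M X P H x| * ‖a1S X x‖ ^ 2 * ‖zz L x‖ ^ 2) +
        2 * t * (∫ x in (0 : ℝ)..1, u x) +
        2 / t * ∫ x in (0 : ℝ)..1, (1 - a1M X P H x) ^ 2 * ‖a1S X x‖ ^ 4 := by
  have c1 := a1M_cont X P H
  have c2 := MA.a1S_cont X
  have c3 := zz_cont L
  have c4 : Continuous fun x => Pq (zz L x) := by
    unfold Pq
    fun_prop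
  have i1 : Continuous fun x => ρ * (|1 - a1M X P H x| * ‖a1S X x‖ ^ 2 * ‖zz L x‖ ^ 2) := by
    fun_prop
  have i2 : Continuous fun x => 2 * t * u x := by fun_prop
  have i3 : Continuous fun x => 2 / t * ((1 - a1M X P H x) ^ 2 * ‖a1S X x‖ ^ 4) := by fun_prop
  rw [← intervalIntegral.integral_const_mul, ← intervalIntegral.integral_const_mul,
    ← intervalIntegral.integral_const_mul,
    ← intervalIntegral.integral_add (i1.intervalIntegrable _ _) (i2.intervalIntegrable _ _),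
    ← intervalIntegral.integral_add ((i1.fun_add i2).intervalIntegrable _ _)
      (i3.intervalIntegrable _ _)]
  refine intervalIntegral.integral_mono_on zero_le_one
    (Continuous.intervalIntegrable (by fun_prop) _ _)
    (((i1.fun_add i2).fun_add i3).intervalIntegrable _ _) fun x _ => ?_
  have hL' : (1 : ℝ) ≤ L := by exact_mod_cast hL
  have hp : ‖Pq (zz L x)‖ ≤ 4 := (pq_le hL x).trans (by
    have : (3 : ℝ) / L ≤ 3 := div_le_self (by norm_num) hL'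
    linarith)
  have e : (1 - a1M X P H x) ^ 2 * ‖a1S X x‖ ^ 4 = (|1 - a1M X P H x| * ‖a1S X x‖ ^ 2) ^ 2 := by
    rw [mul_pow, sq_abs]
    ring
  rw [e]
  exact f1a_pt (by positivity) (norm_nonneg _) (norm_zz_le L x) hp hρ ht (h0 x) (h1 x)

theorem minor_le (h : LD) {η : ℝ} (hη : 0 < η) : ∃ θ κ : ℝ, 5 / 12 - η ≤ θ ∧ θ < 5 / 12 ∧ 0 < κ ∧
    κ ≤ η ∧ ∀ ε : ℝ, 0 < ε → ∀ᶠ X : ℝ in atTop, ∀ (H : ℝ) (L : ℕ), X ^ θ ≤ H → X ^ θ * H ≤ X →
      1 ≤ L → (1 - 2 * κ) * Real.log X ≤ L * Real.log 2 →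
      ∫ x in (0 : ℝ)..1, |1 - a1M X (X ^ θ) H x| * ‖a1S X x‖ ^ 2 *
          (‖zz L x‖ ^ 2 * ‖Pq (zz L x)‖) ≤
        28 / 125 * (∫ x in (0 : ℝ)..1, |1 - a1M X (X ^ θ) H x| * ‖a1S X x‖ ^ 2 * ‖zz L x‖ ^ 2) +
          ε * X := by
  obtain ⟨r, C, hr0, hr1, hLD⟩ := h
  have l2 : 0 < Real.log 2 := Real.log_pos one_lt_two
  obtain ⟨c, hc⟩ : ∃ c : ℝ, c = -Real.log r / Real.log 2 := ⟨_, rfl⟩
  have hcr : Real.log r = -(c * Real.log 2) := by rw [hc]; field_simp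
  have hc7 : 7 / 12 < c := by
    have h1 := Real.log_lt_log (pow_pos hr0 12) hr1
    have e : (1 / 128 : ℝ) = (2 ^ 7)⁻¹ := by norm_num
    rw [e, Real.log_inv, Real.log_pow, Real.log_pow, hcr] at h1
    push_cast at h1
    by_contra hn
    have := mul_le_mul_of_nonneg_right (not_lt.1 hn) l2.le
    linarith
  have hc0 : 0 < c := by linarith
  obtain ⟨d, hd⟩ : ∃ d : ℝ, d = (c - 7 / 12) / 8 := ⟨_, rfl⟩
  have hd0 : 0 < d := by rw [hd]; linarith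
  obtain ⟨m, hm⟩ : ∃ m : ℝ, m = min η (min d (1 / 12)) := ⟨_, rfl⟩
  have hm0 : 0 < m := by rw [hm]; exact lt_min hη (lt_min hd0 (by norm_num))
  have hm1 : m ≤ η := hm ▸ min_le_left _ _
  have hm2 : m ≤ d := hm ▸ (min_le_right _ _).trans (min_le_left _ _)
  have hm3 : m ≤ 1 / 12 := hm ▸ (min_le_right _ _).trans (min_le_right _ _)
  obtain ⟨κ, hκ⟩ : ∃ κ : ℝ, κ = min η (d / c) := ⟨_, rfl⟩
  have hκ0 : 0 < κ := by rw [hκ]; exact lt_min hη (div_pos hd0 hc0)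
  have hκ1 : κ ≤ η := hκ ▸ min_le_left _ _
  have hκ2 : κ * c ≤ d := by
    rw [← le_div_iff₀ hc0, hκ]
    exact min_le_right _ _
  refine ⟨5 / 12 - m, κ, by linarith, by linarith, hκ0, hκ1, fun ε hε => ?_⟩
  obtain ⟨C2, hC2, hmi⟩ := MB.minor_int hd0
  obtain ⟨a, ha⟩ : ∃ a : ℝ, a = c * (1 - 2 * κ) := ⟨_, rfl⟩
  have hexp : 1 + 3 * d ≤ a + (5 / 12 - m) := by
    rw [ha]
    nlinarith
  have hD : 0 < 2 * max C 0 + 2 * C2 + 1 := by
    have := le_max_right C 0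
    linarith
  have hev : ∀ᶠ X : ℝ in atTop, X ^ (-d) ≤ ε / (2 * max C 0 + 2 * C2 + 1) :=
    (tendsto_rpow_neg_atTop hd0).eventually (ge_mem_nhds (div_pos hε hD))
  filter_upwards [hev, eventually_ge_atTop (64 : ℝ)] with X hX1 hX H L h1 h2 hL h3
  have hX0 : 0 < X := by linarith
  have hX1' : 1 ≤ X := by linarith
  obtain ⟨u, hu, hu0, hu1, hu2⟩ := hLD L hL
  have ht : 0 < X ^ (1 + a - d) := Real.rpow_pos_of_pos hX0 _
  have k1 := e_part (X := X) (P := X ^ (5 / 12 - m)) (H := H) hL (by norm_num : (0 : ℝ) ≤ 28 / 125)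
    ht hu hu0 hu2
  have k2 := hmi X (X ^ (5 / 12 - m)) H hX (Real.one_le_rpow hX1' (by linarith)) h1 h2
    (Real.rpow_le_rpow_of_exponent_le hX1' (by linarith))
  have k3 : r ^ L ≤ X ^ (-a) := by
    rw [← Real.rpow_natCast, Real.rpow_def_of_pos hr0, Real.rpow_def_of_pos hX0, Real.exp_le_exp,
      hcr, ha]
    have := mul_le_mul_of_nonneg_left h3 hc0.le
    nlinarith
  have k4 : ∫ x in (0 : ℝ)..1, u x ≤ max C 0 * X ^ (-a) :=
    hu1.trans ((mul_le_mul_of_nonneg_right (le_max_left _ _) (pow_pos hr0 L).le).trans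
      (mul_le_mul_of_nonneg_left k3 (le_max_right _ _)))
  have e1 : X ^ (1 + a - d) * X ^ (-a) = X ^ (-d) * X := by
    rw [← Real.rpow_add hX0, ← Real.rpow_add_one hX0.ne']
    congr 1
    ring
  have e2 : X ^ (3 + d) / X ^ (5 / 12 - m) / X ^ (1 + a - d) ≤ X ^ (-d) * X := by
    rw [← Real.rpow_sub hX0, ← Real.rpow_sub hX0, ← Real.rpow_add_one hX0.ne']
    exact Real.rpow_le_rpow_of_exponent_le hX1' (by linarith)
  have k5 : 2 * X ^ (1 + a - d) * (∫ x in (0 : ℝ)..1, u x) ≤ 2 * max C 0 * (X ^ (-d) * X) := by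
    rw [← e1]
    have := mul_le_mul_of_nonneg_left k4 ht.le
    nlinarith
  have k6 : 2 / X ^ (1 + a - d) *
      (∫ x in (0 : ℝ)..1, (1 - a1M X (X ^ (5 / 12 - m)) H x) ^ 2 * ‖a1S X x‖ ^ 4) ≤
      2 * C2 * (X ^ (-d) * X) := by
    refine (mul_le_mul_of_nonneg_left k2 (by positivity)).trans ?_
    have := mul_le_mul_of_nonneg_left e2 (by positivity : 0 ≤ 2 * C2)
    refine le_trans (le_of_eq ?_) this
    ring
  rw [le_div_iff₀ hD] at hX1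
  have k7 := mul_le_mul_of_nonneg_right hX1 hX0.le
  have k8 : 0 < X ^ (-d) * X := mul_pos (Real.rpow_pos_of_pos hX0 _) hX0
  nlinarith

theorem exists_L {κ : ℝ} (h0 : 0 < κ) (h1 : κ ≤ 1 / 100) : ∀ᶠ X : ℝ in atTop, ∃ L : ℕ,
    27720 ∣ L ∧ (2 : ℝ) ^ (L + 5) ≤ X ^ (1 - κ) ∧ (1 - 2 * κ) * Real.log X ≤ L * Real.log 2 ∧
      Real.log X ≤ L ∧ 2 * X ≤ 8 ^ L := by
  have l1 := Real.log_two_gt_d9
  have l2 := Real.log_two_lt_d9
  filter_upwards [Real.tendsto_log_atTop.eventually_ge_atTop (27725 / κ), eventually_gt_atTop 0]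
    with X hX hX0
  have hk : 27725 ≤ κ * Real.log X := by rwa [div_le_iff₀' h0] at hX
  have hl : 2772500 ≤ Real.log X := by nlinarith [(div_pos (by norm_num) h0).le.trans hX]
  set y : ℝ := ((1 - κ) * Real.log X / Real.log 2 - 5) / 27720 with hy
  have ey : 27720 * y * Real.log 2 = (1 - κ) * Real.log X - 5 * Real.log 2 := by
    rw [hy]
    field_simp
  have hk2 : κ * Real.log X ≤ Real.log X / 100 := by nlinarith
  have hy0 : 0 ≤ y := by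
    by_contra hn
    nlinarith [mul_pos (neg_pos.2 (not_le.1 hn)) (show 0 < Real.log 2 by linarith)]
  have f1 : (⌊y⌋₊ : ℝ) * Real.log 2 ≤ y * Real.log 2 :=
    mul_le_mul_of_nonneg_right (Nat.floor_le hy0) (by linarith)
  have f2 : y * Real.log 2 ≤ (⌊y⌋₊ + 1 : ℝ) * Real.log 2 :=
    mul_le_mul_of_nonneg_right (Nat.lt_floor_add_one y).le (by linarith)
  have g : (1 - 2 * κ) * Real.log X ≤ ((27720 * ⌊y⌋₊ : ℕ) : ℝ) * Real.log 2 := by
    push_cast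
    nlinarith
  refine ⟨27720 * ⌊y⌋₊, dvd_mul_right _ _, ?_, g, ?_, ?_⟩
  · rw [← Real.log_le_log_iff (by positivity) (by positivity), Real.log_pow, Real.log_rpow hX0]
    push_cast
    nlinarith
  · have : (0 : ℝ) ≤ ((27720 * ⌊y⌋₊ : ℕ) : ℝ) := Nat.cast_nonneg _
    nlinarith [mul_le_mul_of_nonneg_left l2.le this]
  · rw [← Real.log_le_log_iff (by positivity) (by positivity), Real.log_pow,
      Real.log_mul (by norm_num) hX0.ne', show (8 : ℝ) = 2 ^ 3 by norm_num, Real.log_pow]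
    push_cast at g ⊢
    nlinarith

end Pool.Agent.Lib.MP_778b46_nt.GL
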