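import Pool.Agent.Lib.MP_778b46_nt.GL.R9
import Pool.Agent.Lib.MP_778b46_nt.GL.A1
import Pool.Agent.Lib.MP_778b46_nt.GL.A5

/-!
The mean of the majorant of the singular series.
-/

set_option autoImplicit false

noncomputable section

namespace Pool.Agent.Lib.MP_778b46_nt.GL

open Finset MeasureTheory Filter
open Pool.Agent.Lib.MP_778b46_nt.MA (lp w1 a1S a1M cf cop R1 I0 RR)
open Pool.Agent.Lib.MP_778b46_nt.VA (ee nd)

theorem c300 : ∏ l ∈ od3 300, (1 - uu l ^ 2) ≤ 6607 / 10000 := by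
  have h : ∏ l ∈ od3 300, (1 - (1 / ((l : ℚ) - 1)) ^ 2) ≤ 6607 / 10000 := by decide +kernel
  have h2 := (Rat.cast_le (K := ℝ)).2 h
  push_cast at h2
  simpa only [uu] using h2

theorem r10_uu {l : ℕ} (h : 3 ≤ l) : 0 ≤ 1 - uu l ^ 2 ∧ 1 - uu l ^ 2 ≤ 1 ∧
    0 ≤ 1 + 1 / ((l : ℝ) - 2) ∧ 1 + uu l = (1 - uu l ^ 2) * (1 + 1 / ((l : ℝ) - 2)) := by
  have h1 : (3 : ℝ) ≤ l := by exact_mod_cast h
  have h2 : (0 : ℝ) < l - 1 := by linarith
  have h3 : (0 : ℝ) < l - 2 := by linarith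
  have h4 : uu l ≤ 1 := by rw [uu, div_le_one h2]; linarith
  have h5 : 0 ≤ uu l := by rw [uu]; positivity
  refine ⟨by nlinarith, by nlinarith, by positivity, ?_⟩
  rw [uu]; field_simp; ring

theorem sm_le {y : ℕ} (hy : 300 ≤ y) (a : ℕ) {t : ℕ} (ht : 1 ≤ t) {h : ℤ}
    (hh : h.natAbs = 2 ^ a * (2 ^ t - 1)) : SM y h ≤ 6607 / 10000 * fr t := by
  have t1 : 2 ≤ 2 ^ t := by simpa using Nat.pow_le_pow_right (by norm_num : 0 < 2) ht
  have t2 : 2 ∣ 2 ^ t := dvd_pow_self 2 (by omega)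
  have n0 : h.natAbs ≠ 0 := hh ▸ mul_ne_zero (by positivity) (by omega)
  have hQ : h.natAbs.primeFactors.erase 2 = (2 ^ t - 1).primeFactors := by
    ext l
    simp only [mem_erase, Nat.mem_primeFactors]
    constructor
    · rintro ⟨l2, lp, ld, -⟩
      refine ⟨lp, ((Nat.Prime.dvd_mul lp).1 (hh ▸ ld)).resolve_left fun e => l2 ?_, by omega⟩
      exact (Nat.prime_dvd_prime_iff_eq lp Nat.prime_two).1 (lp.dvd_of_dvd_pow e)
    · rintro ⟨lp, ld, -⟩
      exact ⟨by rintro rfl; omega, lp, hh ▸ ld.mul_left _, n0⟩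
  have q3 : ∀ l ∈ (2 ^ t - 1).primeFactors, 3 ≤ l := fun l hl => by
    rw [← hQ, mem_erase] at hl
    have := (Nat.prime_of_mem_primeFactors hl.2).two_le
    omega
  have o3 : ∀ z, ∀ l ∈ od3 z, 3 ≤ l := fun z l hl => by
    rw [od3, mem_erase] at hl
    have := (Nat.prime_of_mem_primesLE hl.2).two_le
    omega
  rw [SM, if_neg (fun e => n0 (by simp [e])), hQ, prod_congr rfl fun l hl => (r10_uu (q3 l hl)).2.2.2,
    prod_mul_distrib, ← mul_assoc, ← prod_union]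
  · refine mul_le_mul_of_nonneg_right (le_trans ?_ c300)
      (prod_nonneg fun l hl => (r10_uu (q3 l hl)).2.2.1)
    have a3 : ∀ l ∈ (od3 y).filter (fun l : ℕ => ¬ (l : ℤ) ∣ h) ∪ (2 ^ t - 1).primeFactors,
        3 ≤ l := fun l hl => (mem_union.1 hl).elim (fun e => o3 y l (mem_filter.1 e).1) (q3 l)
    refine prod_le_prod_of_subset_of_le_one (fun l hl => ?_) (fun l hl => (r10_uu (a3 l hl)).1)
      fun l hl _ => (r10_uu (a3 l hl)).2.1
    rw [od3, mem_erase, Nat.mem_primesLE] at hl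
    by_cases e : (l : ℤ) ∣ h
    · refine mem_union_right _ (hQ ▸ mem_erase.2 ⟨hl.1, ?_⟩)
      exact Nat.mem_primeFactors.2 ⟨hl.2.2, Int.natCast_dvd.1 e, n0⟩
    · refine mem_union_left _ (mem_filter.2 ⟨?_, e⟩)
      rw [od3, mem_erase, Nat.mem_primesLE]
      exact ⟨hl.1, hl.2.1.trans hy, hl.2.2⟩
  · rw [disjoint_left]
    intro l h1 h2
    rw [← hQ] at h2
    exact (mem_filter.1 h1).2
      (Int.natCast_dvd.2 (Nat.dvd_of_mem_primeFactors (mem_erase.1 h2).2))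

theorem r10_row {y : ℕ} (hy : 300 ≤ y) (L : ℕ) (s : ℕ → ℤ)
    (hs : ∀ j, (s j).natAbs = ((2 : ℤ) ^ (L + 5) - 2 ^ (j + 5)).natAbs) :
    ∑ j ∈ range L, SM y (s j) ≤ 13 / 10 * L := by
  have h1 : ∑ j ∈ range L, SM y (s j) ≤ ∑ j ∈ range L, 6607 / 10000 * fr (L - j) := by
    refine sum_le_sum fun j hj => ?_
    obtain ⟨t, rfl⟩ := Nat.exists_eq_add_of_lt (mem_range.1 hj)
    refine sm_le hy (j + 5) (by omega) ?_
    have e : j + t + 1 - j = t + 1 := by omega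
    have e1 : 1 ≤ 2 ^ (t + 1) := Nat.one_le_two_pow
    rw [hs, e, ← Int.natAbs_natCast (2 ^ (j + 5) * (2 ^ (t + 1) - 1))]
    congr 1
    push_cast [e1]
    ring
  have h2 : ∑ j ∈ range L, fr (L - j) = ∑ t ∈ Icc 1 L, fr t := by
    refine sum_nbij' (fun j => L - j) (fun j => L - j) ?_ ?_ ?_ ?_ ?_ <;>
      simp only [mem_range, mem_Icc] <;> intros <;> first | omega | trivial
  rw [← mul_sum, h2] at h1
  have h3 := rom L
  have h4 : (0 : ℝ) ≤ L := Nat.cast_nonneg L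
  linarith

theorem pav_sm {y : ℕ} (hy : 300 ≤ y) (L : ℕ) : pav L (SM y) ≤ 13 / 10 := by
  have h : ∀ L : ℕ, ∑ i ∈ range L, ∑ j ∈ range L, SM y (2 ^ (i + 5) - 2 ^ (j + 5)) ≤
      13 / 10 * (L : ℝ) ^ 2 := fun L => by
    induction L with
    | zero => simp
    | succ L ih =>
      have a := r10_row hy L (fun j => 2 ^ (L + 5) - 2 ^ (j + 5)) fun _ => rfl
      have b := r10_row hy L (fun j => 2 ^ (j + 5) - 2 ^ (L + 5)) fun _ => by
        rw [← Int.natAbs_neg, neg_sub]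
      have c : SM y (2 ^ (L + 5) - 2 ^ (L + 5)) = 0 := by simp [SM]
      simp only [sum_range_succ, sum_add_distrib, c]
      push_cast
      nlinarith
  rcases Nat.eq_zero_or_pos L with rfl | hL
  · simp [pav]; norm_num
  have h0 : (0 : ℝ) < L := by exact_mod_cast hL
  simp only [pav, av, ← mul_sum]
  rw [← mul_assoc, ← mul_inv, inv_mul_le_iff₀ (by positivity)]
  nlinarith [h L]

end Pool.Agent.Lib.MP_778b46_nt.GL
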