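import Pool.Agent.Lib.MP_778b46_nt.GL.S2
import Pool.Agent.Lib.MP_778b46_nt.GL.B7

/-!
The upper bound for the prime pairs.
-/

set_option autoImplicit false

noncomputable section

namespace Pool.Agent.Lib.MP_778b46_nt.GL

open Finset MeasureTheory Filter
open Pool.Agent.Lib.MP_778b46_nt.MA (lp w1 a1S a1M cf cop R1 I0 RR)
open Pool.Agent.Lib.MP_778b46_nt.VA (ee nd)

theorem s3_lp {m : ℕ} {Y : ℝ} (h1 : 1 ≤ Y) (h : (m : ℝ) ≤ Y) : lp m ≤ Real.log Y := by
  unfold MA.lp
  split_ifs with hp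
  · exact Real.log_le_log (by exact_mod_cast hp.pos) h
  · exact Real.log_nonneg h1

theorem s3_sieve {X : ℝ} (hX : 1 ≤ X) {z h : ℕ} (hz : (z : ℝ) ≤ X / 4) (hh : (h : ℝ) ≤ X)
    (hg : 0 < g2 (Ph z h) z) : RP X h ≤ Real.log (2 * X) / g2 (Ph z h) z ^ 2 *
      ∑ n ∈ Icc 1 ⌊X⌋₊, pw X n * s2 (Ph z h) z (n + h) ^ 2 := by
  have hl : 0 ≤ Real.log (2 * X) := Real.log_nonneg (by linarith)
  rw [RP, mul_sum]
  refine sum_le_sum fun n hn => ?_
  have h0 := pw_nonneg X n
  have hn' : (n : ℝ) ≤ X := (Nat.le_floor_iff (by linarith)).1 (mem_Icc.1 hn).2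
  by_cases h1 : (n : ℝ) ≤ X / 4
  · rw [pw_zero (by linarith) (.inl h1)]
    simp
  by_cases hp : (n + h).Prime
  · have h2 : z < n + h := by
      have : (z : ℝ) < n := by linarith [not_le.1 h1]
      have : z < n := by exact_mod_cast this
      omega
    have h3 := s2_prime (h := h) hp h2
    push_cast at h3
    rw [h3]
    have h4 : lp (n + h) ≤ Real.log (2 * X) := s3_lp (by linarith) (by push_cast; linarith)
    calc pw X n * lp (n + h) ≤ pw X n * Real.log (2 * X) := by gcongr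
      _ = _ := by field_simp
  · rw [MA.lp, if_neg hp, mul_zero]
    positivity

theorem rp_le {ε : ℝ} (hε : 0 < ε) {y : ℕ} (hy : 2 ≤ y) : ∀ᶠ X : ℝ in atTop, ∀ h : ℕ, 0 < h →
    Even h → (h : ℝ) ≤ X → RP X h ≤ (8 + ε) * (X * I2) * SM y h + ε * X := by
  obtain ⟨C, hC1, hC⟩ := mert_le
  obtain ⟨θ, hθ⟩ : ∃ θ : ℝ, θ = 1 / (4 + ε / 4) := ⟨_, rfl⟩
  have t0 : 0 < θ := by rw [hθ]; positivity
  have t1 : (4 + ε / 4) * θ = 1 := by rw [hθ]; field_simp
  have t2 : 0 < 1 / 2 - 2 * θ := by nlinarith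
  have hq : (1 : ℝ) ≤ primorial y := by exact_mod_cast primorial_pos y
  have e1 := Real.tendsto_log_atTop.eventually_ge_atTop
    ((Real.log 2 + (4 + ε / 2) * Real.log (primorial y)) / (ε / 4 * θ))
  have e2 := Real.tendsto_log_atTop.eventually_ge_atTop (2 * C ^ 4 / ε)
  have e3 := (tendsto_rpow_atTop t0).eventually_ge_atTop (y : ℝ)
  filter_upwards [bvw t2 6, e1, e2, e3, eventually_ge_atTop (16 : ℝ)] with X hbv e1 e2 e3 hX
    h h0 h2 hh
  have hX0 : 0 < X := by linarith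
  obtain ⟨z, hz⟩ : ∃ z : ℕ, z = ⌊X ^ θ⌋₊ := ⟨_, rfl⟩
  have z1 : (z : ℝ) ≤ X ^ θ := hz ▸ Nat.floor_le (by positivity)
  have z2 : X ^ θ < z + 1 := hz ▸ Nat.lt_floor_add_one _
  have z3 : y ≤ z := hz ▸ Nat.le_floor e3
  have z4 : ((z ^ 2 : ℕ) : ℝ) ≤ X ^ (1 / 2 - (1 / 2 - 2 * θ)) := by
    rw [show 1 / 2 - (1 / 2 - 2 * θ) = θ * (2 : ℕ) by push_cast; ring, Real.rpow_mul_natCast hX0.le]
    push_cast
    gcongr
  have z5 : (z : ℝ) ≤ X / 4 := by
    have a1 : X ^ (1 / 2 - (1 / 2 - 2 * θ)) ≤ X ^ (1 : ℝ) :=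
      Real.rpow_le_rpow_of_exponent_le (by linarith) (by linarith)
    rw [Real.rpow_one] at a1
    push_cast at z4
    exact le_of_sq_le_sq (by nlinarith) (by positivity)
  have hP : ∀ l ∈ Ph z h, l.Prime ∧ 3 ≤ l ∧ ¬ (l : ℤ) ∣ (h : ℤ) := fun l hl => by
    obtain ⟨a1, a2⟩ := mem_filter.1 hl
    have a3 := Nat.prime_of_mem_primesLE a1
    refine ⟨a3, ?_, fun a => a2 (Int.natCast_dvd_natCast.1 a)⟩
    have a4 := a3.two_le
    have a5 : l ≠ 2 := fun a => a2 (a ▸ h2.two_dvd)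
    omega
  have g1 := one_le_g2 (fun l hl => (hP l hl).2.1) (z := z) (by omega)
  have g3 := g2_low hy z3 h0 h2
  have s1 := (abs_le.1 (selb X h hP z)).2
  have s2' := hbv (Ph z h) (z ^ 2) h (fun l hl => (hP l hl).1) z4
  have s3 := s3_sieve (by linarith) z5 hh (by linarith)
  have hL : 0 < Real.log X := Real.log_pos (by linarith)
  have m1 : mert (Ph z h) ≤ C * Real.log X :=
    (hC z (by omega) _ (filter_subset _ _)).trans (mul_le_mul_of_nonneg_left
      (Real.log_le_log (by exact_mod_cast (by omega : 0 < z)) (by linarith)) (by linarith))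
  have m0 : 0 ≤ mert (Ph z h) := zero_le_one.trans (one_le_mert fun l hl => (hP l hl).1)
  have l2 : Real.log (2 * X) = Real.log 2 + Real.log X := Real.log_mul two_ne_zero hX0.ne'
  have l3 : Real.log 2 ≤ Real.log X := Real.log_le_log two_pos (by linarith)
  have l4 : 0 ≤ Real.log 2 := Real.log_nonneg one_le_two
  have l5 : θ * Real.log X - Real.log (primorial y) ≤ Real.log ((z / primorial y : ℕ) + 1) := by
    rw [← Real.log_rpow hX0, ← Real.log_div (by positivity) (by positivity)]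
    refine Real.log_le_log (by positivity) ?_
    rw [div_le_iff₀ (by positivity)]
    have a1 : z + 1 ≤ (z / primorial y + 1) * primorial y := by
      have := Nat.lt_div_mul_add (a := z) (primorial_pos y)
      rw [add_mul]
      omega
    have a2 : (z : ℝ) + 1 ≤ (((z / primorial y : ℕ) : ℝ) + 1) * primorial y := by
      exact_mod_cast a1
    linarith
  have l6 : Real.log (2 * X) ≤ (8 + ε) * SM y h * g2 (Ph z h) z := by
    rw [div_le_iff₀ (by positivity)] at e1
    have a1 := mul_le_mul_of_nonneg_left (l5.trans g3) (by positivity : 0 ≤ 4 + ε / 2)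
    have a2 : (4 + ε / 2) * θ * Real.log X = Real.log X + ε / 4 * θ * Real.log X := by
      rw [show (4 + ε / 2) * θ = (4 + ε / 4) * θ + ε / 4 * θ by ring, t1]
      ring
    nlinarith
  have i0 : 0 ≤ X * I2 := mul_nonneg hX0.le (by linarith [i2_mem.1])
  generalize g2 (Ph z h) z = g at *
  generalize ∑ n ∈ Icc 1 ⌊X⌋₊, pw X n * s2 (Ph z h) z (n + h) ^ 2 = W at *
  have b1 : W ≤ X * I2 * g + (C * Real.log X) ^ 4 * (X / Real.log X ^ 6) := by
    have a1 := mul_le_mul_of_nonneg_left s2' (pow_nonneg m0 4)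
    have a2 : mert (Ph z h) ^ 4 * (X / Real.log X ^ 6) ≤
        (C * Real.log X) ^ 4 * (X / Real.log X ^ 6) := by gcongr
    linarith
  have b2 : Real.log (2 * X) / g ^ 2 * (X * I2 * g) ≤ (8 + ε) * (X * I2) * SM y h := by
    have a1 : Real.log (2 * X) / g ≤ (8 + ε) * SM y h := (div_le_iff₀ (by linarith)).2 l6
    calc _ = Real.log (2 * X) / g * (X * I2) := by field_simp
      _ ≤ (8 + ε) * SM y h * (X * I2) := by gcongr
      _ = _ := by ring
  have b3 : Real.log (2 * X) / g ^ 2 * ((C * Real.log X) ^ 4 * (X / Real.log X ^ 6)) ≤ ε * X := by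
    have a1 : Real.log (2 * X) / g ^ 2 ≤ 2 * Real.log X :=
      (div_le_self (by linarith) (one_le_pow₀ g1)).trans (by linarith)
    rw [div_le_iff₀ hε] at e2
    calc _ ≤ 2 * Real.log X * ((C * Real.log X) ^ 4 * (X / Real.log X ^ 6)) := by gcongr
      _ = 2 * C ^ 4 / Real.log X * X := by field_simp
      _ ≤ ε * X := by
        gcongr
        rw [div_le_iff₀ hL]
        linarith
  have b4 := mul_le_mul_of_nonneg_left b1
    (show 0 ≤ Real.log (2 * X) / g ^ 2 from div_nonneg (by linarith) (by positivity))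
  rw [mul_add] at b4
  linarith

theorem rp_zero {ε : ℝ} (hε : 0 < ε) : ∀ᶠ X : ℝ in atTop,
    RP X 0 ≤ X * I2 * Real.log X + ε * X := by
  filter_upwards [pnt 2, Real.tendsto_log_atTop.eventually_ge_atTop (1 / ε),
    eventually_ge_atTop (2 : ℝ)] with X hp e1 hX
  have hL : 0 < Real.log X := Real.log_pos (by linarith)
  have h1 : RP X 0 ≤ (∑ n ∈ Icc 1 ⌊X⌋₊, pw X n) * Real.log X := by
    rw [RP, sum_mul]
    refine sum_le_sum fun n hn => mul_le_mul_of_nonneg_left (s3_lp (by linarith) ?_)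
      (pw_nonneg X n)
    exact (Nat.le_floor_iff (by linarith)).1 (mem_Icc.1 hn).2
  have h2 := mul_le_mul_of_nonneg_right (abs_le.1 hp).2 hL.le
  have h3 : X / Real.log X ^ 2 * Real.log X ≤ ε * X := by
    rw [div_le_iff₀ hε] at e1
    calc _ = 1 / Real.log X * X := by field_simp
      _ ≤ ε * X := by
        gcongr
        rw [div_le_iff₀ hL]
        linarith
  linarith

end Pool.Agent.Lib.MP_778b46_nt.GL
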