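import Pool.Agent.Lib.MP_778b46_nt.GL.Zc

set_option autoImplicit false

noncomputable section

namespace Pool.Agent.Lib.MP_778b46_nt.GL

open Complex Finset Filter
open scoped Real
open Pool.Agent.Lib.MP_778b46_nt.MA
open Pool.Agent.Lib.MP_778b46_nt.GX (DC Lp cd ord lam pr)

/-- The local weight. -/
def zj_f (j p : ℕ) : ℝ := ((p : ℝ) / (p - 1)) ^ j - 1

/-- The order of two. -/
def zj_o (d : ℕ) : ℕ := sInf {k | 0 < k ∧ d ∣ 2 ^ k - 1}

theorem zj_one_le {p : ℕ} (hp : p.Prime) : (1 : ℝ) ≤ (p : ℝ) / (p - 1) := by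
  have h2 : (2 : ℝ) ≤ p := by exact_mod_cast hp.two_le
  rw [one_le_div (by linarith)]
  linarith

theorem zj_f_nonneg (j : ℕ) {p : ℕ} (hp : p.Prime) : 0 ≤ zj_f j p :=
  sub_nonneg.2 (one_le_pow₀ (zj_one_le hp))

theorem zj_sum_eq (j : ℕ) (T : Finset ℕ) :
    ∑ S ∈ T.powerset, ∏ p ∈ S, zj_f j p = ∏ p ∈ T, ((p : ℝ) / (p - 1)) ^ j := by
  rw [← Finset.prod_one_add]
  refine prod_congr rfl fun p _ => ?_
  unfold zj_f
  ring

theorem zj_sum_le (j : ℕ) {m : ℕ} (hm : 1 ≤ m) {U : Finset (Finset ℕ)}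
    (hU : ∀ S ∈ U, S ⊆ m.primeFactors) : ∑ S ∈ U, ∏ p ∈ S, zj_f j p ≤ ra m ^ j := by
  rw [ra_eq hm, ← Finset.prod_pow, ← zj_sum_eq]
  refine sum_le_sum_of_subset_of_nonneg (fun S hS => mem_powerset.2 (hU S hS)) fun S hS _ => ?_
  exact prod_nonneg fun p hp =>
    zj_f_nonneg j (Nat.prime_of_mem_primeFactors (mem_powerset.1 hS hp))

theorem zj_ra_le (j : ℕ) {m : ℕ} (hm : 1 ≤ m) :
    ra m ^ j ≤ 2 ^ j * ∑ S ∈ (m.primeFactors.erase 2).powerset, ∏ p ∈ S, zj_f j p := by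
  rw [ra_eq hm, ← Finset.prod_pow, zj_sum_eq]
  by_cases h2 : 2 ∈ m.primeFactors
  · rw [← mul_prod_erase _ _ h2]
    norm_num
  · rw [erase_eq_of_notMem h2]
    refine le_mul_of_one_le_left (prod_nonneg fun p hp => ?_) (one_le_pow₀ one_le_two)
    exact pow_nonneg (zero_le_one.trans (zj_one_le (Nat.prime_of_mem_primeFactors hp))) _

theorem zj_o_spec {d : ℕ} (hd : Odd d) : 0 < zj_o d ∧ d ∣ 2 ^ zj_o d - 1 := by
  have hne : ({k | 0 < k ∧ d ∣ 2 ^ k - 1} : Set ℕ).Nonempty := by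
    refine ⟨Nat.totient d, Nat.totient_pos.2 hd.pos, ?_⟩
    have hc : Nat.Coprime 2 d := Nat.coprime_two_left.2 hd
    exact (Nat.modEq_iff_dvd' Nat.one_le_two_pow).1 (Nat.ModEq.pow_totient hc).symm
  exact Nat.sInf_mem hne

theorem zj_o_min (d k : ℕ) (hk : 0 < k) (h : k < zj_o d) : ¬ d ∣ 2 ^ k - 1 := fun hd =>
  Nat.notMem_of_lt_sInf h ⟨hk, hd⟩

theorem zj_odd {S : Finset ℕ} (hS : ∀ p ∈ S, p.Prime ∧ p ≠ 2) : Odd (∏ p ∈ S, p) :=
  Finset.prod_induction _ Odd (fun _ _ => Odd.mul) odd_one fun p hp =>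
    (hS p hp).1.odd_of_ne_two (hS p hp).2

/-- The product of all `2 ^ k - 1` in a dyadic range. -/
def zj_A (i : ℕ) : ℕ := ∏ k ∈ Icc 1 (2 ^ (i + 1)), (2 ^ k - 1)

theorem zj_A_pos (i : ℕ) : 1 ≤ zj_A i := by
  refine Nat.one_le_iff_ne_zero.2 (prod_ne_zero_iff.2 fun k hk => ?_)
  have h1 : 1 < 2 ^ k := Nat.one_lt_two_pow (by have := (mem_Icc.1 hk).1; omega)
  omega

theorem zj_A_le (i : ℕ) : zj_A i ≤ 2 ^ (4 ^ (i + 1)) := by
  have h : zj_A i ≤ (2 ^ (2 ^ (i + 1))) ^ (Icc 1 (2 ^ (i + 1))).card := by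
    refine Finset.prod_le_pow_card _ _ _ fun k hk => ?_
    exact (Nat.sub_le _ _).trans (Nat.pow_le_pow_right (by norm_num) (mem_Icc.1 hk).2)
  rw [Nat.card_Icc, Nat.add_sub_cancel, ← pow_mul, ← mul_pow] at h
  exact h

theorem zj_ord (j : ℕ) : ∃ C : ℝ, 0 ≤ C ∧ ∀ U : Finset (Finset ℕ),
    (∀ S ∈ U, ∀ p ∈ S, p.Prime ∧ p ≠ 2) →
    ∑ S ∈ U, (∏ p ∈ S, zj_f j p) / zj_o (∏ p ∈ S, p) ≤ C := by
  obtain ⟨C, hC, hra⟩ := ra_le
  set g : ℕ → ℝ := fun i => (2 * C) ^ j * 2 * (((i + 1 : ℕ) : ℝ) ^ j * (1 / 2) ^ (i + 1)) with hg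
  have hg0 : ∀ i, 0 ≤ g i := fun i => by
    have : 0 ≤ C := by linarith
    positivity
  have hs : Summable g := by
    refine Summable.mul_left _ ?_
    have h := summable_pow_mul_geometric_of_norm_lt_one (R := ℝ) j (r := 1 / 2)
      (by rw [Real.norm_of_nonneg (by norm_num)]; norm_num)
    exact (summable_nat_add_iff 1).2 h
  refine ⟨∑' i, g i, tsum_nonneg hg0, fun U hU => ?_⟩
  set κ : Finset ℕ → ℕ := fun S => Nat.log 2 (zj_o (∏ p ∈ S, p)) with hκ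
  rw [← sum_fiberwise_of_maps_to (s := U) (t := U.image κ) (g := κ)
    (fun S hS => mem_image_of_mem κ hS)]
  refine le_trans (sum_le_sum fun i _ => ?_) (hs.sum_le_tsum (U.image κ) fun i _ => hg0 i)
  have hA : ra (zj_A i) ≤ 2 * C * ((i + 1 : ℕ) : ℝ) := by
    have h2 : 2 ≤ 4 ^ (i + 1) := by
      have := Nat.le_self_pow (n := i + 1) (by omega) 4
      omega
    refine (hra _ _ (zj_A_pos i) h2 (zj_A_le i)).trans ?_
    have h4 : Real.log 4 ≤ 2 := by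
      have h := Real.log_two_lt_d9
      have : Real.log 4 = 2 * Real.log 2 := by
        rw [show (4 : ℝ) = 2 ^ 2 by norm_num, Real.log_pow]
        norm_num
      linarith
    rw [Nat.cast_pow, Real.log_pow]
    have h0 : (0 : ℝ) ≤ ((i + 1 : ℕ) : ℝ) := Nat.cast_nonneg _
    have h5 : ((i + 1 : ℕ) : ℝ) * Real.log ((4 : ℕ) : ℝ) ≤ ((i + 1 : ℕ) : ℝ) * 2 :=
      mul_le_mul_of_nonneg_left (by exact_mod_cast h4) h0
    nlinarith
  have h1 : ∑ S ∈ U with κ S = i, (∏ p ∈ S, zj_f j p) / zj_o (∏ p ∈ S, p) ≤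
      ∑ S ∈ U with κ S = i, (∏ p ∈ S, zj_f j p) * (1 / 2) ^ i := by
    refine sum_le_sum fun S hS => ?_
    obtain ⟨hSU, hi⟩ := mem_filter.1 hS
    have ho := (zj_o_spec (zj_odd (hU S hSU))).1
    have h2 : 2 ^ i ≤ zj_o (∏ p ∈ S, p) := by
      rw [← hi]
      exact Nat.pow_log_le_self 2 ho.ne'
    rw [one_div_pow, mul_one_div]
    refine div_le_div_of_nonneg_left
      (prod_nonneg fun p hp => zj_f_nonneg j (hU S hSU p hp).1) (by positivity) ?_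
    exact_mod_cast h2
  refine h1.trans ?_
  rw [← sum_mul]
  have h2 : ∑ S ∈ U with κ S = i, ∏ p ∈ S, zj_f j p ≤ ra (zj_A i) ^ j := by
    refine zj_sum_le j (zj_A_pos i) fun S hS p hp => ?_
    obtain ⟨hSU, hi⟩ := mem_filter.1 hS
    obtain ⟨ho, hd⟩ := zj_o_spec (zj_odd (hU S hSU))
    have hlt : zj_o (∏ p ∈ S, p) < 2 ^ (i + 1) := by
      rw [← hi]
      exact Nat.lt_pow_succ_log_self one_lt_two _
    refine Nat.mem_primeFactors.2 ⟨(hU S hSU p hp).1, ?_, by have := zj_A_pos i; omega⟩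
    refine ((dvd_prod_of_mem (fun p => p) hp).trans hd).trans ?_
    exact dvd_prod_of_mem (fun k => 2 ^ k - 1) (mem_Icc.2 ⟨ho, hlt.le⟩)
  have h3 : ra (zj_A i) ^ j ≤ (2 * C * ((i + 1 : ℕ) : ℝ)) ^ j :=
    pow_le_pow_left₀ (ra_nonneg _) hA j
  refine (mul_le_mul_of_nonneg_right (h2.trans h3) (by positivity)).trans (le_of_eq ?_)
  simp only [hg, mul_pow, pow_succ]
  ring

/-- The exponents `a` with `d ∣ M - 2 ^ a`, `M` an integer. -/
theorem cnt_powZ {d o : ℕ} (hd : Odd d) (ho : 0 < o) (h : ∀ k, 0 < k → k < o → ¬ d ∣ 2 ^ k - 1)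
    (M : ℤ) (a0 L : ℕ) :
    (((Ico a0 (a0 + L)).filter fun a => (d : ℤ) ∣ M - 2 ^ a).card : ℝ) ≤ L / o + 1 := by
  have hd1 : (1 : ℤ) ≤ d := by exact_mod_cast hd.pos
  set K : ℤ := |M| + 2 ^ (a0 + L) with hK
  have hK0 : 0 ≤ K := by positivity
  have hge : (2 : ℤ) ^ (a0 + L) ≤ M + d * K := by
    have h1 := neg_abs_le M
    have h2 : K ≤ d * K := le_mul_of_one_le_left hK0 hd1
    linarith
  have h0 : 0 ≤ M + d * K := le_trans (by positivity) hge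
  obtain ⟨N, hN⟩ := Int.eq_ofNat_of_zero_le h0
  refine le_trans (Nat.cast_le.2 (card_le_card fun a ha => ?_)) (cnt_pow hd ho h N a0 L)
  obtain ⟨h1, h2⟩ := mem_filter.1 ha
  have h3 : 2 ^ a ≤ N := by
    have h4 : (2 : ℤ) ^ a ≤ 2 ^ (a0 + L) := pow_le_pow_right₀ one_le_two (mem_Ico.1 h1).2.le
    have h5 : (2 : ℤ) ^ a ≤ N := by linarith
    exact_mod_cast h5
  refine mem_filter.2 ⟨h1, h3, ?_⟩
  rw [← Int.natCast_dvd_natCast, Nat.cast_sub h3, ← hN]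
  push_cast
  have h6 : M + d * K - 2 ^ a = (M - 2 ^ a) + d * K := by ring
  rw [h6]
  exact h2.add (dvd_mul_right _ _)

/-- Moments of `m / φ m` along `M - 2 ^ a`, `M` an integer. -/
theorem ra_momZ (j : ℕ) : ∃ C : ℝ, 1 ≤ C ∧ ∀ (M : ℤ) (a0 L y : ℕ), 2 ≤ y →
    (∀ a ∈ Ico a0 (a0 + L), |M - 2 ^ a| ≤ 2 ^ y) →
    ∑ a ∈ Ico a0 (a0 + L), ra (M - 2 ^ a).natAbs ^ j ≤ C * (L + Real.log (L * y + 2) ^ j) := by
  obtain ⟨C, hC, hra⟩ := ra_le
  obtain ⟨D, hD, hord⟩ := zj_ord j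
  have hCj : 1 ≤ C ^ j := one_le_pow₀ hC
  have h2j : (1 : ℝ) ≤ 2 ^ j := one_le_pow₀ one_le_two
  refine ⟨2 ^ j * (D + C ^ j), by nlinarith, fun M a0 L y hy ha => ?_⟩
  set I := Ico a0 (a0 + L) with hI
  set Mt := ∏ a ∈ I, max (M - 2 ^ a).natAbs 1 with hMt
  have hMt1 : 1 ≤ Mt :=
    Nat.one_le_iff_ne_zero.2 (prod_ne_zero_iff.2 fun a _ => by omega)
  have hMt2 : Mt ≤ 2 ^ (L * y + 2) := by
    have h : Mt ≤ (2 ^ y) ^ I.card := by
      refine Finset.prod_le_pow_card _ _ _ fun a h => max_le ?_ Nat.one_le_two_pow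
      have h1 := ha a h
      rw [← Int.natCast_natAbs] at h1
      exact_mod_cast h1
    rw [hI, Nat.card_Ico, Nat.add_sub_cancel_left, ← pow_mul] at h
    exact h.trans (Nat.pow_le_pow_right (by norm_num) (by rw [mul_comm]; omega))
  set U := (Mt.primeFactors.erase 2).powerset with hU
  have hUp : ∀ S ∈ U, ∀ p ∈ S, p.Prime ∧ p ≠ 2 := fun S hS p hp => by
    have h := mem_erase.1 (mem_powerset.1 hS hp)
    exact ⟨Nat.prime_of_mem_primeFactors h.2, h.1⟩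
  have hF : ∀ S ∈ U, 0 ≤ ∏ p ∈ S, zj_f j p := fun S hS =>
    prod_nonneg fun p hp => zj_f_nonneg j (hUp S hS p hp).1
  have h1 : ∀ a ∈ I, ra (M - 2 ^ a).natAbs ^ j ≤ 2 ^ j * ∑ S ∈ U,
      if ((∏ p ∈ S, p : ℕ) : ℤ) ∣ M - 2 ^ a then ∏ p ∈ S, zj_f j p else 0 := by
    intro a h
    have hr : ra (M - 2 ^ a).natAbs ^ j ≤ ra (max (M - 2 ^ a).natAbs 1) ^ j := by
      refine pow_le_pow_left₀ (ra_nonneg _) ?_ j
      rcases Nat.eq_zero_or_pos (M - 2 ^ a).natAbs with h0 | h0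
      · rw [h0]
        simp [ra]
      · rw [max_eq_left h0]
    refine hr.trans ((zj_ra_le j (le_max_right _ _)).trans
      (mul_le_mul_of_nonneg_left ?_ (by positivity)))
    rw [← sum_filter]
    refine sum_le_sum_of_subset_of_nonneg (fun S hS => ?_) fun S hS _ => hF S (mem_filter.1 hS).1
    have hS' := mem_powerset.1 hS
    refine mem_filter.2 ⟨mem_powerset.2 (hS'.trans (erase_subset_erase _ ?_)), ?_⟩
    · exact Nat.primeFactors_mono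
        (dvd_prod_of_mem (fun a => max (M - 2 ^ a).natAbs 1) h) (by omega)
    · have hdv := (prod_dvd_prod_of_subset _ _ (fun p => p) (hS'.trans (erase_subset _ _))).trans
        (Nat.prod_primeFactors_dvd _)
      rw [Int.natCast_dvd]
      rcases Nat.eq_zero_or_pos (M - 2 ^ a).natAbs with h0 | h0
      · rw [h0]
        exact dvd_zero _
      · rwa [max_eq_left h0] at hdv
  refine (sum_le_sum h1).trans ?_
  rw [← mul_sum, sum_comm, mul_assoc]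
  refine mul_le_mul_of_nonneg_left ?_ (by positivity)
  have h2 : ∀ S ∈ U, (∑ a ∈ I,
      if ((∏ p ∈ S, p : ℕ) : ℤ) ∣ M - 2 ^ a then ∏ p ∈ S, zj_f j p else 0) ≤
      L * ((∏ p ∈ S, zj_f j p) / zj_o (∏ p ∈ S, p)) + ∏ p ∈ S, zj_f j p := by
    intro S hS
    have hodd := zj_odd (hUp S hS)
    have hc := cnt_powZ hodd (zj_o_spec hodd).1 (zj_o_min _) M a0 L
    rw [← sum_filter, sum_const, nsmul_eq_mul]
    refine (mul_le_mul_of_nonneg_right hc (hF S hS)).trans (le_of_eq ?_)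
    ring
  refine (sum_le_sum h2).trans ?_
  rw [sum_add_distrib, ← mul_sum]
  have h3 := hord U hUp
  have h4 : ∑ S ∈ U, ∏ p ∈ S, zj_f j p ≤ ra Mt ^ j :=
    zj_sum_le j hMt1 fun S hS => (mem_powerset.1 hS).trans (erase_subset _ _)
  have h5 : ra Mt ≤ C * Real.log (L * y + 2) := by
    have h := hra Mt (L * y + 2) hMt1 (by omega) hMt2
    push_cast at h
    exact h
  have h6 : ra Mt ^ j ≤ C ^ j * Real.log (L * y + 2) ^ j := by
    rw [← mul_pow]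
    exact pow_le_pow_left₀ (ra_nonneg _) h5 j
  have hL : (0 : ℝ) ≤ L := Nat.cast_nonneg _
  have hlog : 0 ≤ Real.log (L * y + 2) ^ j := by
    refine pow_nonneg (Real.log_nonneg ?_) _
    have : (0 : ℝ) ≤ L * y := by positivity
    linarith
  have h7 := mul_le_mul_of_nonneg_left h3 hL
  nlinarith [mul_nonneg hD hlog, mul_nonneg hL (zero_le_one.trans hCj)]

/-- Moments of `m / φ m` along `M - 2 ^ a`. -/
theorem ra_mom (j : ℕ) : ∃ C : ℝ, 1 ≤ C ∧ ∀ M a0 L y : ℕ, 2 ≤ y → M ≤ 2 ^ y →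
    (∀ a ∈ Ico a0 (a0 + L), 2 ^ a < M) →
    ∑ a ∈ Ico a0 (a0 + L), ra (M - 2 ^ a) ^ j ≤ C * (L + Real.log (L * y + 2) ^ j) := by
  obtain ⟨C, hC, h⟩ := ra_momZ j
  refine ⟨C, hC, fun M a0 L y hy hM ha => ?_⟩
  have e : ∀ a ∈ Ico a0 (a0 + L), (M : ℤ) - 2 ^ a = ((M - 2 ^ a : ℕ) : ℤ) := fun a h => by
    rw [Nat.cast_sub (ha a h).le]
    push_cast
    rfl
  refine le_trans (le_of_eq (sum_congr rfl fun a h => ?_)) (h M a0 L y hy fun a h => ?_)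
  · rw [e a h, Int.natAbs_natCast]
  · rw [e a h, Nat.abs_cast]
    exact_mod_cast (Nat.sub_le _ _).trans hM

end Pool.Agent.Lib.MP_778b46_nt.GL
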