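import Pool.Agent.Lib.MP_778b46_nt.GL.T1
import Pool.Agent.Lib.MP_778b46_nt.GL.Zj

set_option autoImplicit false

noncomputable section

namespace Pool.Agent.Lib.MP_778b46_nt.GL

open Finset MeasureTheory Filter
open Pool.Agent.Lib.MP_778b46_nt.MA (lp w1 a1S a1M cf cop R1 I0 RR)
open Pool.Agent.Lib.MP_778b46_nt.VA (ee nd)

theorem t2_cnt (S : Finset ℕ) (k : ℕ) (h : ∀ l ∈ S, l.Prime ∧ Nat.log 2 l = k) :
    k * S.card ≤ 2 ^ (k + 2) := by
  have h1 : (2 ^ k) ^ S.card ≤ ∏ l ∈ S, l := by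
    refine pow_card_le_prod S (fun l => l) _ fun l hl => ?_
    rw [← (h l hl).2]
    exact Nat.pow_log_le_self 2 (h l hl).1.ne_zero
  have h2 : ∏ l ∈ S, l ≤ primorial (2 ^ (k + 1)) := by
    refine prod_le_prod_of_subset_of_one_le' (fun l hl => ?_) fun l hl _ => (mem_filter.1 hl).2.pos
    refine mem_filter.2 ⟨mem_range.2 (Nat.lt_succ_of_lt ?_), (h l hl).1⟩
    rw [← (h l hl).2]
    exact Nat.lt_pow_succ_log_self (by norm_num) l
  have h3 := (h1.trans h2).trans (primorial_le_four_pow _)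
  rw [← pow_mul, show (4 : ℕ) = 2 ^ 2 by norm_num, ← pow_mul] at h3
  have h4 := (Nat.pow_le_pow_iff_right (by norm_num)).1 h3
  rw [pow_succ 2 (k + 1), mul_comm _ 2]
  exact h4

theorem t2_uu {l : ℕ} (hl : 2 ≤ l) : 0 ≤ uu l := by
  have : (2 : ℝ) ≤ l := by exact_mod_cast hl
  unfold uu
  exact div_nonneg zero_le_one (by linarith)

theorem t2_sum {ε : ℝ} (hε : 0 < ε) : ∃ y0 : ℕ, ∀ Q : Finset ℕ,
    (∀ l ∈ Q, l.Prime ∧ y0 < l) → ∑ l ∈ Q, uu l / (Nat.log 2 l : ℝ) ≤ ε := by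
  obtain ⟨K, hK⟩ := exists_nat_ge (16 / ε)
  refine ⟨2 ^ (K + 1), fun Q hQ => ?_⟩
  have hlog : ∀ l ∈ Q, Nat.log 2 l ∈ Ioo K (Q.sup (Nat.log 2) + 1) := fun l hl =>
    mem_Ioo.2 ⟨Nat.le_log_of_pow_le (by norm_num) (hQ l hl).2.le,
      Nat.lt_succ_of_le (le_sup (f := Nat.log 2) hl)⟩
  rw [← sum_fiberwise_of_maps_to hlog]
  have hblk : ∀ k ∈ Ioo K (Q.sup (Nat.log 2) + 1),
      ∑ l ∈ Q with Nat.log 2 l = k, uu l / (Nat.log 2 l : ℝ) ≤ 8 * ((k : ℝ) ^ 2)⁻¹ := by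
    intro k hk
    have hk0 : (0 : ℝ) < k := by
      have := (mem_Ioo.1 hk).1
      exact_mod_cast (by omega : 0 < k)
    have h1 : (k : ℝ) * (Q.filter fun l => Nat.log 2 l = k).card ≤ 2 ^ (k + 2) := by
      exact_mod_cast t2_cnt _ k fun l hl => ⟨(hQ l (mem_filter.1 hl).1).1, (mem_filter.1 hl).2⟩
    have h2 : ∀ l ∈ Q.filter fun l => Nat.log 2 l = k,
        uu l / (Nat.log 2 l : ℝ) ≤ 2 / 2 ^ k / k := by
      intro l hl
      obtain ⟨hl1, hl2⟩ := mem_filter.1 hl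
      have h3 : (2 : ℝ) ≤ l := by exact_mod_cast (hQ l hl1).1.two_le
      have h4 : (2 : ℝ) ^ k ≤ l := by
        rw [← hl2]
        exact_mod_cast Nat.pow_log_le_self 2 (hQ l hl1).1.ne_zero
      rw [hl2]
      refine div_le_div_of_nonneg_right ?_ hk0.le
      unfold uu
      rw [div_le_div_iff₀ (by linarith) (by positivity)]
      linarith
    refine (sum_le_card_nsmul _ _ _ h2).trans ?_
    rw [nsmul_eq_mul]
    refine le_of_mul_le_mul_left ?_ hk0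
    rw [← mul_assoc]
    refine (mul_le_mul_of_nonneg_right h1 (by positivity)).trans (le_of_eq ?_)
    field_simp
    ring
  refine (sum_le_sum hblk).trans ?_
  rw [← mul_sum]
  have h5 := sum_Ioo_inv_sq_le (α := ℝ) K (Q.sup (Nat.log 2) + 1)
  have h6 : 8 * (2 / ((K : ℝ) + 1)) ≤ ε := by
    rw [div_le_iff₀ hε] at hK
    rw [← mul_div_assoc, div_le_iff₀ (by positivity)]
    nlinarith
  linarith

theorem t2_avg {ε : ℝ} (hε : 0 < ε) : ∃ y0 : ℕ, ∀ y, y0 ≤ y → ∃ L0 : ℕ, ∀ L : ℕ, L0 ≤ L →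
    ∀ M : ℤ, |M| ≤ 8 ^ L → ∑ a ∈ Ico 5 (5 + L), zt y (M - 2 ^ a).natAbs ≤ ε * L := by
  obtain ⟨y1, hy1⟩ := t2_sum (half_pos hε)
  obtain ⟨C, hC, hra⟩ := ra_le
  have hev := Real.isLittleO_log_id_atTop.bound (c := ε / (12 * C)) (by positivity)
  obtain ⟨x0, hx0⟩ := eventually_atTop.1 hev
  obtain ⟨L1, hL1⟩ := exists_nat_ge x0
  refine ⟨max y1 2, fun y hy => ⟨max L1 1, fun L hL M hM => ?_⟩⟩
  have hy2 : 2 ≤ y := (le_max_right _ _).trans hy
  have hL0 : 1 ≤ L := (le_max_right _ _).trans hL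
  have hLR : (1 : ℝ) ≤ L := by exact_mod_cast hL0
  set S := (Ico 5 (5 + L)).filter fun a => M - 2 ^ a ≠ 0 with hS
  set Mt : ℕ := ∏ a ∈ S, (M - 2 ^ a).natAbs with hMt
  have hMt0 : Mt ≠ 0 := prod_ne_zero_iff.2 fun a ha => Int.natAbs_ne_zero.2 (mem_filter.1 ha).2
  have hMt1 : Mt ≤ 2 ^ (L * (3 * L + 6)) := by
    have h1 : Mt ≤ (2 ^ (3 * L + 6)) ^ S.card := by
      refine prod_le_pow_card _ _ _ fun a ha => ?_
      have h2 := (mem_Ico.1 (mem_filter.1 ha).1).2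
      have h3 : (2 : ℤ) ^ a ≤ 2 ^ (3 * L + 5) := pow_le_pow_right₀ (by norm_num) (by omega)
      have h4 : (8 : ℤ) ^ L ≤ 2 ^ (3 * L + 5) := by
        rw [show (8 : ℤ) = 2 ^ 3 by norm_num, ← pow_mul]
        exact pow_le_pow_right₀ (by norm_num) (by omega)
      have h5 : |M - 2 ^ a| ≤ 2 ^ (3 * L + 6) := by
        have h6 : |M - 2 ^ a| ≤ |M| + |(2 : ℤ) ^ a| := abs_sub _ _
        rw [abs_of_pos (by positivity : (0 : ℤ) < 2 ^ a)] at h6
        rw [pow_succ]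
        linarith
      rw [← Int.natCast_natAbs] at h5
      exact_mod_cast h5
    refine h1.trans ?_
    rw [← pow_mul, mul_comm L]
    refine Nat.pow_le_pow_right (by norm_num) (Nat.mul_le_mul_left _ ?_)
    exact (card_filter_le _ _).trans (by simp)
  set Q := Mt.primeFactors.filter fun l => y < l with hQ
  have hQp : ∀ l ∈ Q, l.Prime ∧ y < l := fun l hl =>
    ⟨Nat.prime_of_mem_primeFactors (mem_filter.1 hl).1, (mem_filter.1 hl).2⟩
  have h1 : ∀ a ∈ Ico 5 (5 + L), zt y (M - 2 ^ a).natAbs ≤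
      ∑ l ∈ Q, if (l : ℤ) ∣ M - 2 ^ a then uu l else 0 := by
    intro a ha
    rw [← sum_filter]
    refine sum_le_sum_of_subset_of_nonneg (fun l hl => ?_)
      fun l hl _ => t2_uu (hQp l (mem_filter.1 hl).1).1.two_le
    obtain ⟨h2, h3⟩ := mem_filter.1 hl
    obtain ⟨h4, h5, h6⟩ := Nat.mem_primeFactors.1 h2
    refine mem_filter.2 ⟨mem_filter.2 ⟨Nat.mem_primeFactors.2 ⟨h4, h5.trans ?_, hMt0⟩, h3⟩,
      Int.natCast_dvd.2 h5⟩
    have haS : a ∈ S := mem_filter.2 ⟨ha, Int.natAbs_ne_zero.1 h6⟩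
    exact dvd_prod_of_mem _ haS
  refine (sum_le_sum h1).trans ?_
  rw [sum_comm]
  have h2 : ∀ l ∈ Q, (∑ a ∈ Ico 5 (5 + L), if (l : ℤ) ∣ M - 2 ^ a then uu l else 0) ≤
      L * (uu l / (Nat.log 2 l : ℝ)) + uu l := by
    intro l hl
    obtain ⟨hp, hyl⟩ := hQp l hl
    have h3 := cnt_powZ (d := l) (o := Nat.log 2 l) (hp.odd_of_ne_two (by omega))
      (Nat.log_pos (by norm_num) hp.two_le) (fun k hk hk' hd => by
        have h4 : 2 ^ k ≤ 2 ^ Nat.log 2 l := Nat.pow_le_pow_right (by norm_num) hk'.le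
        have h5 := Nat.pow_log_le_self 2 hp.ne_zero
        have h6 : 1 < 2 ^ k := Nat.one_lt_two_pow hk.ne'
        have := Nat.le_of_dvd (by omega) hd
        omega) M 5 L
    rw [← sum_filter, sum_const, nsmul_eq_mul]
    refine (mul_le_mul_of_nonneg_right h3 (t2_uu hp.two_le)).trans (le_of_eq (by ring))
  refine (sum_le_sum h2).trans ?_
  rw [sum_add_distrib, ← mul_sum]
  have h3 := hy1 Q fun l hl => ⟨(hQp l hl).1, lt_of_le_of_lt ((le_max_left _ _).trans hy) (hQp l hl).2⟩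
  have h4 : ∑ l ∈ Q, uu l ≤ C * Real.log (L * (3 * L + 6) : ℕ) :=
    (zt_le y Mt).trans (hra Mt _ (Nat.pos_of_ne_zero hMt0) (by nlinarith) hMt1)
  have h5 : Real.log (L * (3 * L + 6) : ℕ) ≤ 2 * Real.log (3 * L) := by
    have : Real.log ((3 * (L : ℝ)) ^ 2) = 2 * Real.log (3 * L) := by
      rw [Real.log_pow]; norm_num
    rw [← this]
    push_cast
    exact Real.log_le_log (by positivity) (by nlinarith)
  have h6 := hx0 (3 * L) (by
    have : (L1 : ℝ) ≤ L := by exact_mod_cast (le_max_left _ _).trans hL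
    linarith)
  rw [id, Real.norm_eq_abs, Real.norm_eq_abs, abs_of_pos (by positivity : (0 : ℝ) < 3 * L)] at h6
  have h7 : C * (2 * Real.log (3 * L)) ≤ ε / 2 * L := by
    calc C * (2 * Real.log (3 * L)) ≤ C * (2 * (ε / (12 * C) * (3 * L))) := by
          have := (le_abs_self _).trans h6
          gcongr
      _ = _ := by field_simp; ring
  have h8 := mul_le_mul_of_nonneg_left h5 (by linarith : 0 ≤ C)
  have h9 := mul_le_mul_of_nonneg_left h3 (by linarith : (0 : ℝ) ≤ L)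
  linarith

end Pool.Agent.Lib.MP_778b46_nt.GL
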