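import Pool.Agent.Lib.MP_778b46_nt.GL.A1
import Pool.Agent.Lib.MP_778b46_nt.GL.T2

/-!
The tail of the singular series is small on average.
-/

set_option autoImplicit false

noncomputable section

namespace Pool.Agent.Lib.MP_778b46_nt.GL

open Finset MeasureTheory Filter
open Pool.Agent.Lib.MP_778b46_nt.MA (lp w1 a1S a1M cf cop R1 I0 RR)
open Pool.Agent.Lib.MP_778b46_nt.VA (ee nd)

theorem t3_log : ∃ L0 : ℕ, ∀ L : ℕ, L0 ≤ L →
    Real.log (L * (3 * L + 6 : ℕ) + 2) ^ 3 ≤ L := by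
  have h := (Real.isLittleO_pow_log_id_atTop (n := 3)).bound (show (0 : ℝ) < 1 / 27 by norm_num)
  obtain ⟨x0, hx⟩ := eventually_atTop.1 h
  refine ⟨max 11 ⌈x0⌉₊, fun L hL => ?_⟩
  have h1 : (11 : ℝ) ≤ L := by exact_mod_cast (le_max_left _ _).trans hL
  have h2 := hx L ((Nat.le_ceil x0).trans (by exact_mod_cast (le_max_right _ _).trans hL))
  have hl : 0 ≤ Real.log L := Real.log_nonneg (by linarith)
  rw [Real.norm_of_nonneg (pow_nonneg hl 3), id, Real.norm_of_nonneg (by linarith)] at h2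
  have h3 : Real.log (L * (3 * L + 6 : ℕ) + 2) ≤ 3 * Real.log L := by
    have e : 3 * Real.log L = Real.log ((L : ℝ) ^ 3) := by
      rw [Real.log_pow]
      norm_num
    rw [e]
    refine Real.log_le_log (by positivity) ?_
    push_cast
    nlinarith [mul_nonneg (show (0 : ℝ) ≤ L - 11 by linarith) (sq_nonneg (L : ℝ))]
  have h4 : 0 ≤ Real.log (L * (3 * L + 6 : ℕ) + 2) :=
    Real.log_nonneg (by have : (0 : ℝ) ≤ L * (3 * L + 6 : ℕ) := by positivity
                        linarith)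
  have h5 := pow_le_pow_left₀ h4 h3 3
  rw [mul_pow] at h5
  linarith

theorem t3_size {L a : ℕ} {M : ℤ} (hM : |M| ≤ 8 ^ L) (ha : a ∈ Ico 5 (5 + L)) :
    |M - 2 ^ a| ≤ 2 ^ (3 * L + 6) := by
  have h1 : (2 : ℤ) ^ a ≤ 2 ^ (3 * L + 5) :=
    pow_le_pow_right₀ (by norm_num) (by have := (mem_Ico.1 ha).2; omega)
  have h2 : (8 : ℤ) ^ L ≤ 2 ^ (3 * L + 5) := by
    rw [show (8 : ℤ) = 2 ^ 3 by norm_num, ← pow_mul]
    exact pow_le_pow_right₀ (by norm_num) (by omega)
  have h3 := abs_sub M (2 ^ a)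
  rw [abs_of_nonneg (show (0 : ℤ) ≤ 2 ^ a by positivity)] at h3
  rw [show 3 * L + 6 = (3 * L + 5) + 1 by ring, pow_succ]
  linarith

theorem t3_pt {y R : ℕ} (hy : 2 ≤ y) (hR : primorial y ≤ R) {m : ℤ} (hm : Even m) {T : ℝ}
    (hT : 0 < T) : (if m = 0 then 0 else |ST R m - 2 * SO y m|) ≤
      8 * T * zt y m.natAbs + (8 / T + 16 / y) * ra m.natAbs ^ 3 := by
  have hz := zt_nonneg y m.natAbs
  have hr := ra_nonneg m.natAbs
  split_ifs with h0
  · positivity
  refine (t1_pt hy hR h0 hm).trans ?_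
  have h1 : 1 ≤ ra m.natAbs := one_le_ra (Int.natAbs_pos.2 h0)
  have h2 := zt_le y m.natAbs
  generalize ra m.natAbs = r at *
  generalize zt y m.natAbs = z at *
  have h3 : r ≤ r ^ 3 := le_self_pow₀ h1 (by norm_num)
  have h4 : r * z ≤ T * z + r ^ 3 / T := by
    rcases le_total r T with h | h
    · have : 0 ≤ r ^ 3 / T := by positivity
      nlinarith [mul_le_mul_of_nonneg_right h hz]
    · have h5 : r * z ≤ r ^ 3 / T := by
        rw [le_div_iff₀ hT]
        have h6 : r * z ≤ r * r := mul_le_mul_of_nonneg_left h2 hr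
        have h7 : r * z * T ≤ r * r * r := mul_le_mul h6 h hT.le (by positivity)
        linarith [show r * r * r = r ^ 3 by ring]
      have : 0 ≤ T * z := by positivity
      linarith
  have h5 : 16 / (y : ℝ) * r ≤ 16 / y * r ^ 3 := mul_le_mul_of_nonneg_left h3 (by positivity)
  have e1 : 8 * r * (z + 2 / y) = 8 * (r * z) + 16 / y * r := by ring
  have e2 : 8 * T * z + (8 / T + 16 / y) * r ^ 3 =
      8 * (T * z + r ^ 3 / T) + 16 / y * r ^ 3 := by ring
  rw [e1, e2]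
  linarith

theorem tail {ε : ℝ} (hε : 0 < ε) : ∃ y0 : ℕ, ∀ y, y0 ≤ y → ∃ L0 R0 : ℕ, ∀ L R : ℕ, L0 ≤ L →
    R0 ≤ R → ∀ M : ℤ, Even M → |M| ≤ 8 ^ L →
      av L (fun m => if m = 0 then 0 else |ST R m - 2 * SO y m|) M ≤ ε := by
  obtain ⟨C, hC, hmom⟩ := ra_momZ 3
  have hC0 : 0 < C := by linarith
  have hT : 0 < 48 * C / ε := by positivity
  obtain ⟨y1, hy1⟩ := t2_avg (ε := ε / (24 * (48 * C / ε))) (by positivity)
  obtain ⟨L1, hL1⟩ := t3_log
  refine ⟨max (max y1 2) ⌈96 * C / ε⌉₊, fun y hy => ?_⟩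
  have hy2 : 2 ≤ y := ((le_max_right _ _).trans (le_max_left _ _)).trans hy
  have hy0 : (0 : ℝ) < y := by exact_mod_cast (by omega : 0 < y)
  have hy3 : 96 * C / ε ≤ y :=
    (Nat.le_ceil _).trans (by exact_mod_cast (le_max_right _ _).trans hy)
  obtain ⟨L2, hL2⟩ := hy1 y (((le_max_left _ _).trans (le_max_left _ _)).trans hy)
  refine ⟨max (max L1 L2) 1, primorial y, fun L R hL hR M hM hM8 => ?_⟩
  have hL0 : (0 : ℝ) < L := by exact_mod_cast (le_max_right _ _).trans hL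
  have h1 := hL2 L (((le_max_right _ _).trans (le_max_left _ _)).trans hL) M hM8
  have h2 := hmom M 5 L (3 * L + 6) (by omega) fun a ha => t3_size hM8 ha
  have h3 := hL1 L (((le_max_left _ _).trans (le_max_left _ _)).trans hL)
  have h4 : ∑ a ∈ Ico 5 (5 + L), ra (M - 2 ^ a).natAbs ^ 3 ≤ C * (2 * L) :=
    h2.trans (mul_le_mul_of_nonneg_left (by linarith) hC0.le)
  rw [sum_Ico_eq_sum_range, Nat.add_sub_cancel_left] at h1 h4
  have h5 : ∑ j ∈ range L, (if M - 2 ^ (j + 5) = 0 then 0 else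
      |ST R (M - 2 ^ (j + 5)) - 2 * SO y (M - 2 ^ (j + 5))|) ≤
      ∑ j ∈ range L, (8 * (48 * C / ε) * zt y (M - 2 ^ (5 + j)).natAbs +
        (8 / (48 * C / ε) + 16 / y) * ra (M - 2 ^ (5 + j)).natAbs ^ 3) := by
    refine sum_le_sum fun j _ => ?_
    rw [add_comm 5 j]
    exact t3_pt hy2 hR (hM.sub ((even_two.pow_of_ne_zero (by omega)))) hT
  rw [sum_add_distrib, ← mul_sum, ← mul_sum] at h5
  have h6 := mul_le_mul_of_nonneg_left h1 (show 0 ≤ 8 * (48 * C / ε) by positivity)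
  have h7 := mul_le_mul_of_nonneg_left h4
    (show 0 ≤ 8 / (48 * C / ε) + 16 / (y : ℝ) by positivity)
  have e1 : 8 * (48 * C / ε) * (ε / (24 * (48 * C / ε)) * L) = ε / 3 * L := by
    field_simp
    ring
  have e2 : (8 / (48 * C / ε) + 16 / (y : ℝ)) * (C * (2 * L)) = ε / 3 * L + 32 * C / y * L := by
    field_simp
    ring
  have h8 : 32 * C / y ≤ ε / 3 := by
    rw [div_le_iff₀ hε] at hy3
    rw [div_le_iff₀ hy0]
    linarith
  have h9 := mul_le_mul_of_nonneg_right h8 hL0.le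
  unfold av
  rw [inv_mul_le_iff₀ hL0]
  linarith

end Pool.Agent.Lib.MP_778b46_nt.GL
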