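import Pool.Agent.Lib.MP_778b46_nt.GL.P5
import Pool.Agent.Lib.MP_778b46_nt.GL.S3
import Pool.Agent.Lib.MP_778b46_nt.GL.T3
import Pool.Agent.Lib.MP_778b46_nt.GL.R10

/-!
The mean of the correlations.
-/

set_option autoImplicit false

noncomputable section

namespace Pool.Agent.Lib.MP_778b46_nt.GL

open Finset MeasureTheory Filter
open Pool.Agent.Lib.MP_778b46_nt.MA (lp w1 a1S a1M cf cop R1 I0 RR)
open Pool.Agent.Lib.MP_778b46_nt.VA (ee nd)

theorem pav_so {ε : ℝ} (hε : 0 < ε) {y : ℕ} (hy : 300 ≤ y) : ∃ L0 : ℕ, ∀ L : ℕ, L0 ≤ L →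
    pav L (SO y) ≤ 13 / 10 + ε := by
  refine ⟨⌈SO y 0 / ε⌉₊ + 1, fun L hL => ?_⟩
  have h1 : 1 ≤ L := by omega
  have h2 : SO y 0 / ε ≤ L := (Nat.le_ceil _).trans (by exact_mod_cast (by omega))
  have h3 : (0 : ℝ) < L := by exact_mod_cast h1
  have h4 : pav L (SO y) ≤ pav L (fun m => SM y m + if m = 0 then SO y 0 else 0) :=
    pav_le L fun m _ _ => by
      by_cases e : m = 0
      · rw [if_pos e, e]
        linarith [sm_nonneg y 0]
      · rw [if_neg e, add_zero]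
        exact so_le y e
  rw [pav_add, pav_delta h1] at h4
  have h5 : SO y 0 / L ≤ ε := by
    rw [div_le_iff₀ h3]
    rw [div_le_iff₀ hε] at h2
    linarith
  linarith [pav_sm hy L]

theorem f2_st (R : ℕ) (m : ℤ) : ST R (m.natAbs : ℕ) = ST R m := by
  rcases Int.natAbs_eq m with e | e
  · rw [← e]
  · rw [← st_neg, ← e]

theorem f2_sm (y : ℕ) (m : ℤ) : SM y (m.natAbs : ℕ) = SM y m := by
  simp only [SM, Int.natCast_natAbs, abs_eq_zero, dvd_abs, Int.natAbs_abs]

theorem pav_cu {θ κ ε : ℝ} (h0 : 0 < θ) (h1 : θ < 5 / 12) (hκ : 0 < κ) (hε : 0 < ε) :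
    ∃ y0 : ℕ, ∀ y, y0 ≤ y → ∀ᶠ X : ℝ in atTop, ∀ L : ℕ, Real.log X ≤ L →
      (2 : ℝ) ^ (L + 5) ≤ X ^ (1 - κ) →
      pav L (fun h => CU X ⌊X ^ θ⌋₊ h.natAbs) ≤
        X * I2 * (52 / 5 - 2 * pav L (SO y) + (1 - θ) * Real.log X / L) + ε * X := by
  obtain ⟨e, he, rfl⟩ : ∃ e : ℝ, 0 < e ∧ ε = 6 * e := ⟨ε / 6, by positivity, by ring⟩
  obtain ⟨y1, hy1⟩ := tail he
  refine ⟨max y1 300, fun y hy => ?_⟩
  have y3 : 300 ≤ y := (le_max_right _ _).trans hy
  obtain ⟨L0, R0, ht⟩ := hy1 y ((le_max_left _ _).trans hy)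
  filter_upwards [cu_le hκ he, rp_le he (show 2 ≤ y by omega), rp_zero he,
    eventually_ge_atTop (1 : ℝ),
    (tendsto_rpow_atTop h0).eventually_ge_atTop ((max R0 2 : ℕ) : ℝ),
    Real.tendsto_log_atTop.eventually_ge_atTop ((max L0 2 : ℕ) : ℝ),
    Real.tendsto_log_atTop.eventually_ge_atTop (2 * SO y 0 / e)] with X c1 c2 c3 X1 c4 c5 c6
  intro L hL hX
  have r1 : max R0 2 ≤ ⌊X ^ θ⌋₊ := Nat.le_floor c4
  have l1 : max L0 2 ≤ L := by exact_mod_cast c5.trans hL
  have l2 : 2 ≤ L := (le_max_right _ _).trans l1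
  have l3 : (0 : ℝ) < L := by exact_mod_cast (by omega : 0 < L)
  have X0 : 0 < X := by linarith
  have r2 : (⌊X ^ θ⌋₊ : ℝ) ≤ X ^ (5 / 12 : ℝ) := (Nat.floor_le (by positivity)).trans
    (Real.rpow_le_rpow_of_exponent_le X1 h1.le)
  have r3 : θ * Real.log X ≤ ST ⌊X ^ θ⌋₊ 0 := by
    rw [← Real.log_rpow X0]
    exact (Real.log_le_log (by positivity) (Nat.lt_floor_add_one _).le).trans (st_zero _)
  have x1 : X ^ (1 - κ) ≤ X := by
    simpa using Real.rpow_le_rpow_of_exponent_le X1 (show 1 - κ ≤ 1 by linarith)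
  obtain ⟨i1, i2⟩ := i2_mem
  have xi : 0 ≤ X * I2 := by positivity
  generalize ⌊X ^ θ⌋₊ = R at *
  have k1 : pav L (fun m => if m = 0 then 0 else |ST R m - 2 * SO y m|) ≤ e :=
    pav_le_of_av (by omega) fun i hi => ht L R ((le_max_left _ _).trans l1)
      ((le_max_left _ _).trans r1) _ (by rw [pow_succ]; exact even_two.mul_left _) (by
        rw [abs_of_nonneg (by positivity), show (8 : ℤ) = 2 ^ 3 by norm_num, ← pow_mul]
        exact pow_le_pow_right₀ one_le_two (by omega))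
  have k2 : pav L (fun h => CU X R h.natAbs) ≤ pav L (fun m => X * I2 * ((8 + e) * SM y m +
      ((-2) * SO y m + ((if m = 0 then 0 else |ST R m - 2 * SO y m|) +
        if m = 0 then (1 - θ) * Real.log X + 2 * SO y 0 else 0))) + 2 * e * X) :=
    pav_le L fun m m1 m2 => by
      have a1 : ((m.natAbs : ℕ) : ℝ) ≤ X ^ (1 - κ) := by
        refine le_trans ?_ hX
        have : (m.natAbs : ℤ) ≤ 2 ^ (L + 5) := by
          rw [Int.natCast_natAbs]
          exact m2.trans (pow_le_pow_right₀ one_le_two (by omega))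
        exact_mod_cast this
      have a2 := c1 R m.natAbs ((le_max_right _ _).trans r1) r2 a1
      rw [f2_st] at a2
      by_cases z : m = 0
      · subst z
        rw [if_pos rfl, if_pos rfl]
        rw [Int.natAbs_zero] at a2 ⊢
        have a3 := mul_le_mul_of_nonneg_left r3 xi
        have a4 := mul_nonneg xi (mul_nonneg (show 0 ≤ 8 + e by linarith) (sm_nonneg y 0))
        linarith
      · have a3 := c2 m.natAbs (Int.natAbs_pos.2 z) (Int.natAbs_even.2 m1) (a1.trans x1)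
        rw [f2_sm] at a3
        rw [if_neg z, if_neg z]
        have a4 := mul_le_mul_of_nonneg_left (neg_abs_le (ST R m - 2 * SO y m)) xi
        linarith
  rw [pav_add, pav_mul, pav_add, pav_mul, pav_add, pav_mul, pav_add, pav_delta (by omega),
    pav_const (by omega), add_div] at k2
  have k3 : 2 * SO y 0 / L ≤ e := by
    rw [div_le_iff₀ l3]
    have := (div_le_iff₀ he).1 (c6.trans hL)
    linarith
  have k4 := mul_le_mul_of_nonneg_left (pav_sm y3 L) (show 0 ≤ 8 + e by linarith)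
  have k5 := mul_le_mul_of_nonneg_left (add_le_add k4 (add_le_add k1 k3)) xi
  have k6 := mul_le_mul_of_nonneg_left i2 (mul_pos he X0).le
  have k7 := mul_pos he X0
  linarith

end Pool.Agent.Lib.MP_778b46_nt.GL
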