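import Pool.Agent.Lib.MP_778b46_nt.GL.M4
import Pool.Agent.Lib.MP_778b46_nt.GL.T3

/-!
The lower bound for the major arcs.
-/

set_option autoImplicit false

noncomputable section

namespace Pool.Agent.Lib.MP_778b46_nt.GL

open Finset MeasureTheory Filter
open Pool.Agent.Lib.MP_778b46_nt.MA (lp w1 a1S a1M cf cop R1 I0 RR)
open Pool.Agent.Lib.MP_778b46_nt.VA (ee nd)

theorem major_low {θ κ ε : ℝ} (h0 : 0 < θ) (h1 : θ < 5 / 12) (hκ : 0 < κ) (hε : 0 < ε) :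
    ∃ (k : ℝ) (y0 : ℕ), 0 < k ∧ k ≤ 1 / 12 ∧ ∀ y, y0 ≤ y → ∀ᶠ X : ℝ in atTop, ∀ L N : ℕ,
      Real.log X ≤ L → (2 : ℝ) ^ (L + 5) ≤ X ^ (1 - κ) → 2 * X ≤ 8 ^ L → Even N →
      (N : ℝ) = 9 / 8 * X →
      2 * (X * I2) * DA L (SO y) N - ε * X ≤
        DA L (FC fun x => (a1M X (X ^ θ) (X ^ θ * X ^ k) x : ℂ) * (a1S X x * a1S X x)) N := by
  obtain ⟨k, k0, k1, hm⟩ := major_av h0 h1 hκ (ε := ε / 8) (by positivity)
  obtain ⟨y0, ht⟩ := tail (ε := ε / 8) (by positivity)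
  refine ⟨k, y0, k0, k1, fun y hy => ?_⟩
  obtain ⟨L0, R0, ht⟩ := ht y hy
  filter_upwards [hm, Real.tendsto_log_atTop.eventually_ge_atTop (L0 + 1),
    (tendsto_rpow_atTop h0).eventually_ge_atTop R0,
    (tendsto_rpow_atTop hκ).eventually_ge_atTop 8, eventually_gt_atTop 0]
    with X e1 e2 e3 e4 hX L N l1 l2 l3 hN hNX
  have hL : L0 + 1 ≤ L := by exact_mod_cast e2.trans l1
  have hR : R0 ≤ ⌊X ^ θ⌋₊ := Nat.le_floor e3
  have p1 : (2 : ℝ) ^ (L + 5) = 2 * 2 ^ (L + 4) := by ring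
  have p0 : (0 : ℝ) < 2 ^ (L + 4) := by positivity
  have p2 : 16 * (2 : ℝ) ^ (L + 4) ≤ X := by
    have : X ^ (1 - κ) * X ^ κ = X := by rw [← Real.rpow_add hX]; simp
    have h2 : 0 < X ^ (1 - κ) := Real.rpow_pos_of_pos hX _
    nlinarith
  have p3 : 16 * (2 : ℤ) ^ (L + 4) ≤ N := by
    have : 16 * (2 : ℝ) ^ (L + 4) ≤ N := by linarith
    exact_mod_cast this
  have p4 : (N : ℤ) ≤ 8 ^ L := by
    have : (N : ℝ) ≤ 8 ^ L := by linarith
    exact_mod_cast this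
  have p5 : (0 : ℤ) < 2 ^ (L + 4) := by positivity
  have d1 := da_le (L := L) (by omega) (N := N) (ε := ε / 8 * X)
    (f := FC fun x => (a1M X (X ^ θ) (X ^ θ * X ^ k) x : ℂ) * (a1S X x * a1S X x))
    (g := fun m => X * I2 * ST ⌊X ^ θ⌋₊ m) fun m m1 m2 _ => by
      have m1' : (N : ℝ) - 5 * 2 ^ (L + 4) ≤ m := by exact_mod_cast m1
      have m2' : (m : ℝ) ≤ N := by exact_mod_cast m2
      exact e1 L l1 l2 m (by linarith) (by linarith)
  have d2 := da_le (L := L) (by omega) (N := N) (ε := ε / 8) (f := ST ⌊X ^ θ⌋₊)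
    (g := fun m => 2 * SO y m) fun m m1 m2 m3 => by
      refine le_trans (av_le L fun j hj => ?_) (ht L _ (by omega) hR m ?_ ?_)
      · have : (2 : ℤ) ^ (j + 5) ≤ 2 ^ (L + 4) := pow_le_pow_right₀ (by norm_num) (by omega)
        rw [if_neg (by omega)]
      · obtain ⟨a, ha⟩ := hN
        obtain ⟨b, hb⟩ := m3
        exact ⟨a - b, by omega⟩
      · rw [abs_of_nonneg (by omega)]; omega
  rw [da_mul] at d1 d2
  obtain ⟨i1, i2⟩ := i2_mem
  have q1 : 0 ≤ X * I2 := by positivity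
  have q2 : X * I2 ≤ X := by nlinarith
  have a1 := (abs_le.1 d1).1
  have a2 := mul_le_mul_of_nonneg_left (abs_le.1 d2).1 q1
  nlinarith [mul_le_mul_of_nonneg_left q2 hε.le]

end Pool.Agent.Lib.MP_778b46_nt.GL
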