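import Pool.Agent.Lib.MP_778b46_nt.GL.A1

/-! The small moduli: a checker and its soundness. -/

set_option autoImplicit false

noncomputable section

namespace Pool.Agent.Lib.MP_778b46_nt.GL

open Finset

/-- A digit in base `2 ^ 40`. -/
def m2dg (F n : ℕ) : ℕ := F >>> (40 * n) % 1099511627776

/-- The number with given digits. -/
def m2pk (f : ℕ → ℕ) (q : ℕ) : ℕ := Nat.rec 0 (fun n acc => acc + f n <<< (40 * n)) q

/-- A finite sum. -/
def m2sm (f : ℕ → ℕ) (o : ℕ) : ℕ := Nat.rec 0 (fun j acc => acc + f j) o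

/-- A finite conjunction. -/
def m2all (f : ℕ → Bool) (q : ℕ) : Bool := Nat.rec true (fun j acc => f j && acc) q

/-- Evaluation before use. -/
def m2fo (x : ℕ) (k : ℕ → Bool) : Bool := Nat.rec (k 0) (fun n _ => k n.succ) x

/-- The sum over the shifts by powers of two. -/
def m2tr (q o : ℕ) (φ : ℕ → ℕ) (n : ℕ) : ℕ := m2sm (fun j => φ ((n + q - 2 ^ j % q) % q)) o

/-- The same on packed tables. -/
def m2st (q o F : ℕ) : ℕ := m2pk (m2tr q o (m2dg F)) q

/-- The sum of Ramanujan. -/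
def m2g (ls : List ℕ) (n : ℕ) : ℤ := (ls.map fun l => if n % l = 0 then (l : ℤ) - 1 else -1).prod

/-- The same, shifted. -/
def m2h (ls : List ℕ) (n : ℕ) : ℕ := (m2g ls n + ls.prod).toNat

/-- The checker. -/
def m2chk (ls : List ℕ) (o a : ℕ) : Bool :=
  m2fo ls.prod fun q => m2fo (m2pk (m2h ls) q) fun F0 => m2fo (m2st q o F0) fun F1 =>
  m2fo (m2st q o F1) fun F2 => m2fo (m2st q o F2) fun F3 => m2fo (m2st q o F3) fun F4 =>
  m2fo (m2st q o F4) fun F5 => m2fo (m2st q o F5) fun F6 =>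
  m2fo (100000 * (2 * o ^ 4 * m2sm (fun i => m2dg F1 (2 ^ i % q)) o)) fun s =>
  m2fo (100000 * (4 * q * o ^ 6) + 2 * a * (ls.map (· - 1)).prod ^ 2 * o ^ 6) fun t =>
  Nat.ble 1 o && Nat.blt (2 * q * o ^ 6) 1099511627776 && Nat.beq (2 ^ o % q) (1 % q) &&
    m2all (fun n => Nat.ble (300000 * o * m2dg F5 n + t) (500000 * m2dg F6 n + s)) q

theorem m2_fo (x : ℕ) (k : ℕ → Bool) : m2fo x k = k x := by cases x <;> rfl

theorem m2_sm (f : ℕ → ℕ) (o : ℕ) : m2sm f o = ∑ j ∈ range o, f j := by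
  induction o with
  | zero => rfl
  | succ o ih => rw [sum_range_succ, ← ih]; rfl

theorem m2_all {f : ℕ → Bool} {q : ℕ} (h : m2all f q = true) : ∀ n < q, f n = true := by
  induction q with
  | zero => simp
  | succ q ih =>
    have h1 : (f q && m2all f q) = true := h
    rw [Bool.and_eq_true] at h1
    intro n hn
    rcases Nat.lt_succ_iff_lt_or_eq.1 hn with h2 | rfl
    · exact ih h1.2 n h2
    · exact h1.1

theorem m2_pk {f : ℕ → ℕ} {q : ℕ} (h : ∀ n < q, f n < 2 ^ 40) :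
    m2pk f q < (2 ^ 40) ^ q ∧ ∀ n < q, m2dg (m2pk f q) n = f n := by
  induction q with
  | zero => exact ⟨Nat.one_pos, by simp⟩
  | succ q ih =>
    obtain ⟨a1, a2⟩ := ih fun n hn => h n (by omega)
    have e : m2pk f (q + 1) = m2pk f q + f q * (2 ^ 40) ^ q := by
      rw [← pow_mul, ← Nat.shiftLeft_eq]; rfl
    have d : ∀ F n, m2dg F n = F / (2 ^ 40) ^ n % 2 ^ 40 := fun F n => by
      rw [m2dg, Nat.shiftRight_eq_div_pow, pow_mul]; rfl
    have hq := h q (by omega)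
    generalize 2 ^ 40 = B at *
    have hB : 0 < B := by omega
    refine ⟨?_, fun n hn => ?_⟩
    · rw [e, pow_succ]
      nlinarith [Nat.pos_of_ne_zero (pow_ne_zero q hB.ne')]
    · rw [d, e]
      rcases Nat.lt_succ_iff_lt_or_eq.1 hn with h2 | rfl
      · obtain ⟨k, rfl⟩ := Nat.exists_eq_add_of_lt h2
        rw [← a2 n h2, d, show f (n + k + 1) * B ^ (n + k + 1) =
          B ^ n * (B * (B ^ k * f (n + k + 1))) by ring,
          Nat.add_mul_div_left _ _ (pow_pos hB n), Nat.add_mul_mod_self_left]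
      · rw [Nat.add_mul_div_right _ _ (pow_pos hB n), Nat.div_eq_of_lt a1, zero_add,
          Nat.mod_eq_of_lt hq]

theorem m2_step {q o c F : ℕ} {φ : ℕ → ℕ} (hq : 0 < q) (hc : c * o < 2 ^ 40)
    (h1 : ∀ n < q, φ n ≤ c) (h2 : ∀ n < q, m2dg F n = φ n) :
    (∀ n < q, m2tr q o φ n ≤ c * o) ∧ ∀ n < q, m2dg (m2st q o F) n = m2tr q o φ n := by
  have a1 : ∀ n, m2tr q o φ n ≤ c * o := fun n => by
    rw [m2tr, m2_sm]
    refine (sum_le_card_nsmul _ _ c fun j _ => h1 _ (Nat.mod_lt _ hq)).trans ?_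
    rw [card_range, smul_eq_mul, mul_comm]
  have a2 : m2tr q o (m2dg F) = m2tr q o φ := by
    funext n
    simp only [m2tr, h2 _ (Nat.mod_lt _ hq)]
  refine ⟨fun n _ => a1 n, ?_⟩
  rw [m2st, a2]
  exact (m2_pk fun n _ => (a1 n).trans_lt hc).2

/-- The periodic extension of a table. -/
def m2ex (q : ℕ) (φ : ℕ → ℕ) (m : ℤ) : ℝ := φ (m % q).toNat

theorem m2_per {ψ : ℕ → ℝ} {o : ℕ} (h : ∀ j, ψ (j + o) = ψ j) (t b : ℕ) :
    ∑ j ∈ range (o * t), ψ (j + b) = t * ∑ j ∈ range o, ψ j := by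
  have a1 : ∀ b, ∑ j ∈ range o, ψ (j + b) = ∑ j ∈ range o, ψ j := fun b => by
    induction b with
    | zero => rfl
    | succ b ih =>
      have e1 := sum_range_succ (fun j => ψ (j + b)) o
      have e2 := sum_range_succ' (fun j => ψ (j + b)) o
      simp only [zero_add, add_comm o b, h b] at e1 e2
      rw [← ih, ← add_left_inj (ψ b), ← e1, e2]
      simp only [add_assoc, add_comm 1 b]
  induction t with
  | zero => simp
  | succ t ih =>
    rw [mul_add, mul_one, sum_range_add, ih, Nat.cast_succ, add_mul, one_mul, ← a1 (o * t + b)]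
    simp only [add_assoc, add_left_comm (o * t)]

theorem m2_mean {ψ : ℕ → ℝ} {o L : ℕ} (h : ∀ j, ψ (j + o) = ψ j) (ho : o ∣ L) (hL : 1 ≤ L) :
    (L : ℝ)⁻¹ * ∑ j ∈ range L, ψ (j + 5) = (o : ℝ)⁻¹ * ∑ j ∈ range o, ψ j := by
  obtain ⟨t, rfl⟩ := ho
  have ht : (t : ℝ) ≠ 0 := by rintro h; simp [Nat.cast_eq_zero.1 h] at hL
  rw [m2_per h, Nat.cast_mul, mul_inv, mul_assoc, inv_mul_cancel_left₀ ht]

theorem m2_mod {q o : ℕ} (h : 2 ^ o % q = 1 % q) (j : ℕ) : (2 : ℤ) ^ (j + o) ≡ 2 ^ j [ZMOD q] := by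
  have h1 : (2 : ℤ) ^ o ≡ 1 [ZMOD q] := by exact_mod_cast Int.natCast_modEq_iff.2 h
  simpa [pow_add] using h1.mul_left (2 ^ j)

theorem m2_av {q o L : ℕ} (hq : 0 < q) (h : 2 ^ o % q = 1 % q) (ho : o ∣ L) (hL : 1 ≤ L)
    (φ : ℕ → ℕ) : av L (m2ex q φ) = fun N => (o : ℝ)⁻¹ * m2ex q (m2tr q o φ) N := by
  funext N
  rw [av, m2_mean (ψ := fun j => m2ex q φ (N - 2 ^ j)) (fun j => by
    simp only [m2ex]
    rw [((m2_mod h j).sub_left N).eq]) ho hL, m2ex, m2tr, m2_sm, Nat.cast_sum]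
  congr 1
  refine sum_congr rfl fun j _ => ?_
  rw [m2ex]
  congr 2
  have q0 : (q : ℤ) ≠ 0 := by exact_mod_cast hq.ne'
  have a1 := Int.toNat_of_nonneg (Int.emod_nonneg N q0)
  have a2 : 2 ^ j % q ≤ (N % q).toNat + q := (Nat.mod_lt _ hq).le.trans (Nat.le_add_left _ _)
  refine Int.natCast_inj.1 ?_
  rw [Int.toNat_of_nonneg (Int.emod_nonneg _ q0)]
  push_cast [Nat.cast_sub a2]
  rw [a1, add_sub_right_comm, Int.add_emod_right, ← Int.sub_emod]

theorem m2_avk {q o L : ℕ} (hq : 0 < q) (h : 2 ^ o % q = 1 % q) (ho : o ∣ L) (hL : 1 ≤ L)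
    (k : ℕ) : ∀ (φ : ℕ → ℕ) (N : ℤ),
      (av L)^[k] (m2ex q φ) N = ((o : ℝ) ^ k)⁻¹ * m2ex q ((m2tr q o)^[k] φ) N := by
  induction k with
  | zero => simp
  | succ k ih =>
    intro φ N
    rw [Function.iterate_succ_apply, m2_av hq h ho hL, avk_mul, ih, Function.iterate_succ_apply,
      pow_succ', mul_inv, mul_assoc]

theorem m2_list (ls : List ℕ) (h2 : ∀ l ∈ ls, 2 ≤ l) (n : ℕ) (m : ℤ)
    (h : ∀ l ∈ ls, (l : ℤ) ∣ m ↔ n % l = 0) : |m2g ls n| ≤ ls.prod ∧
      0 < (ls.map (· - 1)).prod ∧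
      (ls.map fun l => rho l m).prod * ((ls.map (· - 1)).prod : ℕ) ^ 2 = m2g ls n := by
  induction ls with
  | nil => simp [m2g]
  | cons l ls ih =>
    obtain ⟨a1, a2, a3⟩ := ih (fun x hx => h2 x (List.mem_cons_of_mem _ hx))
      fun x hx => h x (List.mem_cons_of_mem _ hx)
    have b1 := h2 l List.mem_cons_self
    have b2 := h l List.mem_cons_self
    have b3 : (l : ℝ) - 1 ≠ 0 := by
      have : (2 : ℝ) ≤ l := by exact_mod_cast b1
      linarith
    unfold m2g at *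
    simp only [List.map_cons, List.prod_cons, Nat.cast_mul]
    refine ⟨?_, Nat.mul_pos (by omega) a2, ?_⟩
    · rw [abs_mul]
      refine mul_le_mul ?_ a1 (abs_nonneg _) (by positivity)
      split_ifs <;> rw [abs_le] <;> omega
    · rw [Int.cast_mul, ← a3, rho, uu, Nat.cast_sub (by omega)]
      by_cases c : n % l = 0
      · rw [if_pos (b2.2 c), if_pos c]
        push_cast
        field_simp
      · rw [if_neg (mt b2.1 c), if_neg c]
        push_cast
        field_simp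

theorem m2_sound {ls : List ℕ} {o a L : ℕ} (hc : m2chk ls o a = true) (h2 : ∀ l ∈ ls, 2 ≤ l)
    (ho : o ∣ L) (hL : 1 ≤ L) (N : ℤ) :
    (a : ℝ) / 100000 ≤ DA L (fun m => (ls.map fun l => rho l m).prod) N +
      pav L (fun m => (ls.map fun l => rho l m).prod) := by
  simp only [m2chk, m2_fo, Bool.and_eq_true, Nat.ble_eq, Nat.blt_eq, Nat.beq_eq] at hc
  obtain ⟨⟨⟨c1, c2⟩, c3⟩, c4⟩ := hc
  obtain ⟨q, hqd⟩ : ∃ q, q = ls.prod := ⟨_, rfl⟩
  obtain ⟨φ, hφ⟩ : ∃ φ, φ = (ls.map (· - 1)).prod := ⟨_, rfl⟩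
  have hq : 0 < q := hqd ▸ List.prod_pos fun l hl => by have := h2 l hl; omega
  have q0 : (q : ℤ) ≠ 0 := by exact_mod_cast hq.ne'
  have key : ∀ m : ℤ, |m2g ls (m % q).toNat| ≤ q ∧ 0 < φ ∧
      (ls.map fun l => rho l m).prod * (φ : ℝ) ^ 2 = m2g ls (m % q).toNat := fun m => by
    have := m2_list ls h2 (m % q).toNat m fun l hl => by
      have d1 : (l : ℤ) ∣ q := by exact_mod_cast hqd ▸ List.dvd_prod hl
      rw [← Nat.dvd_iff_mod_eq_zero, ← Int.natCast_dvd_natCast,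
        Int.toNat_of_nonneg (Int.emod_nonneg m q0), Int.emod_def,
        dvd_sub_left (d1.mul_right _)]
    rwa [← hqd, ← hφ] at this
  have p0 : (0 : ℝ) < φ := by exact_mod_cast (key 0).2.1
  have e0 : (fun m => (ls.map fun l => rho l m).prod) =
      fun m => ((φ : ℝ) ^ 2)⁻¹ * (m2ex q (m2h ls) m + -q) := by
    funext m
    obtain ⟨k1, -, k3⟩ := key m
    have k4 := Int.toNat_of_nonneg (show 0 ≤ m2g ls (m % q).toNat + q by
      linarith [(abs_le.1 k1).1])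
    have k5 : m2ex q (m2h ls) m = m2g ls (m % q).toNat + q := by
      rw [m2ex, m2h, ← hqd]
      exact_mod_cast k4
    rw [k5, ← k3]
    field_simp
    ring
  have b0 : ∀ n < q, m2h ls n ≤ 2 * q := fun n hn => by
    have k1 := (key n).1
    rw [← Int.natCast_mod, Int.toNat_natCast, Nat.mod_eq_of_lt hn] at k1
    rw [m2h, ← hqd, Int.toNat_le]
    push_cast
    linarith [(abs_le.1 k1).2]
  rw [← hqd, ← hφ] at c4
  rw [← hqd] at c2 c3
  have mono : ∀ k ≤ 6, 2 * q * o ^ k < 2 ^ 40 := fun k hk =>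
    (Nat.mul_le_mul_left _ (Nat.pow_le_pow_right c1 hk)).trans_lt c2
  have s0 := (m2_pk (f := m2h ls) fun n hn => (b0 n hn).trans_lt (by simpa using mono 0)).2
  have s1 := m2_step (o := o) hq (by simpa using mono 1) b0 s0
  have s2 := m2_step (o := o) hq (by simpa [pow_succ, mul_assoc] using mono 2) s1.1 s1.2
  have s3 := m2_step (o := o) hq (by simpa [pow_succ, mul_assoc] using mono 3) s2.1 s2.2
  have s4 := m2_step (o := o) hq (by simpa [pow_succ, mul_assoc] using mono 4) s3.1 s3.2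
  have s5 := m2_step (o := o) hq (by simpa [pow_succ, mul_assoc] using mono 5) s4.1 s4.2
  have s6 := m2_step (o := o) hq (by simpa [pow_succ, mul_assoc] using mono 6) s5.1 s5.2
  have hn : (N % q).toNat < q := by
    rw [Int.toNat_lt (Int.emod_nonneg N q0)]
    exact Int.emod_lt_of_pos N (by exact_mod_cast hq)
  have c5 := m2_all c4 _ hn
  rw [Nat.ble_eq, s5.2 _ hn, s6.2 _ hn, m2_sm,
    sum_congr rfl fun i _ => s1.2 _ (Nat.mod_lt _ hq)] at c5
  have e1 : pav L (m2ex q (m2h ls)) =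
      (o : ℝ)⁻¹ * ((o : ℝ)⁻¹ * ∑ i ∈ range o, (m2tr q o (m2h ls) (2 ^ i % q) : ℝ)) := by
    rw [pav, m2_av hq c3 ho hL, m2_mean (ψ := fun i => (o : ℝ)⁻¹ *
      m2ex q (m2tr q o (m2h ls)) (2 ^ i)) (fun j => by
        simp only [m2ex]
        rw [(m2_mod c3 j).eq]) ho hL, ← mul_sum]
    congr 2
  rw [e0, da_mul, pav_mul, pav_add, pav_const hL, e1, DA, avk_add, avk_add, avk_const hL,
    avk_const hL, m2_avk hq c3 ho hL, m2_avk hq c3 ho hL]
  simp only [m2ex, Function.iterate_succ_apply', Function.iterate_zero_apply]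
  have c6 := (Nat.cast_le (α := ℝ)).2 c5
  push_cast at c6
  have o0 : (0 : ℝ) < o := by exact_mod_cast c1
  generalize (∑ i ∈ range o, (m2tr q o (m2h ls) (2 ^ i % q) : ℝ)) = s at *
  generalize (m2tr q o (m2tr q o (m2tr q o (m2tr q o (m2tr q o (m2h ls)))))) = H at *
  rw [← sub_nonneg] at c6 ⊢
  refine le_of_le_of_eq (div_nonneg c6 (show 0 ≤ 200000 * (φ : ℝ) ^ 2 * o ^ 6 by positivity)) ?_
  field_simp
  ring

/-- The moduli, the orders of two and the gains. -/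
def m2tab : List (List ℕ × ℕ × ℕ) :=
  [([], 1, 200000), ([3], 2, 10351), ([7], 3, 3459), ([3, 5], 4, 2539), ([5], 4, 1549),
    ([31], 5, 555), ([3, 7], 6, 456), ([17], 8, 431), ([3, 11], 10, 421), ([3, 17], 8, 358),
    ([3, 13], 12, 281), ([23], 11, 224), ([5, 17], 8, 191), ([5, 13], 12, 172), ([73], 9, 135),
    ([3, 19], 18, 123), ([43], 14, 115), ([3, 5, 7], 12, 114), ([127], 7, 101), ([11], 10, 99),
    ([7, 13], 12, 97), ([5, 11], 20, 86), ([3, 5, 17], 8, 85), ([89], 11, 85), ([3, 43], 14, 79),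
    ([3, 31], 10, 71), ([3, 5, 13], 12, 71)]

theorem m2_cert : (m2tab.all fun e => m2chk e.1 e.2.1 e.2.2) = true := by decide +kernel

end Pool.Agent.Lib.MP_778b46_nt.GL
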