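import Pool.Agent.Lib.MP_778b46_nt.GL.M1
import Pool.Agent.Lib.MP_778b46_nt.GL.M2

/-!
The lower bound for the main term.
-/

set_option autoImplicit false

noncomputable section

namespace Pool.Agent.Lib.MP_778b46_nt.GL

open Finset MeasureTheory Filter
open Pool.Agent.Lib.MP_778b46_nt.MA (lp w1 a1S a1M cf cop R1 I0 RR)
open Pool.Agent.Lib.MP_778b46_nt.VA (ee nd)

theorem m3_tab : (m2tab.map fun e => e.1.toFinset).Nodup ∧ (m2tab.map fun e => e.2.2).sum = 222248 ∧
    ∀ e ∈ m2tab, e.1.Nodup ∧ e.2.1 ∣ 27720 ∧ ∀ l ∈ e.1, l.Prime ∧ l ≠ 2 ∧ l ≤ 300 := by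
  refine ⟨by decide +kernel, by decide +kernel, by decide +kernel⟩

theorem mt_low {ε : ℝ} (hε : 0 < ε) {y : ℕ} (hy : 300 ≤ y) : ∃ L0 : ℕ, ∀ L : ℕ, L0 ≤ L →
    27720 ∣ L → ∀ N : ℤ, 1111 / 500 - ε ≤ DA L (SO y) N + pav L (SO y) := by
  obtain ⟨t1, t2, t3⟩ := m3_tab
  set M := ∏ l ∈ od3 y, (1 + uu l) with hM
  have hp : ∀ l ∈ od3 y, l.Prime := fun l hl => (Nat.mem_primesLE.1 (mem_erase.1 hl).2).2
  have u0 : ∀ l : ℕ, l.Prime → 0 ≤ uu l := fun l hl => by
    have : (2 : ℝ) ≤ l := by exact_mod_cast hl.two_le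
    rw [uu]
    exact div_nonneg zero_le_one (by linarith)
  refine ⟨⌈3 * M / ε⌉₊ + 1, fun L hL hd N => ?_⟩
  have L1 : 1 ≤ L := by omega
  have L0 : (0 : ℝ) < L := by exact_mod_cast L1
  have L2 : 3 / L * M ≤ ε := by
    have : 3 * M / ε ≤ L := (Nat.le_ceil _).trans (by exact_mod_cast (by omega))
    rw [div_le_iff₀ hε] at this
    rw [div_mul_eq_mul_div, div_le_iff₀ L0]
    linarith
  set G : Finset ℕ → ℝ := fun S => DA L (fun m => ∏ l ∈ S, rho l m) N +
    pav L (fun m => ∏ l ∈ S, rho l m) with hG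
  have e : DA L (SO y) N + pav L (SO y) = ∑ S ∈ (od3 y).powerset, G S := by
    have : SO y = fun m => ∑ S ∈ (od3 y).powerset, ∏ l ∈ S, rho l m := by
      funext m
      rw [SO, prod_one_add]
    rw [this, da_sum, pav_sum, sum_add_distrib]
  set F := (m2tab.map fun e => e.1.toFinset).toFinset with hF
  have hs : F ⊆ (od3 y).powerset := fun S hS => by
    obtain ⟨e, he, rfl⟩ := List.mem_map.1 (List.mem_toFinset.1 hS)
    refine mem_powerset.2 fun l hl => ?_
    obtain ⟨a1, a2, a3⟩ := (t3 e he).2.2 l (List.mem_toFinset.1 hl)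
    exact mem_erase.2 ⟨a2, Nat.mem_primesLE.2 ⟨a3.trans hy, a1⟩⟩
  have h1 : (222248 : ℝ) / 100000 ≤ ∑ S ∈ F, G S := by
    rw [hF, List.sum_toFinset _ t1, List.map_map]
    have e2 : (222248 : ℝ) / 100000 = (m2tab.map fun e => (e.2.2 : ℝ) / 100000).sum := by
      simp only [div_eq_mul_inv, List.sum_map_mul_right]
      congr 1
      have := congrArg (Nat.cast (R := ℝ)) t2
      rw [Nat.cast_list_sum, List.map_map] at this
      exact_mod_cast this.symm
    rw [e2]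
    refine List.sum_le_sum fun e he => ?_
    obtain ⟨a1, a2, a3⟩ := t3 e he
    have := m2_sound (List.all_eq_true.1 m2_cert e he) (fun l hl => (a3 l hl).1.two_le)
      (a2.trans hd) L1 N
    simpa only [hG, Function.comp, List.prod_toFinset _ a1] using this
  have h2 : -(3 / L * M) ≤ ∑ S ∈ (od3 y).powerset \ F, G S := by
    refine le_trans ?_ (sum_le_sum fun S hS =>
      m1_set L1 S (fun l hl => hp l (mem_powerset.1 (mem_sdiff.1 hS).1 hl)) N)
    rw [sum_neg_distrib, ← mul_sum, hM, prod_one_add, neg_le_neg_iff]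
    refine mul_le_mul_of_nonneg_left (sum_le_sum_of_subset_of_nonneg sdiff_subset fun S hS _ =>
      prod_nonneg fun l hl => u0 l (hp l (mem_powerset.1 hS hl))) (by positivity)
  rw [e, ← sum_sdiff hs]
  linarith

end Pool.Agent.Lib.MP_778b46_nt.GL
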