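import Pool.Agent.Lib.MP_778b46_nt.GL.P1
import Pool.Agent.Lib.MP_778b46_nt.GL.A2
import Pool.Agent.Lib.MP_778b46_nt.GL.A3
import Pool.Agent.Lib.MP_778b46_nt.GL.A4

/-!
The model lives on the major arcs.
-/

set_option autoImplicit false

noncomputable section

namespace Pool.Agent.Lib.MP_778b46_nt.GL

open Finset MeasureTheory Filter
open Pool.Agent.Lib.MP_778b46_nt.MA (lp w1 a1S a1M cf cop R1 I0 RR)
open Pool.Agent.Lib.MP_778b46_nt.VA (ee nd)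

theorem vs_cont (X : ℝ) (R : ℕ) : Continuous (VS X R) := by
  have := VA.continuous_ee
  unfold VS
  fun_prop

theorem p2_card (q : ℕ) : (cop q).card = Nat.totient q := by
  rw [Nat.totient_eq_card_coprime, cop]
  congr 1
  exact filter_congr fun c _ => Nat.coprime_comm

theorem p2_vs (X : ℝ) (R : ℕ) (x : ℝ) : VS X R x = ∑ S ∈ dd (Nat.primesLE R) R,
    ((∏ l ∈ S, -uu l : ℝ) : ℂ) * ∑ c ∈ cop (∏ l ∈ S, l),
      ∑ n ∈ Icc 1 ⌊X⌋₊, (w1 (n / X) : ℂ) * ee (n * (x - c / (∏ l ∈ S, l : ℕ))) := by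
  have h1 : ∀ n : ℕ, ((lm R n * w1 (n / X) : ℝ) : ℂ) * ee (n * x) =
      ∑ S ∈ dd (Nat.primesLE R) R, ((∏ l ∈ S, -uu l : ℝ) : ℂ) * ∑ c ∈ cop (∏ l ∈ S, l),
        (w1 (n / X) : ℂ) * ee (n * (x - c / (∏ l ∈ S, l : ℕ))) := by
    intro n
    rw [lm, sig, Complex.ofReal_mul, Complex.ofReal_sum, sum_mul, sum_mul]
    refine sum_congr rfl fun S hS => ?_
    have h2 : ∏ l ∈ S, ps l n = ∏ l ∈ S, ps l (-n) :=
      prod_congr rfl fun l _ => by simp only [ps, dvd_neg]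
    rw [h2, ps_prod S (fun l hl => Nat.prime_of_mem_primesLE (subset_of_mem_dd hS hl)), mul_assoc,
      mul_assoc, sum_mul]
    congr 1
    refine sum_congr rfl fun c _ => ?_
    rw [mul_left_comm, ← VA.ee_add]
    congr 2
    push_cast
    ring
  rw [VS, sum_congr rfl fun n _ => h1 n, sum_comm]
  refine sum_congr rfl fun S _ => ?_
  rw [← mul_sum, sum_comm]

theorem vs_off {κ : ℝ} (hκ : 0 < κ) : ∃ C : ℝ, 0 ≤ C ∧ ∀ X P H x : ℝ, 1 ≤ P → 1 ≤ X →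
    P * X ^ κ ≤ H → P * H ≤ X → a1M X P H x ≠ 1 → ‖VS X ⌊P⌋₊ x‖ ≤ C := by
  obtain ⟨j, hj⟩ := exists_nat_ge (2 / κ)
  obtain ⟨C, hC0, hC⟩ := t_decay j
  have hpi := Real.pi_pos
  refine ⟨C * (2 * Real.pi) ^ j, by positivity, fun X P H x hP hX hH hPH hM => ?_⟩
  have hX0 : 0 < X := by linarith
  have hk : 1 ≤ X ^ κ := Real.one_le_rpow hX hκ.le
  have hPle : P ≤ H := by nlinarith
  have hPX : P ≤ X := by nlinarith
  have hpow : X ^ 2 ≤ (X ^ κ) ^ j := by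
    rw [← Real.rpow_natCast, ← Real.rpow_natCast, ← Real.rpow_mul hX0.le]
    refine Real.rpow_le_rpow_of_exponent_le hX ?_
    rw [div_le_iff₀ hκ] at hj
    push_cast
    linarith
  have hpr : ∀ l ∈ Nat.primesLE ⌊P⌋₊, l.Prime := fun l hl => Nat.prime_of_mem_primesLE hl
  have key : ∀ S ∈ dd (Nat.primesLE ⌊P⌋₊) ⌊P⌋₊, ‖((∏ l ∈ S, -uu l : ℝ) : ℂ) *
      ∑ c ∈ cop (∏ l ∈ S, l), ∑ n ∈ Icc 1 ⌊X⌋₊,
        (w1 (n / X) : ℂ) * ee (n * (x - c / (∏ l ∈ S, l : ℕ)))‖ ≤ C * (2 * Real.pi) ^ j / X := by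
    intro S hS
    have hS' : ∀ l ∈ S, l.Prime := fun l hl => hpr l (subset_of_mem_dd hS hl)
    have hq1 : 1 ≤ ∏ l ∈ S, l := prod_pos fun l hl => (hS' l hl).pos
    have hq2 : ∏ l ∈ S, l ≤ ⌊P⌋₊ := (mem_filter.1 hS).2
    have ht := tot_prod S hS'
    have hu : ‖((∏ l ∈ S, -uu l : ℝ) : ℂ)‖ = ∏ l ∈ S, uu l := by
      rw [Complex.norm_real, Real.norm_eq_abs, abs_prod]
      exact prod_congr rfl fun l hl => by rw [abs_neg, abs_of_pos (uu_pos (hS' l hl))]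
    have hu0 : 0 ≤ ∏ l ∈ S, uu l := prod_nonneg fun l hl => (uu_pos (hS' l hl)).le
    generalize ∏ l ∈ S, l = q at hq1 hq2 ht
    have hq0 : (0 : ℝ) < q := by exact_mod_cast hq1
    have hqP : (q : ℝ) ≤ P := (Nat.le_floor_iff (by linarith)).1 hq2
    have h1 : ∀ c ∈ cop q, ‖∑ n ∈ Icc 1 ⌊X⌋₊, (w1 (n / X) : ℂ) * ee (n * (x - c / q))‖ ≤
        C * (2 * Real.pi) ^ j / X := by
      intro c hc
      have h2 : H / q < 2 * Real.pi * X * nd (x - c / q) := not_le.1 fun e =>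
        hM ((MA.a1M_cases hP hPle hPH x).2 ⟨q, c⟩ (mem_sigma.2 ⟨mem_Icc.2 ⟨hq1, hq2⟩, hc⟩) e)
      have h3 : X ^ κ ≤ H / q := by
        rw [le_div_iff₀ hq0]
        nlinarith
      have h4 : X ^ κ ≤ 2 * Real.pi * (X * nd (x - c / q)) := by linarith
      have h5 : 0 < X * nd (x - c / q) := by
        by_contra e
        nlinarith
      have h6 : X ^ 2 ≤ (2 * Real.pi) ^ j * (X * nd (x - c / q)) ^ j := by
        rw [← mul_pow]
        exact hpow.trans (pow_le_pow_left₀ (by linarith) h4 j)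
      refine (hC X _ hX ((mul_pos_iff_of_pos_left hX0).1 h5)).trans ?_
      rw [div_le_div_iff₀ (by positivity) hX0]
      nlinarith [mul_le_mul_of_nonneg_left h6 hC0]
    rw [norm_mul, hu]
    have h7 := (norm_sum_le _ _).trans (sum_le_card_nsmul _ _ _ h1)
    rw [p2_card, nsmul_eq_mul] at h7
    refine (mul_le_mul_of_nonneg_left h7 hu0).trans (le_of_eq ?_)
    rw [← mul_assoc, mul_comm _ (q.totient : ℝ), ht, one_mul]
  rw [p2_vs]
  refine ((norm_sum_le _ _).trans (sum_le_card_nsmul _ _ _ key)).trans ?_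
  have h8 : ((dd (Nat.primesLE ⌊P⌋₊) ⌊P⌋₊).card : ℝ) ≤ X :=
    ((Nat.cast_le.2 (card_dd_le hpr)).trans (Nat.floor_le (by linarith))).trans hPX
  rw [nsmul_eq_mul]
  refine (mul_le_mul_of_nonneg_right h8 (by positivity)).trans (le_of_eq ?_)
  field_simp

theorem p2_sq {a b c ε : ℝ} (hε : 0 < ε) (hc : 0 ≤ c) (h : c ≤ a + b) :
    c ^ 2 ≤ (1 + ε) * a ^ 2 + (1 + 1 / ε) * b ^ 2 := by
  have h1 : c ^ 2 ≤ (a + b) ^ 2 := pow_le_pow_left₀ hc h 2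
  have h2 : (1 + ε) * a ^ 2 + (1 + 1 / ε) * b ^ 2 - (a + b) ^ 2 = (ε * a - b) ^ 2 / ε := by
    field_simp
    ring
  have h3 : 0 ≤ (ε * a - b) ^ 2 / ε := by positivity
  linarith

theorem minor_sq {κ ε : ℝ} (hκ : 0 < κ) (hε : 0 < ε) : ∃ C : ℝ, ∀ (X P H : ℝ) (L : ℕ), 1 ≤ P →
    1 ≤ X → P * X ^ κ ≤ H → P * H ≤ X →
    ∫ x in (0 : ℝ)..1, |1 - a1M X P H x| * ‖a1S X x‖ ^ 2 * ‖zz L x‖ ^ 2 ≤
      (1 + ε) * pav L (fun h => CU X ⌊P⌋₊ h.natAbs) + C := by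
  obtain ⟨C, hC0, hC⟩ := vs_off hκ
  refine ⟨(1 + 1 / ε) * C ^ 2, fun X P H L hP hX hH hPH => ?_⟩
  have hX0 : 0 < X := by linarith
  have hk : 1 ≤ X ^ κ := Real.one_le_rpow hX hκ.le
  have hPle : P ≤ H := by nlinarith
  set U : ℝ → ℂ := fun x => ∑ n ∈ Icc 1 ⌊X⌋₊, (uf X ⌊P⌋₊ n : ℂ) * ee (n * x) with hU
  have hUc : Continuous U := by
    have := VA.continuous_ee
    rw [hU]
    fun_prop
  have hz := zz_cont L
  have hSc := MA.a1S_cont X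
  have hMc := a1M_cont X P H
  have h1 : ∀ x, a1S X x = U x + VS X ⌊P⌋₊ x := fun x => by
    rw [hU, a1S, VS, ← sum_add_distrib]
    refine sum_congr rfl fun n _ => ?_
    rw [MA.a1f, uf]
    push_cast
    ring
  have h2 : (fun h : ℤ => CU X ⌊P⌋₊ h.natAbs) = FC fun x => ((‖U x‖ ^ 2 : ℝ) : ℂ) := by
    funext h
    refine (fc_corr ⌊X⌋₊ (uf X ⌊P⌋₊) (fun n hn => ?_) h).symm
    rw [uf, MA.a1_w1_zero, mul_zero]
    right
    rw [le_div_iff₀ hX0, one_mul]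
    exact (Nat.lt_of_floor_lt hn).le
  have h3 : ∀ x, |1 - a1M X P H x| * ‖a1S X x‖ ^ 2 * ‖zz L x‖ ^ 2 ≤
      (1 + ε) * (‖U x‖ ^ 2 * ‖zz L x‖ ^ 2) + (1 + 1 / ε) * C ^ 2 := fun x => by
    by_cases hM : a1M X P H x = 1
    · rw [hM, sub_self, abs_zero, zero_mul, zero_mul]
      positivity
    have h4 : ‖a1S X x‖ ≤ ‖U x‖ + C := by
      rw [h1]
      exact (norm_add_le _ _).trans (add_le_add le_rfl (hC X P H x hP hX hH hPH hM))
    have h5 := p2_sq hε (norm_nonneg _) h4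
    have h6 : ‖zz L x‖ ^ 2 ≤ 1 := pow_le_one₀ (norm_nonneg _) (norm_zz_le L x)
    have h7 : |1 - a1M X P H x| * ‖a1S X x‖ ^ 2 ≤ ‖a1S X x‖ ^ 2 :=
      mul_le_of_le_one_left (by positivity) (MA.a1M_cases hP hPle hPH x).1
    have h8 := mul_le_mul_of_nonneg_right (h7.trans h5) (sq_nonneg ‖zz L x‖)
    have h9 : (1 + 1 / ε) * C ^ 2 * ‖zz L x‖ ^ 2 ≤ (1 + 1 / ε) * C ^ 2 :=
      mul_le_of_le_one_right (by positivity) h6
    nlinarith
  rw [h2, pav_fc L (f := fun x => ‖U x‖ ^ 2) (by fun_prop)]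
  refine (intervalIntegral.integral_mono_on zero_le_one
    (Continuous.intervalIntegrable (by fun_prop) _ _)
    (Continuous.intervalIntegrable (by fun_prop) _ _) fun x _ => h3 x).trans (le_of_eq ?_)
  rw [intervalIntegral.integral_add (Continuous.intervalIntegrable (by fun_prop) _ _)
    (Continuous.intervalIntegrable (by fun_prop) _ _), intervalIntegral.integral_const_mul,
    intervalIntegral.integral_const]
  simp

end Pool.Agent.Lib.MP_778b46_nt.GL
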