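import Pool.Agent.Lib.MP_778b46_nt.GL.F1
import Pool.Agent.Lib.MP_778b46_nt.GL.F2
import Pool.Agent.Lib.MP_778b46_nt.GL.F3
import Pool.Agent.Lib.MP_778b46_nt.GL.P2
import Pool.Agent.Lib.MP_778b46_nt.GL.M3
import Pool.Agent.Lib.MP_778b46_nt.GL.LE

/-!
Two primes and six powers of two.
-/

set_option autoImplicit false

noncomputable section

namespace Pool.Agent.Lib.MP_778b46_nt.GL

open Finset MeasureTheory Filter
open Pool.Agent.Lib.MP_778b46_nt.MA (lp w1 a1S a1M cf cop R1 I0 RR)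
open Pool.Agent.Lib.MP_778b46_nt.VA (ee nd)

theorem f4_num {X I D A g m1 m2 c : ℝ} (hX : 0 < X) (hI : 3 / 8 ≤ I)
    (h1 : 2 * (X * I) * D - 1 / 100000 * X ≤ m1) (h2 : m1 ≤ 28 / 125 * m2 + 1 / 100000 * X)
    (h3 : m2 ≤ (1 + 1 / 100000) * c + 1 / 100000 * X)
    (h4 : c ≤ X * I * (52 / 5 - 2 * A + g) + 1 / 100000 * X) (hg : g ≤ 406 / 1000)
    (hD : 1111 / 500 - 1 / 100000 ≤ D + A) (hA0 : 0 ≤ A) (hA : A ≤ 13 / 10 + 1 / 100000) :
    False := by
  have hY : 3 / 8 * X ≤ X * I := by nlinarith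
  have hY0 : 0 < X * I := by nlinarith
  generalize X * I = Y at *
  have a1 := mul_le_mul_of_nonneg_left hg hY0.le
  have a2 := mul_le_mul_of_nonneg_left hD hY0.le
  have a3 := mul_le_mul_of_nonneg_left hA hY0.le
  have a4 := mul_nonneg hY0.le hA0
  nlinarith

theorem six : ∃ N0 : ℕ, ∀ N : ℕ, N0 ≤ N → Even N → Rep 6 1 N := by
  obtain ⟨θ, κ, hθ1, hθ2, hκ0, hκ1, hmin⟩ := minor_le ld (η := 1 / 1000) (by norm_num)
  have hθ0 : 0 < θ := by linarith
  have hε : (0 : ℝ) < 1 / 100000 := by norm_num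
  obtain ⟨k, y1, hk0, hk1, hmaj⟩ := major_low hθ0 hθ2 hκ0 hε
  obtain ⟨y2, hcu⟩ := pav_cu hθ0 hθ2 hκ0 hε
  have hy : 300 ≤ max 300 (max y1 y2) := le_max_left _ _
  have hy1 : y1 ≤ max 300 (max y1 y2) := (le_max_left _ _).trans (le_max_right _ _)
  have hy2 : y2 ≤ max 300 (max y1 y2) := (le_max_right _ _).trans (le_max_right _ _)
  generalize max 300 (max y1 y2) = y at hy hy1 hy2
  obtain ⟨L1, hL1⟩ := mt_low hε hy
  obtain ⟨L2, hL2⟩ := pav_so hε hy
  obtain ⟨C, hC⟩ := minor_sq hk0 hε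
  have ev : ∀ᶠ X : ℝ in atTop, ∀ N : ℕ, Even N → (N : ℝ) = 9 / 8 * X → Rep 6 1 N := by
    filter_upwards [hmin _ hε, hmaj y hy1, hcu y hy2, exists_L hκ0 (by linarith),
      eventually_ge_atTop (1 : ℝ), eventually_ge_atTop (100000 * C),
      Real.tendsto_log_atTop.eventually_ge_atTop ((L1 : ℝ) + L2 + 1)] with
      X e1 e2 e3 ⟨L, d1, d2, d3, d4, d5⟩ hX hXC hl N hN hNX
    by_contra hR
    have hX0 : 0 < X := by linarith
    have p1 : (0 : ℝ) ≤ L1 := Nat.cast_nonneg _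
    have p2 : (0 : ℝ) ≤ L2 := Nat.cast_nonneg _
    have l0 : 1 ≤ L := by exact_mod_cast (show (1 : ℝ) ≤ L by linarith)
    have l1 : L1 ≤ L := by exact_mod_cast (show (L1 : ℝ) ≤ L by linarith)
    have l2 : L2 ≤ L := by exact_mod_cast (show (L2 : ℝ) ≤ L by linarith)
    have hP : 1 ≤ X ^ θ := Real.one_le_rpow hX hθ0.le
    have hH : X ^ θ ≤ X ^ θ * X ^ k :=
      le_mul_of_one_le_right (by linarith) (Real.one_le_rpow hX hk0.le)
    have hPH : X ^ θ * (X ^ θ * X ^ k) ≤ X := by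
      rw [← Real.rpow_add hX0, ← Real.rpow_add hX0]
      exact (Real.rpow_le_rpow_of_exponent_le hX (by linarith)).trans (Real.rpow_one X).le
    refine f4_num hX0 i2_mem.1 ((e2 L N d4 d2 d5 hN hNX).trans (major_le hX0 _ _ L hR))
      (e1 _ L hH hPH l0 d3) ((hC X _ _ L hP hX le_rfl hPH).trans (add_le_add le_rfl (by linarith)))
      (e3 L d4 d2) ?_ (hL1 L l1 d1 N) ?_ (hL2 L l2)
    · rw [div_le_iff₀ (by linarith)]
      have h2 := Real.log_two_lt_d9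
      have h3 : (L : ℝ) * Real.log 2 ≤ L * 0.6931471808 :=
        mul_le_mul_of_nonneg_left h2.le (by linarith)
      have h4 : (1 - θ) * Real.log X ≤ (7 / 12 + 1 / 1000) * Real.log X :=
        mul_le_mul_of_nonneg_right (by linarith) (by linarith)
      have h5 : (1 - 2 / 1000) * Real.log X ≤ (1 - 2 * κ) * Real.log X :=
        mul_le_mul_of_nonneg_right (by linarith) (by linarith)
      linarith
    · rw [← pav_const l0 0]
      exact pav_le L fun m _ _ => so_nonneg y m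
  obtain ⟨X0, hX0⟩ := eventually_atTop.1 ev
  refine ⟨⌈9 / 8 * X0⌉₊, fun N hN h2 => hX0 (8 / 9 * N) ?_ N h2 (by ring)⟩
  have := Nat.ceil_le.1 hN
  linarith

end Pool.Agent.Lib.MP_778b46_nt.GL
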