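import Pool.Agent.Lib.MP_778b46_nt.GL.Defs

/-!
Exponential moments along the doubling map: the transfer operator bound.
-/

set_option autoImplicit false

noncomputable section

namespace Pool.Agent.Lib.MP_778b46_nt.GL

open Finset MeasureTheory intervalIntegral

theorem la_split {f F : ℝ → ℝ} (hf : Continuous f) (hF : Continuous F)
    (hp : ∀ y, F (y + 1) = F y) :
    ∫ x in (0 : ℝ)..1, f x * F (2 * x) =
      ∫ y in (0 : ℝ)..1, (f (y / 2) + f ((y + 1) / 2)) / 2 * F y := by
  have c : Continuous fun x => f x * F (2 * x) := by fun_prop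
  have h1 := integral_comp_div (a := 0) (b := 1) (c := 2) (fun x => f x * F (2 * x)) two_ne_zero
  have h2 := integral_comp_div (a := 1) (b := 2) (c := 2) (fun x => f x * F (2 * x)) two_ne_zero
  have h3 := integral_comp_add_right (a := 0) (b := 1)
    (fun x => f (x / 2) * F (2 * (x / 2))) 1
  have h4 := integral_add_adjacent_intervals (μ := volume) (c.intervalIntegrable 0 (1 / 2))
    (c.intervalIntegrable (1 / 2) 1)
  have e : ∀ y : ℝ, (f (y / 2) + f ((y + 1) / 2)) / 2 * F y =
      1 / 2 * (f (y / 2) * F (2 * (y / 2)) + f ((y + 1) / 2) * F (2 * ((y + 1) / 2))) := fun y => by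
    rw [mul_div_cancel₀ y two_ne_zero, mul_div_cancel₀ (y + 1) two_ne_zero, hp]
    ring
  simp only [e]
  rw [intervalIntegral.integral_const_mul, intervalIntegral.integral_add
    (Continuous.intervalIntegrable (by fun_prop) _ _)
    (Continuous.intervalIntegrable (by fun_prop) _ _), h3, h1]
  norm_num at h2 h4 ⊢
  rw [h2, ← h4]
  ring

/-- The Birkhoff sum along the doubling map. -/
def bs (v : ℝ → ℝ) (L : ℕ) (x : ℝ) : ℝ := ∑ j ∈ range L, v (2 ^ j * x)

theorem bs_cont {v : ℝ → ℝ} (hv : Continuous v) (L : ℕ) : Continuous (bs v L) := by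
  unfold bs
  fun_prop

theorem bs_per {v : ℝ → ℝ} (hp : ∀ y (n : ℕ), v (y + n) = v y) (L : ℕ) (y : ℝ) :
    bs v L (y + 1) = bs v L y :=
  sum_congr rfl fun j _ => by
    rw [mul_add, mul_one]
    exact_mod_cast hp (2 ^ j * y) (2 ^ j)

theorem bs_succ (v : ℝ → ℝ) (L : ℕ) (x : ℝ) : bs v (L + 1) x = v x + bs v L (2 * x) := by
  unfold bs
  rw [sum_range_succ', add_comm]
  simp only [pow_succ, mul_assoc, pow_zero, one_mul]

theorem la_dbl {F : ℝ → ℝ} (hF : Continuous F) (hp : ∀ y, F (y + 1) = F y) (a : ℕ) :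
    ∫ x in (0 : ℝ)..1, F (2 ^ a * x) = ∫ x in (0 : ℝ)..1, F x := by
  induction a with
  | zero => simp
  | succ a ih =>
    have hn : ∀ (n : ℕ) y, F (y + n) = F y := fun n => by
      induction n with
      | zero => simp
      | succ n ih => intro y; rw [Nat.cast_succ, ← add_assoc, hp, ih]
    have := la_split (f := fun _ => 1) (F := fun y => F (2 ^ a * y)) continuous_const (by fun_prop)
      fun y => by
        rw [mul_add, mul_one]
        exact_mod_cast hn (2 ^ a) (2 ^ a * y)
    simp only [one_mul, add_self_div_two] at this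
    simp only [pow_succ, mul_assoc]
    rw [this, ih]

theorem transfer {v u : ℝ → ℝ} {r : ℝ} (hv : Continuous v) (hu : Continuous u) (hr : 0 ≤ r)
    (hp : ∀ y (n : ℕ), v (y + n) = v y)
    (h : ∀ x, 0 ≤ x → x ≤ 1 → Real.exp (u (x / 2) + v (x / 2)) +
      Real.exp (u ((x + 1) / 2) + v ((x + 1) / 2)) ≤ 2 * r * Real.exp (u x)) (a : ℕ) :
    ∃ C : ℝ, ∀ L : ℕ, ∫ x in (0 : ℝ)..1, Real.exp (bs v L (2 ^ a * x)) ≤ C * r ^ L := by
  have hb := bs_cont hv
  have key : ∀ L : ℕ, ∫ x in (0 : ℝ)..1, Real.exp (u x) * Real.exp (bs v L x) ≤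
      (∫ x in (0 : ℝ)..1, Real.exp (u x)) * r ^ L := fun L => by
    induction L with
    | zero => simp [bs]
    | succ L ih =>
      have := la_split (f := fun x => Real.exp (u x + v x)) (F := fun y => Real.exp (bs v L y))
        (by fun_prop) (by fun_prop) fun y => by rw [bs_per hp]
      simp only [bs_succ, Real.exp_add, ← mul_assoc] at this ⊢
      rw [this, pow_succ, ← mul_assoc]
      refine le_trans ?_ (mul_le_mul_of_nonneg_right ih hr)
      rw [← intervalIntegral.integral_mul_const]
      refine integral_mono_on zero_le_one (Continuous.intervalIntegrable (by fun_prop) _ _)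
        (Continuous.intervalIntegrable (by fun_prop) _ _) fun x hx => ?_
      have h1 := h x hx.1 hx.2
      simp only [Real.exp_add] at h1
      nlinarith [Real.exp_pos (bs v L x)]
  obtain ⟨m, -, hm⟩ := (isCompact_Icc (a := (0 : ℝ)) (b := 1)).exists_isMinOn
    ⟨0, by simp⟩ hu.continuousOn
  refine ⟨Real.exp (-u m) * ∫ x in (0 : ℝ)..1, Real.exp (u x), fun L => ?_⟩
  rw [la_dbl (F := fun y => Real.exp (bs v L y)) (by fun_prop) (fun y => by rw [bs_per hp]),
    mul_assoc]
  refine le_trans ?_ (mul_le_mul_of_nonneg_left (key L) (Real.exp_pos _).le)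
  rw [← intervalIntegral.integral_const_mul]
  refine integral_mono_on zero_le_one (Continuous.intervalIntegrable (by fun_prop) _ _)
    (Continuous.intervalIntegrable (by fun_prop) _ _) fun x hx => ?_
  rw [← Real.exp_add, ← Real.exp_add]
  have : u m ≤ u x := hm hx
  exact Real.exp_le_exp.2 (by linarith)

end Pool.Agent.Lib.MP_778b46_nt.GL
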