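import Pool.Agent.Lib.MP_778b46_nt.GL.LA

/-!
Upper bounds for the exponential function and a table of roots of unity.
-/

set_option autoImplicit false

namespace Pool.Agent.Lib.MP_778b46_nt.GL

open Finset Real
open Pool.Agent.Lib.MP_778b46_nt.VA (ee ee_add ee_eq norm_ee ee_int ee_zero continuous_ee)

/-- The scale of the arguments. -/
def B0 : ℕ := 65536000000000000000

/-- Repeated squaring, rounded up. -/
def sqs (a n : ℕ) : ℕ := Nat.rec a (fun _ b => b * b / (B0 * B0) + 1) n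

/-- An upper bound for `B0 ^ 2 * exp (X / 10 ^ 15)`. -/
def EE (X : ℤ) : ℕ :=
  sqs ((B0 + X).toNat * (B0 + X).toNat + B0 * B0 - (B0 + X).toNat * B0) 16

theorem sqs_ok {y : ℝ} {a : ℕ} (h : exp y ≤ a / (B0 * B0 : ℕ)) (n : ℕ) :
    exp (2 ^ n * y) ≤ sqs a n / (B0 * B0 : ℕ) := by
  have p : 0 < B0 * B0 := by unfold B0; norm_num
  have p' : (0 : ℝ) < (B0 * B0 : ℕ) := by exact_mod_cast p
  induction n with
  | zero => simpa [sqs] using h
  | succ n ih =>
    have e : sqs a (n + 1) = sqs a n * sqs a n / (B0 * B0) + 1 := rfl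
    have l := Nat.lt_mul_div_succ (sqs a n * sqs a n) p
    rw [← e] at l
    have l' : (sqs a n : ℝ) * sqs a n ≤ (B0 * B0 : ℕ) * (sqs a (n + 1) : ℝ) := by
      exact_mod_cast l.le
    rw [pow_succ, mul_right_comm, mul_two, exp_add]
    refine (mul_le_mul ih ih (exp_pos _).le (by positivity)).trans ?_
    rw [div_mul_div_comm, div_le_div_iff₀ (by positivity) p']
    nlinarith

theorem EE_ok {X : ℤ} (h : |X| ≤ B0) : exp (X / 10 ^ 15) ≤ EE X / (B0 * B0 : ℕ) := by
  have b : (B0 : ℝ) = 65536000000000000000 := by unfold B0; norm_num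
  have h' : |(X : ℝ)| ≤ B0 := by exact_mod_cast h
  obtain ⟨Z, hZ⟩ := Int.eq_ofNat_of_zero_le (a := B0 + X) (by linarith [(abs_le.1 h).1])
  have hZ' : (B0 : ℝ) + X = Z := by exact_mod_cast hZ
  have h1 : |(X : ℝ) / B0| ≤ 1 := by
    rw [abs_div, Nat.abs_cast]
    exact div_le_one_of_le₀ h' (by positivity)
  have h2 := (abs_le.1 (abs_exp_sub_one_sub_id_le h1)).2
  have h3 : Z * B0 ≤ Z * Z + B0 * B0 := by nlinarith [Nat.zero_le (Z * B0), sq_nonneg ((Z : ℤ) - B0)]
  have := sqs_ok (y := X / B0) (a := Z * Z + B0 * B0 - Z * B0) (by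
    rw [Nat.cast_sub h3]
    push_cast
    rw [← hZ', le_div_iff₀ (by rw [b]; norm_num)]
    have e : (1 + (X : ℝ) / B0 + (X / B0) ^ 2) * (B0 * B0) =
        (B0 + X) * (B0 + X) + B0 * B0 - (B0 + X) * B0 := by
      rw [b]; ring
    rw [← e]
    exact mul_le_mul_of_nonneg_right (by linarith) (by positivity)) 16
  unfold EE
  rw [hZ, Int.toNat_natCast]
  convert this using 2
  rw [b]; ring

/-- A digit of a packed table. -/
def dg (N w o k : ℕ) : ℤ := ((N >>> (w * k)) % 2 ^ w : ℕ) - (o : ℤ)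

/-- Cosines. -/
def tc (k : ℕ) : ℤ := dg 0x2df4e5000b7cc7e0019d7189002dec09d0047b882e006738894008c6741800b73eefc00e7b8f8c011dcde2c01597556e019aa622301e156372022d7aaf4027f07ccc02d5f0fc3033228d6b0393a123d03fa4adbc04661629d04d6f26e9054cce42c05c79779c06473b24506cba593c0754c25cd07e27c5ac0874bdb2a090b6fd6f09a67b8aa0a45c8e520ae93f55c0b90c5a790c3c420540ceb99fd20d9eb28560e556fffe0f0fb63eb0fcd68886108e699c611529bb791219e098e12e41985e13b1274f81480ea56f15534292a16280f92c16ff3086c17d88442318b3e941a19913db041a705f6cb1b512c0e91c3380eb91d173b1ce1dfc3784c1ee252d381fc9698d720b1581002199fa97522832d43c236ccc1f92456b32432540be400262ac95bd2714b060727fe4f3c428e781e8b29d0247002ab812f292b9f29ac82c8544fb42d6a416322e4dfb9472f305071730111d13530f03ecfc31cd933e632a8f83dd33824bf9434596ced4352e39ed636009229136d055308379d62fa238679be72392ee0c8739f312e3a3ab413f7a3b71c64153c2c0c8023ce2c9faa3d95e282e3e453a7ac3ef0b6d873f983d2a4403bb39ae40db00f5641760ca91420cbecd6429f00254432cba23343b5d6ec4443a415bb44b9e50644534ae3d445aa8a117461b66563468731a4446eddb5c3474f53a9547ab8b83d480274b34485401d0c48a02648e48e6d65dd4928072924963ae9d44999c387449ca3d90449f5153e84a1a43f6c4a39c3fd24a53907634a67a56774a75ffb824a7e9d31b4a817c800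 36 10000000000 k

/-- Sines. -/
def ts (k : ℕ) : ℤ := dg 0xea0b1bd01d3f220702bd90fc403a6c3a8b048f66300057754b29065e6b6c8074486bb4082983232090d3d54709ef923170ad05ed350baf808fc0c8cd4fe60d6839fdd0e418db940f18aead40fed7bad610bfd3e91118f96f08125ca4ba21326dda7213ee2288714b254a3a157355b7a16310801516eb4e40217a20bbaa18552442e19047c3ac19aff89871a577eea41afaf55ae1b9a42b561c354e6911ccc008d61d5e41e541debfbe331e7518ac41ef9831bb1f7926c641ff3effd42069cbd1720daa816321467364421ad1d1c3220e95695226acd43d22c1b673423134390c235f6808e23a6181dd23e748e922422f05d424590547424897f50424b456fe824d985b6c24f905bd22512d23632526e7277253541782253ddef1b2540be400253ddef1b2535417822526e72772512d236324f905bd224d985b6c24b456fe824897f5042459054742422f05d423e748e9223a6181dd235f6808e23134390c22c1b6734226acd43d220e9569521ad1d1c321467364420daa81632069cbd171ff3effd41f7926c641ef9831bb1e7518ac41debfbe331d5e41e541ccc008d61c354e6911b9a42b561afaf55ae1a577eea419aff898719047c3ac18552442e17a20bbaa16eb4e402163108015157355b7a14b254a3a13ee228871326dda72125ca4ba2118f96f0810bfd3e910fed7bad60f18aead40e418db940d6839fdd0c8cd4fe60baf808fc0ad05ed3509ef92317090d3d547082983232074486bb4065e6b6c8057754b29048f6630003a6c3a8b02bd90fc401d3f220700ea0b1bd000000000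 36 0 k

theorem tab_chk : tc 0 = 10000000000 ∧ ts 0 = 0 ∧ ∀ k < 128,
    |10000000000 * tc (k + 1) - (tc k * 9996988187 - ts k * 245412285)| ≤ 10000000000 ∧
    |10000000000 * ts (k + 1) - (tc k * 245412285 + ts k * 9996988187)| ≤ 10000000000 := by
  decide +kernel

/-- The table as complex numbers. -/
noncomputable def tb (k : ℕ) : ℂ := ⟨tc k / 10 ^ 10, ts k / 10 ^ 10⟩

theorem ee_one : ‖ee (1 / 256) - ⟨9996988187 / 10 ^ 10, 245412285 / 10 ^ 10⟩‖ ≤ 4 / 10 ^ 8 := by
  have p1 := pi_gt_d20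
  have p2 := pi_lt_d20
  obtain ⟨t, ht⟩ : ∃ t : ℝ, t = 2 * π * (1 / 256) := ⟨_, rfl⟩
  have t1 : 0.0245436926061 ≤ t := by rw [ht]; linarith
  have t2 : t ≤ 0.0245436926062 := by rw [ht]; linarith
  have t0 : 0 ≤ t := by linarith
  have a : |t| ≤ 1 := by rw [abs_of_nonneg t0]; linarith
  have c := abs_le.1 (cos_bound a)
  have s := abs_le.1 (sin_bound a)
  rw [abs_of_nonneg t0] at c s
  have u := fun n => pow_le_pow_left₀ t0 t2 n
  have l := fun n => pow_le_pow_left₀ (by norm_num) t1 n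
  have u2 := u 2
  have u3 := u 3
  have u4 := u 4
  have u5 := u 5
  have l2 := l 2
  have l3 := l 3
  clear u l
  rw [ee_eq, ← ht, mul_comm, Complex.exp_mul_I]
  refine (Complex.norm_le_abs_re_add_abs_im _).trans ?_
  have e1 : |cos t - 9996988187 / 10 ^ 10| ≤ 35 / 10 ^ 9 := by
    rw [abs_le]; constructor <;> linarith [c.1, c.2]
  have e2 : |sin t - 245412285 / 10 ^ 10| ≤ 5 / 10 ^ 9 := by
    rw [abs_le]; constructor <;> linarith [s.1, s.2]
  simp only [← Complex.ofReal_cos, ← Complex.ofReal_sin, Complex.sub_re, Complex.sub_im,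
    Complex.add_re, Complex.add_im, Complex.mul_re, Complex.mul_im, Complex.ofReal_re,
    Complex.ofReal_im, Complex.I_re, Complex.I_im, mul_zero, mul_one, sub_zero, add_zero,
    zero_add]
  linarith

theorem tb_ok (k : ℕ) (hk : k ≤ 128) : ‖ee (k / 256) - tb k‖ ≤ k / 10 ^ 7 := by
  induction k with
  | zero =>
    have : tb 0 = 1 := by
      apply Complex.ext <;> simp [tb, tab_chk.1, tab_chk.2.1]
      norm_num
    simp [this, ee_zero]
  | succ k ih =>
    have i := ih (by omega)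
    have k1 : (k : ℝ) ≤ 128 := by exact_mod_cast (by omega : k ≤ 128)
    obtain ⟨h1, h2⟩ := tab_chk.2.2 k (by omega)
    have h1' := (Int.cast_le (R := ℝ)).2 h1
    have h2' := (Int.cast_le (R := ℝ)).2 h2
    push_cast at h1' h2'
    rw [abs_le] at h1' h2'
    have n1 : ‖tb k‖ ≤ 2 := by
      have := norm_sub_norm_le (tb k) (ee (k / 256))
      rw [norm_sub_rev, norm_ee] at this
      linarith
    have n2 : ‖tb k * ⟨9996988187 / 10 ^ 10, 245412285 / 10 ^ 10⟩ - tb (k + 1)‖ ≤ 2 / 10 ^ 10 := by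
      refine (Complex.norm_le_abs_re_add_abs_im _).trans ?_
      have e1 : |(tb k * ⟨9996988187 / 10 ^ 10, 245412285 / 10 ^ 10⟩ - tb (k + 1)).re| ≤
          1 / 10 ^ 10 := by
        simp only [tb, Complex.sub_re, Complex.mul_re]
        rw [abs_le]; constructor <;> linarith [h1'.1, h1'.2]
      have e2 : |(tb k * ⟨9996988187 / 10 ^ 10, 245412285 / 10 ^ 10⟩ - tb (k + 1)).im| ≤
          1 / 10 ^ 10 := by
        simp only [tb, Complex.sub_im, Complex.mul_im]
        rw [abs_le]; constructor <;> linarith [h2'.1, h2'.2]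
      linarith
    have e : ee ((k + 1 : ℕ) / 256) - tb (k + 1) = (ee (k / 256) - tb k) * ee (1 / 256) +
        tb k * (ee (1 / 256) - ⟨9996988187 / 10 ^ 10, 245412285 / 10 ^ 10⟩) +
        (tb k * ⟨9996988187 / 10 ^ 10, 245412285 / 10 ^ 10⟩ - tb (k + 1)) := by
      rw [Nat.cast_succ, add_div, ee_add]
      ring
    rw [e]
    refine norm_add₃_le.trans ?_
    rw [norm_mul, norm_mul, norm_ee]
    have := mul_le_mul n1 ee_one (norm_nonneg _) zero_le_two
    push_cast
    linarith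

theorem ee_three {x : ℝ} (h0 : 0 ≤ x) (h : x ≤ 0.025) :
    ‖Complex.exp (Complex.I * x) - (1 + Complex.I * x - x ^ 2 / 2)‖ ≤ 4 / 10 ^ 6 := by
  have n : ‖Complex.I * x‖ = x := by simp [abs_of_nonneg h0]
  have := Complex.exp_bound (x := Complex.I * x) (by rw [n]; linarith) (n := 3) (by norm_num)
  rw [n] at this
  have e : ∑ m ∈ range 3, (Complex.I * x) ^ m / (m.factorial : ℂ) =
      1 + Complex.I * x - x ^ 2 / 2 := by
    simp [sum_range_succ, Nat.factorial, mul_pow]
    ring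
  rw [e] at this
  have u := pow_le_pow_left₀ h0 h 3
  norm_num [Nat.factorial] at this u ⊢
  linarith

theorem ee_near {k : ℕ} (hk : k < 128) {s : ℝ} (s0 : 0 ≤ s) (s1 : s ≤ 1) :
    ‖ee ((k + s) / 256) - ((1 - s : ℝ) * tb k + s * tb (k + 1))‖ ≤ 12 / 10 ^ 5 := by
  have p2 := pi_lt_d2
  have p1 := pi_pos
  obtain ⟨t, ht⟩ : ∃ t : ℝ, t = 2 * π * (1 / 256) := ⟨_, rfl⟩
  have t0 : 0 ≤ t := by rw [ht]; positivity
  have t2 : t ≤ 0.025 := by rw [ht]; linarith
  have a1 := ee_three t0 t2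
  have a2 := ee_three (mul_nonneg s0 t0) ((mul_le_of_le_one_left t0 s1).trans t2)
  have b1 := tb_ok k hk.le
  have b2 := tb_ok (k + 1) hk
  have k1 : (k : ℝ) + 1 ≤ 128 := by exact_mod_cast hk
  have e1 : ee (s / 256) = Complex.exp (Complex.I * (s * t : ℝ)) := by
    rw [ee_eq, ht]; congr 3; ring
  have e2 : ee (1 / 256) = Complex.exp (Complex.I * t) := by rw [ee_eq, ht]
  have e : ee ((k + s) / 256) - ((1 - s : ℝ) * tb k + s * tb (k + 1)) =
      ee (k / 256) * ((Complex.exp (Complex.I * (s * t : ℝ)) -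
        (1 + Complex.I * (s * t : ℝ) - (s * t : ℝ) ^ 2 / 2)) -
        s * (Complex.exp (Complex.I * t) - (1 + Complex.I * t - t ^ 2 / 2)) +
        ((s * (1 - s) * t ^ 2 / 2 : ℝ) : ℂ)) + (1 - s : ℝ) * (ee (k / 256) - tb k) +
        s * (ee ((k + 1 : ℕ) / 256) - tb (k + 1)) := by
    rw [Nat.cast_succ, add_div, add_div, ee_add, ee_add, e1, e2]
    push_cast
    ring
  rw [e]
  refine norm_add₃_le.trans ?_
  rw [norm_mul, norm_mul, norm_mul, norm_ee, one_mul, Complex.norm_real, Complex.norm_real,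
    norm_of_nonneg s0, norm_of_nonneg (sub_nonneg.2 s1)]
  refine (add_le_add_left (add_le_add_left
    ((norm_add_le _ _).trans (add_le_add_left (norm_sub_le _ _) _)) _) _).trans ?_
  rw [norm_mul, Complex.norm_real, Complex.norm_real, norm_of_nonneg s0,
    norm_of_nonneg (by have := sub_nonneg.2 s1; positivity)]
  have c1 := mul_le_mul_of_nonneg_left a1 s0
  have c2 := mul_le_mul_of_nonneg_left (b1.trans (by linarith : (k : ℝ) / 10 ^ 7 ≤ 128 / 10 ^ 7))
    (sub_nonneg.2 s1)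
  have c3 := mul_le_mul_of_nonneg_left (b2.trans
    (by push_cast; linarith : ((k + 1 : ℕ) : ℝ) / 10 ^ 7 ≤ 128 / 10 ^ 7)) s0
  have c4 : s * (1 - s) * t ^ 2 ≤ 1 / 4 * 0.025 ^ 2 :=
    mul_le_mul (by nlinarith [sq_nonneg (s - 1 / 2)]) (pow_le_pow_left₀ t0 t2 2) (by positivity)
      (by norm_num)
  linarith

end Pool.Agent.Lib.MP_778b46_nt.GL
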