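import Pool.Agent.Lib.MP_778b46_nt.GL.LB

/-!
The certificate for one direction.
-/

set_option autoImplicit false

namespace Pool.Agent.Lib.MP_778b46_nt.GL

open Finset Real
open Pool.Agent.Lib.MP_778b46_nt.VA (ee ee_add ee_eq norm_ee ee_int ee_zero continuous_ee)

/-- An affine function of a complex number. -/
noncomputable def lf (a b h : ℤ) (z : ℂ) : ℝ := (a * z.re + b * z.im) / 10 ^ 5 - h / 10 ^ 10

/-- The piecewise linear test function. -/
noncomputable def pl (U : ℕ → ℤ) (x : ℝ) : ℝ :=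
  ∑ a ∈ range 129, (U a : ℝ) / 10 ^ 4 * max 0 (1 - |128 * x - a|)

theorem pl_cell (U : ℕ → ℤ) {a : ℕ} (ha : a < 128) {s : ℝ} (s0 : 0 ≤ s) (s1 : s ≤ 1) :
    pl U ((a + s) / 128) = ((1 - s) * U a + s * U (a + 1)) / 10 ^ 4 := by
  unfold pl
  rw [mul_div_cancel₀ _ (by norm_num : (128 : ℝ) ≠ 0),
    sum_eq_add_of_mem a (a + 1) (mem_range.2 (by omega)) (mem_range.2 (by omega)) (by omega)]
  · push_cast
    rw [add_sub_cancel_left, abs_of_nonneg s0, abs_of_nonpos (by linarith),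
      max_eq_right (by linarith), max_eq_right (by linarith)]
    ring
  · intro c _ hc
    rw [max_eq_left, mul_zero]
    rcases (by omega : c + 1 ≤ a ∨ a + 2 ≤ c) with h | h
    · have : (c : ℝ) + 1 ≤ a := by exact_mod_cast h
      linarith [le_abs_self (a + s - c)]
    · have : (a : ℝ) + 2 ≤ c := by exact_mod_cast h
      linarith [neg_le_abs (a + s - c)]

theorem pl_half (U : ℕ → ℤ) {j : ℕ} (hj : j < 256) {s : ℝ} (s0 : 0 ≤ s) (s1 : s ≤ 1) :
    pl U ((j + s) / 256) = ((1 - s) * (U (j / 2) + U ((j + 1) / 2)) +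
      s * (U ((j + 1) / 2) + U ((j + 1 + 1) / 2))) / (2 * 10 ^ 4) := by
  obtain ⟨a, rfl | rfl⟩ := Nat.even_or_odd' j
  · have := pl_cell U (a := a) (by omega) (s := s / 2) (by linarith) (by linarith)
    rw [(by omega : 2 * a / 2 = a), (by omega : (2 * a + 1) / 2 = a),
      (by omega : (2 * a + 1 + 1) / 2 = a + 1),
      (by push_cast; ring : (((2 * a : ℕ) : ℝ) + s) / 256 = (a + s / 2) / 128), this]
    ring
  · have := pl_cell U (a := a) (by omega) (s := (1 + s) / 2) (by linarith) (by linarith)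
    rw [(by omega : (2 * a + 1) / 2 = a), (by omega : (2 * a + 1 + 1) / 2 = a + 1),
      (by omega : (2 * a + 1 + 1 + 1) / 2 = a + 1),
      (by push_cast; ring : (((2 * a + 1 : ℕ) : ℝ) + s) / 256 = (a + (1 + s) / 2) / 128), this]
    ring

theorem ex_cell {n : ℕ} (hn : 0 < n) {x : ℝ} (h0 : 0 ≤ x) (h1 : x ≤ 1) :
    ∃ k < n, ∃ s : ℝ, 0 ≤ s ∧ s ≤ 1 ∧ x = (k + s) / n := by
  have p : (0 : ℝ) < n := by exact_mod_cast hn
  rcases h1.eq_or_lt with rfl | h
  · obtain ⟨m, rfl⟩ := Nat.exists_eq_succ_of_ne_zero hn.ne'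
    exact ⟨m, by omega, 1, zero_le_one, le_rfl, by push_cast; field_simp⟩
  · refine ⟨⌊n * x⌋₊, (Nat.floor_lt (by positivity)).2 (by nlinarith), n * x - ⌊n * x⌋₊,
      sub_nonneg.2 (Nat.floor_le (by positivity)), by linarith [Nat.lt_floor_add_one (n * x)], ?_⟩
    field_simp
    ring

/-- The exponent at a grid point; `e` is the sign, `j` the index on the fine grid. -/
def XX (a b h : ℤ) (U : ℕ → ℤ) (e : ℤ) (j k : ℕ) : ℤ :=
  e * (a * tc k + b * ts k) + 50000000000 * (U (j / 2) + U ((j + 1) / 2)) -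
    100000000000 * U k + (404800000000000 + (|a| + |b|) * 1200000 - h * 100000)

/-- The check at one grid point. -/
def ck1 (X Y : ℤ) : Bool :=
  decide (|X| ≤ B0) && (decide (|Y| ≤ B0) && Nat.ble (EE X + EE Y) (2 * (B0 * B0)))

/-- The check for one direction. -/
def chk (a b h : ℤ) (U : ℕ → ℤ) : Bool :=
  (List.range 129).all fun k => ck1 (XX a b h U 1 k k) (XX a b h U (-1) (k + 128) k)

theorem ck1_ok {X Y : ℤ} (h : ck1 X Y = true) : exp (X / 10 ^ 15) + exp (Y / 10 ^ 15) ≤ 2 := by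
  simp only [ck1, Bool.and_eq_true, decide_eq_true_eq, Nat.ble_eq] at h
  have p : (0 : ℝ) < (B0 * B0 : ℕ) := by unfold B0; norm_num
  refine (add_le_add (EE_ok h.1) (EE_ok h.2.1)).trans ?_
  rw [← add_div, div_le_iff₀ p]
  exact_mod_cast h.2.2

theorem lin_near (a b : ℤ) {z w : ℂ} {d : ℝ} (h : ‖z - w‖ ≤ d) :
    |a * z.re + b * z.im - (a * w.re + b * w.im)| ≤ (|(a : ℝ)| + |(b : ℝ)|) * d := by
  have h1 := (Complex.abs_re_le_norm _).trans h
  have h2 := (Complex.abs_im_le_norm _).trans h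
  rw [(by simp; ring : a * z.re + b * z.im - (a * w.re + b * w.im) =
    a * (z - w).re + b * (z - w).im), add_mul]
  refine (abs_add_le _ _).trans (add_le_add ?_ ?_) <;> rw [abs_mul]
  · exact mul_le_mul_of_nonneg_left h1 (abs_nonneg _)
  · exact mul_le_mul_of_nonneg_left h2 (abs_nonneg _)

theorem ee_half : ee (1 / 2) = -1 := by
  rw [ee_eq, (by ring : 2 * π * (1 / 2) = π), mul_comm, Complex.exp_pi_mul_I]

theorem edge_int {a b h : ℤ} {U : ℕ → ℤ} (hc : chk a b h U = true) : ∃ C : ℝ, ∀ L : ℕ,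
    ∫ x in (0 : ℝ)..1, exp (bs (fun y => lf a b h (ee y)) L (2 ^ 5 * x)) ≤
      C * exp (-0.4048) ^ L := by
  have ce := continuous_ee
  refine transfer (u := pl U) (by unfold lf; fun_prop) (by unfold pl; fun_prop) (exp_pos _).le
    (fun y n => by rw [ee_add, ← Int.cast_natCast, ee_int, mul_one]) (fun x x0 x1 => ?_) 5
  obtain ⟨k, hk, s, s0, s1, rfl⟩ := ex_cell (n := 128) (by norm_num) x0 x1
  simp only [chk, List.all_eq_true, List.mem_range] at hc
  have c0 := ck1_ok (hc k (by omega))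
  have c1 := ck1_ok (hc (k + 1) (by omega))
  have nr := abs_le.1 (lin_near a b (ee_near hk s0 s1))
  have u0 := pl_half U (j := k) (by omega) s0 s1
  have u1 := pl_half U (j := k + 128) (by omega) s0 s1
  have u2 := pl_cell U hk s0 s1
  have e0 : ((k : ℝ) + s) / (128 : ℕ) / 2 = (k + s) / 256 := by push_cast; ring
  have e1 : (((k : ℝ) + s) / (128 : ℕ) + 1) / 2 = ((k + 128 : ℕ) + s) / 256 := by push_cast; ring
  have e2 : ee ((((k + 128 : ℕ) : ℝ) + s) / 256) = -ee ((k + s) / 256) := by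
    rw [(by push_cast; ring : (((k + 128 : ℕ) : ℝ) + s) / 256 = (k + s) / 256 + 1 / 2), ee_add,
      ee_half, mul_neg_one]
  have cv : ∀ p q : ℝ, exp ((1 - s) * p + s * q) ≤ (1 - s) * exp p + s * exp q := fun p q =>
    convexOn_exp.2 (Set.mem_univ p) (Set.mem_univ q) (sub_nonneg.2 s1) s0 (by ring)
  rw [e0, e1, e2, Nat.cast_ofNat, mul_assoc, ← exp_add]
  simp only [tb, Complex.add_re, Complex.add_im, Complex.mul_re, Complex.mul_im,
    Complex.ofReal_re, Complex.ofReal_im, zero_mul, sub_zero, add_zero] at nr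
  have i0 : pl U ((k + s) / 256) + lf a b h (ee ((k + s) / 256)) ≤
      (-0.4048 + pl U ((k + s) / 128)) + ((1 - s) * ((XX a b h U 1 k k : ℤ) / 10 ^ 15) +
        s * ((XX a b h U 1 (k + 1) (k + 1) : ℤ) / 10 ^ 15)) := by
    rw [u0, u2]
    unfold lf XX
    push_cast
    linarith [nr.2]
  have i1 : pl U (((k + 128 : ℕ) + s) / 256) + lf a b h (-ee ((k + s) / 256)) ≤
      (-0.4048 + pl U ((k + s) / 128)) + ((1 - s) * ((XX a b h U (-1) (k + 128) k : ℤ) / 10 ^ 15) +
        s * ((XX a b h U (-1) (k + 1 + 128) (k + 1) : ℤ) / 10 ^ 15)) := by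
    rw [u1, u2, (by omega : k + 1 + 128 = k + 128 + 1)]
    unfold lf XX
    push_cast
    simp only [Complex.neg_re, Complex.neg_im]
    linarith [nr.1]
  refine (add_le_add (exp_le_exp.2 i0) (exp_le_exp.2 i1)).trans ?_
  rw [exp_add, exp_add (_ + _), ← mul_add, mul_comm 2]
  refine mul_le_mul_of_nonneg_left ((add_le_add (cv _ _) (cv _ _)).trans ?_) (exp_pos _).le
  nlinarith [mul_le_mul_of_nonneg_left c0 (sub_nonneg.2 s1), mul_le_mul_of_nonneg_left c1 s0]

end Pool.Agent.Lib.MP_778b46_nt.GL
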