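import Pool.Agent.Lib.MP_778b46_nt.GL.LC

/-!
The polygon and the size of the polynomial weight on it.
-/

set_option autoImplicit false

namespace Pool.Agent.Lib.MP_778b46_nt.GL

open Finset Real

theorem pq_sq (z : ℂ) : ‖Pq z‖ ^ 2 =
    (z.re ^ 2 + z.im ^ 2) ^ 3 * (25 * (z.re ^ 2 + z.im ^ 2) - 30 * z.re + 9) / 4 := by
  rw [Complex.sq_norm, Pq, map_div₀, map_mul, map_pow]
  simp [Complex.normSq_apply]
  ring

theorem pq_mono {z w : ℂ} (h1 : z.re = w.re) (h2 : |z.im| ≤ w.im) : ‖Pq z‖ ≤ ‖Pq w‖ := by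
  refine (pow_le_pow_iff_left₀ (norm_nonneg _) (norm_nonneg _) two_ne_zero).1 ?_
  have h3 : z.im ^ 2 ≤ w.im ^ 2 := by
    rw [← sq_abs]
    exact pow_le_pow_left₀ (abs_nonneg _) h2 2
  rw [pq_sq, pq_sq, h1]
  refine div_le_div_of_nonneg_right (mul_le_mul
    (pow_le_pow_left₀ (by positivity) (by linarith) 3) (by linarith) ?_ (by positivity))
    (by norm_num)
  nlinarith [sq_nonneg (5 * w.re - 3), sq_nonneg z.im]

theorem pq_chord {p q : ℂ} {s r : ℝ} (s0 : 0 ≤ s) (s1 : s ≤ 1) (hp : ‖p‖ ≤ 1) (hq : ‖q‖ ≤ 1)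
    (hd : ‖q - p‖ ≤ 1 / 100) (h1 : ‖Pq p‖ ≤ r) (h2 : ‖Pq q‖ ≤ r) :
    ‖Pq ((1 - s : ℝ) * p + s * q)‖ ≤ r + 1 / 2000 := by
  have cv : ∀ (a b : ℂ) (c : ℝ), ‖a‖ ≤ c → ‖b‖ ≤ c → ‖(1 - s : ℝ) * a + s * b‖ ≤ c :=
    fun a b c ha hb => by
      refine (norm_add_le _ _).trans ?_
      rw [norm_mul, norm_mul, Complex.norm_real, Complex.norm_real, norm_of_nonneg s0,
        norm_of_nonneg (sub_nonneg.2 s1)]
      nlinarith [mul_le_mul_of_nonneg_left ha (sub_nonneg.2 s1), mul_le_mul_of_nonneg_left hb s0]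
  have hz := cv p q 1 hp hq
  obtain ⟨z, e⟩ : ∃ z : ℂ, z = (1 - s : ℝ) * p + s * q := ⟨_, rfl⟩
  rw [← e] at hz ⊢
  have m : ∀ a b : ℂ, ‖a‖ ≤ 1 → ‖b‖ ≤ 1 → ‖a * b‖ ≤ 1 := fun a b ha hb => by
    rw [norm_mul]
    exact mul_le_one₀ ha (norm_nonneg _) hb
  have i : Pq z = ((1 - s : ℝ) * Pq p + s * Pq q) - (s * (1 - s) : ℝ) * ((q - p) * (q - p)) *
      (5 / 2 * ((p * p + q * q + z * z) + (p * q + p * z + q * z)) - 3 / 2 * (p + q + z)) := by
    rw [e]
    unfold Pq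
    push_cast
    ring
  have n1 : ‖5 / 2 * ((p * p + q * q + z * z) + (p * q + p * z + q * z)) - 3 / 2 * (p + q + z)‖ ≤
      20 := by
    refine (norm_sub_le _ _).trans ?_
    rw [norm_mul, norm_mul]
    have a1 := (norm_add_le (p * p + q * q + z * z) (p * q + p * z + q * z)).trans
      (add_le_add norm_add₃_le norm_add₃_le)
    have a2 : ‖p + q + z‖ ≤ _ := norm_add₃_le
    have := m p p hp hp
    have := m q q hq hq
    have := m z z hz hz
    have := m p q hp hq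
    have := m p z hp hz
    have := m q z hq hz
    simp only [norm_div, Complex.norm_ofNat]
    linarith
  rw [i]
  refine (norm_sub_le _ _).trans (add_le_add (cv _ _ r h1 h2) ?_)
  rw [norm_mul, norm_mul, norm_mul, Complex.norm_real,
    norm_of_nonneg (mul_nonneg s0 (sub_nonneg.2 s1))]
  refine (mul_le_mul (mul_le_mul (by nlinarith [sq_nonneg (s - 1 / 2)] : s * (1 - s) ≤ 1 / 4)
    (mul_le_mul hd hd (norm_nonneg _) (by norm_num)) (by positivity) (by norm_num)) n1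
    (norm_nonneg _) (by norm_num)).trans (by norm_num)

theorem ex_step {f : ℕ → ℝ} {x : ℝ} (h0 : x ≤ f 0) (n : ℕ) (h : f (n + 1) ≤ x) :
    ∃ i ≤ n, f (i + 1) ≤ x ∧ x ≤ f i := by
  induction n with
  | zero => exact ⟨0, le_rfl, h, h0⟩
  | succ n ih =>
    rcases le_total (f (n + 1)) x with c | c
    · obtain ⟨i, hi, h⟩ := ih c
      exact ⟨i, by omega, h⟩
    · exact ⟨n + 1, le_rfl, h, c⟩

/-- Abscissae of the vertices. -/
def px (i : ℕ) : ℤ := ([77924, 77674, 76907, 75668, 73974, 71857, 69215, 64465, 51266, 37804, 27104, 17733, 9143,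
  1192, -5966, -12348, -18145, -23559, -28798, -33883, -38024, -40689, -42338, -43260,
  -43558] : List ℤ).getD i 0

/-- Ordinates of the vertices. -/
def py (i : ℕ) : ℤ := ([0, 3822, 7675, 11327, 14761, 17929, 20942, 25108, 33927, 40566, 44198, 46062, 46625,
  46104, 44680, 42514, 39655, 36037, 31443, 25644, 19447, 14044, 9185, 4551, 0] : List ℤ).getD i 0

/-- A point of an edge. -/
def pt (f : ℕ → ℤ) (i k : ℕ) : ℤ := f i * (16 - k) + f (i + 1) * k

theorem poly_chk : py 0 = 0 ∧ 0 < py 1 ∧ py 24 = 0 ∧ 0 < py 23 ∧ ∀ i < 24, px (i + 1) < px i ∧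
    (px (i + 1) - px i) ^ 2 + (py (i + 1) - py i) ^ 2 ≤ 16000 ^ 2 ∧ ∀ k < 17,
      pt px i k ^ 2 + pt py i k ^ 2 ≤ 1600000 ^ 2 ∧
      1000000 * ((pt px i k ^ 2 + pt py i k ^ 2) ^ 3 * (25 * (pt px i k ^ 2 + pt py i k ^ 2) -
        30 * pt px i k * 1600000 + 9 * 1600000 ^ 2)) ≤ 437 ^ 2 * 1600000 ^ 8 := by
  decide +kernel

/-- The same point as a complex number. -/
noncomputable def pc (i k : ℕ) : ℂ := ⟨pt px i k / 1600000, pt py i k / 1600000⟩

theorem pc_ok {i k : ℕ} (hi : i < 24) (hk : k < 17) :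
    ‖pc i k‖ ≤ 1 ∧ ‖Pq (pc i k)‖ ≤ 437 / 2000 := by
  obtain ⟨h1, h2⟩ := (poly_chk.2.2.2.2 i hi).2.2 k hk
  have h1' := (Int.cast_le (R := ℝ)).2 h1
  have h2' := (Int.cast_le (R := ℝ)).2 h2
  push_cast at h1' h2'
  constructor
  · refine (pow_le_pow_iff_left₀ (norm_nonneg _) zero_le_one two_ne_zero).1 ?_
    rw [Complex.sq_norm, Complex.normSq_apply]
    simp only [pc]
    linarith
  · refine (pow_le_pow_iff_left₀ (norm_nonneg _) (by norm_num) two_ne_zero).1 ?_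
    rw [pq_sq]
    simp only [pc]
    linarith

theorem poly_le {z : ℂ} (h : ∀ i < 24, ((py (i + 1) : ℝ) - py i) * (10 ^ 5 * z.re - px i) ≤
    ((px (i + 1) : ℝ) - px i) * (10 ^ 5 * |z.im| - py i)) : ‖Pq z‖ ≤ 219 / 1000 := by
  obtain ⟨y0, y1, y2, y3, hc⟩ := poly_chk
  have d : ∀ i < 24, (px (i + 1) : ℝ) < px i := fun i hi => by exact_mod_cast (hc i hi).1
  have y0' : (py 0 : ℝ) = 0 := by exact_mod_cast y0
  have y1' : (0 : ℝ) < py 1 := by exact_mod_cast y1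
  have y2' : (py 24 : ℝ) = 0 := by exact_mod_cast y2
  have y3' : (0 : ℝ) < py 23 := by exact_mod_cast y3
  have a := abs_nonneg z.im
  have b0 : 10 ^ 5 * z.re ≤ px 0 := by
    have h1 := h 0 (by norm_num)
    have h2 := d 0 (by norm_num)
    rw [y0', zero_add] at h1
    by_contra c
    nlinarith [mul_pos y1' (sub_pos.2 (not_le.1 c)), mul_nonneg (sub_pos.2 h2).le a]
  have b1 : (px (23 + 1) : ℝ) ≤ 10 ^ 5 * z.re := by
    have h1 := h 23 (by norm_num)
    have h2 := d 23 (by norm_num)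
    rw [y2'] at h1
    by_contra c
    nlinarith [mul_pos y3' (sub_pos.2 (not_le.1 c)), mul_nonneg (sub_pos.2 h2).le a]
  obtain ⟨i, hi, l1, l2⟩ := ex_step (f := fun i => (px i : ℝ)) b0 23 b1
  have hi' : i < 24 := by omega
  have p := sub_pos.2 (d i hi')
  obtain ⟨k, hk, s, s0, s1, e⟩ := ex_cell (n := 16) (by norm_num)
    (x := (px i - 10 ^ 5 * z.re) / (px i - px (i + 1))) (div_nonneg (sub_nonneg.2 l2) p.le)
    (div_le_one_of_le₀ (by linarith) p.le)
  rw [div_eq_iff p.ne', Nat.cast_ofNat] at e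
  have q1 := pc_ok hi' (k := k) (by omega)
  have q2 := pc_ok hi' (k := k + 1) (by omega)
  have q3 : ‖pc i (k + 1) - pc i k‖ ≤ 1 / 100 := by
    have h1 := (Int.cast_le (R := ℝ)).2 (hc i hi').2.1
    push_cast at h1
    refine (pow_le_pow_iff_left₀ (norm_nonneg _) (by norm_num) two_ne_zero).1 ?_
    rw [Complex.sq_norm, Complex.normSq_apply]
    simp only [pc, pt, Complex.sub_re, Complex.sub_im]
    push_cast
    linarith
  refine (pq_mono ?_ ?_).trans ((pq_chord s0 s1 q1.1 q2.1 q3 q1.2 q2.2).trans (by norm_num)) <;>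
    simp only [pc, pt, Complex.add_re, Complex.add_im, Complex.mul_re, Complex.mul_im,
      Complex.ofReal_re, Complex.ofReal_im, zero_mul, sub_zero, add_zero] <;> push_cast
  · linarith
  · have h1 := h i hi'
    rw [(by linarith : 10 ^ 5 * z.re - px i = -((k + s) / 16 * (px i - px (i + 1))))] at h1
    have h2 : 10 ^ 5 * |z.im| - py i ≤ (py (i + 1) - py i) * ((k + s) / 16) :=
      le_of_mul_le_mul_left (by linarith) p
    linarith

end Pool.Agent.Lib.MP_778b46_nt.GL
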