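import Pool.Agent.Lib.MP_778b46_nt.GL.A1
import Pool.Agent.Lib.MP_778b46_nt.GL.A2
import Pool.Agent.Lib.MP_778b46_nt.GL.A4

set_option autoImplicit false

noncomputable section

namespace Pool.Agent.Lib.MP_778b46_nt.GL

open Finset MeasureTheory Filter
open Pool.Agent.Lib.MP_778b46_nt.MA (lp w1 a1S a1M cf cop R1 I0 RR)
open Pool.Agent.Lib.MP_778b46_nt.VA (ee nd)

theorem m1_av (L : ℕ) (θ : ℝ) (w : ℂ) :
    av L (fun m => (w * ee (m * θ)).re) = fun m : ℤ => (w * zz L (-θ) * ee (m * θ)).re := by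
  funext N
  have e : ∀ j : ℕ, ee (((N - 2 ^ (j + 5) : ℤ) : ℝ) * θ) = ee (2 ^ (j + 5) * -θ) * ee (N * θ) :=
    fun j => by
      rw [← VA.ee_add]
      congr 1
      push_cast
      ring
  simp only [av, e]
  rw [← Complex.re_sum, ← Complex.re_ofReal_mul, zz, GE, ← mul_sum, ← sum_mul]
  congr 1
  push_cast
  ring

theorem m1_avk (L k : ℕ) (θ : ℝ) (w : ℂ) : (av L)^[k] (fun m => (w * ee (m * θ)).re) =
    fun m : ℤ => (w * zz L (-θ) ^ k * ee (m * θ)).re := by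
  induction k generalizing w with
  | zero => simp
  | succ k ih => rw [Function.iterate_succ_apply, m1_av, ih, pow_succ', mul_assoc w]

theorem m1_pav (L : ℕ) (θ : ℝ) : pav L (fun m => (1 * ee (m * θ)).re) = ‖zz L (-θ)‖ ^ 2 := by
  have e : ∀ j : ℕ, ee (((2 ^ (j + 5) : ℤ) : ℝ) * θ) = (starRingEnd ℂ) (ee (2 ^ (j + 5) * -θ)) :=
    fun j => by
      rw [VA.conj_ee]
      congr 1
      push_cast
      ring
  simp only [pav, m1_av, e]
  rw [← Complex.re_sum, ← Complex.re_ofReal_mul, ← mul_sum, ← map_sum, ← GE,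
    ← Complex.ofReal_re (‖zz L (-θ)‖ ^ 2), ← Complex.normSq_eq_norm_sq, ← Complex.mul_conj]
  congr 1
  rw [zz, map_div₀, map_natCast]
  push_cast
  ring

theorem m1_exp {L : ℕ} (hL : 1 ≤ L) (θ : ℝ) (N : ℤ) :
    -(3 / L) ≤ DA L (fun m => (ee (m * θ)).re) N + pav L (fun m => (ee (m * θ)).re) := by
  have e : (fun m : ℤ => (ee (m * θ)).re) = fun m : ℤ => (1 * ee (m * θ)).re := by simp
  have h1 : DA L (fun m => (1 * ee (m * θ)).re) N =
      (zz L (-θ) ^ 2 * Pq (zz L (-θ)) * ee (N * θ)).re := by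
    rw [DA, m1_avk, m1_avk, ← Complex.re_ofReal_mul, ← Complex.re_ofReal_mul, ← Complex.sub_re, Pq]
    congr 1
    push_cast
    ring
  have h2 := (abs_le.1 (Complex.abs_re_le_norm
    (zz L (-θ) ^ 2 * Pq (zz L (-θ)) * ee (N * θ)))).1
  rw [norm_mul, norm_mul, norm_pow, VA.norm_ee, mul_one] at h2
  have h3 := mul_le_mul_of_nonneg_left (pq_le hL (-θ)) (sq_nonneg ‖zz L (-θ)‖)
  have h4 : ‖zz L (-θ)‖ ^ 2 ≤ 1 := pow_le_one₀ (norm_nonneg _) (norm_zz_le L _)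
  have h5 := mul_le_mul_of_nonneg_right h4 (show (0 : ℝ) ≤ 3 / L by positivity)
  rw [e, h1, m1_pav]
  linarith

theorem m1_set {L : ℕ} (hL : 1 ≤ L) (S : Finset ℕ) (hS : ∀ l ∈ S, l.Prime) (N : ℤ) :
    -(3 / L * ∏ l ∈ S, uu l) ≤
      DA L (fun m => ∏ l ∈ S, rho l m) N + pav L (fun m => ∏ l ∈ S, rho l m) := by
  have e : (fun m : ℤ => ∏ l ∈ S, rho l m) = fun m : ℤ => (∏ l ∈ S, uu l) ^ 2 *
      ∑ c ∈ cop (∏ l ∈ S, l), (ee (m * ((c : ℝ) / (∏ l ∈ S, l : ℕ)))).re := by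
    funext m
    have h := congrArg Complex.re (rho_prod S hS m)
    rw [Complex.ofReal_re, Complex.re_ofReal_mul, Complex.re_sum] at h
    simpa only [mul_div_assoc] using h
  have h1 : (cop (∏ l ∈ S, l)).card = Nat.totient (∏ l ∈ S, l) := by
    rw [Nat.totient_eq_card_coprime, cop]
    exact congrArg card (filter_congr fun c _ => Nat.coprime_comm)
  have h2 := card_nsmul_le_sum (cop (∏ l ∈ S, l)) _ _ fun c _ =>
    m1_exp hL ((c : ℝ) / (∏ l ∈ S, l : ℕ)) N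
  rw [h1, nsmul_eq_mul, sum_add_distrib] at h2
  rw [e, da_mul, pav_mul, da_sum, pav_sum, ← mul_add]
  refine le_trans (le_of_eq ?_) (mul_le_mul_of_nonneg_left h2 (sq_nonneg _))
  linear_combination (3 / L * ∏ l ∈ S, uu l) * tot_prod S hS

end Pool.Agent.Lib.MP_778b46_nt.GL
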