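import Pool.Agent.Lib.MP_778b46_nt.GL.Zj

set_option autoImplicit false

noncomputable section

namespace Pool.Agent.Lib.MP_778b46_nt.GL

open Complex Finset Filter
open scoped Real
open Pool.Agent.Lib.MP_778b46_nt.MA
open Pool.Agent.Lib.MP_778b46_nt.GX (DC Lp cd ord lam pr)

theorem zk_log : ∃ L1 : ℝ, ∀ L : ℝ, L1 ≤ L → Real.log (L * (2 * L + 2) + 2) ^ 6 ≤ L := by
  obtain ⟨L1, h⟩ := eventually_atTop.1
    ((Real.isLittleO_pow_log_id_atTop (n := 6)).bound (by norm_num : (0 : ℝ) < 1 / 729))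
  refine ⟨max L1 4, fun L hL => ?_⟩
  have h4 : 4 ≤ L := le_of_max_le_right hL
  have h1 := h L (le_of_max_le_left hL)
  have h0 : 0 ≤ Real.log L := Real.log_nonneg (by linarith)
  rw [Real.norm_of_nonneg (pow_nonneg h0 _), id, Real.norm_of_nonneg (by linarith)] at h1
  have h2 : Real.log (L * (2 * L + 2) + 2) ≤ 3 * Real.log L := by
    have e : Real.log (L ^ 3) = 3 * Real.log L := by rw [Real.log_pow]; norm_num
    rw [← e]
    exact Real.log_le_log (by nlinarith) (by nlinarith [mul_nonneg (by linarith : 0 ≤ L - 4) (sq_nonneg L)])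
  have h3 := pow_le_pow_left₀ (Real.log_nonneg (by nlinarith)) h2 6
  rw [mul_pow] at h3
  linarith

theorem zk_pow {X : ℝ} {M L : ℕ} (hX : 0 < X) (hL : Real.log X ≤ L) (hM : (M : ℝ) ≤ 2 * X) :
    M ≤ 2 ^ (2 * L + 2) := by
  have h1 : X ≤ Real.exp 1 ^ L := by
    rw [← Real.exp_nat_mul, mul_one]
    exact (Real.log_le_iff_le_exp hX).1 hL
  have h2 : Real.exp 1 ^ L ≤ 4 ^ L :=
    pow_le_pow_left₀ (Real.exp_pos 1).le (by linarith [Real.exp_one_lt_d9]) L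
  have h3 : (M : ℝ) ≤ 2 ^ (2 * L + 2) := by
    rw [pow_add, pow_mul]
    have : (0 : ℝ) < 4 ^ L := by positivity
    norm_num
    linarith
  exact_mod_cast h3

/-- The arithmetic weight of a pair of characters on average over the exponent. -/
theorem avg_w : ∃ C : ℝ, 1 ≤ C ∧ ∀ ε : ℝ, 0 < ε → ∃ R : ℕ, ∀ᶠ X : ℝ in atTop,
    ∀ M a0 L r : ℕ, 1 ≤ r → Real.log X ≤ L → (∀ a ∈ Ico a0 (a0 + L), 2 ^ a < M) →
      (M : ℝ) ≤ 2 * X →
      ∑ a ∈ Ico a0 (a0 + L), ra (M - 2 ^ a) ^ 3 * (qd r (M - 2 ^ a) : ℝ) ^ (-(1 / 3 : ℝ)) ≤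
        (if od r ≤ R then C else ε) * L := by
  obtain ⟨C, hC, H⟩ := ra_mom 6
  obtain ⟨L1, h1⟩ := zk_log
  refine ⟨2 * C, by linarith, fun ε hε => ?_⟩
  obtain ⟨θ, hθ, e⟩ : ∃ θ : ℝ, 0 < θ ∧ θ * (2 * C) = ε / 2 :=
    ⟨ε / (4 * C), by positivity, by field_simp; norm_num⟩
  obtain ⟨R, L0, G⟩ := g_avg (ε := θ * (ε / 2)) (by positivity)
  refine ⟨R, ?_⟩
  filter_upwards [eventually_gt_atTop 0, Real.tendsto_log_atTop.eventually_ge_atTop L1,
    Real.tendsto_log_atTop.eventually_ge_atTop (L0 : ℝ)] with X hX a1 a2 M a0 L r hr hL hM h2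
  have k := H M a0 L (2 * L + 2) (by omega) (zk_pow hX hL h2) hM
  have k1 := h1 L (a1.trans hL)
  have k2 : ∑ a ∈ Ico a0 (a0 + L), ra (M - 2 ^ a) ^ 6 ≤ 2 * C * L := by
    push_cast at k
    nlinarith
  split_ifs with hR
  · refine le_trans (sum_le_sum fun a ha => ?_) k2
    have b1 : 1 ≤ ra (M - 2 ^ a) := one_le_ra (Nat.sub_pos_of_lt (hM a ha))
    have b2 : (qd r (M - 2 ^ a) : ℝ) ^ (-(1 / 3 : ℝ)) ≤ 1 :=
      Real.rpow_le_one_of_one_le_of_nonpos (by exact_mod_cast f4_qd_pos hr _) (by norm_num)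
    exact (mul_le_of_le_one_right (by positivity) b2).trans (pow_le_pow_right₀ b1 (by norm_num))
  · have g := G r M a0 L hr (not_le.1 hR) (by exact_mod_cast a2.trans hL) hM
    have b : ∀ a ∈ Ico a0 (a0 + L),
        ra (M - 2 ^ a) ^ 3 * (qd r (M - 2 ^ a) : ℝ) ^ (-(1 / 3 : ℝ)) ≤
          θ * ra (M - 2 ^ a) ^ 6 + θ⁻¹ * (qd r (M - 2 ^ a) : ℝ) ^ (-(2 / 3 : ℝ)) := by
      intro a _
      have c1 : (qd r (M - 2 ^ a) : ℝ) ^ (-(2 / 3 : ℝ)) =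
          ((qd r (M - 2 ^ a) : ℝ) ^ (-(1 / 3 : ℝ))) ^ 2 := by
        rw [← Real.rpow_natCast, ← Real.rpow_mul (Nat.cast_nonneg _)]
        norm_num
      have c2 : ra (M - 2 ^ a) ^ 6 = (ra (M - 2 ^ a) ^ 3) ^ 2 := by ring
      rw [c1, c2]
      generalize ra (M - 2 ^ a) ^ 3 = x
      generalize (qd r (M - 2 ^ a) : ℝ) ^ (-(1 / 3 : ℝ)) = y
      have c3 : θ * x ^ 2 + θ⁻¹ * y ^ 2 - x * y =
          θ⁻¹ * ((θ * x - y / 2) ^ 2 + 3 / 4 * y ^ 2) := by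
        field_simp
        ring
      have c4 : 0 ≤ θ⁻¹ * ((θ * x - y / 2) ^ 2 + 3 / 4 * y ^ 2) := by positivity
      linarith
    refine (sum_le_sum b).trans ?_
    rw [sum_add_distrib, ← mul_sum, ← mul_sum]
    have d1 := mul_le_mul_of_nonneg_left k2 hθ.le
    have d2 := mul_le_mul_of_nonneg_left g (inv_pos.2 hθ).le
    rw [mul_assoc θ, inv_mul_cancel_left₀ hθ.ne'] at d2
    rw [← mul_assoc, e] at d1
    linarith

theorem zk_e {N : ℕ} (S : Finset (DC N)) : ∑ χ ∈ S, s1e χ ≤ 1 := by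
  classical
  exact (sum_le_sum_of_subset_of_nonneg (subset_insert 1 S) fun χ _ _ => s1_e_nonneg χ).trans
    (s1_e_sum (mem_insert_self _ _)).le

theorem zk_vz {X δ T : ℝ} {N : ℕ} [NeZero N] (S : Finset (DC N)) (hX : 0 < X) :
    ∑ χ ∈ S, ∑ χ' ∈ S, vz X δ T χ χ' ≤ (∑ χ ∈ S, uz X δ T χ) * (2 + ∑ χ ∈ S, uz X δ T χ) := by
  have h0 : 0 ≤ ∑ χ ∈ S, uz X δ T χ := sum_nonneg fun χ _ => uz_nonneg hX δ T χ
  have h1 := mul_le_mul_of_nonneg_right (zk_e S) h0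
  simp only [vz, sum_add_distrib, ← sum_mul_sum]
  linarith

/-- Splitting of the pairs. -/
theorem vz_split {X δ T C ε U V : ℝ} {N : ℕ} [NeZero N] (R : ℕ) (S : Finset (DC N)) (hX : 0 < X)
    (hC : 0 ≤ C) (hε : 0 ≤ ε) (hU : ∑ χ ∈ S, uz X δ T χ ≤ U)
    (hV : ∑ χ ∈ S.filter (fun χ => od χ.conductor ≤ R), uz X δ T χ ≤ V) :
    ∑ χ ∈ S, ∑ χ' ∈ S, (if od (Nat.lcm χ.conductor χ'.conductor) ≤ R then C else ε) *
      vz X δ T χ χ' ≤ (C * V + ε * U) * (2 + U) := by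
  have u0 : ∀ S : Finset (DC N), 0 ≤ ∑ χ ∈ S, uz X δ T χ := fun S =>
    sum_nonneg fun χ _ => uz_nonneg hX δ T χ
  have h1 : ∑ χ ∈ S, ∑ χ' ∈ S, vz X δ T χ χ' ≤ U * (2 + U) :=
    (zk_vz S hX).trans (mul_le_mul hU (by linarith) (by linarith [u0 S]) ((u0 S).trans hU))
  have h3 : ∑ χ ∈ S.filter (fun χ => od χ.conductor ≤ R), uz X δ T χ ≤ U :=
    (sum_le_sum_of_subset_of_nonneg (filter_subset _ _) fun χ _ _ => uz_nonneg hX δ T χ).trans hU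
  have h2 : ∑ χ ∈ S.filter (fun χ => od χ.conductor ≤ R),
      ∑ χ' ∈ S.filter (fun χ => od χ.conductor ≤ R), vz X δ T χ χ' ≤ V * (2 + U) :=
    (zk_vz _ hX).trans (mul_le_mul hV (by linarith)
      (by linarith [u0 (S.filter fun χ => od χ.conductor ≤ R)]) ((u0 _).trans hV))
  have h4 := mul_le_mul_of_nonneg_left h1 hε
  have h5 := mul_le_mul_of_nonneg_left h2 hC
  refine le_trans ?_ (by linarith : ε * ∑ χ ∈ S, ∑ χ' ∈ S, vz X δ T χ χ' +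
    C * ∑ χ ∈ S.filter (fun χ => od χ.conductor ≤ R),
      ∑ χ' ∈ S.filter (fun χ => od χ.conductor ≤ R), vz X δ T χ χ' ≤ (C * V + ε * U) * (2 + U))
  rw [sum_filter, mul_sum, mul_sum, ← sum_add_distrib]
  refine sum_le_sum fun χ _ => ?_
  have k : ∀ χ' : DC N, od (Nat.lcm χ.conductor χ'.conductor) ≤ R →
      od χ.conductor ≤ R ∧ od χ'.conductor ≤ R := fun χ' h =>
    ⟨(od_le (f4_lcm_pos χ χ').ne' (Nat.dvd_lcm_left _ _)).trans h,
      (od_le (f4_lcm_pos χ χ').ne' (Nat.dvd_lcm_right _ _)).trans h⟩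
  by_cases a : od χ.conductor ≤ R
  · rw [if_pos a, sum_filter, mul_sum, mul_sum, ← sum_add_distrib]
    refine sum_le_sum fun χ' _ => ?_
    have v0 := vz_nonneg hX δ T χ χ'
    have v1 := mul_nonneg hε v0
    have v2 := mul_nonneg hC v0
    split_ifs with b c c
    · linarith
    · exact absurd (k χ' b).2 c
    · linarith
    · linarith
  · rw [if_neg a, mul_zero, add_zero, mul_sum]
    exact sum_le_sum fun χ' _ => by rw [if_neg fun b => a (k χ' b).1]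

end Pool.Agent.Lib.MP_778b46_nt.GL
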