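import Pool.Agent.Lib.MP_778b46_nt.GL.ZDef
import Pool.Agent.Lib.MP_778b46_nt.GX.As5
import Pool.Agent.Lib.MP_778b46_nt.GX.As6
import Pool.Agent.Lib.MP_778b46_nt.GX.BuTB

set_option autoImplicit false

noncomputable section

namespace Pool.Agent.Lib.MP_778b46_nt.GL

open Complex Finset Filter
open scoped Real
open Pool.Agent.Lib.MP_778b46_nt.MA
open Pool.Agent.Lib.MP_778b46_nt.GX (DC Lp cd ord lam pr)

theorem zu_pt {x l g t : ℝ} (hg : 0 ≤ g) (hx : x ≤ Real.exp (-(12 / 5 * l)))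
    (ht : Real.exp (-(l / 5)) * (1 + g) ^ (-(1 / 8 : ℝ)) ≤ t) :
    x * (1 + g) ^ (-(1 / 4 : ℝ)) ≤ Real.exp (-(11 / 5 * l)) * (1 + g) ^ (-(1 / 8 : ℝ)) * t := by
  have h1 : (0 : ℝ) < 1 + g := by linarith
  have e1 : (1 + g) ^ (-(1 / 4 : ℝ)) = (1 + g) ^ (-(1 / 8 : ℝ)) * (1 + g) ^ (-(1 / 8 : ℝ)) := by
    rw [← Real.rpow_add h1]
    norm_num
  have e2 : Real.exp (-(12 / 5 * l)) = Real.exp (-(11 / 5 * l)) * Real.exp (-(l / 5)) := by
    rw [← Real.exp_add]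
    ring_nf
  calc _ ≤ Real.exp (-(12 / 5 * l)) * (1 + g) ^ (-(1 / 4 : ℝ)) := by gcongr
    _ = Real.exp (-(11 / 5 * l)) * (1 + g) ^ (-(1 / 8 : ℝ)) *
        (Real.exp (-(l / 5)) * (1 + g) ^ (-(1 / 8 : ℝ))) := by rw [e1, e2]; ring
    _ ≤ _ := by gcongr

theorem zu_split {Q : ℕ} {ι : Type} [Fintype ι] (χ : ι → DC Q) {f a b : ι → ℝ} {A B : ℝ}
    (ha : ∀ i, f i ≤ a i) (hb : ∀ i, f i ≤ b i) (hA : ∑ i ∈ GX.NP χ, a i ≤ A)
    (hB : ∑ i ∈ GX.PP χ, b i ≤ B) : ∑ i, f i ≤ A + B := by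
  classical
  have e : ∑ i, f i = ∑ i ∈ GX.NP χ, f i + ∑ i ∈ GX.PP χ, f i := by
    rw [add_comm, GX.NP, GX.PP, Finset.sum_filter_add_sum_filter_not]
  rw [e]
  exact add_le_add ((sum_le_sum fun i _ => ha i).trans hA) ((sum_le_sum fun i _ => hb i).trans hB)

/-- The weights of the zeros are bounded without logarithms. -/
theorem zsum {th e : ℝ} (h0 : 0 < th) (h1 : th < 5 / 12) (he : 0 < e) (he' : e ≤ 1 / 40) :
    ∃ d η A : ℝ, 0 < d ∧ d ≤ 1 / 40 ∧ 0 < η ∧ 1 ≤ A ∧ ∀ᶠ X : ℝ in atTop, ∀ δ T : ℝ, δ ≤ d →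
      1 ≤ T → T ≤ X ^ η → ∀ (N : ℕ) [NeZero N], Tot X N (X ^ th) δ T ≤ A * T ^ e ∧
        ∀ (S : Finset (DC N)) (t : ℝ), S ⊆ CH N (X ^ th) → 0 ≤ t →
          (∀ ξ ∈ S, ∀ z ∈ zs (Lp ξ) δ T,
            Real.exp (-(lam (X ^ th) z / 5)) * (1 + |z.im|) ^ (-(1 / 8 : ℝ)) ≤ t) →
          ∑ ξ ∈ S, uz X δ T ξ ≤ A * t := by
  classical
  obtain ⟨η2, ε2, A1, P2, hη2, hε2, hA1, hm⟩ := GX.mol_exp (GX.Mo.mol (by norm_num) GX.tb_third)
  obtain ⟨d0, A2, hd0, hA2, hz⟩ := GX.zeta_sums he he'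
  refine ⟨min (1 / 40) (min d0 ε2), th * η2, A1 + A2, by positivity, min_le_left _ _,
    by positivity, by linarith, ?_⟩
  have tP : Tendsto (fun X : ℝ => X ^ th) atTop atTop := tendsto_rpow_atTop h0
  have hLt : 0 < 1 - 12 / 5 * th := by linarith
  filter_upwards [tP.eventually_ge_atTop P2, eventually_ge_atTop 1,
    (Real.tendsto_log_atTop.const_mul_atTop hLt).eventually_ge_atTop (Real.log 4)]
    with X hP2 hX hlog δ T hδ hT1 hT N _
  have d1 : δ ≤ d0 := hδ.trans ((min_le_right _ _).trans (min_le_left _ _))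
  have d2 : δ ≤ ε2 := hδ.trans ((min_le_right _ _).trans (min_le_right _ _))
  have hXp : 0 < X := by linarith
  have hP : 1 ≤ X ^ th := Real.one_le_rpow hX h0.le
  have hlP : 0 ≤ Real.log (X ^ th) := Real.log_nonneg hP
  obtain ⟨ι, _, χ, ρ, hF⟩ := GX.exists_full (Q := N)
    (fun ξ z => cd ξ ≤ X ^ th ∧ 1 - δ ≤ z.re ∧ |z.im| ≤ T) (1 - δ) T fun ξ z h => h.2
  have hS := hF.sub
  have hm1 := (hm _ hP2 _ ι χ ρ hS (fun j => ⟨(hF.1 j).1,
    mul_le_mul_of_nonneg_right (by linarith [(hF.1 j).2.1]) hlP,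
    (hF.1 j).2.2.trans (by rwa [← Real.rpow_mul hXp.le])⟩) (GX.NP χ)
    fun i hi => by simpa [GX.NP] using hi).1
  obtain ⟨hz1, hz2⟩ := hz _ ι χ ρ hS fun j => by linarith [(hF.1 j).2.1]
  have hl := hS.lam_nonneg hP
  have hx : ∀ i, (X / 4) ^ ((ρ i).re - 1) ≤ Real.exp (-(12 / 5 * lam (X ^ th) (ρ i))) :=
    fun i => GX.as5_x hXp hlog (hS.re_lt_one i).le
  refine ⟨?_, fun S t hSC ht h => ?_⟩
  · have hTe : 1 ≤ T ^ e := Real.one_le_rpow hT1 he.le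
    rw [GX.as6_tot hF]
    refine (zu_split χ (b := fun _ => 1) (B := A2 * T ^ e) (fun i => (hx i).trans
      (Real.exp_le_exp.2 (by linarith [hl i]))) (fun i => (hx i).trans
      (Real.exp_le_one_iff.2 (by linarith [hl i]))) hm1 ?_).trans (by nlinarith)
    simpa using hz2 T hT1 fun j => (hF.1 j).2.2
  · have e1 : ∑ ξ ∈ S, uz X δ T ξ = ∑ i, if χ i ∈ S then
        (X / 4) ^ ((ρ i).re - 1) * (1 + |(ρ i).im|) ^ (-(1 / 4 : ℝ)) else 0 := by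
      rw [← GX.as6_sum hF fun ξ z => if ξ ∈ S then
        (X / 4) ^ (z.re - 1) * (1 + |z.im|) ^ (-(1 / 4 : ℝ)) else 0,
        ← sum_subset hSC fun ξ _ hξ => by simp [hξ]]
      refine sum_congr rfl fun ξ hξ => sum_congr rfl fun z _ => ?_
      rw [if_pos hξ, xw, ord, mul_assoc]
    have key : ∀ i, (if χ i ∈ S then
        (X / 4) ^ ((ρ i).re - 1) * (1 + |(ρ i).im|) ^ (-(1 / 4 : ℝ)) else 0) ≤
          Real.exp (-(11 / 5 * lam (X ^ th) (ρ i))) * (1 + |(ρ i).im|) ^ (-(1 / 8 : ℝ)) * t := by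
      intro i
      split_ifs with hi
      · exact zu_pt (abs_nonneg _) (hx i) (h _ hi _ ((GX.as6_mem _ _ _ _).2
          ⟨hS.zero i, (hF.1 i).2.1, (hS.re_lt_one i).le, (hF.1 i).2.2⟩))
      · positivity
    rw [e1, add_mul]
    refine zu_split χ (a := fun i => Real.exp (-(109 / 50 * lam (X ^ th) (ρ i))) * t)
      (b := fun i => (1 + |(ρ i).im|) ^ (-(1 / 8) : ℝ) * t) (fun i => (key i).trans ?_)
      (fun i => (key i).trans ?_) ?_ ?_
    · refine mul_le_mul_of_nonneg_right ((mul_le_of_le_one_right (Real.exp_pos _).le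
        (Real.rpow_le_one_of_one_le_of_nonpos (by linarith [abs_nonneg (ρ i).im])
          (by norm_num))).trans (Real.exp_le_exp.2 (by linarith [hl i]))) ht
    · exact mul_le_mul_of_nonneg_right (mul_le_of_le_one_left (by positivity)
        (Real.exp_le_one_iff.2 (by linarith [hl i]))) ht
    · rw [← sum_mul]
      exact mul_le_mul_of_nonneg_right hm1 ht
    · rw [← sum_mul]
      exact mul_le_mul_of_nonneg_right hz1 ht

end Pool.Agent.Lib.MP_778b46_nt.GL
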