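import Pool.Agent.Lib.MP_778b46_nt.MA.S1

/-! Major arcs averaged over powers of two: definitions. -/

set_option autoImplicit false

noncomputable section

namespace Pool.Agent.Lib.MP_778b46_nt.GL

open Complex Finset Filter
open scoped Real
open Pool.Agent.Lib.MP_778b46_nt.MA
open Pool.Agent.Lib.MP_778b46_nt.GX (DC Lp cd ord lam pr)

/-- `m / φ m`. -/
def ra (m : ℕ) : ℝ := (m : ℝ) / Nat.totient m

/-- The odd part. -/
def od (r : ℕ) : ℕ := r / 2 ^ r.factorization 2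

/-- The truncated singular series of a pair of characters. -/
def SC {N : ℕ} [NeZero N] (P : ℝ) (m : ℕ) (χ χ' : DC N) : ℂ := ∑ q ∈ Icc 1 ⌊P⌋₊, ww q m χ χ'

/-- The truncated singular series of the principal pair. -/
def SP (P : ℝ) (m : ℕ) : ℂ := ∑ q ∈ Icc 1 ⌊P⌋₊,
  (((ArithmeticFunction.moebius q : ℤ) : ℂ) / Nat.totient q) ^ 2 *
    ∑ c ∈ cop q, ee (-(m * c / q))

/-- The weight of the zeros of one character. -/
def uz (X δ T : ℝ) {N : ℕ} [NeZero N] (χ : DC N) : ℝ :=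
  ∑ ρ ∈ zs (Lp χ) δ T, xw X (Lp χ) ρ * (1 + |ρ.im|) ^ (-(1 / 4 : ℝ))

/-- The weight of the zeros of a pair of characters. -/
def vz (X δ T : ℝ) {N : ℕ} [NeZero N] (χ χ' : DC N) : ℝ :=
  s1e χ * uz X δ T χ' + uz X δ T χ * s1e χ' + uz X δ T χ * uz X δ T χ'

theorem ra_nonneg (m : ℕ) : 0 ≤ ra m := div_nonneg (Nat.cast_nonneg _) (Nat.cast_nonneg _)

theorem one_le_ra {m : ℕ} (hm : 1 ≤ m) : 1 ≤ ra m :=
  (one_le_div (Nat.cast_pos.2 (Nat.totient_pos.2 hm))).2 (Nat.cast_le.2 (Nat.totient_le m))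

theorem ra_eq {m : ℕ} (hm : 1 ≤ m) : ra m = ∏ p ∈ m.primeFactors, (p : ℝ) / (p - 1) :=
  f3_ratio hm

theorem od_mul (r : ℕ) : 2 ^ r.factorization 2 * od r = r :=
  Nat.ordProj_mul_ordCompl_eq_self r 2

theorem od_odd {r : ℕ} (hr : r ≠ 0) : Odd (od r) :=
  Nat.odd_iff.2 (Nat.two_dvd_ne_zero.1 (Nat.not_dvd_ordCompl Nat.prime_two hr))

theorem od_dvd (r : ℕ) : od r ∣ r := Nat.ordCompl_dvd r 2

theorem od_le {a b : ℕ} (hb : b ≠ 0) (h : a ∣ b) : od a ≤ od b :=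
  Nat.le_of_dvd (Nat.ordCompl_pos 2 hb) (Nat.ordCompl_dvd_ordCompl_of_dvd h 2)

theorem uz_nonneg {X : ℝ} (hX : 0 < X) (δ T : ℝ) {N : ℕ} [NeZero N] (χ : DC N) :
    0 ≤ uz X δ T χ :=
  sum_nonneg fun ρ _ => mul_nonneg (s1_xw_nonneg hX _ ρ) (Real.rpow_nonneg (by positivity) _)

theorem vz_nonneg {X : ℝ} (hX : 0 < X) (δ T : ℝ) {N : ℕ} [NeZero N] (χ χ' : DC N) :
    0 ≤ vz X δ T χ χ' := by
  have := uz_nonneg hX δ T χ
  have := uz_nonneg hX δ T χ'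
  have := s1_e_nonneg χ
  have := s1_e_nonneg χ'
  unfold vz
  positivity

end Pool.Agent.Lib.MP_778b46_nt.GL
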