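import Pool.Agent.Lib.MP_778b46_nt.GX.Basic
import Pool.Agent.Lib.MP_778b46_nt.GL.ZDef

set_option autoImplicit false

noncomputable section

namespace Pool.Agent.Lib.MP_778b46_nt.GL

open Complex Finset Filter
open scoped Real
open Pool.Agent.Lib.MP_778b46_nt.MA
open Pool.Agent.Lib.MP_778b46_nt.GX (DC Lp cd ord lam pr)

theorem zi_sum {Q : ℕ} [NeZero Q] (ξ : DC Q) {σ : ℝ} (hσ : 1 < σ) (γ : ℝ) :
    HasSum (fun n : ℕ => ArithmeticFunction.vonMangoldt n * (n : ℝ) ^ (-σ) *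
        (pr ξ n * exp (((-(γ * Real.log n) : ℝ) : ℂ) * I)).re)
      (LSeries (fun n => pr ξ n * (ArithmeticFunction.vonMangoldt n : ℂ)) (σ + γ * I)).re := by
  have h1 : LSeriesSummable (fun n => pr ξ n * (ArithmeticFunction.vonMangoldt n : ℂ))
      (σ + γ * I) :=
    DirichletCharacter.LSeriesSummable_twist_vonMangoldt ξ.primitiveCharacter (by simpa using hσ)
  have h2 := hasSum_re h1.hasSum
  have e : ∀ n : ℕ, (LSeries.term (fun n => pr ξ n * (ArithmeticFunction.vonMangoldt n : ℂ))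
      (σ + γ * I) n).re = ArithmeticFunction.vonMangoldt n * (n : ℝ) ^ (-σ) *
        (pr ξ n * exp (((-(γ * Real.log n) : ℝ) : ℂ) * I)).re := fun n => by
    rcases eq_or_ne n 0 with rfl | hn
    · simp
    · have h0 : (n : ℂ) ≠ 0 := Nat.cast_ne_zero.2 hn
      have h3 : (0 : ℝ) < n := by positivity
      rw [← re_ofReal_mul, LSeries.term_of_ne_zero hn, Real.rpow_def_of_pos h3,
        cpow_def_of_ne_zero h0, ← natCast_log, div_eq_mul_inv _ (exp _), ← exp_neg]
      have e2 : -((Real.log n : ℂ) * ((σ : ℂ) + γ * I)) =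
          ((Real.log n * -σ : ℝ) : ℂ) + ((-(γ * Real.log n) : ℝ) : ℂ) * I := by
        simp only [ofReal_mul, ofReal_neg]
        ring
      rw [e2, exp_add, ← ofReal_exp]
      congr 1
      simp only [ofReal_mul]
      ring
  simp only [e] at h2
  exact h2

theorem zi_term {Q : ℕ} [NeZero Q] (ξ : DC Q) (n : ℕ) (t : ℝ) :
    0 ≤ 3 + 4 * (pr ξ n * exp ((t : ℂ) * I)).re +
      (pr (ξ * ξ) n * exp (((2 * t : ℝ) : ℂ) * I)).re := by
  have e : exp (((2 * t : ℝ) : ℂ) * I) = exp ((t : ℂ) * I) * exp ((t : ℂ) * I) := by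
    rw [← exp_add]
    congr 1
    push_cast
    ring
  by_cases h : n.Coprime ξ.conductor
  · have h1 : ‖pr ξ n * exp ((t : ℂ) * I)‖ = 1 := by
      rw [norm_mul, GX.norm_pr ξ h, norm_exp_ofReal_mul_I, one_mul]
    rw [GX.pr_mul_char ξ ξ h h, e, mul_mul_mul_comm]
    generalize pr ξ n * exp ((t : ℂ) * I) = z at h1
    have h2 : z.re * z.re + z.im * z.im = 1 := by
      rw [← normSq_apply, normSq_eq_norm_sq, h1, one_pow]
    rw [mul_re]
    nlinarith [sq_nonneg (1 + z.re)]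
  · have h1 : ‖pr (ξ * ξ) n * exp (((2 * t : ℝ) : ℂ) * I)‖ ≤ 1 := by
      rw [norm_mul, norm_exp_ofReal_mul_I, mul_one]
      exact GX.norm_pr_le _ _
    have h2 := (abs_le.1 ((abs_re_le_norm _).trans h1)).1
    rw [GX.pr_eq_zero ξ h, zero_mul, zero_re]
    linarith

/-- The inequality of Mertens for the primitive characters. -/
theorem pos341 {Q : ℕ} [NeZero Q] (ξ : DC Q) {σ : ℝ} (hσ : 1 < σ) (γ : ℝ) :
    0 ≤ 3 * (LSeries (fun n => pr (1 : DC Q) n * (ArithmeticFunction.vonMangoldt n : ℂ))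
          (σ + (0 : ℝ) * I)).re +
      4 * (LSeries (fun n => pr ξ n * (ArithmeticFunction.vonMangoldt n : ℂ)) (σ + γ * I)).re +
      (LSeries (fun n => pr (ξ * ξ) n * (ArithmeticFunction.vonMangoldt n : ℂ))
          (σ + (2 * γ : ℝ) * I)).re := by
  refine ((((zi_sum (1 : DC Q) hσ 0).mul_left 3).add ((zi_sum ξ hσ γ).mul_left 4)).add
    (zi_sum (ξ * ξ) hσ (2 * γ))).nonneg fun n => ?_
  have h1 := zi_term ξ n (-(γ * Real.log n))
  have h2 : 0 ≤ ArithmeticFunction.vonMangoldt n * (n : ℝ) ^ (-σ) :=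
    mul_nonneg ArithmeticFunction.vonMangoldt_nonneg (by positivity)
  have e1 : (pr (1 : DC Q) n * exp (((-(0 * Real.log n) : ℝ) : ℂ) * I)).re = 1 := by
    simp [GX.pr_triv]
  have e2 : (-(2 * γ * Real.log n) : ℝ) = 2 * -(γ * Real.log n) := by ring
  rw [e1, e2]
  nlinarith [mul_nonneg h2 h1]

end Pool.Agent.Lib.MP_778b46_nt.GL
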