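import Pool.Agent.Lib.MP_778b46_nt.GL.Zh
import Pool.Agent.Lib.MP_778b46_nt.GL.Zi
import Pool.Agent.Lib.MP_778b46_nt.GX.SG

set_option autoImplicit false

noncomputable section

namespace Pool.Agent.Lib.MP_778b46_nt.GL

open Complex Finset Filter
open scoped Real
open Pool.Agent.Lib.MP_778b46_nt.MA
open Pool.Agent.Lib.MP_778b46_nt.GX (DC Lp cd ord lam pr)

theorem zz_cond {r : ℕ} (hr : r ≠ 0) (h : ¬ 16 ∣ r) : r ≤ 8 * od r := by
  have h1 : r.factorization 2 ≤ 3 := by
    by_contra hc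
    exact h ((pow_dvd_pow 2 (show 4 ≤ r.factorization 2 by omega)).trans (Nat.ordProj_dvd r 2))
  have h2 : 2 ^ r.factorization 2 ≤ 2 ^ 3 := Nat.pow_le_pow_right two_pos h1
  have h3 := od_mul r
  have h4 := Nat.mul_le_mul_right (od r) h2
  have := hr
  omega

theorem zz_num {L H β A B C : ℝ} (hL : 0 < L) (hH : 1 ≤ H) (hβ : β < 1) (h1 : (1 - β) * L ≤ H)
    (h : 0 ≤ 3 * A + 4 * B + C) (hA : A ≤ L / (6 * H) + 1 / (200 * H) * L)
    (hB : B ≤ 1 / (200 * H) * L - 1 / (1 + 6 * H / L - β)) (hC : C ≤ 0 + 1 / (200 * H) * L) :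
    False := by
  have hH0 : 0 < H := by linarith
  have a1 : 1 - β ≤ H / L := (le_div_iff₀ hL).2 h1
  have a2 : 0 < H / L := div_pos hH0 hL
  have a3 : 6 * H / L = 6 * (H / L) := by ring
  have a4 : 1 / (7 * (H / L)) ≤ 1 / (1 + 6 * H / L - β) :=
    one_div_le_one_div_of_le (by linarith) (by linarith)
  have a5 : 1 / (7 * (H / L)) = 1 / 7 * (L / H) := by field_simp
  have a6 : L / (6 * H) = 1 / 6 * (L / H) := by field_simp
  have a7 : 1 / (200 * H) * L = 1 / 200 * (L / H) := by field_simp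
  have a8 : 0 < L / H := div_pos hL hH0
  linarith

/-- No zeros close to one when the odd part of the conductor is bounded. -/
theorem zf2 (R : ℕ) (H Y : ℝ) : ∀ᶠ P : ℝ in atTop, ∀ (Q : ℕ) [NeZero Q] (ξ : DC Q) (z : ℂ),
    cd ξ ≤ P → od ξ.conductor ≤ R → |z.im| ≤ Y → ord ξ z ≠ 0 → H < lam P z := by
  obtain ⟨c, hc, hz⟩ := GX.zfs (8 * R) Y
  have hH : 1 ≤ max H 1 := le_max_right _ _
  obtain ⟨δ, hδ, hl⟩ := ld2 R (6 * max H 1) (2 * |Y|) (by linarith) (ε := 1 / (200 * max H 1))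
    (by positivity)
  filter_upwards [hl, eventually_ge_atTop 1,
    Real.tendsto_log_atTop.eventually_gt_atTop (max H 1 / c),
    Real.tendsto_log_atTop.eventually_gt_atTop (max H 1 / δ)] with P h1 hP h2 h3
  intro Q _ ξ z a1 a2 a3 a4
  by_contra hcon
  have hL : 0 < Real.log P := (div_pos (by linarith) hc).trans h2
  have b1 : (1 - z.re) * Real.log P ≤ max H 1 := (not_lt.1 hcon).trans (le_max_left _ _)
  have b2 : ∀ x : ℝ, 0 < x → max H 1 / x < Real.log P → 1 - x ≤ z.re := by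
    intro x hx h
    rw [div_lt_iff₀ hx] at h
    by_contra hn
    nlinarith [mul_pos hL (show 0 < 1 - z.re - x by linarith)]
  have hY : |z.im| ≤ |Y| := a3.trans (le_abs_self Y)
  by_cases hξ : ξ * ξ = 1
  · refine a4 (hz Q ξ z ?_ a3 (b2 c hc h2))
    have := (zz_cond ξ.conductor_ne_zero (real_cond ξ hξ)).trans (Nat.mul_le_mul_left 8 a2)
    unfold cd
    exact_mod_cast this
  · have hd : (ξ * ξ).conductor ∣ ξ.conductor := by
      simpa using DirichletCharacter.conductor_mul_dvd_lcm_conductor ξ ξ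
    have hd1 : (1 : DC Q).conductor ∣ ξ.conductor := by
      rw [DirichletCharacter.conductor_one]
      exact one_dvd _
    have c1 := (h1 Q 1 0 (by rw [GX.cd_one]; exact hP)
      ((od_le ξ.conductor_ne_zero hd1).trans a2) (by simp)).1
    have c2 := (h1 Q ξ z.im a1 a2 (by linarith [abs_nonneg Y])).2 z.re (b2 δ hδ h3)
      (by rw [re_add_im]; exact a4) (by rintro rfl; exact hξ (mul_one 1))
    have c3 := (h1 Q (ξ * ξ) (2 * z.im) (le_trans (Nat.cast_le.2
      (Nat.le_of_dvd (Nat.pos_of_ne_zero ξ.conductor_ne_zero) hd)) a1)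
      ((od_le ξ.conductor_ne_zero hd).trans a2) (by rw [abs_mul, abs_two]; linarith)).1
    rw [if_pos rfl] at c1
    rw [if_neg hξ] at c3
    have c4 := pos341 ξ (σ := 1 + 6 * max H 1 / Real.log P)
      (lt_add_of_pos_right 1 (by positivity)) z.im
    exact zz_num hL hH (GX.re_lt_one_of_ord a4) b1 c4 c1 c2 c3

end Pool.Agent.Lib.MP_778b46_nt.GL
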