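import Pool.Agent.Lib.MP_778b46_nt.GL.Zp
import Pool.Agent.Lib.MP_778b46_nt.GL.Zk
import Pool.Agent.Lib.MP_778b46_nt.GL.Zu
import Pool.Agent.Lib.MP_778b46_nt.GL.Zz

set_option autoImplicit false

noncomputable section

namespace Pool.Agent.Lib.MP_778b46_nt.GL

open Complex Finset Filter
open scoped Real
open Pool.Agent.Lib.MP_778b46_nt.MA
open Pool.Agent.Lib.MP_778b46_nt.GX (DC Lp cd ord lam pr)

theorem za_mem {Q : ℕ} [NeZero Q] {ξ : DC Q} {δ T : ℝ} {z : ℂ} (h : z ∈ zs (Lp ξ) δ T) :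
    ord ξ z ≠ 0 :=
  (GX.ord_ne_zero_iff ξ z).2
    ((mem_zs (GX.Lp_diff ξ) (GX.Lp_ne_zero ξ (by simp))).1 h).1

theorem za_exp {Q : ℕ} [NeZero Q] {ξ : DC Q} {P : ℝ} (hP : 1 ≤ P) {z : ℂ} (h : ord ξ z ≠ 0) :
    Real.exp (-(lam P z / 5)) ≤ 1 := by
  have h1 : 0 ≤ lam P z :=
    mul_nonneg (sub_pos.2 (GX.re_lt_one_of_ord h)).le (Real.log_nonneg hP)
  exact Real.exp_le_one_iff.2 (by linarith)

theorem za_pow (y : ℝ) : (1 + |y|) ^ (-(1 / 8 : ℝ)) ≤ 1 :=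
  Real.rpow_le_one_of_one_le_of_nonpos (by linarith [abs_nonneg y]) (by norm_num)

theorem za_small {Q : ℕ} [NeZero Q] {ξ : DC Q} {P t : ℝ} (hP : 1 ≤ P) (ht : 0 < t) {z : ℂ}
    (h : ord ξ z ≠ 0) (hz : |z.im| ≤ t ^ (-8 : ℝ) → -5 * Real.log t < lam P z) :
    Real.exp (-(lam P z / 5)) * (1 + |z.im|) ^ (-(1 / 8 : ℝ)) ≤ t := by
  by_cases hy : |z.im| ≤ t ^ (-8 : ℝ)
  · have h1 : Real.exp (-(lam P z / 5)) ≤ t := by
      rw [← Real.exp_log ht]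
      exact Real.exp_le_exp.2 (by linarith [hz hy])
    calc _ ≤ t * 1 := mul_le_mul h1 (za_pow _) (by positivity) ht.le
      _ = t := mul_one t
  · have h1 : (1 + |z.im|) ^ (-(1 / 8 : ℝ)) ≤ t := by
      calc (1 + |z.im|) ^ (-(1 / 8 : ℝ)) ≤ (t ^ (-8 : ℝ)) ^ (-(1 / 8 : ℝ)) :=
            Real.rpow_le_rpow_of_nonpos (by positivity) (by linarith [not_le.1 hy])
              (by norm_num)
        _ = t := by
            rw [← Real.rpow_mul ht.le]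
            norm_num
    calc _ ≤ 1 * t := mul_le_mul (za_exp hP h) h1 (by positivity) zero_le_one
      _ = t := one_mul t

theorem za_tail {X c k K e A W : ℝ} (hX : 1 ≤ X) (hK : 0 < K) (hk : 0 < k) (hc : k / K ≤ c)
    (he' : e ≤ 1 / (64 * K)) (hA : 1 ≤ A) (h0 : 0 ≤ W)
    (hW : W ≤ A * (X ^ (16 * k)) ^ e) :
    X ^ (1 - c) * (1 + W) ^ 2 ≤ 4 * A ^ 2 * X ^ (-(c / 2)) * X := by
  have hX0 : 0 < X := by linarith
  have h1 : (X ^ (16 * k)) ^ e ≤ X ^ (c / 4) := by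
    rw [← Real.rpow_mul hX0.le]
    refine Real.rpow_le_rpow_of_exponent_le hX ?_
    have h2 : 16 * k * e ≤ 16 * k * (1 / (64 * K)) := by gcongr
    have h3 : 16 * k * (1 / (64 * K)) = k / K / 4 := by field_simp; norm_num
    linarith
  have h2 : 1 ≤ X ^ (c / 4) :=
    Real.one_le_rpow hX (by linarith [div_pos hk hK])
  have h3 : 1 + W ≤ 2 * A * X ^ (c / 4) := by
    have h4 : A * (X ^ (16 * k)) ^ e ≤ A * X ^ (c / 4) := by gcongr
    nlinarith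
  have h4 : (1 + W) ^ 2 ≤ (2 * A * X ^ (c / 4)) ^ 2 := by gcongr
  have h5 : X ^ (1 - c) * (X ^ (c / 4)) ^ 2 = X ^ (-(c / 2)) * X := by
    rw [← Real.rpow_natCast, ← Real.rpow_mul hX0.le, ← Real.rpow_add hX0,
      ← Real.rpow_add_one hX0.ne']
    congr 1
    push_cast
    ring
  calc X ^ (1 - c) * (1 + W) ^ 2 ≤ X ^ (1 - c) * (2 * A * X ^ (c / 4)) ^ 2 := by gcongr
    _ = 4 * A ^ 2 * (X ^ (1 - c) * (X ^ (c / 4)) ^ 2) := by ring
    _ = _ := by rw [h5]; ring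

/-- The major arcs on average over one exponent. -/
theorem maj {ϑ ε : ℝ} (hϑ : 0 < ϑ) (hϑ' : ϑ < 5 / 12) (hε : 0 < ε) :
    ∃ κ : ℝ, 0 < κ ∧ κ ≤ ε ∧ ∀ᶠ X : ℝ in atTop, ∀ M a0 L : ℕ, Real.log X ≤ L →
      (∀ a ∈ Ico a0 (a0 + L), 2 ^ a < M) → (M : ℝ) ≤ 2 * X →
      ∑ a ∈ Ico a0 (a0 + L), ‖R1 X (X ^ ϑ) (X ^ ϑ * X ^ κ) (M - 2 ^ a) -
        X * I0 w1 (((M - 2 ^ a : ℕ) : ℝ) / X) * SP (X ^ ϑ) (M - 2 ^ a)‖ ≤ ε * X * L := by
  obtain ⟨K, hK, hp⟩ := maj_pt hϑ hϑ'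
  have he : 0 < min (1 / 40 : ℝ) (1 / (64 * K)) := lt_min (by norm_num) (by positivity)
  obtain ⟨d, η, A, hd, hd', hη, hA, hz⟩ := zsum hϑ hϑ' he (min_le_left _ _)
  obtain ⟨k, c, C, hk, hk', hc, hC, hp⟩ := hp d (min ε η) hd hd' (lt_min hε hη)
  obtain ⟨C1, hC1, ha⟩ := avg_w
  have hA0 : 0 < A := by linarith
  have hC0 : 0 < C := by linarith
  have hC10 : 0 < C1 := by linarith
  set ε1 : ℝ := ε / (4 * C * A * (2 + A)) with hε1
  have h1 : 0 < ε1 := by positivity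
  obtain ⟨R, ha⟩ := ha ε1 h1
  have ht : 0 < ε1 / C1 := by positivity
  have hf := (tendsto_rpow_atTop hϑ).eventually
    (zf2 R (-5 * Real.log (ε1 / C1)) ((ε1 / C1) ^ (-8 : ℝ)))
  have hc0 : 0 < c := (div_pos hk hK).trans_le hc
  have hs : ∀ᶠ X : ℝ in atTop, 4 * A ^ 2 * X ^ (-(c / 2)) < ε / 2 := by
    have := (tendsto_rpow_neg_atTop (half_pos hc0)).const_mul (4 * A ^ 2)
    rw [mul_zero] at this
    exact this.eventually (gt_mem_nhds (half_pos hε))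
  refine ⟨15 * k, by positivity, by linarith [min_le_left ε η], ?_⟩
  filter_upwards [hz, ha, hf, hs, eventually_ge_atTop C] with X hz ha hf hs hX M a0 L hL hM hM'
  have hX1 : 1 ≤ X := hC.trans hX
  have hX0 : 0 < X := by linarith
  have hP : 1 ≤ X ^ ϑ := Real.one_le_rpow hX1 hϑ.le
  obtain ⟨hT, hS⟩ := hz d (X ^ (16 * k)) le_rfl (Real.one_le_rpow hX1 (by positivity))
    (Real.rpow_le_rpow_of_exponent_le hX1 (hk'.trans (min_le_right _ _))) ⌊X ^ ϑ⌋₊.factorial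
  set N := ⌊X ^ ϑ⌋₊.factorial with hN
  set T := X ^ (16 * k) with hTd
  have hU : ∑ χ ∈ CH N (X ^ ϑ), uz X d T χ ≤ A := by
    have := hS _ 1 Subset.rfl zero_le_one fun ξ _ z hz =>
      (mul_le_mul (za_exp hP (za_mem hz)) (za_pow _) (by positivity) zero_le_one).trans
        (one_mul _).le
    rwa [mul_one] at this
  have hV : ∑ χ ∈ (CH N (X ^ ϑ)).filter (fun χ => od χ.conductor ≤ R), uz X d T χ ≤
      A * (ε1 / C1) :=
    hS _ _ (filter_subset _ _) ht.le fun ξ hξ z hz => za_small hP ht (za_mem hz) fun hy =>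
      hf N ξ z (mem_filter.1 (mem_filter.1 hξ).1).2 (mem_filter.1 hξ).2 hy (za_mem hz)
  have hsp := vz_split R (CH N (X ^ ϑ)) hX0 hC10.le h1.le hU hV
  have hTot : 0 ≤ Tot X N (X ^ ϑ) d T :=
    sum_nonneg fun χ _ => sum_nonneg fun ρ _ => s1_xw_nonneg hX0 _ ρ
  have htail := za_tail hX1 hK hk hc (min_le_right _ _) hA hTot hT
  have hmain : ∑ a ∈ Ico a0 (a0 + L), ra (M - 2 ^ a) ^ 3 * ∑ χ ∈ CH N (X ^ ϑ),
      ∑ χ' ∈ CH N (X ^ ϑ), (MA.gg (M - 2 ^ a) χ χ' : ℝ) ^ (-(1 / 3 : ℝ)) * vz X d T χ χ' ≤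
      2 * ε1 * A * (2 + A) * L := by
    calc _ = ∑ χ ∈ CH N (X ^ ϑ), ∑ χ' ∈ CH N (X ^ ϑ), (∑ a ∈ Ico a0 (a0 + L),
          ra (M - 2 ^ a) ^ 3 * (qd (Nat.lcm χ.conductor χ'.conductor) (M - 2 ^ a) : ℝ) ^
            (-(1 / 3 : ℝ))) * vz X d T χ χ' := by
          simp only [mul_sum, sum_mul]
          rw [sum_comm]
          refine sum_congr rfl fun χ _ => ?_
          rw [sum_comm]
          refine sum_congr rfl fun χ' _ => sum_congr rfl fun a _ => ?_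
          rw [MA.gg, mul_assoc]
      _ ≤ ∑ χ ∈ CH N (X ^ ϑ), ∑ χ' ∈ CH N (X ^ ϑ),
          ((if od (Nat.lcm χ.conductor χ'.conductor) ≤ R then C1 else ε1) * L) *
            vz X d T χ χ' :=
          sum_le_sum fun χ _ => sum_le_sum fun χ' _ => mul_le_mul_of_nonneg_right
            (ha M a0 L _ (Nat.lcm_pos (Nat.pos_of_ne_zero χ.conductor_ne_zero)
              (Nat.pos_of_ne_zero χ'.conductor_ne_zero)) hL hM hM') (vz_nonneg hX0 d T χ χ')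
      _ = (∑ χ ∈ CH N (X ^ ϑ), ∑ χ' ∈ CH N (X ^ ϑ),
          (if od (Nat.lcm χ.conductor χ'.conductor) ≤ R then C1 else ε1) * vz X d T χ χ') * L := by
          simp only [sum_mul]
          exact sum_congr rfl fun χ _ => sum_congr rfl fun χ' _ => by ring
      _ ≤ (C1 * (A * (ε1 / C1)) + ε1 * A) * (2 + A) * L :=
          mul_le_mul_of_nonneg_right hsp (Nat.cast_nonneg _)
      _ = _ := by field_simp; ring
  have hL0 : (0 : ℝ) ≤ L := Nat.cast_nonneg _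
  calc _ ≤ ∑ a ∈ Ico a0 (a0 + L), (C * X * (ra (M - 2 ^ a) ^ 3 * ∑ χ ∈ CH N (X ^ ϑ),
        ∑ χ' ∈ CH N (X ^ ϑ), (MA.gg (M - 2 ^ a) χ χ' : ℝ) ^ (-(1 / 3 : ℝ)) * vz X d T χ χ') +
        ε / 2 * X) := by
        refine sum_le_sum fun a h => ?_
        refine (hp X hX N hN (M - 2 ^ a) (Nat.sub_pos_of_lt (hM a h))
          ((Nat.cast_le.2 (Nat.sub_le _ _)).trans hM')).trans ?_
        rw [← mul_assoc]
        exact add_le_add le_rfl (htail.trans (mul_le_mul_of_nonneg_right hs.le hX0.le))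
    _ = C * X * (∑ a ∈ Ico a0 (a0 + L), ra (M - 2 ^ a) ^ 3 * ∑ χ ∈ CH N (X ^ ϑ),
        ∑ χ' ∈ CH N (X ^ ϑ), (MA.gg (M - 2 ^ a) χ χ' : ℝ) ^ (-(1 / 3 : ℝ)) * vz X d T χ χ') +
        L * (ε / 2 * X) := by
        rw [sum_add_distrib, ← mul_sum, sum_const, Nat.card_Ico, Nat.add_sub_cancel_left,
          nsmul_eq_mul]
    _ ≤ C * X * (2 * ε1 * A * (2 + A) * L) + L * (ε / 2 * X) := by gcongr
    _ = ε * X * L := by
        rw [hε1]
        field_simp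
        ring

end Pool.Agent.Lib.MP_778b46_nt.GL
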