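import Pool.Agent.Lib.MP_778b46_nt.GL.A3
import Pool.Agent.Lib.MP_778b46_nt.GL.A4
import Pool.Agent.Lib.MP_778b46_nt.GL.A5
import Pool.Agent.Lib.MP_778b46_nt.GL.Za

/-!
The major arcs on average.
-/

set_option autoImplicit false

noncomputable section

namespace Pool.Agent.Lib.MP_778b46_nt.GL

open Finset MeasureTheory Filter
open Pool.Agent.Lib.MP_778b46_nt.MA (lp w1 a1S a1M cf cop R1 I0 RR)
open Pool.Agent.Lib.MP_778b46_nt.VA (ee nd)

theorem sp_eq (P : ℝ) (m : ℕ) : SP P m = (ST ⌊P⌋₊ m : ℝ) := by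
  rw [← st_neg]
  unfold SP ST
  generalize ⌊P⌋₊ = R
  rw [Complex.ofReal_sum, ← sum_filter_of_ne (p := fun q : ℕ => Squarefree q)]
  · symm
    have pr : ∀ S ∈ dd (Nat.primesLE R) R, ∀ l ∈ S, l.Prime := fun S hS l hl =>
      Nat.prime_of_mem_primesLE (mem_powerset.1 (mem_filter.1 hS).1 hl)
    have sq : ∀ S ∈ dd (Nat.primesLE R) R, Squarefree (∏ l ∈ S, l) := fun S hS =>
      Finset.squarefree_prod_of_pairwise_isCoprime
        (fun a ha b hb hab => Nat.coprime_iff_isRelPrime.1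
          ((Nat.coprime_primes (pr S hS a ha) (pr S hS b hb)).2 hab))
        fun l hl => (pr S hS l hl).prime.squarefree
    refine sum_bij' (fun S _ => ∏ l ∈ S, l) (fun q _ => q.primeFactors) ?_ ?_ ?_ ?_ ?_
    · intro S hS
      exact mem_filter.2 ⟨mem_Icc.2 ⟨Nat.pos_of_ne_zero (sq S hS).ne_zero,
        (mem_filter.1 hS).2⟩, sq S hS⟩
    · intro q hq
      obtain ⟨h1, h2⟩ := mem_filter.1 hq
      rw [mem_Icc] at h1
      refine mem_filter.2 ⟨mem_powerset.2 fun l hl => ?_, ?_⟩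
      · exact Nat.mem_primesLE.2 ⟨(Nat.le_of_mem_primeFactors hl).trans h1.2,
          Nat.prime_of_mem_primeFactors hl⟩
      · rw [Nat.prod_primeFactors_of_squarefree h2]; exact h1.2
    · intro S hS
      exact Nat.primeFactors_prod (pr S hS)
    · intro q hq
      exact Nat.prod_primeFactors_of_squarefree (mem_filter.1 hq).2
    · intro S hS
      rw [rho_prod S (pr S hS)]
      have t := tot_prod S (pr S hS)
      have mu : ((ArithmeticFunction.moebius (∏ l ∈ S, l) : ℤ) : ℂ) ^ 2 = 1 := by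
        exact_mod_cast ArithmeticFunction.moebius_sq_eq_one_of_squarefree (sq S hS)
      have t2 : ((∏ l ∈ S, uu l : ℝ) : ℂ) = (Nat.totient (∏ l ∈ S, l) : ℂ)⁻¹ := by
        refine eq_inv_of_mul_eq_one_right ?_
        exact_mod_cast t
      rw [div_pow, mu, Complex.ofReal_pow, t2, one_div, inv_pow]
      congr 1
      refine sum_congr rfl fun c _ => ?_
      change ee _ = ee _
      congr 1
      push_cast
      ring
  · intro q _ h
    by_contra hq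
    apply h
    rw [ArithmeticFunction.moebius_eq_zero_of_not_squarefree hq]
    simp

theorem m4_small {κ δ : ℝ} (hκ : 0 < κ) (hδ : 0 < δ) :
    ∀ᶠ X : ℝ in atTop, Real.log X * X ^ (1 - κ) ≤ δ * X := by
  filter_upwards [(isLittleO_log_rpow_atTop hκ).bound hδ, eventually_gt_atTop 0] with X h hX
  have e : X ^ κ * X ^ (1 - κ) = X := by
    rw [← Real.rpow_add hX]; simp
  have h1 : Real.log X ≤ δ * X ^ κ := by
    refine (le_abs_self _).trans (h.trans_eq ?_)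
    rw [Real.norm_of_nonneg (Real.rpow_nonneg hX.le _)]
  calc Real.log X * X ^ (1 - κ) ≤ δ * X ^ κ * X ^ (1 - κ) :=
        mul_le_mul_of_nonneg_right h1 (Real.rpow_nonneg hX.le _)
    _ = δ * X := by rw [mul_assoc, e]

theorem major_av {θ κ ε : ℝ} (h0 : 0 < θ) (h1 : θ < 5 / 12) (hκ : 0 < κ) (hε : 0 < ε) :
    ∃ k : ℝ, 0 < k ∧ k ≤ 1 / 12 ∧ ∀ᶠ X : ℝ in atTop, ∀ L : ℕ, Real.log X ≤ L →
      (2 : ℝ) ^ (L + 5) ≤ X ^ (1 - κ) → ∀ M : ℤ, 9 / 8 * X - 3 * 2 ^ (L + 5) ≤ M →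
        (M : ℝ) ≤ 9 / 8 * X →
        av L (fun m => |FC (fun x => (a1M X (X ^ θ) (X ^ θ * X ^ k) x : ℂ) *
          (a1S X x * a1S X x)) m - X * I2 * ST ⌊X ^ θ⌋₊ m|) M ≤ ε * X := by
  obtain ⟨k, k0, k1, H⟩ := maj h0 h1 (lt_min (half_pos hε) (by norm_num : (0 : ℝ) < 1 / 12))
  obtain ⟨C, C1, hC⟩ := abs_st_le
  obtain ⟨K, K0, hK⟩ := i0_near
  have k2 : k ≤ 1 / 12 := k1.trans (min_le_right _ _)
  refine ⟨k, k0, k2, ?_⟩
  have d0 : 0 < ε / 2 / (4 * (K + 1) * C) := by positivity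
  filter_upwards [H, m4_small hκ d0, m4_small hκ (by norm_num : (0 : ℝ) < 1 / 32),
    (tendsto_rpow_atTop h0).eventually_ge_atTop 2, eventually_ge_atTop 3,
    Real.tendsto_log_atTop.eventually_ge_atTop 1] with X H s1 s2 P2 X3 lg L hL hp M M1 M2
  have X0 : 0 < X := by linarith
  have X1 : 1 ≤ X := by linarith
  have r0 : 0 ≤ X ^ (1 - κ) := Real.rpow_nonneg X0.le _
  have r1 : X ^ (1 - κ) ≤ X / 32 := by nlinarith
  have L0 : (0 : ℝ) < L := by linarith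
  have M0 : (0 : ℝ) ≤ M := by linarith
  obtain ⟨N, rfl⟩ := Int.eq_ofNat_of_zero_le (Int.cast_nonneg_iff.1 M0)
  push_cast at M1 M2
  have p1 : ∀ j < L, (2 : ℝ) ^ (j + 5) ≤ X ^ (1 - κ) := fun j hj =>
    (pow_le_pow_right₀ one_le_two (by omega)).trans hp
  have p2 : ∀ j < L, 2 ^ (j + 5) < N := by
    intro j hj
    have : (2 : ℝ) ^ (j + 5) < N := by linarith [p1 j hj]
    exact_mod_cast this
  have H1 := H N 5 L hL (fun a ha => by
    obtain ⟨a1, a2⟩ := mem_Ico.1 ha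
    have := p2 (a - 5) (by omega)
    rwa [Nat.sub_add_cancel a1] at this) (by linarith)
  rw [sum_Ico_eq_sum_range, Nat.add_sub_cancel_left] at H1
  have Pk : 1 ≤ X ^ k := Real.one_le_rpow X1 k0.le
  have PH : X ^ θ ≤ X ^ θ * X ^ k := le_mul_of_one_le_right (by linarith) Pk
  have PX : X ^ θ * (X ^ θ * X ^ k) ≤ X := by
    rw [← Real.rpow_add X0, ← Real.rpow_add X0]
    exact (Real.rpow_le_rpow_of_exponent_le X1 (by linarith)).trans_eq (Real.rpow_one X)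
  have R2 : 2 ≤ ⌊X ^ θ⌋₊ := Nat.le_floor (by exact_mod_cast P2)
  have R3 : Real.log (⌊X ^ θ⌋₊ : ℕ) ≤ Real.log X := by
    refine Real.log_le_log (by exact_mod_cast (by omega : 0 < ⌊X ^ θ⌋₊)) ?_
    refine (Nat.floor_le (by linarith)).trans ?_
    exact (Real.rpow_le_rpow_of_exponent_le X1 (by linarith)).trans_eq (Real.rpow_one X)
  have key : ∀ j ∈ range L, |FC (fun x => (a1M X (X ^ θ) (X ^ θ * X ^ k) x : ℂ) *
      (a1S X x * a1S X x)) ((N : ℤ) - 2 ^ (j + 5)) - X * I2 * ST ⌊X ^ θ⌋₊ ((N : ℤ) - 2 ^ (j + 5))| ≤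
      ‖R1 X (X ^ θ) (X ^ θ * X ^ k) (N - 2 ^ (5 + j)) -
        X * I0 w1 (((N - 2 ^ (5 + j) : ℕ) : ℝ) / X) * SP (X ^ θ) (N - 2 ^ (5 + j))‖ +
        ε / 2 * X := by
    intro j hj
    rw [mem_range] at hj
    rw [add_comm 5 j]
    have e1 : (N : ℤ) - 2 ^ (j + 5) = ((N - 2 ^ (j + 5) : ℕ) : ℤ) := by
      rw [Nat.cast_sub (p2 j hj).le]; push_cast; rfl
    have e2 : ((N - 2 ^ (j + 5) : ℕ) : ℝ) = N - 2 ^ (j + 5) := by
      rw [Nat.cast_sub (p2 j hj).le]; push_cast; rfl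
    rw [e1, fc_major (by linarith) PH PX, sp_eq]
    have b1 := hK (((N - 2 ^ (j + 5) : ℕ) : ℝ) / X)
    have b2 := (hC _ R2 ((N - 2 ^ (j + 5) : ℕ) : ℤ)).trans
      (mul_le_mul_of_nonneg_left R3 (by linarith))
    have b3 : X * |((N - 2 ^ (j + 5) : ℕ) : ℝ) / X - 9 / 8| ≤ 4 * X ^ (1 - κ) := by
      rw [← abs_of_pos X0, ← abs_mul, abs_of_pos X0, mul_sub, mul_div_cancel₀ _ X0.ne', e2, abs_le]
      have : (0 : ℝ) < 2 ^ (j + 5) := by positivity
      constructor <;> linarith [p1 j hj]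
    generalize R1 X (X ^ θ) (X ^ θ * X ^ k) (N - 2 ^ (j + 5)) = z
    generalize ST ⌊X ^ θ⌋₊ ((N - 2 ^ (j + 5) : ℕ) : ℤ) = s at b2 ⊢
    generalize I0 w1 (((N - 2 ^ (j + 5) : ℕ) : ℝ) / X) = i at b1 ⊢
    generalize |((N - 2 ^ (j + 5) : ℕ) : ℝ) / X - 9 / 8| = u at b1 b3
    have c1 : |z.re - X * i * s| ≤ ‖z - X * i * s‖ := by
      refine le_trans (le_of_eq ?_) (Complex.abs_re_le_norm _)
      simp
    have c2 : X * |i - I2| ≤ (K + 1) * (4 * X ^ (1 - κ)) := by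
      have := mul_le_mul_of_nonneg_left b1 X0.le
      have := mul_le_mul_of_nonneg_left b3 K0
      nlinarith
    have c3 : |X * (i - I2) * s| ≤ ε / 2 * X := by
      rw [abs_mul, abs_mul, abs_of_pos X0]
      refine (mul_le_mul c2 b2 (abs_nonneg _) (by positivity)).trans ?_
      have c4 := mul_le_mul_of_nonneg_left s1 (by positivity : 0 ≤ 4 * (K + 1) * C)
      have c5 : 4 * (K + 1) * C * (ε / 2 / (4 * (K + 1) * C) * X) = ε / 2 * X := by
        field_simp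
      linarith
    calc |z.re - X * I2 * s| = |(z.re - X * i * s) + X * (i - I2) * s| := by congr 1; ring
      _ ≤ _ := (abs_add_le _ _).trans (add_le_add c1 c3)
  unfold av
  have t1 := sum_le_sum key
  rw [sum_add_distrib, sum_const, card_range, nsmul_eq_mul] at t1
  have t2 : min (ε / 2) (1 / 12) * X * L ≤ ε / 2 * X * L :=
    mul_le_mul_of_nonneg_right (mul_le_mul_of_nonneg_right (min_le_left _ _) X0.le) L0.le
  rw [inv_mul_le_iff₀ L0]
  linarith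

end Pool.Agent.Lib.MP_778b46_nt.GL
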