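import Pool.Agent.Lib.MP_778b46_nt.GL.Defs
import Pool.Agent.Lib.MP_778b46_nt.MA.O1

/-!
Decay of the smooth exponential sum.
-/

set_option autoImplicit false

noncomputable section

namespace Pool.Agent.Lib.MP_778b46_nt.GL

open Finset MeasureTheory Filter
open Pool.Agent.Lib.MP_778b46_nt.MA (lp w1 a1S a1M cf cop R1 I0 RR)
open Pool.Agent.Lib.MP_778b46_nt.VA (ee nd)
open scoped ContDiff

/-- Repeated summation by parts. -/
theorem p1_diff (β B : ℝ) (N j : ℕ) : ∀ (g : ℝ → ℂ) (M : ℕ), ContDiff ℝ ∞ g →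
    (∀ x, x < 0 → g x = 0) → (∀ x, (M : ℝ) ≤ x → g x = 0) → (∀ x, ‖iteratedDeriv j g x‖ ≤ B) →
    M + j ≤ N → ‖ee β - 1‖ ^ j * ‖∑ n ∈ range N, g n * ee (n * β)‖ ≤ N * B := by
  induction j with
  | zero =>
    intro g M _ _ _ hB _
    rw [pow_zero, one_mul]
    refine (norm_sum_le _ _).trans ((sum_le_card_nsmul _ _ B fun n _ => ?_).trans (le_of_eq ?_))
    · rw [norm_mul, VA.norm_ee, mul_one]
      simpa using hB n
    · rw [card_range, nsmul_eq_mul]
  | succ j ih =>
    intro g M hg h0 h1 hB hN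
    have hs : ContDiff ℝ ∞ fun x => g (x - 1) := hg.comp (contDiff_id.sub contDiff_const)
    have key := ih (fun x => g (x - 1) - g x) (M + 1) (hs.sub hg)
      (fun x hx => by rw [h0 x hx, h0 _ (by linarith), sub_zero])
      (fun x hx => by
        push_cast at hx
        rw [h1 x (by linarith), h1 _ (by linarith), sub_zero])
      (fun x => by
        rw [iteratedDeriv_fun_sub (hs.of_le (by exact_mod_cast le_top)).contDiffAt
          (hg.of_le (by exact_mod_cast le_top)).contDiffAt, iteratedDeriv_comp_sub_const]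
        have e := Convex.norm_image_sub_le_of_norm_deriv_le (f := iteratedDeriv j g) (C := B)
          (s := Set.univ) (x := x) (y := x - 1)
          (fun y _ => hg.differentiable_iteratedDeriv j (by exact_mod_cast ENat.natCast_lt_top j) y)
          (fun y _ => by rw [← iteratedDeriv_succ]; exact hB y) convex_univ trivial trivial
        simpa using e) (by omega)
    have e : ∑ n ∈ range N, (g (n - 1) - g n) * ee (n * β) =
        (ee β - 1) * ∑ n ∈ range N, g n * ee (n * β) := by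
      obtain ⟨K, rfl⟩ : ∃ K, N = K + 1 := ⟨N - 1, by omega⟩
      have hK : (M : ℝ) ≤ K := by exact_mod_cast (show M ≤ K by omega)
      simp only [sub_mul, sum_sub_distrib, one_mul]
      congr 1
      rw [sum_range_succ', sum_range_succ, h1 K hK, h0 _ (by simp), zero_mul, zero_mul, add_zero,
        add_zero, mul_sum]
      refine sum_congr rfl fun n _ => ?_
      push_cast
      rw [add_sub_cancel_right, add_mul, one_mul, VA.ee_add]
      ring
    rw [e, norm_mul] at key
    rw [pow_succ, mul_assoc]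
    exact key

theorem t_decay (j : ℕ) : ∃ C : ℝ, 0 ≤ C ∧ ∀ X β : ℝ, 1 ≤ X → 0 < nd β →
    ‖∑ n ∈ Icc 1 ⌊X⌋₊, (w1 (n / X) : ℂ) * ee (n * β)‖ ≤ C * X / (X * nd β) ^ j := by
  have hw : ContDiff ℝ ∞ fun x => (w1 x : ℂ) := Complex.ofRealCLM.contDiff.comp MA.wt_w1.smooth
  obtain ⟨B, hB⟩ := MP_03e5d0_nt.exists_sm (a := 0) (b := 1) j hw fun y hy => by
    rw [MA.a1_w1_zero (hy.imp le_of_lt le_of_lt), Complex.ofReal_zero]
  have hB0 := hB.nonneg
  refine ⟨(2 + j) * B, by positivity, fun X β hX hβ => ?_⟩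
  have hX0 : 0 < X := by linarith
  have key := p1_diff β (B / X ^ j) (⌊X⌋₊ + 1 + j) j (fun x => (w1 (X⁻¹ * x) : ℂ)) (⌊X⌋₊ + 1)
    (hw.comp (contDiff_const.mul contDiff_id))
    (fun x hx => by
      rw [MA.a1_w1_zero (Or.inl (mul_nonpos_of_nonneg_of_nonpos (by positivity) hx.le)),
        Complex.ofReal_zero])
    (fun x hx => by
      have h1 := Nat.lt_floor_add_one X
      push_cast at hx
      rw [MA.a1_w1_zero (Or.inr ?_), Complex.ofReal_zero]
      rw [← div_eq_inv_mul, one_le_div hX0]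
      linarith)
    (fun x => by
      rw [iteratedDeriv_comp_const_smul (f := fun x => (w1 x : ℂ))
        (hw.of_le (by exact_mod_cast le_top))]
      simp only [norm_smul, norm_pow, norm_inv, Real.norm_of_nonneg hX0.le]
      rw [div_eq_inv_mul, inv_pow]
      exact mul_le_mul_of_nonneg_left (hB.bd j le_rfl _) (by positivity)) le_rfl
  have e : ∑ n ∈ Icc 1 ⌊X⌋₊, (w1 (n / X) : ℂ) * ee (n * β) =
      ∑ n ∈ range (⌊X⌋₊ + 1 + j), (w1 (X⁻¹ * n) : ℂ) * ee (n * β) := by
    simp only [div_eq_inv_mul]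
    refine sum_subset (fun n hn => ?_) fun n _ hn => ?_
    · rw [mem_Icc] at hn
      rw [mem_range]
      omega
    · rw [mem_Icc, not_and_or, not_le, not_le] at hn
      rw [MA.a1_w1_zero, Complex.ofReal_zero, zero_mul]
      refine hn.imp (fun k => ?_) fun k => ?_
      · simp [show n = 0 by omega]
      · rw [← div_eq_inv_mul, one_le_div hX0]
        exact ((Nat.floor_lt hX0.le).1 k).le
  rw [e, le_div_iff₀ (by positivity)]
  have hS := norm_nonneg (∑ n ∈ range (⌊X⌋₊ + 1 + j), (w1 (X⁻¹ * n) : ℂ) * ee (n * β))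
  generalize ‖∑ n ∈ range (⌊X⌋₊ + 1 + j), (w1 (X⁻¹ * n) : ℂ) * ee (n * β)‖ = S at key hS ⊢
  have a1 : nd β ^ j ≤ ‖ee β - 1‖ ^ j :=
    pow_le_pow_left₀ hβ.le (by linarith [VA.norm_ee_sub_one β]) j
  have a2 : ((⌊X⌋₊ + 1 + j : ℕ) : ℝ) ≤ (2 + j) * X := by
    have h1 := Nat.floor_le hX0.le
    have h2 : (j : ℝ) * 1 ≤ j * X := mul_le_mul_of_nonneg_left hX (Nat.cast_nonneg j)
    push_cast
    linarith
  have a3 := ((mul_le_mul_of_nonneg_right a1 hS).trans key).trans
    (mul_le_mul_of_nonneg_right a2 (by positivity))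
  rw [← mul_div_assoc, le_div_iff₀ (by positivity)] at a3
  rw [mul_pow]
  linarith

end Pool.Agent.Lib.MP_778b46_nt.GL
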