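import Pool.Agent.Lib.MP_778b46_nt.GL.A4
import Pool.Agent.Lib.MP_778b46_nt.GL.A5
import Pool.Agent.Lib.MP_778b46_nt.MA.LVa

/-!
The correlations of the model.
-/

set_option autoImplicit false

noncomputable section

namespace Pool.Agent.Lib.MP_778b46_nt.GL

open Finset MeasureTheory Filter
open Pool.Agent.Lib.MP_778b46_nt.MA (lp w1 a1S a1M cf cop R1 I0 RR)
open Pool.Agent.Lib.MP_778b46_nt.VA (ee nd)

theorem p3_abs_ps {l : ℕ} (hl : l.Prime) (t : ℤ) : ∑ z ∈ range l, |ps l (z + t)| = 2 := by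
  have h : ∀ z : ℕ, |ps l (z + t)| = uu l + if (l : ℤ) ∣ (z : ℤ) + t then 1 - uu l else 0 := by
    intro z
    unfold ps
    split_ifs
    · simp
    · rw [abs_of_pos (uu_pos hl), add_zero]
  simp only [h]
  rw [sum_add_distrib, sum_ite_dvd hl.pos, sum_const, card_range, nsmul_eq_mul, mul_uu hl]
  ring

theorem p3_ortho {P : Finset ℕ} (hP : ∀ l ∈ P, l.Prime) {U W : Finset ℕ} (hU : U ⊆ P)
    (hW : W ⊆ P) (t t' y : ℤ) (N : ℕ) :
    |∑ s ∈ Ioc y (y + N), (∏ l ∈ U, ps l (s + t)) * ∏ l ∈ W, ps l (s + t')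
      - N * if U = W then ∏ l ∈ U, rho l (t - t') else 0|
      ≤ (2 : ℝ) ^ U.card * 2 ^ W.card := by
  have hV : ∀ l ∈ U ∪ W, l.Prime := fun l hl => hP l (union_subset hU hW hl)
  have h := sum_prod_periodic
    (fun l s => (if l ∈ U then ps l (s + t) else 1) * (if l ∈ W then ps l (s + t') else 1))
    (fun l s s' hs => by simp only [ps_congr hs]) y N (U ∪ W) hV
  have e1 : ∀ s : ℤ, ∏ l ∈ U ∪ W,
      ((if l ∈ U then ps l (s + t) else 1) * (if l ∈ W then ps l (s + t') else 1))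
      = (∏ l ∈ U, ps l (s + t)) * ∏ l ∈ W, ps l (s + t') := by
    intro s
    rw [prod_mul_distrib, ← prod_eq_prod_ite subset_union_left,
      ← prod_eq_prod_ite subset_union_right]
  have e2 : ∏ l ∈ U ∪ W, ((∑ z ∈ range l,
      (if l ∈ U then ps l (z + t) else 1) * (if l ∈ W then ps l (z + t') else 1)) / l)
      = if U = W then ∏ l ∈ U, rho l (t - t') else 0 := by
    split_ifs with hUW
    · subst hUW
      rw [union_self]
      refine prod_congr rfl fun l hl => ?_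
      have : (l : ℝ) ≠ 0 := by exact_mod_cast (hP l (hU hl)).ne_zero
      simp only [if_pos hl]
      rw [sum_ps_mul (hP l (hU hl))]; field_simp
    · have : ∃ l, ¬ (l ∈ U ↔ l ∈ W) := by
        by_contra hcon
        push Not at hcon
        exact hUW (Finset.ext hcon)
      obtain ⟨l, hl⟩ := this
      have hlV : l ∈ U ∪ W := by rw [mem_union]; tauto
      refine prod_eq_zero hlV ?_
      by_cases h1 : l ∈ U
      · have h2 : l ∉ W := by tauto
        simp only [if_pos h1, if_neg h2, mul_one]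
        rw [sum_ps (hV l hlV), zero_div]
      · have h2 : l ∈ W := by tauto
        simp only [if_neg h1, if_pos h2, one_mul]
        rw [sum_ps (hV l hlV), zero_div]
  simp only [e1, e2] at h
  refine h.trans ?_
  calc _ ≤ ∏ _l ∈ U ∪ W, (2 : ℝ) := by
        refine prod_le_prod (fun l _ => sum_nonneg fun z _ => abs_nonneg _) fun l hl => ?_
        by_cases h1 : l ∈ U
        · rw [← p3_abs_ps (hV l hl) t]
          refine sum_le_sum fun z _ => ?_
          rw [abs_mul, if_pos h1]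
          refine mul_le_of_le_one_right (abs_nonneg _) ?_
          have h2 := abs_ps_le (hV l hl) (z + t')
          split_ifs <;> simp [h2]
        · have h2 : l ∈ W := (mem_union.mp hl).resolve_left h1
          rw [← p3_abs_ps (hV l hl) t']
          refine sum_le_sum fun z _ => ?_
          rw [if_neg h1, if_pos h2, one_mul]
    _ ≤ _ := by
        rw [prod_const, ← pow_add]
        exact pow_le_pow_right₀ (by norm_num) (card_union_le _ _)

theorem p3_tau (S : Finset ℕ) (hS : ∀ l ∈ S, l.Prime) :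
    (2 : ℝ) ^ S.card ≤ ((∏ l ∈ S, l).divisors.card : ℝ) := by
  have h0 : (∏ l ∈ S, l) ≠ 0 := prod_ne_zero_iff.mpr fun l hl => (hS l hl).ne_zero
  have h1 : 2 ^ S.card ≤ (∏ l ∈ S, l).divisors.card := by
    rw [Nat.card_divisors h0, Nat.primeFactors_prod hS, ← prod_const]
    refine prod_le_prod' fun l hl => ?_
    have := (hS l hl).factorization_pos_of_dvd h0 (dvd_prod_of_mem (fun l => l) hl)
    omega
  exact_mod_cast h1

theorem p3_tau_sum (R : ℕ) :
    ∑ d ∈ Icc 1 R, (d.divisors.card : ℝ) ≤ R * (1 + Real.log R) := by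
  have e : Icc 1 R = Ioc 0 R := by ext; simp [Nat.succ_le_iff]
  have h1 : ∑ d ∈ Icc 1 R, (d.divisors.card : ℝ) =
      ∑ d ∈ Ioc 0 R, ∑ e ∈ Icc 1 R, if e ∣ d then (1 : ℝ) else 0 := by
    rw [e]
    refine sum_congr rfl fun d hd => ?_
    rw [← sum_filter, sum_const, nsmul_eq_mul, mul_one]
    congr 2
    obtain ⟨hd0, hdR⟩ := mem_Ioc.mp hd
    ext k
    simp only [Nat.mem_divisors, mem_filter, mem_Ioc]
    constructor
    · rintro ⟨h2, -⟩
      exact ⟨⟨Nat.pos_of_dvd_of_pos h2 hd0, (Nat.le_of_dvd hd0 h2).trans hdR⟩, h2⟩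
    · rintro ⟨-, h2⟩
      exact ⟨h2, hd0.ne'⟩
  rw [h1, sum_comm]
  have h2 : (harmonic R : ℝ) ≤ 1 + Real.log R := harmonic_le_one_add_log R
  have h3 : (harmonic R : ℝ) = ∑ e ∈ Icc 1 R, (e : ℝ)⁻¹ := by
    rw [harmonic_eq_sum_Icc]; push_cast; rfl
  calc _ ≤ ∑ e ∈ Icc 1 R, (R : ℝ) * (e : ℝ)⁻¹ := by
        refine sum_le_sum fun k _ => ?_
        rw [← sum_filter, sum_const, Nat.Ioc_filter_dvd_card_eq_div, nsmul_eq_mul, mul_one,
          ← div_eq_mul_inv]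
        exact Nat.cast_div_le
    _ ≤ _ := by
        rw [← mul_sum, ← h3]
        gcongr

theorem sig_ortho {P : Finset ℕ} (hP : ∀ l ∈ P, l.Prime) (R : ℕ) (h y : ℤ) (N : ℕ) :
    |∑ s ∈ Ioc y (y + N), sig P R s * sig P R (s + h) - N * ∑ S ∈ dd P R, ∏ l ∈ S, rho l h| ≤
      (R * (1 + Real.log R)) ^ 2 := by
  have hr : ∀ l : ℕ, rho l (0 - h) = rho l h := by
    intro l
    unfold rho
    simp only [zero_sub, dvd_neg]
  have e1 : ∑ s ∈ Ioc y (y + N), sig P R s * sig P R (s + h) = ∑ U ∈ dd P R, ∑ W ∈ dd P R,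
      ∑ s ∈ Ioc y (y + N), (∏ l ∈ U, ps l (s + 0)) * ∏ l ∈ W, ps l (s + h) := by
    simp only [sig, sum_mul_sum, add_zero]
    rw [sum_comm]
    refine sum_congr rfl fun U _ => ?_
    rw [sum_comm]
  have e2 : (N : ℝ) * ∑ S ∈ dd P R, ∏ l ∈ S, rho l h = ∑ U ∈ dd P R, ∑ W ∈ dd P R,
      (N : ℝ) * if U = W then ∏ l ∈ U, rho l (0 - h) else 0 := by
    rw [mul_sum]
    refine sum_congr rfl fun U hU => ?_
    rw [← mul_sum, sum_ite_eq, if_pos hU]
    simp only [hr]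
  have h2 : ∑ U ∈ dd P R, (2 : ℝ) ^ U.card ≤ R * (1 + Real.log R) := by
    refine le_trans ?_ ((sum_dd_le hP R (f := fun d => (d.divisors.card : ℝ))
      fun d => Nat.cast_nonneg _).trans (p3_tau_sum R))
    exact sum_le_sum fun U hU => p3_tau U fun l hl => hP l (subset_of_mem_dd hU hl)
  have h3 : 0 ≤ ∑ U ∈ dd P R, (2 : ℝ) ^ U.card := sum_nonneg fun _ _ => by positivity
  rw [e1, e2, ← sum_sub_distrib]
  calc _ ≤ ∑ U ∈ dd P R, ∑ W ∈ dd P R, (2 : ℝ) ^ U.card * 2 ^ W.card := by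
        refine (abs_sum_le_sum_abs _ _).trans (sum_le_sum fun U hU => ?_)
        rw [← sum_sub_distrib]
        refine (abs_sum_le_sum_abs _ _).trans (sum_le_sum fun W hW => ?_)
        exact p3_ortho hP (subset_of_mem_dd hU) (subset_of_mem_dd hW) 0 h y N
    _ = (∑ U ∈ dd P R, (2 : ℝ) ^ U.card) ^ 2 := by rw [sq, sum_mul_sum]
    _ ≤ _ := by gcongr

theorem p3_abel (a g : ℕ → ℝ) (N : ℕ) {B : ℝ}
    (hB : ∀ M, M ≤ N → |∑ k ∈ Ioc 0 M, a k| ≤ B) :
    |∑ k ∈ Ioc 0 N, g k * a k| ≤ B * (|g (N + 1)| + ∑ k ∈ Ioc 0 N, |g k - g (k + 1)|) := by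
  have h := MA.abel_le (fun k => (a k : ℂ)) (fun k => (g k : ℂ)) (Nat.zero_le N) (B := B)
    (fun M _ hM => by
      rw [← Complex.ofReal_sum, Complex.norm_real, Real.norm_eq_abs]; exact hB M hM)
  simp only [← Complex.ofReal_mul, ← Complex.ofReal_sub, ← Complex.ofReal_sum, Complex.norm_real,
    Real.norm_eq_abs] at h
  exact h

theorem p3_nat (R h M : ℕ) :
    |∑ k ∈ Ioc 0 M, (lm R k * lm R (k + h) - ST R h)| ≤ (R * (1 + Real.log R)) ^ 2 := by
  have h1 := sig_ortho (P := Nat.primesLE R) (fun l hl => Nat.prime_of_mem_primesLE hl) R h 0 M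
  have e : ∑ s ∈ Ioc (0 : ℤ) (0 + M), sig (Nat.primesLE R) R s * sig (Nat.primesLE R) R (s + h)
      = ∑ k ∈ Ioc 0 M, lm R k * lm R (k + h) := by
    symm
    refine sum_bij (fun k _ => (k : ℤ)) ?_ ?_ ?_ ?_
    · intro k hk
      simp only [mem_Ioc] at hk ⊢
      omega
    · intro a _ b _ hab
      exact_mod_cast hab
    · intro s hs
      simp only [mem_Ioc] at hs
      exact ⟨s.toNat, by simp only [mem_Ioc]; omega, by omega⟩
    · intro k _
      simp only [lm]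
      push_cast
      rfl
  rw [e] at h1
  rw [sum_sub_distrib, sum_const, Nat.card_Ioc, nsmul_eq_mul, Nat.sub_zero]
  exact h1

theorem vv_corr {ε : ℝ} (hε : 0 < ε) : ∀ᶠ X : ℝ in atTop, ∀ R h : ℕ, 2 ≤ R →
    (R : ℝ) ≤ X ^ (5 / 12 : ℝ) →
    |∑ n ∈ Icc 1 ⌊X⌋₊, w1 (n / X) ^ 2 * (lm R n * lm R (n + h)) - X * I2 * ST R h| ≤
      ε * X := by
  obtain ⟨K, hK0, hK⟩ := MA.a1_lip
  obtain ⟨C, hC1, hC⟩ := abs_st_le
  obtain ⟨D, hD⟩ := sum_w2
  have hD0 : 0 ≤ D := (abs_nonneg _).trans (hD 1 le_rfl)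
  set A : ℝ := 4 * (1 + 2 * K) + D * C + 1 with hA
  have hA0 : 0 < A := by positivity
  have hlo := (isLittleO_log_rpow_rpow_atTop (2 : ℝ) (s := 1 / 6) (by norm_num)).bound
    (c := ε / A) (by positivity)
  filter_upwards [hlo, eventually_ge_atTop (3 : ℝ)] with X hX hX3 R h hR2 hRX
  have hX0 : 0 < X := by linarith
  have hX1 : 1 ≤ X := by linarith
  have hl1 : 1 ≤ Real.log X := by
    rw [Real.le_log_iff_exp_le hX0]
    exact Real.exp_one_lt_three.le.trans hX3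
  have hR0 : (0 : ℝ) < R := by exact_mod_cast (by omega : 0 < R)
  have hRX1 : (R : ℝ) ≤ X := hRX.trans (by
    simpa using Real.rpow_le_rpow_of_exponent_le hX1 (by norm_num : (5 / 12 : ℝ) ≤ 1))
  have hlR : Real.log R ≤ Real.log X := Real.log_le_log hR0 hRX1
  have hlR0 : 0 ≤ Real.log R := Real.log_natCast_nonneg R
  rw [Real.norm_eq_abs, Real.norm_eq_abs, Real.rpow_two, abs_of_nonneg (sq_nonneg _),
    abs_of_nonneg (Real.rpow_nonneg hX0.le _)] at hX
  have e : Icc 1 ⌊X⌋₊ = Ioc 0 ⌊X⌋₊ := by ext; simp [Nat.succ_le_iff]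
  have h1 := p3_abel (fun k => lm R k * lm R (k + h) - ST R h) (fun k => w1 (k / X) ^ 2) ⌊X⌋₊
    (fun M _ => p3_nat R h M)
  have h2 : |w1 (((⌊X⌋₊ + 1 : ℕ) : ℝ) / X) ^ 2| ≤ 1 := by
    rw [abs_of_nonneg (sq_nonneg _)]
    exact pow_le_one₀ (MA.w1_mem _).1 (MA.w1_mem _).2
  have h3 : ∑ k ∈ Ioc 0 ⌊X⌋₊, |w1 ((k : ℝ) / X) ^ 2 - w1 (((k + 1 : ℕ) : ℝ) / X) ^ 2| ≤ 2 * K := by
    calc _ ≤ ∑ _k ∈ Ioc 0 ⌊X⌋₊, 2 * K / X := by
          refine sum_le_sum fun k _ => ?_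
          have h4 := hK ((k : ℝ) / X) (((k + 1 : ℕ) : ℝ) / X)
          have h5 : |(k : ℝ) / X - ((k + 1 : ℕ) : ℝ) / X| = 1 / X := by
            rw [← sub_div, abs_div, abs_of_pos hX0]
            push_cast
            simp
          rw [h5] at h4
          have h6 := MA.w1_mem ((k : ℝ) / X)
          have h7 := MA.w1_mem (((k + 1 : ℕ) : ℝ) / X)
          rw [sq_sub_sq, abs_mul, abs_of_nonneg (add_nonneg h6.1 h7.1)]
          calc _ ≤ 2 * (K * (1 / X)) := by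
                refine mul_le_mul (by linarith [h6.2, h7.2]) h4 (abs_nonneg _) (by norm_num)
            _ = _ := by ring
      _ ≤ 2 * K := by
          rw [sum_const, Nat.card_Ioc, nsmul_eq_mul, Nat.sub_zero]
          calc _ ≤ X * (2 * K / X) := by
                gcongr
                exact Nat.floor_le hX0.le
            _ = _ := by field_simp
  have h4 : ((R : ℝ) * (1 + Real.log R)) ^ 2 ≤ 4 * (X ^ (5 / 6 : ℝ) * Real.log X ^ 2) := by
    have h5 : (R : ℝ) ^ 2 ≤ X ^ (5 / 6 : ℝ) := by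
      calc _ ≤ (X ^ (5 / 12 : ℝ)) ^ 2 := by gcongr
        _ = _ := by rw [← Real.rpow_natCast, ← Real.rpow_mul hX0.le]; norm_num
    calc _ = (R : ℝ) ^ 2 * (1 + Real.log R) ^ 2 := by ring
      _ ≤ X ^ (5 / 6 : ℝ) * (2 * Real.log X) ^ 2 := by
          gcongr
          linarith
      _ = _ := by ring
  have h5 : 1 ≤ X ^ (5 / 6 : ℝ) := Real.one_le_rpow hX1 (by norm_num)
  set T : ℝ := X ^ (5 / 6 : ℝ) * Real.log X ^ 2 with hT
  have hT1 : Real.log X ≤ T := by nlinarith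
  have hT2 : A * T ≤ ε * X := by
    have h6 : X ^ (5 / 6 : ℝ) * X ^ (1 / 6 : ℝ) = X := by
      rw [← Real.rpow_add hX0]; norm_num
    calc A * T ≤ A * (X ^ (5 / 6 : ℝ) * (ε / A * X ^ (1 / 6 : ℝ))) := by
          rw [hT]; gcongr
      _ = ε * (X ^ (5 / 6 : ℝ) * X ^ (1 / 6 : ℝ)) := by field_simp
      _ = _ := by rw [h6]
  have h6 : |ST R h| ≤ C * T := (hC R hR2 h).trans (by gcongr; linarith)
  have h7 := hD X hX1
  have e2 : ∑ n ∈ Icc 1 ⌊X⌋₊, w1 (n / X) ^ 2 * (lm R n * lm R (n + h)) - X * I2 * ST R h =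
      ∑ k ∈ Ioc 0 ⌊X⌋₊, w1 (k / X) ^ 2 * (lm R k * lm R (k + h) - ST R h) +
        (∑ n ∈ Icc 1 ⌊X⌋₊, w1 (n / X) ^ 2 - X * I2) * ST R h := by
    rw [e, sub_mul, sum_mul]
    simp only [mul_sub, sum_sub_distrib]
    ring
  rw [e2]
  refine (abs_add_le _ _).trans ?_
  have hT0 : 0 ≤ T := by linarith
  have h8 : |∑ k ∈ Ioc 0 ⌊X⌋₊, w1 (k / X) ^ 2 * (lm R k * lm R (k + h) - ST R h)| ≤
      4 * T * (1 + 2 * K) := by
    refine h1.trans ?_
    refine mul_le_mul h4 (add_le_add h2 h3) ?_ (by positivity)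
    exact add_nonneg (abs_nonneg _) (sum_nonneg fun _ _ => abs_nonneg _)
  have h9 : |(∑ n ∈ Icc 1 ⌊X⌋₊, w1 (n / X) ^ 2 - X * I2) * ST R h| ≤ D * (C * T) := by
    rw [abs_mul]
    exact mul_le_mul h7 h6 (abs_nonneg _) hD0
  have : A * T = 4 * T * (1 + 2 * K) + D * (C * T) + T := by rw [hA]; ring
  linarith

end Pool.Agent.Lib.MP_778b46_nt.GL
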