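import Pool.Agent.Lib.MP_778b46_nt.GL.B7

/-!
The correlations of the primes with the model.
-/

set_option autoImplicit false

noncomputable section

namespace Pool.Agent.Lib.MP_778b46_nt.GL

open Finset MeasureTheory Filter
open Pool.Agent.Lib.MP_778b46_nt.MA (lp w1 a1S a1M cf cop R1 I0 RR)
open Pool.Agent.Lib.MP_778b46_nt.VA (ee nd)

theorem p4_swap {P : Finset ℕ} (hP : ∀ l ∈ P, l.Prime) (R : ℕ) {g : Finset ℕ → ℝ}
    (hg : ∀ B, 0 ≤ g B) : ∑ S ∈ dd P R, ∑ B ∈ S.powerset, (∏ l ∈ S \ B, uu l) * g B ≤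
      mert P * ∑ B ∈ dd P R, g B := by
  rw [sum_comm' (t' := dd P R) (s' := fun B => (dd P R).filter (B ⊆ ·)) (fun S B => by
    simp only [mem_powerset, mem_filter]
    refine ⟨fun h => ⟨h, mem_filter.2 ⟨mem_powerset.2 (h.2.trans (subset_of_mem_dd h.1)),
      (prod_le_prod_of_subset_of_one_le' h.2 fun l hl _ =>
        (hP l (subset_of_mem_dd h.1 hl)).one_le).trans (mem_filter.1 h.1).2⟩⟩, fun h => h.1⟩),
    mul_sum]
  refine sum_le_sum fun B _ => ?_
  rw [← sum_mul]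
  refine mul_le_mul_of_nonneg_right ?_ (hg B)
  rw [mert, prod_one_add, ← sum_image (s := (dd P R).filter (B ⊆ ·)) (g := fun S => S \ B)
    (f := fun T => ∏ l ∈ T, uu l) fun S hS T hT h => by
      rw [← sdiff_union_of_subset (mem_filter.1 hS).2, ← sdiff_union_of_subset (mem_filter.1 hT).2]
      exact congrArg (· ∪ B) h]
  refine sum_le_sum_of_subset_of_nonneg (fun T hT => ?_) fun T hT _ =>
    prod_nonneg fun l hl => (uu_pos (hP l (mem_powerset.1 hT hl))).le
  obtain ⟨S, hS, rfl⟩ := mem_image.1 hT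
  exact mem_powerset.2 (sdiff_subset.trans (subset_of_mem_dd (mem_filter.1 hS).1))

theorem p4_le {P : Finset ℕ} (hP : ∀ l ∈ P, l.Prime) (X : ℝ) (R : ℕ) (h : ℤ) :
    |∑ n ∈ Icc 1 ⌊X⌋₊, pw X n * sig P R (n + h) - X * I2 * ∑ S ∈ dd P R, ∏ l ∈ S, rho l h| ≤
      mert P * ∑ B ∈ dd P R, 6 ^ B.card * DS X (∏ l ∈ B, l) h := by
  have d0 : ∀ d, 0 ≤ DS X d h := fun d => abs_nonneg _
  refine le_trans ?_ (p4_swap hP R fun B => mul_nonneg (by positivity) (d0 _))
  simp only [sig, mul_sum]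
  rw [sum_comm, ← sum_sub_distrib]
  refine (abs_sum_le_sum_abs _ _).trans (sum_le_sum fun S hS => ?_)
  have hS' : ∀ l ∈ S, l.Prime := fun l hl => hP l (subset_of_mem_dd hS hl)
  have h1 := eq_prod X h S hS' uu fun l => -(1 + uu l)
  have e1 : ∀ (n : ℤ) (l : ℕ), (uu l + if (l : ℤ) ∣ n then -(1 + uu l) else 0) = ps l n := by
    intro n l; unfold ps; split_ifs <;> ring
  have e2 : ∀ l : ℕ, (uu l + if (l : ℤ) ∣ h then 0 else -(1 + uu l) * uu l) = rho l h := by
    intro l; unfold rho; split_ifs <;> ring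
  simp only [e1, e2] at h1
  refine h1.trans (sum_le_sum fun B hB => ?_)
  rw [mul_assoc, prod_congr rfl fun l hl => abs_of_pos (uu_pos (hS' l (sdiff_subset hl)))]
  refine mul_le_mul_of_nonneg_left (mul_le_mul_of_nonneg_right ?_ (d0 _))
    (prod_nonneg fun l hl => (uu_pos (hS' l (sdiff_subset hl))).le)
  rw [← prod_const]
  refine prod_le_prod (fun _ _ => abs_nonneg _) fun l hl => ?_
  have h2 := uu_pos (hS' l (mem_powerset.1 hB hl))
  have h3 := uu_le_one (hS' l (mem_powerset.1 hB hl))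
  rw [abs_le]; constructor <;> linarith

theorem cr_corr {ε : ℝ} (hε : 0 < ε) : ∀ᶠ X : ℝ in atTop, ∀ (R : ℕ) (h : ℤ), 2 ≤ R →
    (R : ℝ) ≤ X ^ (5 / 12 : ℝ) →
    |∑ n ∈ Icc 1 ⌊X⌋₊, pw X n * sig (Nat.primesLE R) R (n + h) - X * I2 * ST R h| ≤
      ε * X := by
  obtain ⟨C, hC, hm⟩ := mert_le
  filter_upwards [bvw (κ := 1 / 12) (by norm_num) 2, eventually_gt_atTop 1,
    Real.tendsto_log_atTop.eventually_ge_atTop (C / ε)] with X hb h1 hl R h hR hRX
  have hP : ∀ l ∈ Nat.primesLE R, l.Prime := fun l hl => Nat.prime_of_mem_primesLE hl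
  have h2 := hb _ R h hP (by norm_num; exact hRX)
  have h3 : (R : ℝ) ≤ X := hRX.trans (by
    simpa using Real.rpow_le_rpow_of_exponent_le h1.le (show (5 / 12 : ℝ) ≤ 1 by norm_num))
  have h4 : mert (Nat.primesLE R) ≤ C * Real.log X := (hm R hR _ subset_rfl).trans
    (mul_le_mul_of_nonneg_left (Real.log_le_log (by positivity) h3) (by linarith))
  have h5 := Real.log_pos h1
  refine (p4_le hP X R h).trans ((mul_le_mul h4 h2 (sum_nonneg fun B _ =>
    mul_nonneg (by positivity) (abs_nonneg _)) (by positivity)).trans ?_)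
  rw [div_le_iff₀' hε] at hl
  rw [show C * Real.log X * (X / Real.log X ^ 2) = C / Real.log X * X by field_simp]
  exact mul_le_mul_of_nonneg_right ((div_le_iff₀ h5).2 hl) (by linarith)

end Pool.Agent.Lib.MP_778b46_nt.GL
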