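import Pool.Agent.Lib.MP_778b46_nt.GL.P3
import Pool.Agent.Lib.MP_778b46_nt.GL.P4

/-!
The correlations of the difference.
-/

set_option autoImplicit false

noncomputable section

namespace Pool.Agent.Lib.MP_778b46_nt.GL

open Finset MeasureTheory Filter
open Pool.Agent.Lib.MP_778b46_nt.MA (lp w1 a1S a1M cf cop R1 I0 RR)
open Pool.Agent.Lib.MP_778b46_nt.VA (ee nd)

theorem p5_pt {a a' m m' w w' B δ : ℝ} (ha : |a| ≤ B) (ha' : |a'| ≤ B) (hm : |m| ≤ B)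
    (hm' : |m'| ≤ B) (hw : 0 ≤ w ∧ w ≤ 1) (hw' : 0 ≤ w' ∧ w' ≤ 1) (hd : |w - w'| ≤ δ) :
    (a - m) * w * ((a' - m') * w') ≤
      a * w ^ 2 * a' - a * w ^ 2 * m' - a' * w' ^ 2 * m + w ^ 2 * (m * m') + 4 * δ * B ^ 2 := by
  have hB : 0 ≤ B := (abs_nonneg _).trans ha
  have hδ : 0 ≤ δ := (abs_nonneg _).trans hd
  have k : ∀ {x y z : ℝ}, 0 ≤ z ∧ z ≤ 1 → |x| ≤ B → |y| ≤ B →
      |z * (w - w') * (x * y)| ≤ δ * B ^ 2 := by
    intro x y z hz hx hy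
    rw [abs_mul, abs_mul, abs_mul, abs_of_nonneg hz.1, sq]
    refine mul_le_mul ?_ (mul_le_mul hx hy (abs_nonneg _) hB) (by positivity) hδ
    exact (mul_le_of_le_one_left (abs_nonneg _) hz.2).trans hd
  have k1 := abs_le.1 (k hw ha ha')
  have k2 := abs_le.1 (k hw ha hm')
  have k3 := abs_le.1 (k hw hm hm')
  have k4 := abs_le.1 (k hw' hm ha')
  nlinarith [k1.1, k2.2, k3.1, k4.1]

theorem p5_lp {e : ℝ} (he : 0 < e) {X : ℝ} (hX : 0 ≤ X) {n : ℕ} (hn : (n : ℝ) ≤ 2 * X) :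
    |lp n| ≤ 2 ^ e / e * X ^ e := by
  rw [abs_of_nonneg (MA.lp_nonneg n)]
  have h1 : lp n ≤ Real.log n := by
    unfold MA.lp
    split_ifs
    · exact le_rfl
    · exact Real.log_natCast_nonneg n
  refine h1.trans ((Real.log_le_rpow_div (Nat.cast_nonneg n) he).trans ?_)
  rw [div_mul_eq_mul_div, ← Real.mul_rpow (by norm_num) hX]
  exact div_le_div_of_nonneg_right (Real.rpow_le_rpow (Nat.cast_nonneg n) hn he.le) he.le

theorem p5_shift {X : ℝ} (hX : 0 < X) {h : ℕ} (hh : (h : ℝ) ≤ X / 4) (R : ℕ) :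
    ∑ n ∈ Icc 1 ⌊X⌋₊, pw X (n + h) * lm R n =
      ∑ n ∈ Icc 1 ⌊X⌋₊, pw X n * sig (Nat.primesLE R) R (n + -(h : ℤ)) := by
  have e1 : ∑ n ∈ Icc 1 ⌊X⌋₊, pw X (n + h) * lm R n =
      ∑ k ∈ Icc (1 + h) (⌊X⌋₊ + h), pw X k * sig (Nat.primesLE R) R (k + -(h : ℤ)) := by
    rw [← map_add_right_Icc, sum_map]
    refine sum_congr rfl fun n _ => ?_
    simp only [addRightEmbedding_apply, lm]
    congr 2
    push_cast
    ring
  rw [e1]
  have s1 : Icc (1 + h) (⌊X⌋₊ + h) ⊆ Icc 1 (⌊X⌋₊ + h) := Icc_subset_Icc_left (by omega)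
  have s2 : Icc 1 ⌊X⌋₊ ⊆ Icc 1 (⌊X⌋₊ + h) := Icc_subset_Icc_right (by omega)
  rw [sum_subset s1, sum_subset s2]
  · intro k h1 h2
    rw [mem_Icc] at h1 h2
    rw [pw_zero hX (Or.inr (Nat.lt_of_floor_lt (by omega)).le), zero_mul]
  · intro k h1 h2
    rw [mem_Icc] at h1 h2
    have : (k : ℝ) ≤ h := by exact_mod_cast (by omega : k ≤ h)
    rw [pw_zero hX (Or.inl (this.trans hh)), zero_mul]

theorem cu_le {κ ε : ℝ} (hκ : 0 < κ) (hε : 0 < ε) : ∀ᶠ X : ℝ in atTop, ∀ R h : ℕ, 2 ≤ R →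
    (R : ℝ) ≤ X ^ (5 / 12 : ℝ) → (h : ℝ) ≤ X ^ (1 - κ) →
    CU X R h ≤ RP X h - X * I2 * ST R h + ε * X := by
  have he : 0 < κ / 4 := by positivity
  have hε4 : 0 < ε / 4 := by positivity
  obtain ⟨K, hK, hL⟩ := MA.a1_lip
  obtain ⟨C, hC, hlm⟩ := lm_le he
  obtain ⟨B, hB⟩ : ∃ B : ℝ, B = C + 2 ^ (κ / 4) / (κ / 4) := ⟨_, rfl⟩
  have hB1 : C ≤ B := by
    rw [hB]
    exact le_add_of_nonneg_right (by positivity)
  have hB2 : 2 ^ (κ / 4) / (κ / 4) ≤ B := by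
    rw [hB]
    exact le_add_of_nonneg_left hC
  have t1 : ∀ᶠ X : ℝ in atTop, X ^ (-κ) ≤ 1 / 4 :=
    (tendsto_rpow_neg_atTop hκ).eventually_le_const (by norm_num)
  have t2 : ∀ᶠ X : ℝ in atTop, 4 * K * B ^ 2 * X ^ (-(κ / 2)) ≤ ε / 4 := by
    have := (tendsto_rpow_neg_atTop (half_pos hκ)).const_mul (4 * K * B ^ 2)
    rw [mul_zero] at this
    exact this.eventually_le_const hε4
  filter_upwards [cr_corr hε4, vv_corr hε4, eventually_ge_atTop 2, t1, t2] with X h1 h2 hX h4 h5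
    R h hR hRX hh
  have hX0 : 0 < X := by linarith
  have hX1 : 1 ≤ X := by linarith
  have hRX' : (R : ℝ) ≤ X := hRX.trans (Real.rpow_le_self_of_one_le hX1 (by norm_num))
  have hh4 : (h : ℝ) ≤ X / 4 := by
    refine hh.trans ?_
    rw [sub_eq_add_neg, Real.rpow_add hX0, Real.rpow_one]
    nlinarith
  have hN : (⌊X⌋₊ : ℝ) ≤ X := Nat.floor_le hX0.le
  have hp : 0 ≤ X ^ (κ / 4) := by positivity
  have bl : ∀ n : ℕ, (n : ℝ) ≤ 2 * X → |lp n| ≤ B * X ^ (κ / 4) := fun n hn =>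
    (p5_lp he hX0.le hn).trans (mul_le_mul_of_nonneg_right hB2 hp)
  have bm : ∀ n : ℕ, 1 ≤ n → (n : ℝ) ≤ 2 * X → |lm R n| ≤ B * X ^ (κ / 4) := fun n h1 hn =>
    (hlm X R n hX hRX' h1 hn).trans (mul_le_mul_of_nonneg_right hB1 hp)
  have key : CU X R h ≤ ∑ n ∈ Icc 1 ⌊X⌋₊, (pw X n * lp (n + h) -
      pw X n * sig (Nat.primesLE R) R (n + (h : ℤ)) - pw X (n + h) * lm R n +
      w1 (n / X) ^ 2 * (lm R n * lm R (n + h)) + 4 * (K * (h / X)) * (B * X ^ (κ / 4)) ^ 2) := by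
    refine sum_le_sum fun n hn => ?_
    rw [mem_Icc] at hn
    have n1 : (n : ℝ) ≤ X := (Nat.cast_le.2 hn.2).trans hN
    have n2 : ((n + h : ℕ) : ℝ) ≤ 2 * X := by
      push_cast
      linarith
    have e : sig (Nat.primesLE R) R (n + (h : ℤ)) = lm R (n + h) := by
      rw [lm, Nat.cast_add]
    rw [e]
    refine p5_pt (bl n (by linarith)) (bl _ n2) (bm n hn.1 (by linarith)) (bm _ (by omega) n2)
      (MA.w1_mem _) (MA.w1_mem _) ((hL _ _).trans_eq ?_)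
    rw [← sub_div, abs_div, abs_of_pos hX0, Nat.cast_add, sub_add_cancel_left, abs_neg,
      abs_of_nonneg (Nat.cast_nonneg h)]
  rw [sum_add_distrib, sum_add_distrib, sum_sub_distrib, sum_sub_distrib, p5_shift hX0 hh4,
    sum_const, Nat.card_Icc, Nat.add_sub_cancel, nsmul_eq_mul] at key
  have k1 := abs_le.1 (h1 R h hR hRX)
  have k2 := abs_le.1 (h1 R (-(h : ℤ)) hR hRX)
  have k3 := abs_le.1 (h2 R h hR hRX)
  rw [st_neg] at k2
  have k4 : (⌊X⌋₊ : ℝ) * (4 * (K * (h / X)) * (B * X ^ (κ / 4)) ^ 2) ≤ ε / 4 * X := by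
    have e1 : X ^ (1 - κ) * (X ^ (κ / 4)) ^ 2 = X ^ (-(κ / 2)) * X := by
      rw [sq, ← Real.rpow_add hX0, ← Real.rpow_add hX0, ← Real.rpow_add_one hX0.ne']
      congr 1
      ring
    calc _ ≤ X * (4 * (K * (X ^ (1 - κ) / X)) * (B * X ^ (κ / 4)) ^ 2) := by gcongr
      _ = 4 * K * B ^ 2 * (X ^ (1 - κ) * (X ^ (κ / 4)) ^ 2) := by field_simp
      _ = 4 * K * B ^ 2 * X ^ (-(κ / 2)) * X := by rw [e1, mul_assoc (4 * K * B ^ 2)]
      _ ≤ _ := mul_le_mul_of_nonneg_right h5 hX0.le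
  unfold RP
  linarith [k1.1, k2.1, k3.2]

end Pool.Agent.Lib.MP_778b46_nt.GL
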