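import Pool.Agent.Lib.MP_778b46_nt.GL.Defs

/-!
Expansion of the factor of Romanov type along the orders of two.
-/

set_option autoImplicit false

noncomputable section

namespace Pool.Agent.Lib.MP_778b46_nt.GL

open Finset MeasureTheory Filter
open Pool.Agent.Lib.MP_778b46_nt.MA (lp w1 a1S a1M cf cop R1 I0 RR)
open Pool.Agent.Lib.MP_778b46_nt.VA (ee nd)

/-- The factor restricted to a set of primes. -/
def fq (Q : Finset ℕ) (t : ℕ) : ℝ :=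
  ∏ l ∈ Q.filter (fun l => l ∣ 2 ^ t - 1), (1 + 1 / ((l : ℝ) - 2))

/-- The weight of a set of primes. -/
def kS (S : Finset ℕ) : ℝ := ∏ l ∈ S, 1 / ((l : ℝ) - 2)

/-- The order of two modulo the product. -/
def oS (S : Finset ℕ) : ℕ := orderOf (2 : ZMod (∏ l ∈ S, l))

theorem oS_dvd {S : Finset ℕ} (hS : ∀ l ∈ S, l.Prime) (t : ℕ) :
    oS S ∣ t ↔ ∀ l ∈ S, l ∣ 2 ^ t - 1 := by
  have e : (2 : ZMod (∏ l ∈ S, l)) ^ t = 1 ↔ (∏ l ∈ S, l) ∣ 2 ^ t - 1 := by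
    rw [← ZMod.natCast_eq_zero_iff, Nat.cast_sub Nat.one_le_two_pow, sub_eq_zero]
    push_cast
    rfl
  rw [oS, orderOf_dvd_iff_pow_eq_one, e]
  exact ⟨fun h l hl => (dvd_prod_of_mem _ hl).trans h,
    prod_primes_dvd _ fun l hl => (hS l hl).prime⟩

theorem oS_pos {S : Finset ℕ} (hS : ∀ l ∈ S, l.Prime ∧ 3 ≤ l) : 0 < oS S := by
  have c : Nat.Coprime 2 (∏ l ∈ S, l) := Nat.Coprime.prod_right fun l hl =>
    (Nat.coprime_primes Nat.prime_two (hS l hl).1).2 (by have := (hS l hl).2; omega)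
  refine Nat.pos_of_dvd_of_pos ((oS_dvd (fun l hl => (hS l hl).1) _).2 fun l hl =>
    (dvd_prod_of_mem _ hl).trans
      ((Nat.modEq_iff_dvd' Nat.one_le_two_pow).1 (Nat.ModEq.pow_totient c).symm)) ?_
  exact Nat.totient_pos.2 (prod_pos fun l hl => (hS l hl).1.pos)

theorem r1_ks {Q S : Finset ℕ} (hQ : ∀ l ∈ Q, l.Prime ∧ 3 ≤ l) (h : S ⊆ Q) : 0 ≤ kS S :=
  prod_nonneg fun l hl => by
    have : (3 : ℝ) ≤ l := by exact_mod_cast (hQ l (h hl)).2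
    exact div_nonneg zero_le_one (by linarith)

theorem sum_fq {Q : Finset ℕ} (hQ : ∀ l ∈ Q, l.Prime ∧ 3 ≤ l) (T : ℕ) :
    ∑ t ∈ Icc 1 T, fq Q t = ∑ S ∈ Q.powerset, kS S * (T / oS S : ℕ) := by
  have e : ∀ t, fq Q t = ∑ S ∈ Q.powerset, if oS S ∣ t then kS S else 0 := fun t => by
    rw [fq, prod_one_add, ← sum_filter]
    refine sum_congr (Finset.ext fun S => ?_) fun _ _ => rfl
    simp only [mem_powerset, mem_filter, subset_iff]
    exact ⟨fun h => ⟨fun l hl => (h hl).1,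
        (oS_dvd (fun l hl => (hQ l (h hl).1).1) t).2 fun l hl => (h hl).2⟩,
      fun h l hl => ⟨h.1 hl, (oS_dvd (fun l hl => (hQ l (h.1 hl)).1) t).1 h.2 l hl⟩⟩
  simp only [e]
  rw [sum_comm]
  refine sum_congr rfl fun S _ => ?_
  rw [← sum_filter, sum_const, nsmul_eq_mul, mul_comm, ← Nat.Ioc_filter_dvd_card_eq_div]
  rfl

theorem rA {Q : Finset ℕ} (hQ : ∀ l ∈ Q, l.Prime ∧ 3 ≤ l) {M : ℕ} (hM : 1 ≤ M) (T : ℕ) :
    ∑ t ∈ Icc 1 T, fq Q t ≤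
      T / M * (∑ t ∈ Icc 1 M, fq Q t + ∏ l ∈ Q, (1 + 1 / ((l : ℝ) - 2))) := by
  rw [sum_fq hQ, sum_fq hQ, prod_one_add, ← sum_add_distrib, mul_sum]
  refine sum_le_sum fun S hS => ?_
  have k := r1_ks hQ (mem_powerset.1 hS)
  have o : 0 < oS S := oS_pos fun l hl => hQ l (mem_powerset.1 hS hl)
  have o' : (0 : ℝ) < oS S := by exact_mod_cast o
  have m : (0 : ℝ) < M := by exact_mod_cast hM
  have a : (M : ℝ) / oS S ≤ (M / oS S : ℕ) + 1 := by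
    rw [div_le_iff₀' o']
    exact_mod_cast (Nat.lt_mul_div_succ M o).le
  have b : ((T / oS S : ℕ) : ℝ) ≤ T / M * ((M / oS S : ℕ) + 1) :=
    calc ((T / oS S : ℕ) : ℝ) ≤ T / oS S := Nat.cast_div_le
      _ = T / M * (M / oS S) := by field_simp
      _ ≤ _ := by gcongr
  calc kS S * (T / oS S : ℕ) ≤ kS S * (T / M * ((M / oS S : ℕ) + 1)) := by gcongr
    _ = _ := by unfold kS; ring

theorem rB {Q : Finset ℕ} (hQ : ∀ l ∈ Q, l.Prime ∧ 3 ≤ l) (T : ℕ) :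
    ∑ t ∈ Icc 1 T, (fq Q t - 1) ≤ T * ∑ S ∈ Q.powerset.erase ∅, kS S / oS S := by
  have e : oS ∅ = 1 := Nat.dvd_one.1 ((oS_dvd (by simp) 1).2 (by simp))
  rw [sum_sub_distrib, sum_fq hQ, ← add_sum_erase _ _ (empty_mem_powerset Q), e, mul_sum]
  simp only [kS.eq_1 ∅, prod_empty, one_mul, Nat.div_one, sum_const, Nat.card_Icc,
    Nat.add_sub_cancel, nsmul_eq_mul, mul_one, add_sub_cancel_left]
  refine sum_le_sum fun S hS => ?_
  have k := r1_ks hQ (mem_powerset.1 (mem_of_mem_erase hS))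
  calc kS S * (T / oS S : ℕ) ≤ kS S * (T / oS S) := by gcongr; exact Nat.cast_div_le
    _ = _ := by ring

end Pool.Agent.Lib.MP_778b46_nt.GL
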