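import Pool.Agent.Lib.MP_778b46_nt.GL.Defs

/-!
Few large primes have a small order of two.
-/

set_option autoImplicit false

noncomputable section

namespace Pool.Agent.Lib.MP_778b46_nt.GL

open Finset MeasureTheory Filter
open Pool.Agent.Lib.MP_778b46_nt.MA (lp w1 a1S a1M cf cop R1 I0 RR)
open Pool.Agent.Lib.MP_778b46_nt.VA (ee nd)

theorem r2_step {u y : ℝ} (hu : 0 < u) (hy : u + 35 / 8 ≤ y) :
    (1 + 1 / y) ^ 35 ≤ ((u + 35 / 8) / u) ^ 8 := by
  have h0 : 0 < u + 35 / 8 := by linarith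
  have h1 : 1 + 1 / y ≤ Real.exp (1 / (u + 35 / 8)) := by
    linarith [Real.add_one_le_exp (1 / (u + 35 / 8)), one_div_le_one_div_of_le h0 hy]
  have h2 : Real.exp (35 / 8 / (u + 35 / 8)) ≤ (u + 35 / 8) / u := by
    have h3 := Real.add_one_le_exp (-(35 / 8 / (u + 35 / 8)))
    rw [Real.exp_neg, le_inv_comm₀ (by field_simp; linarith) (Real.exp_pos _)] at h3
    refine h3.trans_eq ?_
    field_simp
    ring
  have h4 : 0 < y := by linarith
  refine (pow_le_pow_left₀ (by positivity) h1 35).trans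
    (le_trans (le_of_eq ?_) (pow_le_pow_left₀ (Real.exp_pos _).le h2 8))
  rw [← Real.exp_nat_mul, ← Real.exp_nat_mul]
  congr 1
  push_cast
  ring

theorem r2_rank {Q : Finset ℕ} (hQ : ∀ l ∈ Q, l.Prime ∧ 210000 < l) {a : ℕ} (ha : 210000 < a)
    (h : ∀ l ∈ Q, l ≤ a) : 209788 + 35 / 8 * (Q.card : ℝ) ≤ a - 2 := by
  have h1 := Nat.Ico_filter_coprime_le (a := 210) 210001 (a - 210000) (by norm_num)
  rw [show Nat.totient 210 = 48 by decide +kernel] at h1
  have h2 : Q.card ≤ 48 * ((a - 210000) / 210 + 1) := by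
    refine (card_le_card fun l hl => mem_filter.2 ⟨mem_Ico.2 ?_, ?_⟩).trans h1
    · have := h l hl
      have := (hQ l hl).2
      omega
    · refine ((Nat.Prime.coprime_iff_not_dvd (hQ l hl).1).2 fun c => ?_).symm
      have := Nat.le_of_dvd (by norm_num) c
      have := (hQ l hl).2
      omega
  have h3 : 35 * Q.card + 1678320 ≤ 8 * a := by omega
  have h4 : (35 * Q.card + 1678320 : ℝ) ≤ 8 * a := by exact_mod_cast h3
  linarith

theorem r2_wheel {Q : Finset ℕ} (hQ : ∀ l ∈ Q, l.Prime ∧ 210000 < l) :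
    (∏ l ∈ Q, (1 + 1 / ((l : ℝ) - 2))) ^ 35 ≤ ((209788 + 35 / 8 * Q.card) / 209788) ^ 8 := by
  induction Q using Finset.induction_on_max with
  | empty => simp
  | insert a s hs ih =>
    have ha : a ∉ s := fun c => lt_irrefl _ (hs a c)
    have h1 := r2_rank hQ (hQ a (mem_insert_self a s)).2 fun l hl =>
      (mem_insert.1 hl).elim le_of_eq fun c => (hs l c).le
    rw [card_insert_of_notMem ha, Nat.cast_succ, mul_add, mul_one, ← add_assoc] at h1
    have h2 : (0 : ℝ) < 209788 + 35 / 8 * s.card := by positivity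
    rw [prod_insert ha, mul_pow, card_insert_of_notMem ha, Nat.cast_succ, mul_add, mul_one,
      ← add_assoc]
    refine (mul_le_mul (r2_step h2 h1) (ih fun l hl => hQ l (mem_insert_of_mem hl))
      (pow_nonneg (prod_nonneg fun l hl => ?_) _) (by positivity)).trans_eq ?_
    · have h3 : (210000 : ℝ) < l := by exact_mod_cast (hQ l (mem_insert_of_mem hl)).2
      have : (0 : ℝ) < l - 2 := by linarith
      positivity
    · rw [← mul_pow, div_mul_div_cancel₀ h2.ne']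

theorem wheel {Q : Finset ℕ} (hQ : ∀ l ∈ Q, l.Prime ∧ 210000 < l) {n : ℝ} (hn : (Q.card : ℝ) ≤ n) :
    (∏ l ∈ Q, (1 + 1 / ((l : ℝ) - 2))) ^ 35 ≤ ((209998 + 35 / 8 * n) / 209788) ^ 8 :=
  (r2_wheel hQ).trans (pow_le_pow_left₀ (by positivity) (by linarith) 8)

theorem r2_prod (x : ℕ) : (∏ t ∈ Icc 1 x, (2 ^ t - 1)) ^ 2 ≤ 2 ^ (x * (x + 1)) := by
  induction x with
  | zero => simp
  | succ x ih =>
    rw [prod_Icc_succ_top (by omega), mul_pow,
      show (x + 1) * (x + 1 + 1) = x * (x + 1) + (x + 1) * 2 by ring, pow_add 2 (x * (x + 1)),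
      pow_mul 2 (x + 1)]
    exact Nat.mul_le_mul ih (Nat.pow_le_pow_left (Nat.sub_le _ _) 2)

theorem card_ord {Q : Finset ℕ} (hQ : ∀ l ∈ Q, l.Prime ∧ 210000 < l) (x : ℕ)
    (h : ∀ l ∈ Q, ∃ t ∈ Icc 1 x, l ∣ 2 ^ t - 1) : (Q.card : ℝ) ≤ 3 * x * (x + 1) / 106 := by
  have h1 : ∏ l ∈ Q, l ≤ ∏ t ∈ Icc 1 x, (2 ^ t - 1) := by
    refine Nat.le_of_dvd (prod_pos fun t ht => ?_)
      (prod_primes_dvd _ (fun l hl => (hQ l hl).1.prime) fun l hl => ?_)
    · exact Nat.sub_pos_of_lt (Nat.one_lt_two_pow (by have := (mem_Icc.1 ht).1; omega))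
    · obtain ⟨t, ht, c⟩ := h l hl
      exact c.trans (dvd_prod_of_mem _ ht)
  have h2 : 210000 ^ Q.card ≤ ∏ l ∈ Q, l := pow_card_le_prod _ _ _ fun l hl => (hQ l hl).2.le
  have h3 : 2 ^ (106 * Q.card) ≤ 2 ^ (x * (x + 1) * 3) :=
    calc 2 ^ (106 * Q.card) = (2 ^ 106) ^ Q.card := pow_mul _ _ _
      _ ≤ (210000 ^ 6) ^ Q.card := Nat.pow_le_pow_left (by norm_num) _
      _ = ((210000 ^ Q.card) ^ 2) ^ 3 := by rw [← pow_mul, ← pow_mul, ← pow_mul, mul_comm]
      _ ≤ (2 ^ (x * (x + 1))) ^ 3 :=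
        Nat.pow_le_pow_left ((Nat.pow_le_pow_left (h2.trans h1) 2).trans (r2_prod x)) 3
      _ = _ := (pow_mul _ _ _).symm
  have h4 : (106 * Q.card : ℝ) ≤ x * (x + 1) * 3 := by
    exact_mod_cast (Nat.pow_le_pow_iff_right one_lt_two).1 h3
  linarith

end Pool.Agent.Lib.MP_778b46_nt.GL
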