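import Pool.Agent.Lib.MP_778b46_nt.GL.R1
import Pool.Agent.Lib.MP_778b46_nt.GL.R2

/-!
The share of the large primes.
-/

set_option autoImplicit false

noncomputable section

namespace Pool.Agent.Lib.MP_778b46_nt.GL

open Finset MeasureTheory Filter
open Pool.Agent.Lib.MP_778b46_nt.MA (lp w1 a1S a1M cf cop R1 I0 RR)
open Pool.Agent.Lib.MP_778b46_nt.VA (ee nd)

theorem r3_k {Q S : Finset ℕ} (hQ : ∀ l ∈ Q, l.Prime ∧ 210000 < l) (hS : S ⊆ Q) : 0 ≤ kS S :=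
  prod_nonneg fun l hl => by
    have : (210000 : ℝ) < l := by exact_mod_cast (hQ l (hS hl)).2
    exact one_div_nonneg.2 (by linarith)

theorem r3_A {Q : Finset ℕ} (hQ : ∀ l ∈ Q, l.Prime ∧ 210000 < l) (x : ℕ) {g : ℝ} (hg : 0 ≤ g)
    (h : ((209998 + 35 / 8 * (3 * (x : ℝ) * (x + 1) / 106)) / 209788) ^ 8 ≤ g ^ 35) :
    ∑ S ∈ Q.powerset.erase ∅, (if oS S ≤ x then kS S else 0) ≤ g - 1 := by
  classical
  set P := Q.filter fun l => ∃ t ∈ Icc 1 x, l ∣ 2 ^ t - 1 with hP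
  have h1 : ∀ l ∈ P, l.Prime ∧ 210000 < l := fun l hl => hQ l (mem_filter.1 hl).1
  have h2 := (pow_le_pow_iff_left₀ (prod_nonneg fun l hl => by
    have : (210000 : ℝ) < l := by exact_mod_cast (h1 l hl).2
    exact add_nonneg zero_le_one (one_div_nonneg.2 (by linarith))) hg (by norm_num)).1
    ((wheel h1 (card_ord h1 x fun l hl => (mem_filter.1 hl).2)).trans h)
  rw [prod_one_add] at h2
  rw [← sum_filter]
  refine (sum_le_sum_of_subset_of_nonneg (t := P.powerset.erase ∅) (fun S hS => ?_)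
    fun S hS _ => r3_k h1 (mem_powerset.1 (mem_erase.1 hS).2)).trans ?_
  · obtain ⟨a1, a2⟩ := mem_filter.1 hS
    obtain ⟨a3, a4⟩ := mem_erase.1 a1
    have a5 := fun l hl => hQ l (mem_powerset.1 a4 hl)
    exact mem_erase.2 ⟨a3, mem_powerset.2 fun l hl => mem_filter.2 ⟨mem_powerset.1 a4 hl, oS S,
      mem_Icc.2 ⟨oS_pos fun l hl => ⟨(a5 l hl).1, by linarith [(a5 l hl).2]⟩, a2⟩,
      (oS_dvd (fun l hl => (a5 l hl).1) _).1 dvd_rfl l hl⟩⟩
  · rw [sum_erase_eq_sub (empty_mem_powerset _)]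
    exact sub_le_sub h2 (by simp [kS])

theorem r3_pt {o : ℕ} (ho : 16 < o) (K : ℕ) : (if o ≤ 2 ^ (K + 4) then (o : ℝ)⁻¹ else 0) ≤
    ∑ j ∈ range K, (if o ≤ 2 ^ (j + 5) then ((2 : ℝ) ^ (j + 5))⁻¹ else 0) +
      if o ≤ 2 ^ (K + 4) then ((2 : ℝ) ^ (K + 4))⁻¹ else 0 := by
  induction K with
  | zero => simp [ho.not_ge]
  | succ K ih =>
    have h0 : 0 ≤ ∑ j ∈ range K, (if o ≤ 2 ^ (j + 5) then ((2 : ℝ) ^ (j + 5))⁻¹ else 0) :=
      sum_nonneg fun _ _ => by positivity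
    have e : ((2 : ℝ) ^ (K + 4))⁻¹ = (2 ^ (K + 5))⁻¹ + (2 ^ (K + 5))⁻¹ := by
      rw [pow_succ _ (K + 4)]
      field_simp
      norm_num
    rw [sum_range_succ, show K + 1 + 4 = K + 5 from rfl]
    by_cases h1 : o ≤ 2 ^ (K + 5)
    · simp only [if_pos h1]
      by_cases h2 : o ≤ 2 ^ (K + 4)
      · simp only [if_pos h2] at ih
        linarith
      · have : (o : ℝ)⁻¹ ≤ (2 ^ (K + 4))⁻¹ :=
          inv_anti₀ (by positivity) (by exact_mod_cast (not_le.1 h2).le)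
        linarith
    · simp only [if_neg h1]
      linarith

theorem r3_sum {Q : Finset ℕ} (hQ : ∀ l ∈ Q, l.Prime ∧ 210000 < l) :
    ∃ i : ℕ, ∑ S ∈ Q.powerset.erase ∅, kS S / oS S ≤
      ∑ j ∈ range (14 + i), (∑ S ∈ Q.powerset.erase ∅, if oS S ≤ 2 ^ (j + 5) then kS S else 0) *
        ((2 : ℝ) ^ (j + 5))⁻¹ + (∑ S ∈ Q.powerset.erase ∅,
          if oS S ≤ 2 ^ (14 + i + 4) then kS S else 0) * ((2 : ℝ) ^ (14 + i + 4))⁻¹ := by
  refine ⟨∑ S ∈ Q.powerset, oS S, ?_⟩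
  simp only [sum_mul]
  rw [sum_comm, ← sum_add_distrib]
  refine sum_le_sum fun S hS => ?_
  obtain ⟨a3, a4⟩ := mem_erase.1 hS
  have a5 := fun l hl => hQ l (mem_powerset.1 a4 hl)
  obtain ⟨l, hl⟩ := nonempty_iff_ne_empty.2 a3
  have b0 := oS_pos fun l hl => ⟨(a5 l hl).1, by linarith [(a5 l hl).2]⟩
  have b1 := Nat.le_of_dvd (Nat.sub_pos_of_lt (Nat.one_lt_two_pow b0.ne'))
    ((oS_dvd (fun l hl => (a5 l hl).1) _).1 dvd_rfl l hl)
  have b2 : 16 < oS S := by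
    by_contra hc
    have := Nat.pow_le_pow_right two_pos (not_lt.1 hc)
    have := (a5 l hl).2
    omega
  have b3 := mul_le_mul_of_nonneg_left (r3_pt b2 (14 + ∑ S ∈ Q.powerset, oS S))
    (r3_k hQ (mem_powerset.1 a4))
  rw [if_pos (((single_le_sum (fun _ _ => Nat.zero_le _) a4).trans (by omega)).trans
    Nat.lt_two_pow_self.le), mul_add, mul_sum] at b3
  simpa only [ite_mul, zero_mul, mul_ite, mul_zero, div_eq_mul_inv] using b3

theorem r3_big {Q : Finset ℕ} (hQ : ∀ l ∈ Q, l.Prime ∧ 210000 < l) (i : ℕ) :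
    ∑ S ∈ Q.powerset.erase ∅, (if oS S ≤ 2 ^ (14 + i + 4) then kS S else 0) ≤
      11.305276 * 1.373 ^ i - 1 := by
  refine r3_A hQ _ (by positivity) ?_
  have h1 : (1 : ℝ) ≤ 2 ^ i := one_le_pow₀ one_le_two
  calc _ ≤ ((2 ^ i) ^ 2 * ((209998 + 35 / 8 * (3 * 2 ^ 18 * (2 ^ 18 + 1) / 106)) / 209788) : ℝ) ^ 8 := by
        refine pow_le_pow_left₀ (by positivity) ?_ _
        rw [show 14 + i + 4 = 18 + i by omega, pow_add]
        push_cast
        nlinarith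
    _ ≤ _ := by
        rw [mul_pow, mul_pow, mul_comm, ← pow_mul, ← pow_mul, ← pow_mul, mul_comm i, mul_comm i,
          pow_mul, pow_mul _ 35]
        exact mul_le_mul (by norm_num) (pow_le_pow_left₀ (by positivity) (by norm_num) _)
          (by positivity) (by positivity)

theorem rB_num {Q : Finset ℕ} (hQ : ∀ l ∈ Q, l.Prime ∧ 210000 < l) :
    ∑ S ∈ Q.powerset.erase ∅, kS S / oS S ≤ 127 / 100000 := by
  obtain ⟨i, hi⟩ := r3_sum hQ
  have key : ∀ i : ℕ, ∑ j ∈ range (14 + i), (∑ S ∈ Q.powerset.erase ∅,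
      if oS S ≤ 2 ^ (j + 5) then kS S else 0) * ((2 : ℝ) ^ (j + 5))⁻¹ +
      2.2 * (11.305276 * 1.373 ^ i * ((2 : ℝ) ^ (14 + i + 4))⁻¹) ≤ 127 / 100000 := fun i => by
    induction i with
    | zero =>
      have h0 := r3_A hQ (2 ^ (0 + 5)) (g := 1.000372) (by norm_num) (by norm_num)
      have h1 := r3_A hQ (2 ^ (1 + 5)) (g := 1.00079) (by norm_num) (by norm_num)
      have h2 := r3_A hQ (2 ^ (2 + 5)) (g := 1.002447) (by norm_num) (by norm_num)
      have h3 := r3_A hQ (2 ^ (3 + 5)) (g := 1.008968) (by norm_num) (by norm_num)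
      have h4 := r3_A hQ (2 ^ (4 + 5)) (g := 1.033696) (by norm_num) (by norm_num)
      have h5 := r3_A hQ (2 ^ (5 + 5)) (g := 1.116657) (by norm_num) (by norm_num)
      have h6 := r3_A hQ (2 ^ (6 + 5)) (g := 1.329615) (by norm_num) (by norm_num)
      have h7 := r3_A hQ (2 ^ (7 + 5)) (g := 1.726544) (by norm_num) (by norm_num)
      have h8 := r3_A hQ (2 ^ (8 + 5)) (g := 2.331842) (by norm_num) (by norm_num)
      have h9 := r3_A hQ (2 ^ (9 + 5)) (g := 3.187534) (by norm_num) (by norm_num)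
      have h10 := r3_A hQ (2 ^ (10 + 5)) (g := 4.371162) (by norm_num) (by norm_num)
      have h11 := r3_A hQ (2 ^ (11 + 5)) (g := 5.999176) (by norm_num) (by norm_num)
      have h12 := r3_A hQ (2 ^ (12 + 5)) (g := 8.23522) (by norm_num) (by norm_num)
      have h13 := r3_A hQ (2 ^ (13 + 5)) (g := 11.305276) (by norm_num) (by norm_num)
      simp only [sum_range_succ, range_zero, sum_empty, add_zero]
      generalize (fun j : ℕ => ∑ S ∈ Q.powerset.erase ∅,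
        if oS S ≤ 2 ^ (j + 5) then kS S else 0) = A at *
      norm_num at *
      linarith
    | succ i ih =>
      have h1 := mul_le_mul_of_nonneg_right ((r3_big hQ (i + 1)).trans (sub_le_self _ zero_le_one))
        (by positivity : 0 ≤ ((2 : ℝ) ^ (14 + i + 5))⁻¹)
      have e : ((2 : ℝ) ^ (14 + i + 5))⁻¹ = (2 ^ (14 + i + 4))⁻¹ / 2 := by
        rw [pow_succ _ (14 + i + 4)]
        field_simp
      have h2 : (0 : ℝ) ≤ 1.373 ^ i * (2 ^ (14 + i + 4))⁻¹ := by positivity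
      rw [← add_assoc, sum_range_succ, show 14 + i + 1 + 4 = 14 + i + 5 from rfl]
      rw [show 14 + (i + 1) + 4 = 14 + i + 5 from rfl] at h1
      rw [e, pow_succ (1.373 : ℝ)] at h1 ⊢
      nlinarith
  have h1 := mul_le_mul_of_nonneg_right ((r3_big hQ i).trans (sub_le_self _ zero_le_one))
    (by positivity : 0 ≤ ((2 : ℝ) ^ (14 + i + 4))⁻¹)
  have h2 : (0 : ℝ) ≤ 11.305276 * 1.373 ^ i * (2 ^ (14 + i + 4))⁻¹ := by positivity
  linarith [key i]

end Pool.Agent.Lib.MP_778b46_nt.GL
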