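import Pool.Agent.Lib.MP_778b46_nt.GL.R1

/-!
The share of the small primes: a finite computation.
-/

set_option autoImplicit false

noncomputable section

namespace Pool.Agent.Lib.MP_778b46_nt.GL

open Finset MeasureTheory Filter
open Pool.Agent.Lib.MP_778b46_nt.MA (lp w1 a1S a1M cf cop R1 I0 RR)
open Pool.Agent.Lib.MP_778b46_nt.VA (ee nd)

/-- Evaluate a number, then continue. -/
def r4f {β : Type} (n : ℕ) (k : ℕ → β) : β := Nat.rec (k 0) (fun m _ => k (Nat.succ m)) n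

theorem r4f_eq {β : Type} (n : ℕ) (k : ℕ → β) : r4f n k = k n := by cases n <;> rfl

/-- Evaluate the head of a list, then continue. -/
def r4g {β : Type} (l : List ℕ) (k : List ℕ → β) : β :=
  List.rec (k []) (fun a s _ => k (a :: s)) l

theorem r4g_eq {β : Type} (l : List ℕ) (k : List ℕ → β) : r4g l k = k l := by cases l <;> rfl

/-- A case distinction. -/
def r4b {β : Type} (c : Bool) (x y : β) : β := Bool.rec y x c

/-- The product of the odd primes up to `461`. -/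
def r4P : ℕ := 5051287404919465746781789877028568287997006182666701841237894364406031989617096988597611307515477022098977714292709937270001563009686643622780454496006279267748903935452646339511697579308185

/-- A test passed by all primes. -/
def r4c (n : ℕ) : Bool :=
  Nat.beq (Nat.gcd (r4b (Nat.ble 462 n) r4P (r4b (Nat.ble 24 n) 111546435
    (r4b (Nat.ble 8 n) 105 1))) n) 1

theorem r4c_prime {n : ℕ} (h : n.Prime) : r4c n = true := by
  have key : ∀ P m : ℕ, P ∣ m.factorial → Nat.ble (m + 1) n = true → Nat.beq (Nat.gcd P n) 1 = true :=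
    fun P m h1 h2 => Nat.beq_eq.mpr
      ((h.coprime_factorial_of_lt (Nat.le_of_ble_eq_true h2)).symm.coprime_dvd_left h1)
  unfold r4c
  cases e1 : Nat.ble 462 n
  · cases e2 : Nat.ble 24 n
    · cases e3 : Nat.ble 8 n
      · exact Nat.beq_eq.mpr (Nat.gcd_one_left n)
      · exact key 105 7 (by decide +kernel) e3
    · exact key 111546435 23 (by decide +kernel) e2
  · exact key r4P 461 (by decide +kernel) e1

/-- The odd numbers below `2 k + 1` that pass the tests. -/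
def r4m (W k : ℕ) : List ℕ → List ℕ :=
  Nat.rec (fun s => s) (fun m r s => r4f (Nat.succ (Nat.mul 2 m)) fun n =>
    r4b (r4c n && Nat.beq (Nat.mod W n) 0 && Nat.ble 3 n) (r (n :: s)) (r s)) k

theorem r4m_mem (W k : ℕ) (s : List ℕ) {l : ℕ}
    (h : l ∈ s ∨ (l.Prime ∧ 3 ≤ l ∧ l ≤ 2 * k ∧ l ∣ W)) : l ∈ r4m W k s := by
  induction k generalizing s with
  | zero => exact h.resolve_right fun h => by omega
  | succ m ih =>
    have e : r4m W (m + 1) s = r4b (r4c (2 * m + 1) && Nat.beq (W % (2 * m + 1)) 0 &&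
        Nat.ble 3 (2 * m + 1)) (r4m W m ((2 * m + 1) :: s)) (r4m W m s) :=
      r4f_eq (2 * m + 1) fun n => r4b (r4c n && Nat.beq (W % n) 0 && Nat.ble 3 n)
        (r4m W m (n :: s)) (r4m W m s)
    rw [e]
    by_cases hl : l = 2 * m + 1
    · rcases h with h | ⟨h1, h2, -, h4⟩
      · cases (r4c (2 * m + 1) && Nat.beq (W % (2 * m + 1)) 0 && Nat.ble 3 (2 * m + 1))
        · exact ih s (Or.inl h)
        · exact ih _ (Or.inl (List.mem_cons_of_mem _ h))
      · rw [← hl, r4c_prime h1, Nat.mod_eq_zero_of_dvd h4, Nat.ble_eq.mpr h2]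
        exact ih _ (Or.inl List.mem_cons_self)
    · have h' : l ∈ s ∨ (l.Prime ∧ 3 ≤ l ∧ l ≤ 2 * m ∧ l ∣ W) := h.imp_right fun h =>
        ⟨h.1, h.2.1, by have := h.1.eq_two_or_odd; omega, h.2.2.2⟩
      cases (r4c (2 * m + 1) && Nat.beq (W % (2 * m + 1)) 0 && Nat.ble 3 (2 * m + 1))
      · exact ih s h'
      · exact ih _ (h'.imp_left (List.mem_cons_of_mem _))

/-- The product over the divisors of `M` in a list, rounded up. -/
def r4p (M : ℕ) (L : List ℕ) : ℕ → ℕ :=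
  List.rec (fun U => U) (fun a _ r U => r4b (Nat.beq (Nat.mod M a) 0)
    (r4f (Nat.succ (Nat.add U (Nat.div U (Nat.sub a 2)))) r) (r U)) L

theorem r4p_ge (M : ℕ) (L : List ℕ) (U : ℕ) (S : Finset ℕ) (hS : ∀ l ∈ S, 3 ≤ l ∧ l ∈ L ∧ l ∣ M) :
    U * ∏ l ∈ S, (1 + 1 / ((l : ℝ) - 2)) ≤ r4p M L U := by
  induction L generalizing U S with
  | nil =>
    rw [eq_empty_of_forall_notMem fun l hl => List.not_mem_nil (hS l hl).2.1, prod_empty, mul_one]
    exact le_rfl
  | cons a L ih =>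
    have e : r4p M (a :: L) U = r4b (Nat.beq (M % a) 0)
        (r4f (U + U / (a - 2) + 1) (r4p M L)) (r4p M L U) := rfl
    have h1 : ∀ l ∈ S.erase a, 3 ≤ l ∧ l ∈ L ∧ l ∣ M := fun l hl =>
      have h := hS l (mem_of_mem_erase hl)
      ⟨h.1, (List.mem_cons.1 h.2.1).resolve_left (ne_of_mem_erase hl), h.2.2⟩
    have h2 : 0 ≤ ∏ l ∈ S.erase a, (1 + 1 / ((l : ℝ) - 2)) := prod_nonneg fun l hl => by
      have : (3 : ℝ) ≤ l := by exact_mod_cast (h1 l hl).1
      have : 0 < (l : ℝ) - 2 := by linarith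
      positivity
    rw [e, r4f_eq]
    by_cases ha : a ∈ S
    · obtain ⟨a3, -, aM⟩ := hS a ha
      rw [Nat.mod_eq_zero_of_dvd aM, ← mul_prod_erase _ _ ha, ← mul_assoc]
      refine le_trans (mul_le_mul_of_nonneg_right ?_ h2) (ih _ _ h1)
      obtain ⟨b, rfl⟩ := Nat.exists_eq_add_of_le' a3
      have h3 : (U : ℝ) < (b + 1 : ℕ) * ((U / (b + 1) : ℕ) + 1) := by
        exact_mod_cast Nat.lt_mul_div_succ U (Nat.succ_pos b)
      rw [show b + 3 - 2 = b + 1 from rfl, mul_add, mul_one, mul_one_div,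
        show ((b + 3 : ℕ) : ℝ) - 2 = (b + 1 : ℕ) by push_cast; ring,
        Nat.cast_add_one (U + _), Nat.cast_add U, add_assoc]
      exact add_le_add_right ((div_le_iff₀' (by positivity)).2 h3.le) _
    · rw [erase_eq_of_notMem ha] at h1 h2
      cases Nat.beq (M % a) 0
      · exact ih U S h1
      · refine le_trans (mul_le_mul_of_nonneg_right ?_ h2) (ih _ S h1)
        exact_mod_cast (Nat.le_add_right _ _).trans (Nat.le_succ _)

theorem r4_od {l : ℕ} (h : l ∈ od3 210000) : l.Prime ∧ 3 ≤ l ∧ l ≤ 2 * 105000 := by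
  obtain ⟨h1, h2⟩ := mem_erase.1 h
  obtain ⟨h3, h4⟩ := Nat.mem_primesLE.1 h2
  have := h4.two_le
  exact ⟨h4, by omega, h3⟩

theorem r4_numA : Nat.ble (r4p 0 (r4m 0 105000 []) 1000000000000) 16535000000000 = true := by
  decide +kernel

theorem rA_max : ∏ l ∈ od3 210000, (1 + 1 / ((l : ℝ) - 2)) ≤ 16535 / 1000 := by
  have h1 := r4p_ge 0 (r4m 0 105000 []) 1000000000000 (od3 210000) fun l hl =>
    have h := r4_od hl
    ⟨h.2.1, r4m_mem _ _ _ (Or.inr ⟨h.1, h.2.1, h.2.2, dvd_zero l⟩), dvd_zero l⟩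
  have h2 := r4_numA
  generalize r4p 0 (r4m 0 105000 []) 1000000000000 = N at h1 h2
  have h3 := h1.trans (Nat.cast_le.2 (Nat.le_of_ble_eq_true h2))
  push_cast at h3
  linarith

/-- A multiple of the numbers `2 ^ t - 1`. -/
def r4w (k : ℕ) : ℕ → ℕ :=
  Nat.rec (fun U => U) (fun m r U => r4f (Nat.mul U (Nat.pred (Nat.pow 2 (Nat.succ m)))) r) k

theorem r4w_dvd (k U : ℕ) {d : ℕ} (h : d ∣ U ∨ ∃ t ∈ Icc 1 k, d ∣ 2 ^ t - 1) : d ∣ r4w k U := by
  induction k generalizing U with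
  | zero => exact h.resolve_right (by simp)
  | succ m ih =>
    have e : r4w (m + 1) U = r4w m (U * (2 ^ (m + 1) - 1)) := r4f_eq _ _
    rw [e]
    refine ih _ ?_
    rcases h with h | ⟨t, ht, h⟩
    · exact Or.inl (h.mul_right _)
    · by_cases e : t = m + 1
      · exact Or.inl (Dvd.dvd.mul_left (e ▸ h) _)
      · exact Or.inr ⟨t, by rw [mem_Icc] at ht ⊢; omega, h⟩

/-- The product of a list. -/
def r4y (L : List ℕ) : ℕ → ℕ := List.rec (fun U => U) (fun a _ r U => r4f (Nat.mul U a) r) L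

theorem r4y_dvd (L : List ℕ) (U : ℕ) {d : ℕ} (h : d ∣ U ∨ d ∈ L) : d ∣ r4y L U := by
  induction L generalizing U with
  | nil => exact h.resolve_right List.not_mem_nil
  | cons a L ih =>
    have e : r4y (a :: L) U = r4y L (U * a) := r4f_eq (U * a) (r4y L)
    rw [e]
    refine ih _ ?_
    rcases h with h | h
    · exact Or.inl (h.mul_right _)
    · exact (List.mem_cons.1 h).imp_left fun k : d = a => k ▸ dvd_mul_left d U

/-- The sum of the products. -/
def r4s (L : List ℕ) (Y k : ℕ) : ℕ → ℕ :=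
  Nat.rec (fun U => U) (fun m r U => r4f (Nat.gcd Y (Nat.pred (Nat.pow 2 (Nat.succ m)))) fun M =>
    r4f (Nat.add U (r4p M L 1000000000000)) r) k

theorem r4s_ge (L : List ℕ) (Y k U : ℕ)
    (h : ∀ l ∈ od3 210000, ∀ t ∈ Icc 1 k, l ∣ 2 ^ t - 1 → l ∈ L ∧ l ∣ Y) :
    U + 1000000000000 * ∑ t ∈ Icc 1 k, fq (od3 210000) t ≤ r4s L Y k U := by
  induction k generalizing U with
  | zero => simp [r4s]
  | succ m ih =>
    have e : r4s L Y (m + 1) U =
        r4s L Y m (U + r4p (Nat.gcd Y (2 ^ (m + 1) - 1)) L 1000000000000) :=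
      (r4f_eq (Nat.gcd Y (2 ^ (m + 1) - 1)) fun M =>
        r4f (U + r4p M L 1000000000000) (r4s L Y m)).trans (r4f_eq _ _)
    have h1 := r4p_ge (Nat.gcd Y (2 ^ (m + 1) - 1)) L 1000000000000
      ((od3 210000).filter fun l => l ∣ 2 ^ (m + 1) - 1) fun l hl =>
        have k := mem_filter.1 hl
        have k' := h l k.1 (m + 1) (mem_Icc.2 ⟨by omega, le_rfl⟩) k.2
        ⟨(r4_od k.1).2.1, k'.1, Nat.dvd_gcd k'.2 k.2⟩
    have h2 := ih (U + r4p (Nat.gcd Y (2 ^ (m + 1) - 1)) L 1000000000000) fun l hl t ht =>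
      h l hl t (by rw [mem_Icc] at ht ⊢; omega)
    rw [e, sum_Icc_succ_top (by omega), mul_add]
    rw [Nat.cast_add] at h2
    rw [Nat.cast_ofNat] at h1
    exact le_trans (by unfold fq; linarith) h2

theorem r4_numB : Nat.ble (r4f (r4w 1259 1) fun W => r4g (r4m W 105000 []) fun L =>
    r4f (r4y L 1) fun Y => r4s L Y 1259 0) 2432700000000000 = true := by
  decide +kernel

theorem rA_num : ∑ t ∈ Icc 1 1259, fq (od3 210000) t ≤ 24327 / 10 := by
  have h1 := r4s_ge (r4m (r4w 1259 1) 105000 []) (r4y (r4m (r4w 1259 1) 105000 []) 1) 1259 0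
    fun l hl t ht h =>
      have k := r4_od hl
      have k' := r4m_mem _ _ _ (Or.inr ⟨k.1, k.2.1, k.2.2, r4w_dvd 1259 1 (Or.inr ⟨t, ht, h⟩)⟩)
      ⟨k', r4y_dvd _ _ (Or.inr k')⟩
  have h0 := r4_numB
  rw [r4f_eq, r4g_eq, r4f_eq] at h0
  generalize r4s (r4m (r4w 1259 1) 105000 []) (r4y (r4m (r4w 1259 1) 105000 []) 1) 1259 0 = N
    at h0 h1
  have h3 := h1.trans (Nat.cast_le.2 (Nat.le_of_ble_eq_true h0))
  push_cast at h3
  linarith

end Pool.Agent.Lib.MP_778b46_nt.GL
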