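import Pool.Agent.Lib.MP_778b46_nt.GL.R3
import Pool.Agent.Lib.MP_778b46_nt.GL.R4

/-!
The constant of Romanov type.
-/

set_option autoImplicit false

noncomputable section

namespace Pool.Agent.Lib.MP_778b46_nt.GL

open Finset MeasureTheory Filter
open Pool.Agent.Lib.MP_778b46_nt.MA (lp w1 a1S a1M cf cop R1 I0 RR)
open Pool.Agent.Lib.MP_778b46_nt.VA (ee nd)

theorem r9_od3 {y l : ℕ} (hl : l ∈ od3 y) : l.Prime ∧ 3 ≤ l := by
  unfold od3 at hl
  rw [mem_erase, Nat.mem_primesLE] at hl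
  have := hl.2.2.two_le
  exact ⟨hl.2.2, by omega⟩

theorem r9_fac {l : ℕ} (hl : 3 ≤ l) : (1 : ℝ) ≤ 1 + 1 / ((l : ℝ) - 2) := by
  have h3 : (3 : ℝ) ≤ l := by exact_mod_cast hl
  have : (0 : ℝ) ≤ 1 / ((l : ℝ) - 2) := div_nonneg zero_le_one (by linarith)
  linarith

theorem r9_one_le {Q : Finset ℕ} (hQ : ∀ l ∈ Q, l.Prime ∧ 3 ≤ l) (t : ℕ) : 1 ≤ fq Q t := by
  unfold fq
  exact Finset.one_le_prod fun l hl => r9_fac (hQ l (mem_filter.1 hl).1).2

theorem r9_le {Q : Finset ℕ} (hQ : ∀ l ∈ Q, l.Prime ∧ 3 ≤ l) (t : ℕ) :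
    fq Q t ≤ ∏ l ∈ Q, (1 + 1 / ((l : ℝ) - 2)) := by
  unfold fq
  exact Finset.prod_le_prod_of_subset_of_one_le (filter_subset _ _)
    (fun l hl => zero_le_one.trans (r9_fac (hQ l (mem_filter.1 hl).1).2))
    (fun l hl _ => r9_fac (hQ l hl).2)

/-- The large primes that divide one of the numbers. -/
def r9Q (T : ℕ) : Finset ℕ :=
  ((Icc 1 T).biUnion fun t => (2 ^ t - 1 : ℕ).primeFactors).filter fun l => 210000 < l

theorem r9Q_mem {T l : ℕ} (hl : l ∈ r9Q T) : l.Prime ∧ 210000 < l := by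
  unfold r9Q at hl
  rw [mem_filter, mem_biUnion] at hl
  obtain ⟨⟨t, -, ht⟩, h2⟩ := hl
  exact ⟨Nat.prime_of_mem_primeFactors ht, h2⟩

theorem r9_split {T t : ℕ} (ht : t ∈ Icc 1 T) : fr t = fq (od3 210000) t * fq (r9Q T) t := by
  have h1 : 1 ≤ t := (mem_Icc.1 ht).1
  have h2 : 2 ≤ 2 ^ t := by
    calc 2 = 2 ^ 1 := rfl
      _ ≤ 2 ^ t := Nat.pow_le_pow_right (by norm_num) h1
  have hne : (2 ^ t - 1 : ℕ) ≠ 0 := by omega
  have hodd : ¬ 2 ∣ (2 ^ t - 1 : ℕ) := by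
    have : 2 ∣ 2 ^ t := dvd_pow_self 2 (by omega)
    omega
  unfold fr fq
  rw [← prod_union]
  · refine prod_congr ?_ fun _ _ => rfl
    ext l
    simp only [mem_union, mem_filter, Nat.mem_primeFactors]
    constructor
    · rintro ⟨hp, hd, -⟩
      by_cases hl : 210000 < l
      · right
        refine ⟨?_, hd⟩
        unfold r9Q
        rw [mem_filter, mem_biUnion]
        exact ⟨⟨t, ht, Nat.mem_primeFactors.2 ⟨hp, hd, hne⟩⟩, hl⟩
      · left
        refine ⟨?_, hd⟩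
        unfold od3
        rw [mem_erase, Nat.mem_primesLE]
        refine ⟨?_, by omega, hp⟩
        rintro rfl
        exact hodd hd
    · rintro (⟨h, hd⟩ | ⟨h, hd⟩)
      · exact ⟨(r9_od3 h).1, hd, hne⟩
      · exact ⟨(r9Q_mem h).1, hd, hne⟩
  · rw [disjoint_left]
    intro l ha hb
    have h3 := (r9Q_mem (mem_filter.1 hb).1).2
    have h4 := (mem_filter.1 ha).1
    unfold od3 at h4
    rw [mem_erase, Nat.mem_primesLE] at h4
    omega

theorem rom (T : ℕ) : ∑ t ∈ Icc 1 T, fr t ≤ 1967 / 1000 * T := by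
  have hA : ∀ l ∈ od3 210000, l.Prime ∧ 3 ≤ l := fun l hl => r9_od3 hl
  have hB0 : ∀ l ∈ r9Q T, l.Prime ∧ 210000 < l := fun l hl => r9Q_mem hl
  have hB : ∀ l ∈ r9Q T, l.Prime ∧ 3 ≤ l := fun l hl => ⟨(hB0 l hl).1, by have := (hB0 l hl).2; omega⟩
  have hT : (0 : ℝ) ≤ T := Nat.cast_nonneg T
  have h1 : ∑ t ∈ Icc 1 T, fr t ≤
      ∑ t ∈ Icc 1 T, (fq (od3 210000) t + 16535 / 1000 * (fq (r9Q T) t - 1)) := by
    refine sum_le_sum fun t ht => ?_
    rw [r9_split ht]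
    have a1 := (r9_le hA t).trans rA_max
    have a2 := r9_one_le hB t
    nlinarith [mul_le_mul_of_nonneg_right a1 (sub_nonneg.2 a2)]
  rw [sum_add_distrib, ← mul_sum] at h1
  have h2 := rA hA (M := 1259) (by norm_num) T
  have h3 := rB hB T
  have h4 := rB_num hB0
  have h5 := rA_max
  have h6 := rA_num
  have h7 : ∑ t ∈ Icc 1 T, fq (od3 210000) t ≤ T / 1259 * (24327 / 10 + 16535 / 1000) := by
    refine h2.trans ?_
    push_cast
    exact mul_le_mul_of_nonneg_left (add_le_add h6 h5) (by positivity)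
  have h8 : ∑ t ∈ Icc 1 T, (fq (r9Q T) t - 1) ≤ T * (127 / 100000) :=
    h3.trans (mul_le_mul_of_nonneg_left h4 hT)
  linarith

end Pool.Agent.Lib.MP_778b46_nt.GL
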