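import Pool.Agent.Lib.MP_778b46_nt.GL.A5

/-!
The Selberg sieve for shifted primes: the weights and the lower bound for the sum.
-/

set_option autoImplicit false

noncomputable section

namespace Pool.Agent.Lib.MP_778b46_nt.GL

open Finset MeasureTheory Filter
open Pool.Agent.Lib.MP_778b46_nt.MA (lp w1 a1S a1M cf cop R1 I0 RR)
open Pool.Agent.Lib.MP_778b46_nt.VA (ee nd)

/-- `1 / (l - 2)`. -/
def u2 (l : ℕ) : ℝ := 1 / ((l : ℝ) - 2)

/-- The local factor. -/
def p2 (l : ℕ) (n : ℤ) : ℝ := if (l : ℤ) ∣ n then -1 else u2 l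

/-- The sieve weight. -/
def s2 (P : Finset ℕ) (z : ℕ) (n : ℤ) : ℝ := ∑ S ∈ dd P z, ∏ l ∈ S, p2 l n

/-- Its value on the integers free of `P`. -/
def g2 (P : Finset ℕ) (z : ℕ) : ℝ := ∑ S ∈ dd P z, ∏ l ∈ S, u2 l

/-- The primes up to `z` that do not divide `h`. -/
def Ph (z h : ℕ) : Finset ℕ := (Nat.primesLE z).filter fun l => ¬ l ∣ h

theorem s1_pos {l : ℕ} (hl : 3 ≤ l) : 0 < u2 l := by
  have : (3 : ℝ) ≤ l := by exact_mod_cast hl
  exact one_div_pos.mpr (by linarith)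

theorem s1_uu_le {l : ℕ} (hl : 3 ≤ l) : uu l ≤ u2 l := by
  have : (3 : ℝ) ≤ l := by exact_mod_cast hl
  exact one_div_le_one_div_of_le (by linarith) (by linarith)

theorem s1_mul {l : ℕ} (hl : 3 ≤ l) : (1 - uu l ^ 2) * (1 + u2 l) = 1 + uu l := by
  have : (3 : ℝ) ≤ l := by exact_mod_cast hl
  have h1 : (l : ℝ) - 1 ≠ 0 := by linarith
  have h2 : (l : ℝ) - 2 ≠ 0 := by linarith
  unfold uu u2
  field_simp
  ring

theorem one_le_g2 {P : Finset ℕ} (hP : ∀ l ∈ P, 3 ≤ l) {z : ℕ} (hz : 1 ≤ z) : 1 ≤ g2 P z := by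
  have h : (∅ : Finset ℕ) ∈ dd P z := by simp [dd, hz]
  have := single_le_sum (f := fun S : Finset ℕ => ∏ l ∈ S, u2 l) (fun S hS =>
    prod_nonneg fun l hl => (s1_pos (hP l (subset_of_mem_dd hS hl))).le) h
  simpa [g2] using this

theorem s2_prime {z h n : ℕ} (hn : n.Prime) (hz : z < n) :
    s2 (Ph z h) z n = g2 (Ph z h) z := by
  refine sum_congr rfl fun S hS => prod_congr rfl fun l hl => if_neg fun hd => ?_
  have h1 := (mem_filter.1 (subset_of_mem_dd hS hl)).1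
  have h2 := (Nat.prime_dvd_prime_iff_eq (Nat.prime_of_mem_primesLE h1) hn).1
    (Int.natCast_dvd_natCast.1 hd)
  have h3 := Nat.le_of_mem_primesLE h1
  omega

/-- Splitting off a set of small primes. -/
theorem s1_split {A B P : Finset ℕ} {Q z : ℕ} (hP : ∀ l ∈ P, 3 ≤ l) (hA : A ⊆ P) (hB : B ⊆ P)
    (hd : Disjoint A B) (hQ : ∏ l ∈ A, l ≤ Q) :
    (∏ l ∈ A, (1 + u2 l)) * g2 B (z / Q) ≤ g2 P z := by
  rw [prod_one_add, g2, sum_mul_sum, ← sum_product']
  have e : ∀ x ∈ A.powerset ×ˢ dd B (z / Q), Disjoint x.1 x.2 := fun x hx =>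
    hd.mono (mem_powerset.1 (mem_product.1 hx).1) (subset_of_mem_dd (mem_product.1 hx).2)
  have hinj : Set.InjOn (fun x : Finset ℕ × Finset ℕ => x.1 ∪ x.2)
      (A.powerset ×ˢ dd B (z / Q) : Finset _) := by
    have k : ∀ x ∈ A.powerset ×ˢ dd B (z / Q), (x.1 ∪ x.2) ∩ A = x.1 ∧ (x.1 ∪ x.2) ∩ B = x.2 := by
      intro x hx
      have h1 := mem_powerset.1 (mem_product.1 hx).1
      have h2 := subset_of_mem_dd (mem_product.1 hx).2
      rw [union_inter_distrib_right, union_inter_distrib_right, inter_eq_left.2 h1,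
        inter_eq_left.2 h2, disjoint_iff_inter_eq_empty.1 (hd.symm.mono_left h2),
        disjoint_iff_inter_eq_empty.1 (hd.mono_left h1)]
      simp
    intro x hx x' hx' h
    have h' : x.1 ∪ x.2 = x'.1 ∪ x'.2 := h
    exact Prod.ext (by rw [← (k x hx).1, h', (k x' hx').1]) (by rw [← (k x hx).2, h', (k x' hx').2])
  rw [sum_congr rfl fun x hx => (prod_union (e x hx)).symm,
    ← sum_image (f := fun S : Finset ℕ => ∏ l ∈ S, u2 l) hinj]
  refine sum_le_sum_of_subset_of_nonneg (fun S hS => ?_) fun S hS _ =>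
    prod_nonneg fun l hl => (s1_pos (hP l (subset_of_mem_dd hS hl))).le
  obtain ⟨x, hx, rfl⟩ := mem_image.1 hS
  have h1 := mem_powerset.1 (mem_product.1 hx).1
  have h2 := (mem_product.1 hx).2
  refine mem_filter.2 ⟨mem_powerset.2 (union_subset (h1.trans hA)
    ((subset_of_mem_dd h2).trans hB)), ?_⟩
  rw [prod_union (e x hx)]
  refine le_trans (Nat.mul_le_mul (le_trans ?_ hQ) (mem_filter.1 h2).2) (Nat.mul_div_le z Q)
  exact prod_le_prod_of_subset_of_one_le' h1 fun l hl _ => by have := hP l (hA hl); omega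

theorem g2_low {y z h : ℕ} (hy : 2 ≤ y) (hz : y ≤ z) (h0 : 0 < h) (h2 : Even h) :
    Real.log ((z / primorial y : ℕ) + 1) ≤ 2 * SM y h * g2 (Ph z h) z := by
  set A := (od3 y).filter fun l : ℕ => ¬ (l : ℤ) ∣ (h : ℤ) with hA
  set B := (Ph z h).filter fun l => y < l with hB
  set D := h.primeFactors.erase 2 with hD
  have mA : ∀ l, l ∈ A ↔ l ≠ 2 ∧ l ≤ y ∧ l.Prime ∧ ¬ l ∣ h := fun l => by
    simp [hA, od3, Nat.mem_primesLE, Int.natCast_dvd_natCast, and_assoc]
  have mP : ∀ l, l ∈ Ph z h ↔ l ≤ z ∧ l.Prime ∧ ¬ l ∣ h := fun l => by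
    simp [Ph, Nat.mem_primesLE, and_assoc]
  have mD : ∀ l, l ∈ D ↔ l ≠ 2 ∧ l.Prime ∧ l ∣ h := fun l => by
    simp [hD, h0.ne']
  have hP : ∀ l ∈ Ph z h, 3 ≤ l := fun l hl => by
    obtain ⟨-, a, b⟩ := (mP l).1 hl
    have := a.two_le
    have : l ≠ 2 := fun e => b (e ▸ h2.two_dvd)
    omega
  have hAP : A ⊆ Ph z h := fun l hl => by
    obtain ⟨-, a, b, c⟩ := (mA l).1 hl
    exact (mP l).2 ⟨a.trans hz, b, c⟩
  have hBP : B ⊆ Ph z h := filter_subset _ _
  have hAB : Disjoint A B := disjoint_left.2 fun l a b => by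
    have := ((mA l).1 a).2.1
    have := (mem_filter.1 b).2
    omega
  have hAD : Disjoint A D := disjoint_left.2 fun l a b => ((mA l).1 a).2.2.2 ((mD l).1 b).2.2
  have hQ : ∏ l ∈ A, l ≤ primorial y := by
    refine prod_le_prod_of_subset_of_one_le' (fun l hl => ?_) fun l hl _ =>
      (mem_filter.1 hl).2.one_le
    obtain ⟨-, a, b, -⟩ := (mA l).1 hl
    exact mem_filter.2 ⟨mem_range.2 (by omega), b⟩
  have h3 := s1_split (z := z) hP hAP hBP hAB hQ
  have h4 := log_le_gg_mul (insert 2 (A ∪ D)) B (z / primorial y) (fun l hl => by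
      rcases mem_insert.1 hl with rfl | hl
      · exact Nat.prime_two
      · rcases mem_union.1 hl with a | a
        exacts [((mA l).1 a).2.2.1, ((mD l).1 a).2.1])
    (fun l hl => ((mP l).1 (hBP hl)).2.1) fun l hl hle => by
      have a := hle.trans (Nat.div_le_self _ _)
      rw [mem_insert, mem_union, mA, mD, hB, mem_filter, mP, ← not_le]
      tauto
  have h5 : mert (insert 2 (A ∪ D)) = 2 * ((∏ l ∈ A, (1 + uu l)) * ∏ l ∈ D, (1 + uu l)) := by
    rw [mert, prod_insert (by rw [mem_union, mA, mD]; tauto), prod_union hAD]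
    norm_num [uu]
  have h6 : gg B (z / primorial y) ≤ g2 B (z / primorial y) :=
    sum_le_sum fun S hS => prod_le_prod
      (fun l hl => (uu_pos ((mP l).1 (hBP (subset_of_mem_dd hS hl))).2.1).le)
      fun l hl => s1_uu_le (hP l (hBP (subset_of_mem_dd hS hl)))
  have h7 : SM y h = (∏ l ∈ A, (1 - uu l ^ 2)) * ∏ l ∈ D, (1 + uu l) := by
    rw [SM, if_neg (by exact_mod_cast h0.ne'), Int.natAbs_natCast]
  have h8 : ∏ l ∈ A, (1 + uu l) = (∏ l ∈ A, (1 - uu l ^ 2)) * ∏ l ∈ A, (1 + u2 l) := by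
    rw [← prod_mul_distrib]
    exact prod_congr rfl fun l hl => (s1_mul (hP l (hAP hl))).symm
  have p1 : 0 ≤ ∏ l ∈ A, (1 - uu l ^ 2) := prod_nonneg fun l hl => by
    have a := uu_pos ((mA l).1 hl).2.2.1
    have b := uu_le_one ((mA l).1 hl).2.2.1
    nlinarith
  have p2 : 0 ≤ ∏ l ∈ D, (1 + uu l) := prod_nonneg fun l hl => by
    have a := uu_pos ((mD l).1 hl).2.1
    linarith
  have p3 : 0 ≤ ∏ l ∈ A, (1 + u2 l) := prod_nonneg fun l hl => by
    have a := s1_pos (hP l (hAP hl))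
    linarith
  rw [h5, h8] at h4
  rw [h7]
  refine h4.trans ((mul_le_mul_of_nonneg_right h6 (by positivity)).trans ?_)
  refine le_trans (le_of_eq ?_) (mul_le_mul_of_nonneg_left h3 (by positivity))
  ring

end Pool.Agent.Lib.MP_778b46_nt.GL
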