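import Pool.Agent.Lib.MP_778b46_nt.GL.S1
import Pool.Agent.Lib.MP_778b46_nt.GL.B5

/-!
The mean of the square of the sieve weight over the shifted primes.
-/

set_option autoImplicit false

noncomputable section

namespace Pool.Agent.Lib.MP_778b46_nt.GL

open Finset MeasureTheory Filter
open Pool.Agent.Lib.MP_778b46_nt.MA (lp w1 a1S a1M cf cop R1 I0 RR)
open Pool.Agent.Lib.MP_778b46_nt.VA (ee nd)

/-- The constant part of the local factor. -/
def s2al (l : ℕ) (S T : Finset ℕ) : ℝ :=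
  if l ∈ S then (if l ∈ T then u2 l ^ 2 else u2 l) else (if l ∈ T then u2 l else 1)

/-- The part on the multiples of `l`. -/
def s2be (l : ℕ) (S T : Finset ℕ) : ℝ :=
  if l ∈ S then (if l ∈ T then 1 - u2 l ^ 2 else -(1 + u2 l))
  else (if l ∈ T then -(1 + u2 l) else 0)

theorem s2_u2 {l : ℕ} (hl : 3 ≤ l) : 0 < u2 l ∧ u2 l ≤ 1 ∧ (1 + u2 l) * uu l = u2 l ∧
    1 + u2 l ≤ (1 + uu l) ^ 2 := by
  have h3 : (3 : ℝ) ≤ l := by exact_mod_cast hl
  have h1 : (0 : ℝ) < (l : ℝ) - 1 := by linarith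
  have h2 : (0 : ℝ) < (l : ℝ) - 2 := by linarith
  unfold u2 uu
  refine ⟨by positivity, by rw [div_le_one h2]; linarith, by field_simp; ring, ?_⟩
  have e1 : 1 + 1 / ((l : ℝ) - 2) = ((l : ℝ) - 1) / (l - 2) := by field_simp; ring
  have e2 : 1 + 1 / ((l : ℝ) - 1) = (l : ℝ) / (l - 1) := by field_simp; ring
  rw [e1, e2, div_pow, div_le_div_iff₀ h2 (by positivity)]
  nlinarith [mul_nonneg (sub_nonneg.mpr h3) (by linarith : (0 : ℝ) ≤ l)]

theorem s2_sq {P : Finset ℕ} (z : ℕ) (n : ℤ) : s2 P z n ^ 2 = ∑ S ∈ dd P z, ∑ T ∈ dd P z,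
    ∏ l ∈ P, (s2al l S T + if (l : ℤ) ∣ n then s2be l S T else 0) := by
  rw [sq, s2, sum_mul_sum]
  refine sum_congr rfl fun S hS => sum_congr rfl fun T hT => ?_
  rw [prod_eq_prod_ite (subset_of_mem_dd hS), prod_eq_prod_ite (subset_of_mem_dd hT),
    ← prod_mul_distrib]
  refine prod_congr rfl fun l _ => ?_
  unfold s2al s2be p2
  split_ifs <;> ring

theorem s2_main {h : ℤ} {P : Finset ℕ} (hP : ∀ l ∈ P, l.Prime ∧ 3 ≤ l ∧ ¬ (l : ℤ) ∣ h) (z : ℕ) :
    g2 P z = ∑ S ∈ dd P z, ∑ T ∈ dd P z,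
      ∏ l ∈ P, (s2al l S T + if (l : ℤ) ∣ h then 0 else s2be l S T * uu l) := by
  unfold g2
  refine sum_congr rfl fun S hS => ?_
  rw [sum_eq_single_of_mem S hS]
  · rw [prod_eq_prod_ite (subset_of_mem_dd hS)]
    refine prod_congr rfl fun l hl => ?_
    have h1 := (s2_u2 (hP l hl).2.1).2.2.1
    rw [if_neg (hP l hl).2.2]
    unfold s2al s2be
    split_ifs
    · linear_combination (u2 l - 1) * h1
    · ring
  · intro T hT hne
    have : ∃ l, ¬ (l ∈ T ↔ l ∈ S) := by
      by_contra hcon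
      push Not at hcon
      exact hne (Finset.ext hcon)
    obtain ⟨l, hl⟩ := this
    have hlP : l ∈ P := by
      by_cases h : l ∈ T
      · exact subset_of_mem_dd hT h
      · exact subset_of_mem_dd hS (by tauto)
    refine prod_eq_zero hlP ?_
    have h1 := (s2_u2 (hP l hlP).2.1).2.2.1
    rw [if_neg (hP l hlP).2.2]
    unfold s2al s2be
    split_ifs
    · tauto
    · linear_combination (-1 : ℝ) * h1
    · linear_combination (-1 : ℝ) * h1
    · tauto

theorem s2_coef {P : Finset ℕ} (hP : ∀ l ∈ P, l.Prime ∧ 3 ≤ l) (z : ℕ) {B : Finset ℕ}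
    (hB : B ⊆ P) :
    ∑ S ∈ dd P z, ∑ T ∈ dd P z, (∏ l ∈ P \ B, |s2al l S T|) * ∏ l ∈ B, |s2be l S T| ≤
      if ∏ l ∈ B, l ≤ z ^ 2 then mert P ^ 4 * 6 ^ B.card else 0 := by
  have hP' : ∀ l ∈ P, l.Prime := fun l hl => (hP l hl).1
  split_ifs with hz
  · have hsub : dd P z ⊆ P.powerset := filter_subset _ _
    have h1 : ∀ S T, (∏ l ∈ P \ B, |s2al l S T|) * ∏ l ∈ B, |s2be l S T| =
        ∏ l ∈ P, if l ∈ B then |s2be l S T| else |s2al l S T| := by
      intro S T
      rw [prod_ite, filter_mem_eq_inter, inter_eq_right.mpr hB, ← sdiff_eq_filter, mul_comm]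
    have h0 : ∀ S T, 0 ≤ ∏ l ∈ P, if l ∈ B then |s2be l S T| else |s2al l S T| := fun S T =>
      prod_nonneg fun l _ => by split_ifs <;> exact abs_nonneg _
    simp only [h1]
    calc _ ≤ ∑ S ∈ P.powerset, ∑ T ∈ P.powerset,
          ∏ l ∈ P, if l ∈ B then |s2be l S T| else |s2al l S T| := by
          refine le_trans (sum_le_sum fun S _ => ?_)
            (sum_le_sum_of_subset_of_nonneg hsub fun S _ _ => sum_nonneg fun T _ => h0 S T)
          exact sum_le_sum_of_subset_of_nonneg hsub fun T _ _ => h0 S T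
      _ = ∑ S ∈ P.powerset, ∏ l ∈ P, (if l ∈ S then
            (if l ∈ B then |1 - u2 l ^ 2| + |1 + u2 l| else |u2 l ^ 2| + |u2 l|)
            else (if l ∈ B then |1 + u2 l| else |u2 l| + 1)) := by
          refine sum_congr rfl fun S _ => ?_
          have h2 : ∀ T : Finset ℕ, (∏ l ∈ P, if l ∈ B then |s2be l S T| else |s2al l S T|) =
              ∏ l ∈ P, (if l ∈ T then
                (if l ∈ S then (if l ∈ B then |1 - u2 l ^ 2| else |u2 l ^ 2|)
                  else (if l ∈ B then |1 + u2 l| else |u2 l|))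
                else (if l ∈ S then (if l ∈ B then |1 + u2 l| else |u2 l|)
                  else (if l ∈ B then 0 else 1))) := by
            intro T
            refine prod_congr rfl fun l _ => ?_
            unfold s2al s2be
            split_ifs <;> first | rfl | exact abs_neg _ | exact abs_zero | exact abs_one
          simp only [h2]
          rw [sum_powerset_prod_ite]
          refine prod_congr rfl fun l _ => ?_
          split_ifs <;> first | rfl | exact add_zero _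
      _ = ∏ l ∈ P, ((if l ∈ B then |1 - u2 l ^ 2| + |1 + u2 l| else |u2 l ^ 2| + |u2 l|) +
            (if l ∈ B then |1 + u2 l| else |u2 l| + 1)) := sum_powerset_prod_ite _ _
      _ ≤ ∏ l ∈ P, ((1 + uu l) ^ 4 * if l ∈ B then 6 else 1) := by
          refine prod_le_prod (fun l _ => ?_) fun l hl => ?_
          · split_ifs <;> positivity
          · obtain ⟨h3, h4, -, h5⟩ := s2_u2 (hP l hl).2
            have h6 := uu_pos (hP' l hl)
            have h7 : (1 : ℝ) ≤ (1 + uu l) ^ 4 := one_le_pow₀ (by linarith)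
            have h8 : (1 + u2 l) ^ 2 ≤ ((1 + uu l) ^ 2) ^ 2 := by gcongr
            split_ifs
            · rw [abs_of_nonneg (by nlinarith), abs_of_pos (by linarith)]
              nlinarith
            · rw [abs_of_nonneg (by positivity), abs_of_pos h3]
              nlinarith
      _ = mert P ^ 4 * 6 ^ B.card := by
          rw [prod_mul_distrib, ← prod_eq_prod_ite hB, prod_const, mert, prod_pow]
  · refine le_of_eq (sum_eq_zero fun S hS => sum_eq_zero fun T hT => ?_)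
    by_contra hne
    have h3 := prod_ne_zero_iff.mp (right_ne_zero_of_mul hne)
    have hsub : B ⊆ S ∪ T := by
      intro l hl
      by_contra hcon
      rw [mem_union, not_or] at hcon
      apply h3 l hl
      simp [s2be, hcon.1, hcon.2]
    have hSP := subset_of_mem_dd hS
    have hTP := subset_of_mem_dd hT
    apply hz
    calc ∏ l ∈ B, l ≤ ∏ l ∈ S ∪ T, l := prod_le_prod_of_subset_of_one_le' hsub fun l hl _ =>
          (hP' l (union_subset hSP hTP hl)).pos
      _ ≤ (∏ l ∈ S, l) * ∏ l ∈ T, l := prod_union_le hP' hSP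
      _ ≤ z ^ 2 := by
          rw [sq]; exact Nat.mul_le_mul (mem_filter.mp hS).2 (mem_filter.mp hT).2

theorem selb (X : ℝ) (h : ℤ) {P : Finset ℕ} (hP : ∀ l ∈ P, l.Prime ∧ 3 ≤ l ∧ ¬ (l : ℤ) ∣ h)
    (z : ℕ) :
    |∑ n ∈ Icc 1 ⌊X⌋₊, pw X n * s2 P z (n + h) ^ 2 - X * I2 * g2 P z| ≤
      mert P ^ 4 * ∑ B ∈ dd P (z ^ 2), 6 ^ B.card * DS X (∏ l ∈ B, l) h := by
  have hP' : ∀ l ∈ P, l.Prime := fun l hl => (hP l hl).1
  have e1 : ∑ n ∈ Icc 1 ⌊X⌋₊, pw X n * s2 P z (n + h) ^ 2 = ∑ S ∈ dd P z, ∑ T ∈ dd P z,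
      ∑ n ∈ Icc 1 ⌊X⌋₊, pw X n *
        ∏ l ∈ P, (s2al l S T + if (l : ℤ) ∣ n + h then s2be l S T else 0) := by
    simp only [s2_sq, mul_sum]
    rw [sum_comm]
    refine sum_congr rfl fun S _ => ?_
    rw [sum_comm]
  rw [e1, s2_main hP z, mul_sum, ← sum_sub_distrib]
  calc _ ≤ ∑ S ∈ dd P z, ∑ T ∈ dd P z, ∑ B ∈ P.powerset,
        (∏ l ∈ P \ B, |s2al l S T|) * (∏ l ∈ B, |s2be l S T|) * DS X (∏ l ∈ B, l) h := by
        refine (abs_sum_le_sum_abs _ _).trans (sum_le_sum fun S _ => ?_)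
        rw [mul_sum, ← sum_sub_distrib]
        exact (abs_sum_le_sum_abs _ _).trans (sum_le_sum fun T _ =>
          eq_prod X h P hP' (fun l => s2al l S T) fun l => s2be l S T)
    _ = ∑ B ∈ P.powerset, (∑ S ∈ dd P z, ∑ T ∈ dd P z,
        (∏ l ∈ P \ B, |s2al l S T|) * ∏ l ∈ B, |s2be l S T|) * DS X (∏ l ∈ B, l) h := by
        simp only [sum_mul]
        rw [sum_comm (s := P.powerset)]
        refine sum_congr rfl fun S _ => ?_
        rw [sum_comm]
    _ ≤ ∑ B ∈ P.powerset, (if ∏ l ∈ B, l ≤ z ^ 2 then mert P ^ 4 * 6 ^ B.card else 0) *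
        DS X (∏ l ∈ B, l) h :=
        sum_le_sum fun B hB => mul_le_mul_of_nonneg_right
          (s2_coef (fun l hl => ⟨(hP l hl).1, (hP l hl).2.1⟩) z (mem_powerset.mp hB))
          (abs_nonneg _)
    _ = _ := by
        rw [mul_sum, dd, sum_filter]
        refine sum_congr rfl fun B _ => ?_
        split_ifs <;> ring

end Pool.Agent.Lib.MP_778b46_nt.GL
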