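import Pool.Agent.Lib.MP_778b46_nt.GL.Defs
import Pool.Agent.Lib.MP_778b46_nt.GL.ZDef

set_option autoImplicit false

noncomputable section

namespace Pool.Agent.Lib.MP_778b46_nt.GL

open Finset MeasureTheory Filter
open Pool.Agent.Lib.MP_778b46_nt.MA (lp w1 a1S a1M cf cop R1 I0 RR)
open Pool.Agent.Lib.MP_778b46_nt.VA (ee nd)

/-- The sum of `1 / (l - 1)` over the large primes dividing `m`. -/
def zt (y m : ℕ) : ℝ := ∑ l ∈ m.primeFactors.filter (fun l => y < l), uu l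

theorem zt_nonneg (y m : ℕ) : 0 ≤ zt y m :=
  sum_nonneg fun _ hl => (uu_pos (Nat.prime_of_mem_primeFactors (mem_filter.1 hl).1)).le

theorem t1_ra {m : ℕ} (hm : 1 ≤ m) : ra m = ∏ l ∈ m.primeFactors, (1 + uu l) := by
  rw [ra_eq hm]
  refine prod_congr rfl fun l hl => ?_
  rw [← mul_uu (Nat.prime_of_mem_primeFactors hl), uu, mul_one_div]

theorem t1_sum_le {T : Finset ℕ} {a : ℕ → ℝ} (ha : ∀ l ∈ T, 0 ≤ a l) :
    1 + ∑ l ∈ T, a l ≤ ∏ l ∈ T, (1 + a l) ∧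
      ∏ l ∈ T, (1 + a l) - 1 ≤ (∑ l ∈ T, a l) * ∏ l ∈ T, (1 + a l) := by
  induction T using Finset.induction_on with
  | empty => simp
  | insert x T hx ih =>
    obtain ⟨h1, h2⟩ := ih fun l hl => ha l (mem_insert_of_mem hl)
    have h3 := ha x (mem_insert_self _ _)
    have h4 : 0 ≤ ∑ l ∈ T, a l := sum_nonneg fun l hl => ha l (mem_insert_of_mem hl)
    rw [sum_insert hx, prod_insert hx]
    have h5 : 0 ≤ ∏ l ∈ T, (1 + a l) := by linarith
    constructor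
    · nlinarith [mul_nonneg h3 h4]
    · nlinarith [mul_nonneg h3 h5, mul_nonneg h3 (mul_nonneg h3 h5), mul_nonneg h3 (mul_nonneg h4 h5)]

theorem zt_le (y m : ℕ) : zt y m ≤ ra m := by
  rcases Nat.eq_zero_or_pos m with rfl | hm
  · simp [zt, ra]
  have h0 : ∀ l ∈ m.primeFactors, 0 ≤ uu l := fun l hl =>
    (uu_pos (Nat.prime_of_mem_primeFactors hl)).le
  have h1 := (t1_sum_le h0).1
  have h2 : zt y m ≤ ∑ l ∈ m.primeFactors, uu l :=
    sum_le_sum_of_subset_of_nonneg (filter_subset _ _) fun l hl _ => h0 l hl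
  rw [t1_ra hm]
  linarith

theorem t1_gen {P Q : Finset ℕ} {D : Finset (Finset ℕ)} (hQ : Q ⊆ P) (h1 : Q.powerset ⊆ D)
    (h2 : D ⊆ P.powerset) (a : ℕ → ℝ) : |∑ S ∈ D, ∏ l ∈ S, a l - ∏ l ∈ Q, (1 + a l)| ≤
      (∑ l ∈ P \ Q, |a l|) * ∏ l ∈ P, (1 + |a l|) := by
  have e1 : ∑ S ∈ D, ∏ l ∈ S, a l - ∏ l ∈ Q, (1 + a l) = ∑ S ∈ D \ Q.powerset, ∏ l ∈ S, a l := by
    rw [prod_one_add, sum_sdiff_eq_sub h1]
  have e2 : ∑ S ∈ P.powerset \ Q.powerset, ∏ l ∈ S, |a l| =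
      ∏ l ∈ P, (1 + |a l|) - ∏ l ∈ Q, (1 + |a l|) := by
    rw [prod_one_add, prod_one_add, sum_sdiff_eq_sub (h1.trans h2)]
  have e3 := (t1_sum_le (T := P \ Q) (a := fun l => |a l|) fun l _ => abs_nonneg _).2
  have e4 : 0 ≤ ∏ l ∈ Q, (1 + |a l|) := prod_nonneg fun l _ => by positivity
  rw [e1]
  refine (abs_sum_le_sum_abs _ _).trans ?_
  simp only [abs_prod]
  refine (sum_le_sum_of_subset_of_nonneg (sdiff_subset_sdiff h2 Subset.rfl)
    fun S _ _ => prod_nonneg fun l _ => abs_nonneg _).trans ?_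
  rw [e2, ← prod_sdiff hQ]
  nlinarith [mul_le_mul_of_nonneg_right e3 e4]

theorem t1_mem {l : ℕ} (hl : l.Prime) {m : ℤ} (h0 : m ≠ 0) (h : (l : ℤ) ∣ m) :
    l ∈ m.natAbs.primeFactors :=
  Nat.mem_primeFactors.2 ⟨hl, Int.natCast_dvd.1 h, Int.natAbs_ne_zero.2 h0⟩

theorem t1_prod {P : Finset ℕ} (hP : ∀ l ∈ P, l.Prime) {m : ℤ} (h0 : m ≠ 0) :
    ∏ l ∈ P, (1 + |rho l m|) ≤ 8 * ra m.natAbs := by
  have h1 : ∏ l ∈ P, (1 + |rho l m|) ≤
      ∏ l ∈ P, (Real.exp (uu l ^ 2) * if (l : ℤ) ∣ m then 1 + uu l else 1) := by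
    refine prod_le_prod (fun l _ => by positivity) fun l hl => ?_
    have := uu_pos (hP l hl)
    have e := Real.add_one_le_exp (uu l ^ 2)
    unfold rho
    split_ifs
    · rw [abs_of_pos this]
      nlinarith [sq_nonneg (uu l)]
    · rw [abs_neg, abs_of_nonneg (sq_nonneg _)]
      linarith
  have h2 : ∑ l ∈ P, uu l ^ 2 ≤ 2 := by
    simpa using sum_uu_sq_le (P := P) (w := 1) le_rfl fun l hl => (hP l hl).one_lt
  have h3 : Real.exp 2 ≤ 8 := by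
    have := Real.exp_one_lt_d9
    have e : Real.exp 2 = Real.exp 1 * Real.exp 1 := by rw [← Real.exp_add]; norm_num
    nlinarith [Real.exp_pos 1]
  have h4 : ∏ l ∈ P.filter (fun l : ℕ => (l : ℤ) ∣ m), (1 + uu l) ≤ ra m.natAbs := by
    rw [t1_ra (Int.natAbs_pos.2 h0)]
    refine prod_le_prod_of_subset_of_one_le (fun l hl => t1_mem (hP l (mem_filter.1 hl).1) h0
      (mem_filter.1 hl).2) (fun l hl => ?_) fun l hl _ => ?_
    · linarith [uu_pos (hP l (mem_filter.1 hl).1)]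
    · linarith [uu_pos (Nat.prime_of_mem_primeFactors hl)]
  rw [prod_mul_distrib, ← Real.exp_sum, ← prod_filter] at h1
  exact h1.trans (mul_le_mul ((Real.exp_le_exp.2 h2).trans h3) h4
    (prod_nonneg fun l hl => by linarith [uu_pos (hP l (mem_filter.1 hl).1)]) (by norm_num))

theorem t1_sum {T : Finset ℕ} {y : ℕ} (hy : 1 ≤ y) (hT : ∀ l ∈ T, l.Prime ∧ y < l) {m : ℤ}
    (h0 : m ≠ 0) : ∑ l ∈ T, |rho l m| ≤ zt y m.natAbs + 2 / y := by
  have h1 : ∑ l ∈ T, |rho l m| ≤ ∑ l ∈ T, ((if (l : ℤ) ∣ m then uu l else 0) + uu l ^ 2) := by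
    refine sum_le_sum fun l hl => ?_
    have := uu_pos (hT l hl).1
    unfold rho
    split_ifs
    · rw [abs_of_pos this]
      linarith [sq_nonneg (uu l)]
    · rw [abs_neg, abs_of_nonneg (sq_nonneg _), zero_add]
  rw [sum_add_distrib, ← sum_filter] at h1
  refine h1.trans (add_le_add ?_ (sum_uu_sq_le hy fun l hl => (hT l hl).2))
  refine sum_le_sum_of_subset_of_nonneg (fun l hl => ?_) fun l hl _ =>
    (uu_pos (Nat.prime_of_mem_primeFactors (mem_filter.1 hl).1)).le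
  obtain ⟨a, b⟩ := mem_filter.1 hl
  exact mem_filter.2 ⟨t1_mem (hT l a).1 h0 b, (hT l a).2⟩

theorem t1_pt {y R : ℕ} (hy : 2 ≤ y) (hR : primorial y ≤ R) {m : ℤ} (h0 : m ≠ 0) (hm : Even m) :
    |ST R m - 2 * SO y m| ≤ 8 * ra m.natAbs * (zt y m.natAbs + 2 / y) := by
  have hd : ∀ S ⊆ Nat.primesLE y, ∏ l ∈ S, l ≤ R := fun S hS =>
    (Nat.le_of_dvd (primorial_pos y) (prod_dvd_prod_of_subset _ _ _ hS)).trans hR
  have hQ : Nat.primesLE y ⊆ Nat.primesLE R := fun l hl => Nat.mem_primesLE.2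
    ⟨by simpa using hd {l} (singleton_subset_iff.2 hl), Nat.prime_of_mem_primesLE hl⟩
  have e : 2 * SO y m = ∏ l ∈ Nat.primesLE y, (1 + rho l m) := by
    have h2 : 2 ∈ Nat.primesLE y := Nat.mem_primesLE.2 ⟨hy, Nat.prime_two⟩
    have h3 : ((2 : ℕ) : ℤ) ∣ m := by exact_mod_cast hm.two_dvd
    rw [← mul_prod_erase _ _ h2, rho, if_pos h3, SO, od3, uu]
    norm_num
  have h1 := t1_gen (D := dd (Nat.primesLE R) R) hQ (fun S hS => mem_filter.2
    ⟨mem_powerset.2 ((mem_powerset.1 hS).trans hQ), hd S (mem_powerset.1 hS)⟩)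
    (filter_subset _ _) fun l => rho l m
  have h2 := t1_prod (P := Nat.primesLE R) (fun l hl => Nat.prime_of_mem_primesLE hl) h0
  have h3 := t1_sum (T := Nat.primesLE R \ Nat.primesLE y) (y := y) (by omega) (fun l hl => by
    obtain ⟨a, b⟩ := mem_sdiff.1 hl
    have hp := Nat.prime_of_mem_primesLE a
    exact ⟨hp, not_le.1 fun k => b (Nat.mem_primesLE.2 ⟨k, hp⟩)⟩) h0
  rw [e, mul_comm]
  exact h1.trans (mul_le_mul h3 h2 (prod_nonneg fun l _ => by positivity)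
    (add_nonneg (zt_nonneg _ _) (by positivity)))

end Pool.Agent.Lib.MP_778b46_nt.GL
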