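import Pool.Agent.Lib.MP_778b46_nt.GL.ZDef
import Pool.Agent.Lib.MP_778b46_nt.MA.F4

set_option autoImplicit false

noncomputable section

namespace Pool.Agent.Lib.MP_778b46_nt.GL

open Complex Finset Filter
open scoped Real
open Pool.Agent.Lib.MP_778b46_nt.MA
open Pool.Agent.Lib.MP_778b46_nt.GX (DC Lp cd ord lam pr)

theorem zc_gap {d o : ℕ} (hd : Odd d) (h : ∀ k, 0 < k → k < o → ¬ d ∣ 2 ^ k - 1)
    {M a b : ℕ} (hab : a < b) (hb : 2 ^ b ≤ M) (h1 : d ∣ M - 2 ^ a) (h2 : d ∣ M - 2 ^ b) :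
    a + o ≤ b := by
  by_contra hc
  obtain ⟨k, rfl⟩ : ∃ k, b = a + k := ⟨b - a, by omega⟩
  refine h k (by omega) (by omega) ?_
  have h3 : d ∣ (M - 2 ^ a) - (M - 2 ^ (a + k)) := Nat.dvd_sub h1 h2
  have h4 : 2 ^ a ≤ 2 ^ (a + k) := Nat.pow_le_pow_right (by norm_num) (by omega)
  have h5 : (M - 2 ^ a) - (M - 2 ^ (a + k)) = 2 ^ a * (2 ^ k - 1) := by
    rw [Nat.mul_sub, ← pow_add, mul_one]
    omega
  rw [h5] at h3
  exact (Nat.Coprime.pow_right a (Nat.coprime_two_right.2 hd)).dvd_of_dvd_mul_left h3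

/-- The exponents `a` with `d ∣ M - 2 ^ a` are spaced by the order of two. -/
theorem cnt_pow {d o : ℕ} (hd : Odd d) (ho : 0 < o) (h : ∀ k, 0 < k → k < o → ¬ d ∣ 2 ^ k - 1)
    (M a0 L : ℕ) :
    (((Ico a0 (a0 + L)).filter fun a => 2 ^ a ≤ M ∧ d ∣ M - 2 ^ a).card : ℝ) ≤ L / o + 1 := by
  have key : ∀ a ∈ (Ico a0 (a0 + L)).filter fun a => 2 ^ a ≤ M ∧ d ∣ M - 2 ^ a,
      ∀ b ∈ (Ico a0 (a0 + L)).filter fun a => 2 ^ a ≤ M ∧ d ∣ M - 2 ^ a, a < b →
        (a - a0) / o < (b - a0) / o := by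
    intro a ha b hb hab
    rw [mem_filter, mem_Ico] at ha hb
    have h1 := zc_gap hd h hab hb.2.1 ha.2.2 hb.2.2
    calc (a - a0) / o < (a - a0) / o + 1 := Nat.lt_succ_self _
      _ = (a - a0 + o) / o := (Nat.add_div_right _ ho).symm
      _ ≤ (b - a0) / o := Nat.div_le_div_right (by omega)
  have h1 : ((Ico a0 (a0 + L)).filter fun a => 2 ^ a ≤ M ∧ d ∣ M - 2 ^ a).card ≤
      (range (L / o + 1)).card := by
    refine card_le_card_of_injOn (fun a => (a - a0) / o) (fun a ha => ?_) (fun a ha b hb e => ?_)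
    · have ha' := mem_filter.1 (mem_coe.1 ha)
      rw [mem_Ico] at ha'
      exact mem_coe.2 (mem_range.2 (Nat.lt_succ_of_le (Nat.div_le_div_right (by omega))))
    · rcases lt_trichotomy a b with h2 | h2 | h2
      · exact absurd e (key a (mem_coe.1 ha) b (mem_coe.1 hb) h2).ne
      · exact h2
      · exact absurd e.symm (key b (mem_coe.1 hb) a (mem_coe.1 ha) h2).ne
  rw [card_range] at h1
  have h2 : ((L / o : ℕ) : ℝ) ≤ L / o := Nat.cast_div_le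
  have h3 : (((Ico a0 (a0 + L)).filter fun a => 2 ^ a ≤ M ∧ d ∣ M - 2 ^ a).card : ℝ) ≤
      ((L / o : ℕ) : ℝ) + 1 := by exact_mod_cast h1
  linarith

theorem zc_card {M y : ℕ} (hM : 1 ≤ M) (h : M ≤ 2 ^ y) : M.primeFactors.card ≤ y := by
  have h1 : 2 ^ M.primeFactors.card ≤ ∏ p ∈ M.primeFactors, p :=
    Finset.pow_card_le_prod _ _ _ fun p hp => (Nat.prime_of_mem_primeFactors hp).two_le
  have h2 : ∏ p ∈ M.primeFactors, p ≤ M := Nat.le_of_dvd hM (Nat.prod_primeFactors_dvd M)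
  exact (Nat.pow_le_pow_iff_right (by norm_num)).1 (h1.trans (h2.trans h))

theorem ra_le : ∃ C : ℝ, 1 ≤ C ∧ ∀ M y : ℕ, 1 ≤ M → 2 ≤ y → M ≤ 2 ^ y →
    ra M ≤ C * Real.log y := by
  obtain ⟨C, hC, h⟩ := mert_le
  refine ⟨3 * C, by linarith, fun M y hM hy hMy => ?_⟩
  have hy0 : (2 : ℝ) ≤ y := by exact_mod_cast hy
  have e : ra M = ∏ p ∈ M.primeFactors, (1 + uu p) := by
    rw [ra_eq hM]
    refine prod_congr rfl fun p hp => ?_
    have h3 : (2 : ℝ) ≤ p := by exact_mod_cast (Nat.prime_of_mem_primeFactors hp).two_le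
    have h4 : (p : ℝ) - 1 ≠ 0 := by linarith
    unfold uu
    field_simp
    ring
  have hu : ∀ p ∈ M.primeFactors, 0 ≤ 1 + uu p := by
    intro p hp
    have h3 : (2 : ℝ) ≤ p := by exact_mod_cast (Nat.prime_of_mem_primeFactors hp).two_le
    have : 0 ≤ uu p := div_nonneg zero_le_one (by linarith)
    linarith
  have h1 : ∏ p ∈ M.primeFactors.filter (fun p => p ≤ y), (1 + uu p) ≤ C * Real.log y :=
    h y hy _ fun p hp => Nat.mem_primesLE.2
      ⟨(mem_filter.1 hp).2, Nat.prime_of_mem_primeFactors (mem_filter.1 hp).1⟩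
  have h2 : ∏ p ∈ M.primeFactors.filter (fun p => ¬ p ≤ y), (1 + uu p) ≤ 3 := by
    have h3 : ∏ p ∈ M.primeFactors.filter (fun p => ¬ p ≤ y), (1 + uu p) ≤
        ∏ p ∈ M.primeFactors.filter (fun p => ¬ p ≤ y), Real.exp (1 / y) := by
      refine prod_le_prod (fun p hp => hu p (mem_filter.1 hp).1) fun p hp => ?_
      have h4 : y + 1 ≤ p := by have := (mem_filter.1 hp).2; omega
      have h5 : (y : ℝ) + 1 ≤ p := by exact_mod_cast h4
      have h6 : uu p ≤ 1 / y := one_div_le_one_div_of_le (by linarith) (by linarith)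
      have := Real.add_one_le_exp (1 / (y : ℝ))
      linarith
    rw [prod_const, ← Real.exp_nat_mul] at h3
    have h7 : ((M.primeFactors.filter (fun p => ¬ p ≤ y)).card : ℝ) ≤ y := by
      exact_mod_cast (card_filter_le _ _).trans (zc_card hM hMy)
    have h8 : ((M.primeFactors.filter (fun p => ¬ p ≤ y)).card : ℝ) * (1 / y) ≤ 1 := by
      rw [mul_one_div, div_le_one (by linarith)]
      exact h7
    exact h3.trans ((Real.exp_le_exp.2 h8).trans (Real.exp_one_lt_d9.le.trans (by norm_num)))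
  rw [e, ← prod_filter_mul_prod_filter_not M.primeFactors (fun p => p ≤ y)]
  have h9 : 0 ≤ C * Real.log y := mul_nonneg (by linarith) (Real.log_nonneg (by linarith))
  calc _ ≤ C * Real.log y * 3 := mul_le_mul h1 h2
        (prod_nonneg fun p hp => hu p (mem_filter.1 hp).1) h9
    _ = _ := by ring

theorem zc_dvd {n g m : ℕ} (hn : 0 < n) (h : n ∣ m * g) : n / Nat.gcd n g ∣ m := by
  have hG : 0 < Nat.gcd n g := Nat.gcd_pos_of_pos_left g hn
  have hc := Nat.coprime_div_gcd_div_gcd (m := n) (n := g) hG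
  refine hc.dvd_of_dvd_mul_right (Nat.dvd_of_mul_dvd_mul_left hG ?_)
  rw [Nat.mul_div_cancel' (Nat.gcd_dvd_left n g), mul_left_comm,
    Nat.mul_div_cancel' (Nat.gcd_dvd_right n g)]
  exact h

/-- The part of `r` not dividing `M - 2 ^ a` is large for most `a`. -/
theorem g_avg {ε : ℝ} (hε : 0 < ε) : ∃ R L0 : ℕ, ∀ r M a0 L : ℕ, 1 ≤ r → R < od r → L0 ≤ L →
    (∀ a ∈ Ico a0 (a0 + L), 2 ^ a < M) →
    ∑ a ∈ Ico a0 (a0 + L), (qd r (M - 2 ^ a) : ℝ) ^ (-(2 / 3 : ℝ)) ≤ ε * L := by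
  obtain ⟨D, hD⟩ : ∃ D : ℕ, ∀ g : ℕ, D < g → (g : ℝ) ^ (-(2 / 3 : ℝ)) ≤ ε / 2 := by
    have h1 := ((tendsto_rpow_neg_atTop (y := 2 / 3) (by norm_num)).comp
      tendsto_natCast_atTop_atTop).eventually (ge_mem_nhds (half_pos hε))
    obtain ⟨D, hD⟩ := eventually_atTop.1 h1
    exact ⟨D, fun g hg => hD g hg.le⟩
  obtain ⟨o, ho⟩ := exists_nat_gt (4 * D / ε)
  have ho0 : (0 : ℝ) < o := lt_of_le_of_lt (by positivity) ho
  have ho1 : 0 < o := by exact_mod_cast ho0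
  have ho2 : 4 * (D : ℝ) ≤ ε * o := by
    rw [div_lt_iff₀ hε] at ho
    linarith
  refine ⟨D * 2 ^ o, o, fun r M a0 L hr hR hL hM => ?_⟩
  have hr0 : 0 < od r := lt_of_le_of_lt (Nat.zero_le _) hR
  have hodd := od_odd (r := r) (by omega)
  have pt : ∀ a ∈ Ico a0 (a0 + L), (qd r (M - 2 ^ a) : ℝ) ^ (-(2 / 3 : ℝ)) ≤ ε / 2 +
      ∑ g ∈ Icc 1 D, if 2 ^ a ≤ M ∧ od r / Nat.gcd (od r) g ∣ M - 2 ^ a then (1 : ℝ) else 0 := by
    intro a ha
    have hn : ∀ g ∈ Icc 1 D,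
        (0 : ℝ) ≤ if 2 ^ a ≤ M ∧ od r / Nat.gcd (od r) g ∣ M - 2 ^ a then (1 : ℝ) else 0 := by
      intro g _
      split_ifs <;> norm_num
    by_cases hg : D < qd r (M - 2 ^ a)
    · have := hD _ hg
      have := sum_nonneg hn
      linarith
    · have hq := f4_qd_pos hr (M - 2 ^ a)
      have h1 : (qd r (M - 2 ^ a) : ℝ) ^ (-(2 / 3 : ℝ)) ≤ 1 :=
        Real.rpow_le_one_of_one_le_of_nonpos (by exact_mod_cast hq) (by norm_num)
      have h2 := single_le_sum hn (mem_Icc.2 ⟨hq, not_lt.1 hg⟩)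
      have h3 : od r ∣ (M - 2 ^ a) * qd r (M - 2 ^ a) := by
        refine (od_dvd r).trans ?_
        conv_lhs => rw [← f4_qd_mul r (M - 2 ^ a)]
        exact Nat.mul_dvd_mul_right (Nat.gcd_dvd_right _ _) _
      rw [if_pos ⟨(hM a ha).le, zc_dvd hr0 h3⟩] at h2
      linarith
  refine (sum_le_sum pt).trans ?_
  rw [sum_add_distrib, sum_comm, sum_const, Nat.card_Ico, Nat.add_sub_cancel_left, nsmul_eq_mul]
  have cg : ∀ g ∈ Icc 1 D, (∑ a ∈ Ico a0 (a0 + L),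
      if 2 ^ a ≤ M ∧ od r / Nat.gcd (od r) g ∣ M - 2 ^ a then (1 : ℝ) else 0) ≤ L / o + 1 := by
    intro g hg
    rw [mem_Icc] at hg
    rw [sum_boole]
    have e := Nat.mul_div_cancel' (Nat.gcd_dvd_left (od r) g)
    refine cnt_pow (hodd.of_dvd_nat (Nat.div_dvd_of_dvd (Nat.gcd_dvd_left _ _))) ho1
      (fun k hk hko hdv => ?_) M a0 L
    have h1 : 2 ^ 1 ≤ 2 ^ k := Nat.pow_le_pow_right (by norm_num) hk
    have h2 : 2 ^ k ≤ 2 ^ o := Nat.pow_le_pow_right (by norm_num) hko.le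
    have h3 := Nat.le_of_dvd (by omega) hdv
    have h4 : Nat.gcd (od r) g ≤ D := (Nat.gcd_le_right _ hg.1).trans hg.2
    have h5 : Nat.gcd (od r) g * (od r / Nat.gcd (od r) g) ≤ D * 2 ^ o :=
      Nat.mul_le_mul h4 (by omega)
    omega
  have h6 := sum_le_sum cg
  rw [sum_const, Nat.card_Icc, Nat.add_sub_cancel, nsmul_eq_mul] at h6
  have hL' : (o : ℝ) ≤ L := by exact_mod_cast hL
  have hL0 : (0 : ℝ) ≤ L := Nat.cast_nonneg L
  have h7 : (D : ℝ) * (L / o) ≤ ε / 4 * L := by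
    rw [← mul_div_assoc, div_le_iff₀ ho0]
    nlinarith [mul_le_mul_of_nonneg_right ho2 hL0]
  have h8 : (D : ℝ) ≤ ε / 4 * L := by nlinarith [mul_le_mul_of_nonneg_left hL' hε.le]
  nlinarith

end Pool.Agent.Lib.MP_778b46_nt.GL
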