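import Pool.Agent.Lib.MP_778b46_nt.GX.BuB

set_option autoImplicit false

noncomputable section

namespace Pool.Agent.Lib.MP_778b46_nt.GL

open Finset
open Pool.Agent.Lib.MP_778b46_nt.GX

/-- Functions built from the inverses of shifts. -/
inductive Nice {A : Type} [CommRing A] (t : A) : (A → A) → Prop
  | const (c : A) : Nice t fun _ => c
  | id : Nice t fun n => n
  | inv (a : A) : Nice t fun n => Ring.inverse (n + t * a)
  | add {f g : A → A} : Nice t f → Nice t g → Nice t fun n => f n + g n
  | mul {f g : A → A} : Nice t f → Nice t g → Nice t fun n => f n * g n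

section

variable {A : Type} [CommRing A] {t : A}

theorem zd_unit (ht : IsNilpotent t) {n : A} (hn : IsUnit n) (a : A) : IsUnit (n + t * a) :=
  IsNilpotent.isUnit_add_left_of_commute ((Commute.all _ _).isNilpotent_mul_right ht) hn
    (Commute.all _ _)

theorem Nice.shift {f : A → A} (h : Nice t f) (d : A) : Nice t fun n => f (n + t * d) := by
  induction h with
  | const c => exact .const c
  | id => exact .add .id (.const _)
  | inv a =>
    have e : (fun n => Ring.inverse (n + t * d + t * a)) =
        fun n => Ring.inverse (n + t * (d + a)) := by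
      funext n
      rw [mul_add, add_assoc]
    rw [e]
    exact .inv _
  | add _ _ h1 h2 => exact .add h1 h2
  | mul _ _ h1 h2 => exact .mul h1 h2

theorem Nice.inv0 : Nice t fun n => Ring.inverse n := by
  simpa using Nice.inv (t := t) 0

theorem Nice.pow {f : A → A} (h : Nice t f) (j : ℕ) : Nice t fun n => f n ^ j := by
  induction j with
  | zero => simpa using Nice.const (t := t) 1
  | succ j ih => simpa [pow_succ] using ih.mul h

theorem zd_inv (ht : IsNilpotent t) {n : A} (hn : IsUnit n) (d : A) :
    Ring.inverse (n + t * d) =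
      Ring.inverse n - t * d * Ring.inverse n * Ring.inverse (n + t * d) := by
  have a1 := Ring.mul_inverse_cancel _ hn
  have a2 := Ring.mul_inverse_cancel _ (zd_unit ht hn d)
  linear_combination Ring.inverse n * a2 - Ring.inverse (n + t * d) * a1

theorem Nice.diff (ht : IsNilpotent t) {f : A → A} (h : Nice t f) (d : A) :
    ∃ g, Nice t g ∧ ∀ n, IsUnit n → f (n + t * d) = f n + t * g n := by
  induction h with
  | const c => exact ⟨fun _ => 0, .const 0, fun n _ => by simp⟩
  | id => exact ⟨fun _ => d, .const d, fun n _ => rfl⟩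
  | inv a =>
    refine ⟨fun n => -d * Ring.inverse (n + t * a) * Ring.inverse (n + t * (a + d)),
      ((Nice.const _).mul (.inv a)).mul (.inv _), fun n hn => ?_⟩
    have := zd_inv ht (zd_unit ht hn a) d
    beta_reduce
    rw [show n + t * d + t * a = n + t * a + t * d by ring,
      show n + t * (a + d) = n + t * a + t * d by ring]
    linear_combination this
  | add _ _ h1 h2 =>
    obtain ⟨g1, a1, b1⟩ := h1
    obtain ⟨g2, a2, b2⟩ := h2
    exact ⟨fun n => g1 n + g2 n, a1.add a2, fun n hn => by
      simp only [b1 n hn, b2 n hn]; ring⟩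
  | @mul f g hf hg h1 h2 =>
    obtain ⟨g1, a1, b1⟩ := h1
    obtain ⟨g2, a2, b2⟩ := h2
    exact ⟨fun n => g1 n * g (n + t * d) + f n * g2 n, (a1.mul (hg.shift d)).add (hf.mul a2),
      fun n hn => by
        have c1 := b1 n hn
        have c2 := b2 n hn
        linear_combination g (n + t * d) * c1 + f n * c2⟩

theorem zd_pow (ht : IsNilpotent t) (d : A) (j : ℕ) : ∃ E, Nice t E ∧ ∀ n, IsUnit n →
    Ring.inverse (n + t * d) ^ j =
      Ring.inverse n ^ j + t * (-(j * d) * Ring.inverse n ^ (j + 1) + t * E n) := by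
  induction j with
  | zero => exact ⟨fun _ => 0, .const 0, fun n _ => by simp⟩
  | succ j ih =>
    obtain ⟨E, h1, h2⟩ := ih
    refine ⟨fun n => (j + 1) * d * d * Ring.inverse n ^ (j + 2) * Ring.inverse (n + t * d) +
        E n * Ring.inverse (n + t * d),
      (((Nice.const _).mul (Nice.inv0.pow _)).mul (.inv d)).add (h1.mul (.inv d)),
      fun n hn => ?_⟩
    have a1 := h2 n hn
    have a2 := zd_inv ht hn d
    push_cast
    generalize Ring.inverse (n + t * d) = v at *
    generalize Ring.inverse n = u at *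
    linear_combination v * a1 + (u ^ j - t * (j + 1) * d * u ^ (j + 1)) * a2

end

theorem zd_ind {q : ℕ} [NeZero q] (χ : DirichletCharacter ℂ q) (t : ℤ)
    (ht : IsNilpotent (t : ZMod q)) (l : List ℤ) : ∀ (f : ℤ → ℂ) (F F' E : ZMod q → ZMod q)
    (j : ℕ) (c : ℤ), Nice (t : ZMod q) F → Nice (t : ZMod q) F' → Nice (t : ZMod q) E →
    (∀ n, IsUnit n → F n * F' n = 1) →
    (∀ n, IsUnit n → F n = 1 + t ^ (j + 1) * (c * Ring.inverse n ^ (j + 1) + t * E n)) →
    (∀ n : ℤ, IsUnit (n : ZMod q) → f n = χ (F n)) →
    ∃ E' : ZMod q → ZMod q, ∀ n : ℤ, IsUnit (n : ZMod q) → Bu.DD t l f n =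
      χ (1 + t ^ (j + l.length + 1) *
        (((-1) ^ l.length * (j + 1).ascFactorial l.length * l.prod * c : ℤ) *
          Ring.inverse (n : ZMod q) ^ (j + l.length + 1) + t * E' n)) := by
  induction l with
  | nil =>
    intro f F F' E j c _ _ _ _ h2 h3
    exact ⟨E, fun n hn => by simp [Bu.DD, h3 n hn, h2 _ hn]⟩
  | cons d l ih =>
    intro f F F' E j c n1 n2 n3 h1 h2 h3
    obtain ⟨g, g1, g2⟩ := n3.diff ht d
    obtain ⟨G, G1, G2⟩ := zd_pow ht (d : ZMod q) (j + 1)
    obtain ⟨E', hE⟩ := ih (fun n => f (n + t * d) * (starRingEnd ℂ) (f n))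
      (fun n => F (n + t * d) * F' n) (fun n => F' (n + t * d) * F n)
      (fun n => (c * G n + g n) * F' n + ((j + 1 : ℕ) * d * c * Ring.inverse n ^ (j + 2)) *
        (t ^ j * (c * Ring.inverse n ^ (j + 1) + t * E n)) * F' n) (j + 1) (-((j + 1 : ℕ) * d * c))
      ((n1.shift d).mul n2) ((n2.shift d).mul n1)
      (((((Nice.const _).mul G1).add g1).mul n2).add
        ((((Nice.const _).mul (Nice.inv0.pow _)).mul ((Nice.const _).mul
          (((Nice.const _).mul (Nice.inv0.pow _)).add ((Nice.const _).mul n3)))).mul n2))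
      (fun n hn => by
        have a1 := h1 n hn
        have a2 := h1 _ (zd_unit ht hn d)
        linear_combination (F' n * F n) * a2 + a1)
      (fun n hn => by
        have a1 := h1 n hn
        have a2 := h2 n hn
        have a3 := h2 _ (zd_unit ht hn d)
        rw [g2 n hn, G2 n hn] at a3
        push_cast at a3 ⊢
        generalize Ring.inverse n = u at *
        generalize F (n + t * d) = x at *
        generalize F n = y at *
        generalize F' n = z at *
        generalize (t : ZMod q) = τ at *
        linear_combination z * a3 - z * a2 + a1 -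
          τ ^ (j + 2) * (j + 1) * d * c * u ^ (j + 2) * (a1 - z * a2))
      (fun n hn => by
        have a1 := h3 (n + t * d) (by push_cast; exact zd_unit ht hn d)
        rw [a1, h3 n hn, Bu.bu_conj χ (h1 _ hn), ← map_mul]
        push_cast
        rfl)
    refine ⟨E', fun n hn => ?_⟩
    rw [Bu.DD, hE n hn, List.length_cons, List.prod_cons,
      show j + 1 + l.length + 1 = j + (l.length + 1) + 1 by ring]
    have e : (j + 1).ascFactorial (l.length + 1) = (j + 1) * (j + 1 + 1).ascFactorial l.length := by
      rw [Nat.succ_ascFactorial, Nat.ascFactorial_succ]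
    rw [e]
    congr 4
    push_cast
    ring

/-- The differenced character, for any number of steps. -/
theorem dd_gen {q : ℕ} [NeZero q] (χ : DirichletCharacter ℂ q) (t : ℤ) (k : ℕ) (l : List ℤ)
    (hl : l.length = k + 1) (ht : (t : ZMod q) ^ (k + 2) = 0) (n : ℤ) (w : ZMod q)
    (hw : (n : ZMod q) * w = 1) :
    Bu.DD t l (fun n => χ n) n =
      χ (1 + (((-1) ^ k * k.factorial * l.prod * t ^ (k + 1) : ℤ) : ZMod q) * w ^ (k + 1)) := by
  have hnil : IsNilpotent (t : ZMod q) := ⟨_, ht⟩
  obtain _ | ⟨d, l⟩ := l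
  · simp at hl
  have hk : l.length = k := by simpa using hl
  have hn : IsUnit (n : ZMod q) := IsUnit.of_mul_eq_one w hw
  obtain ⟨E, hE⟩ := zd_ind χ t hnil l (fun n => χ ((n + t * d : ℤ) : ZMod q) *
      (starRingEnd ℂ) (χ (n : ZMod q)))
    (fun n => (n + t * d) * Ring.inverse n) (fun n => Ring.inverse (n + t * d) * n)
    (fun _ => 0) 0 d ((Nice.id.add (.const _)).mul Nice.inv0) ((Nice.inv _).mul .id) (.const 0)
    (fun n hn => by
      have a1 := Ring.mul_inverse_cancel _ hn
      have a2 := Ring.mul_inverse_cancel _ (zd_unit hnil hn d)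
      linear_combination (n * Ring.inverse n) * a2 + a1)
    (fun n hn => by
      have a1 := Ring.mul_inverse_cancel _ hn
      linear_combination a1)
    (fun n hn => by
      rw [Bu.bu_conj χ (Ring.mul_inverse_cancel _ hn), ← map_mul]
      push_cast
      rfl)
  have hu : Ring.inverse (n : ZMod q) = w := by
    have a1 := Ring.mul_inverse_cancel _ hn
    linear_combination w * a1 - Ring.inverse (n : ZMod q) * hw
  rw [Bu.DD, hE n hn, hu, hk, zero_add, zero_add, Nat.one_ascFactorial, List.prod_cons]
  congr 1
  push_cast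
  linear_combination E n * ht

end Pool.Agent.Lib.MP_778b46_nt.GL
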