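import Pool.Agent.Lib.MP_778b46_nt.GX.BuB
import Pool.Agent.Lib.MP_778b46_nt.GX.Basic

set_option autoImplicit false

noncomputable section

namespace Pool.Agent.Lib.MP_778b46_nt.GL

open Finset
open Pool.Agent.Lib.MP_778b46_nt.GX

theorem ze_two {q q1 : ℕ} (hq : q = 2 * q1) : 2 * (q1 : ZMod q) = 0 := by
  have := (ZMod.natCast_eq_zero_iff (2 * q1) q).2 (hq ▸ dvd_rfl)
  exact_mod_cast this

theorem ze_cases {q q1 : ℕ} [NeZero q] (hq : q = 2 * q1) (t : ZMod q) :
    (q1 : ZMod q) * t = 0 ∨ (q1 : ZMod q) * t = q1 := by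
  have h2 := ze_two hq
  rw [← ZMod.natCast_zmod_val t]
  rcases Nat.even_or_odd' t.val with ⟨j, h | h⟩
  · left
    rw [h]
    push_cast
    linear_combination j * h2
  · right
    rw [h]
    push_cast
    linear_combination j * h2

theorem prim_half {q q1 : ℕ} [NeZero q] (χ : DirichletCharacter ℂ q) (hχ : χ.IsPrimitive)
    (hq : q = 2 * q1) (h2 : 2 ∣ q1) : χ (1 + (q1 : ZMod q)) = -1 := by
  have a1 := ze_two hq
  have a2 : (q1 : ZMod q) * q1 = 0 := by
    obtain ⟨j, hj⟩ := h2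
    have : (q1 : ZMod q) = 2 * j := by rw [hj]; push_cast; rfl
    nth_rw 2 [this]
    linear_combination j * a1
  have a3 : χ (1 + (q1 : ZMod q)) * χ (1 + (q1 : ZMod q)) = 1 := by
    rw [← map_mul, ← map_one χ]
    congr 1
    linear_combination a1 + a2
  refine (mul_self_eq_one_iff.1 a3).resolve_left fun h => ?_
  have a4 : χ.conductor ∣ q1 := Bu.bua_cond_dvd ⟨2, by rw [hq, mul_comm]⟩ χ fun t _ => by
    rcases ze_cases hq t with e | e <;> rw [e]
    · simp
    · exact h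
  rw [hχ] at a4
  have := NeZero.pos q
  have := Nat.le_of_dvd (by omega) a4
  omega

theorem real_cond {Q : ℕ} [NeZero Q] (ξ : DC Q) (h : ξ * ξ = 1) : ¬ 16 ∣ ξ.conductor := by
  rintro ⟨j, hj⟩
  have a1 := prim_half ξ.primitiveCharacter ξ.primitiveCharacter_isPrimitive (q1 := 8 * j)
    (by omega) ⟨4 * j, by ring⟩
  have a0 := ze_two (q := ξ.conductor) (q1 := 8 * j) (by omega)
  have a2 : (1 + ((8 * j : ℕ) : ZMod ξ.conductor)) = (1 + 4 * j) * (1 + 4 * j) := by
    push_cast at a0 ⊢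
    linear_combination -(j : ZMod ξ.conductor) * a0
  have a3 : IsUnit (1 + 4 * j : ZMod ξ.conductor) := by
    by_contra hu
    rw [a2, map_mul, MulChar.map_nonunit _ hu] at a1
    norm_num at a1
  rw [a2, map_mul, ← MulChar.mul_apply, prim_mul_self h, MulChar.one_apply a3] at a1
  norm_num at a1

/-- A sign change under a shift. -/
theorem flip {q q1 : ℕ} [NeZero q] (χ : DirichletCharacter ℂ q) (hχ : χ.IsPrimitive)
    (hq : q = 2 * q1) (h2 : 2 ∣ q1) (k : ℕ) (Y h o : ℤ) (hY : (Y : ZMod q) * Y = 0)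
    (hh : (Y : ZMod q) * h * h = 0) (ho : Odd o) (he : k * Y * h = q1 * o) (x w w' : ZMod q)
    (hw : x * w = 1) (hw' : (x + h) * w' = 1) :
    χ (1 + Y * w' ^ k) = -χ (1 + Y * w ^ k) := by
  have a1 := ze_two hq
  have a2 : (k : ZMod q) * Y * h = q1 := by
    obtain ⟨j, rfl⟩ := ho
    have := congrArg (Int.cast : ℤ → ZMod q) he
    push_cast at this
    linear_combination this + j * a1
  have a3 : w' = w - h * w * w' := by linear_combination w * hw' - w' * hw
  have a4 : ∀ i : ℕ, Y * w' ^ i = Y * w ^ i - i * Y * h * w ^ (i + 1) := fun i => by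
    induction i with
    | zero => simp
    | succ i ih =>
      push_cast
      linear_combination w' * ih + (Y * w ^ i - (i + 1) * Y * h * w ^ (i + 1)) * a3 +
        (i + 1) * w ^ (i + 2) * w' * hh
  have a5 : (q1 : ZMod q) * w ^ (k + 1) = q1 := by
    refine (ze_cases hq _).resolve_left fun e => ?_
    have e1 : (q1 : ZMod q) = 0 := by
      have e2 : x ^ (k + 1) * w ^ (k + 1) = 1 := by rw [← mul_pow, hw, one_pow]
      linear_combination x ^ (k + 1) * e - q1 * e2
    have := NeZero.pos q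
    have := Nat.le_of_dvd (by omega) ((ZMod.natCast_eq_zero_iff _ _).1 e1)
    omega
  rw [← mul_neg_one, ← prim_half χ hχ hq h2, ← map_mul, a4 k, a2]
  congr 1
  linear_combination -a5 - a1 + w ^ k * Y * a2 - w ^ k * k * h * hY

theorem ss_flip (f : ℤ → ℂ) (hf : ∀ n, ‖f n‖ ≤ 1) (h : ℕ) (hh : ∀ n, f (n + h) = -f n) (N : ℕ) :
    ‖Bu.SS f N‖ ≤ h := by
  have h1 := Bu.ss_shift f hf h N
  have h2 : Bu.SS (fun n => f (n + h)) N - Bu.SS f N = -2 * Bu.SS f N := by
    simp only [Bu.SS, hh, sum_neg_distrib]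
    ring
  rw [h2, norm_mul, norm_neg, Complex.norm_ofNat] at h1
  linarith

end Pool.Agent.Lib.MP_778b46_nt.GL
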