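import Pool.Agent.Lib.MP_778b46_nt.GX.Jen

set_option autoImplicit false

namespace Pool.Agent.Lib.MP_778b46_nt.GL

open Complex Finset Filter Pool.Agent.Lib.MP_e97e2b_nt.Ln
open Pool.Agent.Lib.MP_778b46_nt.GX
open ArithmeticFunction

open Classical in
/-- The expansion over zeros at height `γ` for a single character, from a bound for its growth. -/
theorem pfG {θ C ε : ℝ} (hθ : 0 < θ) (hθ' : θ ≤ 1 / 2) (hC : 1 ≤ C) (hε : 0 < ε) :
    ∃ δ η M P0 : ℝ, 0 < δ ∧ δ ≤ 1 / 24 ∧ 0 < η ∧ 1 ≤ M ∧ 3 ≤ P0 ∧ ∀ P : ℝ, P0 ≤ P →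
      ∀ (Q : ℕ) [NeZero Q] (ξ : DC Q) (ph γ : ℝ), 0 ≤ ph → ph ≤ 2 →
        (∀ (K : ℝ) (s : ℂ), 1 - θ / 2 ≤ s.re → 1 ≤ K → ‖s‖ ≤ K → ‖Lp ξ s‖ ≤
          C * K ^ 2 * (1 + Real.log (P ^ ph)) * (P ^ ph) ^ (max (1 - s.re) 0)) →
        |γ| ≤ P ^ η →
        ∃ (Z : Multiset ℂ) (H : ℂ → ℂ),
          (∀ ρ, Z.count ρ = if ‖ρ - cc P γ‖ ≤ δ then ord ξ ρ else 0) ∧
          (∀ ρ ∈ Z, ‖ρ - cc P γ‖ ≤ δ ∧ ρ.re < 1) ∧ (Z.card : ℝ) ≤ M * Real.log P ∧
          (H (cc P γ)).re ≤ (ph / 2 + ε) * Real.log P ∧ ‖H (cc P γ)‖ ≤ M * Real.log P ∧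
          DifferentiableOn ℂ H (Metric.ball (cc P γ) (3 * δ / 4)) ∧
          (∀ s : ℂ, ‖s - cc P γ‖ ≤ δ / 2 →
            ‖H s - H (cc P γ)‖ ≤ M * Real.log P * ‖s - cc P γ‖) ∧
          ∀ s : ℂ, ‖s - cc P γ‖ ≤ δ / 2 → 1 < s.re →
            LSeries (fun n => pr ξ n * (vonMangoldt n : ℂ)) s =
              (if ξ = 1 then 1 / (s - 1) else 0) - (Z.map fun ρ => 1 / (s - ρ)).sum + H s := by
  set e1 : ℝ := min ε 1 with he1
  have he0 : 0 < e1 := lt_min hε one_pos
  have he1' : e1 ≤ 1 := min_le_right _ _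
  have he1ε : e1 ≤ ε := min_le_left _ _
  set R : ℝ := θ / 6 with hR
  have hR0 : 0 < R := by positivity
  have hR1 : R ≤ 1 / 12 := by linarith
  set δ : ℝ := e1 * R ^ 2 / 2 with hδ
  have hδ0 : 0 < δ := by positivity
  have heR : e1 * R ≤ 1 / 12 := by nlinarith
  have hδR : δ ≤ R / 2 := by
    have h2 := mul_le_mul_of_nonneg_right heR hR0.le
    rw [hδ]
    nlinarith
  set η : ℝ := e1 * R / 8 with hη
  have hη0 : 0 < η := by positivity
  have p1 : 0 < 100 / δ := by positivity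
  have p2 : 0 < 100 / δ ^ 2 := by positivity
  have tL := Real.tendsto_log_atTop
  have t4 : Tendsto (fun P : ℝ => (Real.log C + 6) * (Real.log P)⁻¹ +
      2 * (Real.log (Real.log P) / Real.log P)) atTop (nhds 0) := by
    have := ((tendsto_inv_atTop_zero.comp tL).const_mul (Real.log C + 6)).add
      ((Real.isLittleO_log_id_atTop.tendsto_div_nhds_zero.comp tL).const_mul 2)
    simpa using this
  obtain ⟨P0, hP0⟩ := eventually_atTop.1 (((tL.eventually_ge_atTop 1).and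
    (t4.eventually_le_const (show 0 < e1 * R / 4 by positivity))).and (eventually_ge_atTop 3))
  refine ⟨δ, η, 1 + 100 / δ + 100 / δ ^ 2, max P0 3, hδ0, by linarith, hη0, by linarith,
    le_max_right _ _, fun P hP Q _ ξ ph γ hph hph2 hup hγ => ?_⟩
  obtain ⟨⟨g1, g2⟩, g3⟩ := hP0 P ((le_max_left _ _).trans hP)
  have hP0' : 0 < P := by linarith
  set L := Real.log P with hL
  have hL0 : 0 < L := by linarith
  have h1L : 0 < 1 / L := by positivity
  have h1L' : 1 / L ≤ 1 := by rw [div_le_one hL0]; exact g1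
  set b : ℝ := Real.log C + 6 + 2 * Real.log L + 2 * η * L with hb
  have hlC := Real.log_nonneg hC
  have hlL := Real.log_nonneg g1
  have hηL : 0 ≤ η * L := by positivity
  have hb1 : 1 ≤ b := by linarith
  have hb2 : b ≤ e1 * R / 2 * L := by
    have h1 : Real.log C + 6 + 2 * Real.log L =
        ((Real.log C + 6) * L⁻¹ + 2 * (Real.log L / L)) * L := by field_simp
    have h2 := mul_le_mul_of_nonneg_right g2 hL0.le
    rw [hb, h1, hη]
    linarith
  have hPη : P ^ η = Real.exp (η * L) := by rw [Real.rpow_def_of_pos hP0', mul_comm]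
  have hPph : P ^ ph = Real.exp (ph * L) := by rw [Real.rpow_def_of_pos hP0', mul_comm]
  have eb : Real.exp b = C * Real.exp 6 * L ^ 2 * Real.exp (η * L) ^ 2 := by
    rw [hb, Real.exp_add, Real.exp_add, Real.exp_add, Real.exp_log (by linarith), two_mul,
      Real.exp_add, Real.exp_log hL0, mul_assoc 2, two_mul, Real.exp_add]
    ring
  have e6 : 48 ≤ Real.exp 6 := by
    have h1 : Real.exp 6 = Real.exp 1 ^ 6 := by rw [← Real.exp_nat_mul]; norm_num
    have h2 : (2 : ℝ) ^ 6 ≤ Real.exp 1 ^ 6 := by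
      gcongr
      linarith [Real.add_one_le_exp 1]
    rw [h1]
    linarith
  have hE1 : 1 ≤ Real.exp (η * L) := Real.one_le_exp hηL
  have hphL : 0 ≤ ph * L := by positivity
  obtain ⟨Z, H, z1, z2, z3, z4, z5, z6, z7, z8⟩ := jenC (Lp ξ) (Lp_diff ξ) (1 + 1 / L) γ R δ b
    (ph * L) hR0 hδ0 hδR hb1 hphL
    (fun s hs => by
      have h1 := (abs_re_le_norm _).trans hs
      simp only [sub_re, add_re, ofReal_re, mul_re, I_re, mul_zero, ofReal_im, I_im, mul_one,
        sub_self, add_zero, abs_le] at h1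
      have h2 : ‖s‖ ≤ 4 * Real.exp (η * L) := by
        have h3 := norm_add_le (s - (((1 + 1 / L : ℝ) : ℂ) + γ * I)) (((1 + 1 / L : ℝ) : ℂ) + γ * I)
        have h4 := norm_add_le ((1 + 1 / L : ℝ) : ℂ) (γ * I)
        rw [norm_mul, norm_I, mul_one, norm_real, norm_real, Real.norm_eq_abs, Real.norm_eq_abs,
          abs_of_pos (by linarith)] at h4
        rw [sub_add_cancel] at h3
        rw [hPη] at hγ
        linarith
      have h3 := hup (4 * Real.exp (η * L)) s (by linarith) (by linarith) h2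
      refine h3.trans ?_
      rw [hPph, Real.log_exp, ← Real.exp_mul, Real.exp_add, eb]
      have h4 : max (1 - s.re) 0 ≤ max ((1 + 1 / L) - s.re) 0 := max_le_max (by linarith) le_rfl
      have h5 : 1 + ph * L ≤ 3 * L ^ 2 := by
        have k1 := mul_le_mul_of_nonneg_right hph2 hL0.le
        have k2 : L ≤ L ^ 2 := le_self_pow₀ g1 two_ne_zero
        linarith
      calc _ ≤ C * (4 * Real.exp (η * L)) ^ 2 * (3 * L ^ 2) *
            Real.exp (ph * L * max ((1 + 1 / L) - s.re) 0) := by gcongr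
        _ = C * 48 * L ^ 2 * Real.exp (η * L) ^ 2 *
            Real.exp (ph * L * max ((1 + 1 / L) - s.re) 0) := by ring
        _ ≤ _ := by gcongr)
    (fun s _ hs => by
      refine le_trans ?_ (jen_lower ξ g1 hs)
      rw [Real.exp_neg, eb, ← one_div]
      refine one_div_le_one_div_of_le (by positivity) ?_
      calc 2 * L ^ 2 ≤ 1 * 48 * L ^ 2 * 1 ^ 2 := by linarith [sq_nonneg L]
        _ ≤ _ := by gcongr)
  have hN : 2 * b + 3 * R * (ph * L) ≤ L := by
    have h1 : R * (ph * L) ≤ 1 / 12 * (2 * L) :=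
      mul_le_mul hR1 (mul_le_mul_of_nonneg_right hph2 hL0.le) hphL (by norm_num)
    have h2 := mul_le_mul_of_nonneg_right heR hL0.le
    linarith
  refine ⟨Z, H, z1, fun ρ hρ => ⟨(z2 ρ hρ).1, ?_⟩, ?_, ?_, ?_, z6, fun s hs => ?_,
    fun s hs h1 => ?_⟩
  · exact re_lt_one_of_ord ((ord_ne_zero_iff ξ ρ).2 (z2 ρ hρ).2)
  · exact (z3.trans hN).trans (le_mul_of_one_le_left hL0.le (by linarith))
  · refine z4.trans ?_
    have a1 : b / R ≤ e1 / 2 * L := by
      rw [div_le_iff₀ hR0]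
      linarith
    have a2 : δ * (2 * b + 3 * R * (ph * L)) / R ^ 2 ≤ e1 / 2 * L := by
      rw [div_le_iff₀ (by positivity)]
      calc _ ≤ δ * L := mul_le_mul_of_nonneg_left hN hδ0.le
        _ = _ := by rw [hδ]; ring
    have a3 := mul_le_mul_of_nonneg_right he1ε hL0.le
    linarith
  · refine z5.trans ?_
    calc _ ≤ 100 * L / δ := by gcongr
      _ = 100 / δ * L := by ring
      _ ≤ _ := mul_le_mul_of_nonneg_right (by linarith) hL0.le
  · refine (z8 s hs).trans (mul_le_mul_of_nonneg_right ?_ (norm_nonneg _))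
    calc _ ≤ 100 * L / δ ^ 2 := by gcongr
      _ = 100 / δ ^ 2 * L := by ring
      _ ≤ _ := mul_le_mul_of_nonneg_right (by linarith) hL0.le
  · rw [jen_series ξ h1, ← z7 s hs (Lp_ne_zero ξ h1.le)]
    ring

end Pool.Agent.Lib.MP_778b46_nt.GL
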