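import Pool.Agent.Lib.MP_778b46_nt.GL.Zd
import Pool.Agent.Lib.MP_778b46_nt.GL.Ze

set_option autoImplicit false

noncomputable section

namespace Pool.Agent.Lib.MP_778b46_nt.GL

open Finset
open Pool.Agent.Lib.MP_778b46_nt.GX

theorem zg_prod {H : ℕ} (l : List ℤ) (hl : ∀ d ∈ l, d ≠ 0 ∧ |d| ≤ H) :
    l.prod ≠ 0 ∧ l.prod.natAbs ≤ H ^ l.length := by
  induction l with
  | nil => simp
  | cons d l ih =>
    obtain ⟨a1, a2⟩ := ih fun x hx => hl x (List.mem_cons_of_mem _ hx)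
    obtain ⟨b1, b2⟩ := hl d List.mem_cons_self
    rw [List.prod_cons, List.length_cons, Int.natAbs_mul, pow_succ']
    refine ⟨mul_ne_zero b1 a1, Nat.mul_le_mul ?_ a2⟩
    rw [← Int.natCast_natAbs] at b2
    exact_mod_cast b2

theorem zg_odd {c : ℤ} (hc : c ≠ 0) {e : ℕ} (he : c.natAbs ≤ 2 ^ e) :
    ∃ (v : ℕ) (o : ℤ), v ≤ e ∧ Odd o ∧ c = 2 ^ v * o := by
  obtain ⟨v, m, h1, h2⟩ := Nat.exists_eq_two_pow_mul_odd (Int.natAbs_ne_zero.2 hc)
  have h3 : 2 ^ v ≤ 2 ^ e := le_trans (h2 ▸ Nat.le_mul_of_pos_right _ h1.pos) he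
  have h4 : v ≤ e := (Nat.pow_le_pow_iff_right (by norm_num)).1 h3
  have h5 : Odd (m : ℤ) := h1.natCast
  rcases Int.natAbs_eq c with h | h
  · exact ⟨v, m, h4, h5, by rw [h, h2]; push_cast; rfl⟩
  · exact ⟨v, -m, h4, h5.neg, by rw [h, h2]; push_cast; ring⟩

/-- Cancellation in short sums to a modulus `2 ^ s * r` with `r` odd. -/
theorem core2 {q s r : ℕ} [NeZero q] (χ : DirichletCharacter ℂ q) (hχ : χ.IsPrimitive)
    (hq : q = 2 ^ s * r) (hr : Odd r) (k τ b N : ℕ) (h1 : s ≤ τ * (k + 2))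
    (h2 : τ * (k + 1) + (b + k + 1) * (k + 1) + k + 3 ≤ s) (β : ℝ) (h0 : 0 ≤ β) (hβ : β ≤ 1)
    (ht : ((2 ^ τ * r : ℕ) * (2 ^ b : ℕ) : ℝ) ≤ β ^ 2 ^ (k + 1) * N)
    (hH : 1 ≤ β ^ 2 ^ (k + 1) * (2 ^ b : ℕ)) :
    ‖Bu.SS (fun n => χ n) N‖ ≤ 13 * β * N := by
  refine Bu.bu_vdc (2 ^ τ * r) (2 ^ b) N (k + 1) _ (fun n => χ.norm_le_one _) β h0 hβ ht hH
    fun l hl hl' => ?_
  have zero : ∀ (z : ℤ), (2 : ℤ) ^ s * r ∣ z → (z : ZMod q) = 0 := fun z hz => by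
    rw [ZMod.intCast_zmod_eq_zero_iff_dvd, hq]
    exact_mod_cast hz
  obtain ⟨t, htd⟩ : ∃ t : ℤ, t = 2 ^ τ * r := ⟨_, rfl⟩
  have htc : ((2 ^ τ * r : ℕ) : ℤ) = t := by rw [htd]; push_cast; rfl
  rw [htc]
  have htz : (t : ZMod q) ^ (k + 2) = 0 := by
    have := zero (t ^ (k + 2)) (by
      rw [htd, mul_pow, ← pow_mul]
      exact mul_dvd_mul (pow_dvd_pow _ h1) (dvd_pow_self _ (by omega)))
    exact_mod_cast this
  obtain ⟨p0, p1⟩ := zg_prod l hl'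
  obtain ⟨c, hc⟩ : ∃ c : ℤ, c = (-1) ^ k * k.factorial * l.prod := ⟨_, rfl⟩
  have f1 : (k + 1).factorial ≤ 2 ^ ((k + 1) * (k + 1)) := by
    rw [pow_mul]
    exact (Nat.factorial_le_pow _).trans (Nat.pow_le_pow_left Nat.lt_two_pow_self.le _)
  obtain ⟨v, o, hv, ho, he⟩ := zg_odd (c := ((k + 1 : ℕ) : ℤ) * c) (e := (b + k + 1) * (k + 1))
    (by rw [hc]; have := k.factorial_pos; positivity) (by
      rw [hc]
      simp only [Int.natAbs_mul, Int.natAbs_pow, Int.natAbs_neg, Int.natAbs_one, one_pow, one_mul,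
        Int.natAbs_natCast]
      rw [← mul_assoc, ← Nat.factorial_succ, add_assoc, add_mul, pow_add, mul_comm, pow_mul, ← hl]
      exact Nat.mul_le_mul p1 (hl ▸ f1))
  obtain ⟨j, o', hj, ho', he'⟩ := zg_odd (c := ((k + 1 : ℕ) : ℤ)) (e := k) (by positivity)
    (by rw [Int.natAbs_natCast]; exact Nat.lt_two_pow_self)
  obtain ⟨w, hw⟩ : ∃ w, s = τ * (k + 1) + v + w + 1 := ⟨s - (τ * (k + 1) + v + 1), by omega⟩
  have w1 : k + 2 ≤ w := by omega
  have w2 : w ≤ τ := by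
    have : τ * (k + 2) = τ * (k + 1) + τ := by ring
    omega
  have hro : Odd (r : ℤ) := hr.natCast
  have e1 : ((k + 1 : ℕ) : ℤ) * (c * t ^ (k + 1)) * ((2 ^ w * r : ℕ) : ℤ) =
      ((2 ^ (s - 1) * r : ℕ) : ℤ) * (o * r ^ (k + 1)) := by
    rw [← mul_assoc, he, htd, hw, Nat.add_sub_cancel]
    push_cast
    ring
  have e2 : ((c * t ^ (k + 1) : ℤ) : ZMod q) * ((2 ^ w * r : ℕ) : ℤ) * ((2 ^ w * r : ℕ) : ℤ) = 0 := by
    have d1 : (2 : ℤ) ^ j * 2 ^ s ∣ 2 ^ j * (o' * (c * t ^ (k + 1) * (2 ^ w * 2 ^ w * r))) := by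
      rw [← mul_assoc (2 ^ j), ← he', mul_assoc c, ← mul_assoc _ c, he, htd, mul_pow, ← pow_mul,
        ← pow_add 2 j]
      refine Dvd.dvd.trans (pow_dvd_pow _ (show j + s ≤ v + τ * (k + 1) + w + w by omega)) ?_
      exact ⟨o * r ^ (k + 1) * r, by ring⟩
    have d2 := (mul_dvd_mul_iff_left (by positivity)).1 d1
    have d3 : IsCoprime ((2 : ℤ) ^ s) o' := (Int.isCoprime_two_left.2 ho').pow_left
    obtain ⟨y, hy⟩ := d3.dvd_of_dvd_mul_left d2
    have := zero (c * t ^ (k + 1) * (2 ^ w * 2 ^ w * r) * r) ⟨y, by rw [hy]; ring⟩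
    push_cast at this ⊢
    linear_combination this
  have hnil : IsNilpotent (((2 ^ w * r : ℕ) : ℤ) : ZMod q) := ⟨s, by
    have := zero (((2 ^ w * r : ℕ) : ℤ) ^ s) (by
      push_cast
      rw [mul_pow, ← pow_mul]
      exact mul_dvd_mul (pow_dvd_pow _ (Nat.le_mul_of_pos_left _ (by omega)))
        (dvd_pow_self _ (by omega)))
    exact_mod_cast this⟩
  have key := ss_flip (Bu.DD t l fun n => χ n) (Bu.bub_norm t l _ fun n => χ.norm_le_one _)
    (2 ^ w * r) (fun n => by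
      by_cases hn : IsUnit (n : ZMod q)
      · have hn' : IsUnit ((n + ((2 ^ w * r : ℕ) : ℤ) : ℤ) : ZMod q) := by
          rw [Int.cast_add]
          exact hnil.isUnit_add_left_of_commute hn (Commute.all _ _)
        obtain ⟨u, hu⟩ := hn.exists_right_inv
        obtain ⟨u', hu'⟩ := hn'.exists_right_inv
        rw [dd_gen χ t k l hl htz _ _ hu, dd_gen χ t k l hl htz _ _ hu', ← hc]
        refine flip χ hχ (q1 := 2 ^ (s - 1) * r) ?_ ?_ (k + 1) _ _ _ ?_ e2 (ho.mul hro.pow) e1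
          n u u' hu (by rwa [Int.cast_add] at hu')
        · rw [hq, hw, Nat.add_sub_cancel]
          ring
        · exact Dvd.dvd.mul_right (dvd_pow_self _ (by omega)) _
        · push_cast
          linear_combination (c * c * t ^ k : ZMod q) * htz
      · have hn' : ¬ IsUnit ((n + ((2 ^ w * r : ℕ) : ℤ) : ℤ) : ZMod q) := fun h => hn (by
          rw [Int.cast_add] at h
          simpa using hnil.neg.isUnit_add_left_of_commute h (Commute.all _ _))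
        rw [Bu.bub_zero t n l _ (χ.map_nonunit hn), Bu.bub_zero t _ l _ (χ.map_nonunit hn'),
          neg_zero]) N
  refine key.trans ?_
  have g1 : ((2 ^ w * r : ℕ) : ℝ) ≤ (2 ^ τ * r : ℕ) * (2 ^ b : ℕ) := by
    exact_mod_cast (Nat.mul_le_mul_right r (Nat.pow_le_pow_right two_pos w2)).trans
      (Nat.le_mul_of_pos_right _ (by positivity))
  have g2 : 0 ≤ β ^ 2 ^ (k + 1) * N := by positivity
  linarith

end Pool.Agent.Lib.MP_778b46_nt.GL
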