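import Pool.Agent.Lib.MP_778b46_nt.GL.Zg
import Pool.Agent.Lib.MP_778b46_nt.GL.ZDef
import Pool.Agent.Lib.MP_c03ca8_nt.Q.Char

set_option autoImplicit false

noncomputable section

namespace Pool.Agent.Lib.MP_778b46_nt.GL

open Finset
open Pool.Agent.Lib.MP_778b46_nt.GX

theorem zt_nat (k s R : ℕ) : ∃ u b : ℕ, s ≤ (u + 1) * (k + 2) ∧ u * (k + 2) ≤ s ∧
    b * (2 * (k + 1)) ≤ u ∧ s + R ≤ 2 * (k + 1) * (k + 2) * (b + 1 + R) := by
  have a1 := Nat.lt_div_mul_add (a := s) (show 0 < k + 2 by omega)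
  have a2 := Nat.lt_div_mul_add (a := s / (k + 2)) (show 0 < 2 * (k + 1) by omega)
  refine ⟨s / (k + 2), s / (k + 2) / (2 * (k + 1)), by nlinarith, Nat.div_mul_le_self _ _,
    Nat.div_mul_le_self _ _, ?_⟩
  generalize s / (k + 2) = u at *
  generalize u / (2 * (k + 1)) = b at *
  have a3 : (u + 1) * (k + 2) ≤ (b + 1) * (2 * (k + 1)) * (k + 2) :=
    Nat.mul_le_mul_right _ (by nlinarith)
  have a4 : R ≤ 2 * (k + 1) * (k + 2) * R := Nat.le_mul_of_pos_left _ (by positivity)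
  nlinarith

theorem tb2_mid (R : ℕ) {e : ℝ} (he : 0 < e) : ∃ η C : ℝ, 0 < η ∧ 1 ≤ C ∧
    ∀ (q : ℕ) [NeZero q] (χ : DirichletCharacter ℂ q), χ.IsPrimitive → od q ≤ R → ∀ N : ℕ,
      (q : ℝ) ^ e ≤ N → ‖Bu.SS (fun n => χ n) N‖ ≤ C * N * (q : ℝ) ^ (-η) := by
  obtain ⟨k, hk⟩ := exists_nat_ge (4 / e)
  have hk4 : 4 ≤ ((k : ℝ) + 2) * e := by
    rw [div_le_iff₀ he] at hk
    nlinarith
  obtain ⟨n, hn⟩ : ∃ n : ℕ, n = 2 ^ (k + 1) := ⟨_, rfl⟩
  obtain ⟨D, hD⟩ : ∃ D : ℕ, D = 2 * (k + 1) * (k + 2) := ⟨_, rfl⟩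
  obtain ⟨U, hU⟩ : ∃ U : ℕ, U = 2 * ((k + 1) + (k + 1) * (k + 1) + k + 3) + R + 1 := ⟨_, rfl⟩
  have n1 : (1 : ℝ) ≤ n := by exact_mod_cast hn ▸ Nat.one_le_two_pow
  have D0 : (0 : ℝ) < D := by rw [hD]; positivity
  have c1 : (1 : ℝ) ≤ 2 ^ ((U : ℝ) + 1 + R) := Real.one_le_rpow one_le_two (by positivity)
  refine ⟨(D : ℝ)⁻¹ * (n : ℝ)⁻¹, 13 * 2 ^ ((U : ℝ) + 1 + R), by positivity, by linarith,
    fun q _ χ hχ hR N hN => ?_⟩
  have hq := (od_mul q).symm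
  have hr := od_odd (NeZero.ne q)
  generalize q.factorization 2 = s at hq
  generalize od q = r at hq hr hR
  obtain ⟨u, b, a1, a2, a3, a4⟩ := zt_nat k s R
  have q0 : (0 : ℝ) < q := by exact_mod_cast NeZero.pos q
  have r1 : r ≤ 2 ^ R := hR.trans Nat.lt_two_pow_self.le
  have N0 : (0 : ℝ) ≤ N := Nat.cast_nonneg _
  have q1 : (q : ℝ) ^ ((D : ℝ)⁻¹ * (n : ℝ)⁻¹) ≤ 2 ^ (((b : ℝ) + 1 + R) / n) := by
    have h1 : q ≤ 2 ^ (D * (b + 1 + R)) := by
      rw [hq]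
      refine (Nat.mul_le_mul_left _ r1).trans ?_
      rw [← pow_add]
      exact Nat.pow_le_pow_right two_pos (hD ▸ a4)
    have h2 : (q : ℝ) ≤ 2 ^ ((D : ℝ) * (b + 1 + R)) := by exact_mod_cast h1
    refine (Real.rpow_le_rpow q0.le h2 (by positivity)).trans (le_of_eq ?_)
    rw [← Real.rpow_mul zero_le_two]
    congr 1
    field_simp
  have fin : ∀ x : ℝ, ‖Bu.SS (fun n => χ n) N‖ ≤ 13 * 2 ^ x * N →
      x + ((b : ℝ) + 1 + R) / n ≤ (U : ℝ) + 1 + R → ‖Bu.SS (fun n => χ n) N‖ ≤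
        13 * 2 ^ ((U : ℝ) + 1 + R) * N * (q : ℝ) ^ (-((D : ℝ)⁻¹ * (n : ℝ)⁻¹)) := by
    intro x h1 h2
    rw [Real.rpow_neg q0.le, ← div_eq_mul_inv, le_div_iff₀ (by positivity)]
    refine (mul_le_mul h1 q1 (by positivity) (by positivity)).trans ?_
    have h3 := Real.rpow_le_rpow_of_exponent_le one_le_two h2
    rw [Real.rpow_add two_pos] at h3
    calc _ = 13 * ((2 : ℝ) ^ x * 2 ^ (((b : ℝ) + 1 + R) / n)) * N := by ring
      _ ≤ _ := by gcongr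
  have bu : b ≤ u := le_trans (Nat.le_mul_of_pos_right _ (by omega)) a3
  rcases lt_or_ge u U with hu | hu
  · refine fin 0 ((Bu.ss_triv _ (fun n => χ.norm_le_one _) N).trans ?_) ?_
    · rw [Real.rpow_zero]; linarith
    · have h1 : (b : ℝ) ≤ U := by exact_mod_cast bu.trans hu.le
      have h2 : ((b : ℝ) + 1 + R) / n ≤ b + 1 + R := div_le_self (by positivity) n1
      linarith
  have hβ : ((2 : ℝ) ^ (-(b : ℝ) / n)) ^ 2 ^ (k + 1) = (2 ^ b)⁻¹ := by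
    rw [← hn, ← Real.rpow_natCast, ← Real.rpow_mul zero_le_two, div_mul_cancel₀ _ (by linarith),
      Real.rpow_neg zero_le_two, Real.rpow_natCast]
  refine fin (-(b : ℝ) / n) (core2 χ hχ hq hr k (u + 1) b N a1 (by nlinarith) _ (by positivity)
    (Real.rpow_le_one_of_one_le_of_nonpos one_le_two
      (div_nonpos_of_nonpos_of_nonneg (by simp) (by linarith))) ?_ ?_) ?_
  · rw [hβ, ← div_eq_inv_mul, le_div_iff₀ (by positivity)]
    refine le_trans ?_ hN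
    have h1 : 2 ^ (u + 1) * r * 2 ^ b * 2 ^ b ≤ 2 ^ (4 * u) := by
      refine (Nat.mul_le_mul_right _ (Nat.mul_le_mul_right _ (Nat.mul_le_mul_left _ r1))).trans ?_
      rw [← pow_add, ← pow_add, ← pow_add]
      exact Nat.pow_le_pow_right two_pos (by nlinarith)
    have h2 : (2 : ℝ) ^ (s : ℝ) ≤ q := by
      have : 2 ^ s ≤ q := hq ▸ Nat.le_mul_of_pos_right _ hr.pos
      exact_mod_cast this
    have h3 : ((u : ℝ) * (k + 2)) ≤ s := by exact_mod_cast a2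
    have h4 : (4 * u : ℝ) ≤ s * e := by
      have : (0 : ℝ) ≤ u := Nat.cast_nonneg _
      nlinarith
    calc _ ≤ (2 : ℝ) ^ (4 * u : ℝ) := by exact_mod_cast h1
      _ ≤ 2 ^ ((s : ℝ) * e) := Real.rpow_le_rpow_of_exponent_le one_le_two h4
      _ ≤ _ := by
        rw [Real.rpow_mul zero_le_two]
        exact Real.rpow_le_rpow (by positivity) h2 he.le
  · rw [hβ]
    push_cast
    rw [inv_mul_cancel₀ (by positivity)]
  · have h1 : -(b : ℝ) / n + (b + 1 + R) / n = (1 + R) / n := by ring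
    have h2 : (1 + (R : ℝ)) / n ≤ 1 + R := div_le_self (by positivity) n1
    have h3 : (0 : ℝ) ≤ U := Nat.cast_nonneg _
    linarith

/-- Character sums cancel beyond any power of the conductor, if its odd part is bounded. -/
theorem tb2 (R : ℕ) {e : ℝ} (he : 0 < e) : ∃ θ C : ℝ, 0 < θ ∧ θ ≤ 1 / 2 ∧ 1 ≤ C ∧
    ∀ (q : ℕ) [NeZero q] (χ : DirichletCharacter ℂ q), χ.IsPrimitive → χ ≠ 1 → od q ≤ R →
      ∀ N : ℕ, ‖∑ n ∈ Ioc 0 N, χ n‖ ≤ C * (N : ℝ) ^ (1 - θ) * ((q : ℝ) ^ e) ^ θ := by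
  obtain ⟨η, C, hη, hC, h⟩ := tb2_mid R he
  set θ := min (η / 2) (1 / 2) with hθ
  have t0 : 0 < θ := lt_min (by linarith) (by norm_num)
  have t1 : θ ≤ η / 2 := min_le_left _ _
  have t2 : θ ≤ 1 / 2 := min_le_right _ _
  refine ⟨θ, C, t0, t2, hC, fun q _ χ hχ h1 hR N => ?_⟩
  rcases Nat.eq_zero_or_pos N with rfl | hN
  · simp only [Ioc_self, sum_empty, norm_zero]
    positivity
  have hq1 : (1 : ℝ) ≤ q := by exact_mod_cast NeZero.pos q
  have hN1 : (1 : ℝ) ≤ N := by exact_mod_cast hN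
  have hN0 : (0 : ℝ) < N := by linarith
  set y := (q : ℝ) ^ e with hy
  have hy1 : 1 ≤ y ^ θ := Real.one_le_rpow (Real.one_le_rpow hq1 he.le) t0.le
  have hS : ∑ n ∈ Ioc 0 N, χ n = Bu.SS (fun n => χ n) N := by simp [Bu.SS]
  have hp : 0 ≤ (N : ℝ) ^ (1 - θ) := by positivity
  have hs : (N : ℝ) = (N : ℝ) ^ (1 - θ) * (N : ℝ) ^ θ := by
    rw [← Real.rpow_add hN0]; simp
  by_cases c1 : y ≤ N
  · by_cases c2 : (N : ℝ) ≤ (q : ℝ) ^ 2
    · rw [hS]
      refine (h q χ hχ hR N c1).trans (le_trans ?_ (le_mul_of_one_le_right (by positivity) hy1))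
      have e1 : (N : ℝ) ^ θ * (q : ℝ) ^ (-η) ≤ 1 := by
        have e2 : (N : ℝ) ^ θ ≤ (q : ℝ) ^ η := by
          refine (Real.rpow_le_rpow hN0.le c2 t0.le).trans ?_
          rw [← Real.rpow_natCast, ← Real.rpow_mul (by linarith)]
          exact Real.rpow_le_rpow_of_exponent_le hq1 (by push_cast; linarith)
        rw [Real.rpow_neg (by linarith), ← div_eq_mul_inv, div_le_one (by positivity)]
        exact e2
      calc _ = C * (N : ℝ) ^ (1 - θ) * ((N : ℝ) ^ θ * (q : ℝ) ^ (-η)) := by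
            conv_lhs => rw [hs]
            ring
        _ ≤ _ := mul_le_of_le_one_right (by positivity) e1
    · refine (MP_c03ca8_nt.Q.char_interval (NeZero.pos q) χ h1 0 N).trans ?_
      have e1 : (q : ℝ) ≤ (N : ℝ) ^ (1 - θ) := by
        refine le_trans ?_ (Real.rpow_le_rpow_of_exponent_le hN1 (by linarith : 1 / 2 ≤ 1 - θ))
        rw [← Real.sqrt_eq_rpow]
        exact Real.le_sqrt_of_sq_le (not_le.1 c2).le
      exact e1.trans ((le_mul_of_one_le_left hp hC).trans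
        (le_mul_of_one_le_right (by positivity) hy1))
  · rw [hS]
    refine (Bu.ss_triv _ (fun n => χ.norm_le_one _) N).trans (hs.le.trans ?_)
    exact mul_le_mul (le_mul_of_one_le_left hp hC)
      (Real.rpow_le_rpow hN0.le (not_le.1 c1).le t0.le) (by positivity) (by positivity)

end Pool.Agent.Lib.MP_778b46_nt.GL
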