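import Pool.Agent.Lib.MP_778b46_nt.GL.Zf
import Pool.Agent.Lib.MP_778b46_nt.GL.Zt

set_option autoImplicit false

noncomputable section

namespace Pool.Agent.Lib.MP_778b46_nt.GL

open Complex Finset Filter
open scoped Real
open Pool.Agent.Lib.MP_778b46_nt.MA
open Pool.Agent.Lib.MP_778b46_nt.GX (DC Lp cd ord lam pr)

/-- Growth of the `L`-function when the odd part of the conductor is bounded. -/
theorem up2 (R : ℕ) {e : ℝ} (he : 0 < e) : ∃ θ C : ℝ, 0 < θ ∧ θ ≤ 1 / 2 ∧ 1 ≤ C ∧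
    ∀ (Q : ℕ) [NeZero Q] (ξ : DC Q) (y K : ℝ) (s : ℂ), od ξ.conductor ≤ R → 1 ≤ y →
      cd ξ ^ e ≤ y → 1 - θ / 2 ≤ s.re → 1 ≤ K → ‖s‖ ≤ K →
      ‖Lp ξ s‖ ≤ C * K ^ 2 * (1 + Real.log y) * y ^ (max (1 - s.re) 0) := by
  obtain ⟨th, C, h0, h1, hC, hB⟩ := tb2 R he
  obtain ⟨C', hC', hup⟩ := GX.lfun_upperK th C h0 h1 hC
  refine ⟨th, C' + 48, h0, h1, by linarith, fun Q _ ξ y K s hod hy hcd hs hK hsK => ?_⟩
  have hlog := Real.log_nonneg hy
  have hyp : 1 ≤ y ^ (max (1 - s.re) 0) := Real.one_le_rpow hy (le_max_right _ _)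
  by_cases h : ξ = 1
  · have h2 := GX.LF_upper ξ.primitiveCharacter (s := s) (by linarith)
    have h3 : ((ξ.conductor : ℕ) : ℝ) = 1 := by
      rw [h]
      exact GX.cd_one
    rw [h3] at h2
    have h4 : (1 + ‖s‖) ^ 2 ≤ (2 * K) ^ 2 := by gcongr; linarith
    calc ‖Lp ξ s‖ ≤ 12 * 1 * (1 + ‖s‖) ^ 2 := h2
      _ ≤ 48 * K ^ 2 * 1 * 1 := by nlinarith
      _ ≤ _ := by gcongr <;> linarith
  · rw [GX.Lp_of_ne h]
    have hne := mt (GX.prim_eq_one_iff ξ).1 h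
    have h2 := hup _ ξ.primitiveCharacter y hne hy (fun x hx => by
      have h3 := hB _ ξ.primitiveCharacter ξ.primitiveCharacter_isPrimitive hne hod ⌊x⌋₊
      refine h3.trans ?_
      have h4 : (0 : ℝ) ≤ (ξ.conductor : ℝ) ^ e := Real.rpow_nonneg (Nat.cast_nonneg _) e
      have h5 : (ξ.conductor : ℝ) ^ e ≤ y := hcd
      have h6 : (⌊x⌋₊ : ℝ) ≤ x := Nat.floor_le (by linarith)
      gcongr
      linarith) s K hs hK hsK
    refine h2.trans ?_
    gcongr
    · linarith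
    · nlinarith

theorem zh_inv {z : ℂ} (hz : 0 < z.re) : 0 ≤ (1 / z).re ∧ (1 / z).re ≤ 1 / z.re := by
  have h1 : z.re * z.re ≤ normSq z := by
    rw [normSq_apply]
    nlinarith [mul_self_nonneg z.im]
  have h2 : 0 < normSq z := lt_of_lt_of_le (mul_pos hz hz) h1
  rw [one_div, inv_re]
  refine ⟨by positivity, ?_⟩
  rw [div_le_div_iff₀ h2 hz]
  linarith

theorem zh_sum (s : ℂ) (Z : Multiset ℂ) (h : ∀ ρ ∈ Z, ρ.re < s.re) :
    0 ≤ (Z.map fun ρ => 1 / (s - ρ)).sum.re := by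
  induction Z using Multiset.induction_on with
  | empty => simp
  | cons ρ Z ih =>
    rw [Multiset.map_cons, Multiset.sum_cons, add_re]
    refine add_nonneg (zh_inv ?_).1 (ih fun z hz => h z (Multiset.mem_cons_of_mem hz))
    rw [sub_re]
    linarith [h ρ (Multiset.mem_cons_self _ _)]

open Classical in
/-- Upper bound for the logarithmic derivative, with an arbitrarily small constant. -/
theorem ld2 (R : ℕ) (a Y : ℝ) (ha : 1 ≤ a) {ε : ℝ} (hε : 0 < ε) : ∃ δ : ℝ, 0 < δ ∧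
    ∀ᶠ P : ℝ in atTop, ∀ (Q : ℕ) [NeZero Q] (ξ : DC Q) (γ : ℝ), cd ξ ≤ P →
      od ξ.conductor ≤ R → |γ| ≤ Y →
      (LSeries (fun n => pr ξ n * (ArithmeticFunction.vonMangoldt n : ℂ))
          ((1 + a / Real.log P : ℝ) + γ * I)).re ≤
        (if ξ = 1 then Real.log P / a else 0) + ε * Real.log P ∧
      ∀ β : ℝ, 1 - δ ≤ β → ord ξ (β + γ * I) ≠ 0 → ξ ≠ 1 →
        (LSeries (fun n => pr ξ n * (ArithmeticFunction.vonMangoldt n : ℂ))
          ((1 + a / Real.log P : ℝ) + γ * I)).re ≤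
          ε * Real.log P - 1 / (1 + a / Real.log P - β) := by
  obtain ⟨e, he, he1, he2⟩ : ∃ e : ℝ, 0 < e ∧ e ≤ 1 ∧ e ≤ ε / 2 :=
    ⟨min 1 (ε / 2), lt_min one_pos (by linarith), min_le_left _ _, min_le_right _ _⟩
  obtain ⟨θ, C, hθ, hθ', hC, hup⟩ := up2 R he
  obtain ⟨δ, η, M, P0, hδ, -, hη, hM, hP0, hpf⟩ := pfG hθ hθ' hC (show 0 < ε / 4 by linarith)
  refine ⟨δ / 2, by linarith, ?_⟩
  filter_upwards [eventually_ge_atTop P0, (tendsto_rpow_atTop hη).eventually_ge_atTop Y,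
    Real.tendsto_log_atTop.eventually_ge_atTop (2 * a / δ),
    Real.tendsto_log_atTop.eventually_ge_atTop (2 * M * a / ε)] with P h1 h2 h3 h4
  intro Q _ ξ γ hcd hod hγ
  have hP1 : 1 < P := by linarith
  have hL : 0 < Real.log P := Real.log_pos hP1
  obtain ⟨Z, H, z1, z2, -, z4, -, -, z7, z8⟩ := hpf P h1 Q ξ e γ he.le (by linarith)
    (fun K s g1 g2 g3 => hup Q ξ (P ^ e) K s hod (Real.one_le_rpow hP1.le he.le)
      (Real.rpow_le_rpow (GX.cd_pos ξ).le hcd he.le) g1 g2 g3) (hγ.trans h2)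
  unfold GX.cc at z1 z4 z7 z8
  generalize Real.log P = L at *
  rw [div_le_iff₀ hδ] at h3
  rw [div_le_iff₀ hε] at h4
  have k0 : 0 < a / L := by positivity
  have k1 : a / L ≤ δ / 2 := by
    rw [div_le_iff₀ hL]
    linarith
  have k2 : 1 / L ≤ a / L := by gcongr
  have k3 : 0 < 1 / L := by positivity
  obtain ⟨s, hs⟩ : ∃ s : ℂ, s = ((1 + a / L : ℝ) : ℂ) + γ * I := ⟨_, rfl⟩
  rw [← hs]
  have hre : s.re = 1 + a / L := by simp [hs]
  have hn : ‖s - (((1 + 1 / L : ℝ) : ℂ) + γ * I)‖ ≤ a / L := by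
    have : s - (((1 + 1 / L : ℝ) : ℂ) + γ * I) = ((a / L - 1 / L : ℝ) : ℂ) := by
      rw [hs]
      push_cast
      ring
    rw [this, norm_real, Real.norm_eq_abs, abs_of_nonneg (by linarith)]
    linarith
  have hH : (H s).re ≤ ε * L := by
    have a1 := (le_abs_self _).trans ((abs_re_le_norm _).trans (z7 s (hn.trans k1)))
    rw [sub_re] at a1
    have a2 : M * L * ‖s - (((1 + 1 / L : ℝ) : ℂ) + γ * I)‖ ≤ M * L * (a / L) :=
      mul_le_mul_of_nonneg_left hn (by positivity)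
    have a3 : M * L * (a / L) = M * a := by field_simp
    have a4 := mul_le_mul_of_nonneg_right he2 hL.le
    linarith
  have hZ : ∀ ρ ∈ Z, ρ.re < s.re := fun ρ hρ => by linarith [(z2 ρ hρ).2]
  rw [z8 s (hn.trans k1) (by linarith), add_re, sub_re]
  refine ⟨?_, fun β hβ ho hξ => ?_⟩
  · have a1 := zh_sum s Z hZ
    split_ifs
    · have a2 := (zh_inv (z := s - 1) (by rw [sub_re, one_re]; linarith)).2
      rw [sub_re, one_re, hre, add_sub_cancel_left, one_div_div] at a2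
      linarith
    · rw [zero_re]
      linarith
  · have b1 : β < 1 := by simpa using GX.re_lt_one_of_ord ho
    have b2 : ‖(β + γ * I : ℂ) - (((1 + 1 / L : ℝ) : ℂ) + γ * I)‖ ≤ δ := by
      have : (β + γ * I : ℂ) - (((1 + 1 / L : ℝ) : ℂ) + γ * I) = ((β - (1 + 1 / L) : ℝ) : ℂ) := by
        push_cast
        ring
      rw [this, norm_real, Real.norm_eq_abs, abs_le]
      constructor <;> linarith
    have b3 : (β + γ * I : ℂ) ∈ Z := by
      rw [← Multiset.count_ne_zero, z1, if_pos b2]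
      exact ho
    have b4 := zh_sum s (Z.erase (β + γ * I)) fun ρ hρ => hZ ρ (Multiset.mem_of_mem_erase hρ)
    have b5 : 1 / (s - (β + γ * I)) = ((1 / (1 + a / L - β) : ℝ) : ℂ) := by
      rw [hs]
      push_cast
      ring
    rw [← Multiset.cons_erase b3, Multiset.map_cons, Multiset.sum_cons, add_re, b5, ofReal_re,
      if_neg hξ, zero_re]
    linarith

end Pool.Agent.Lib.MP_778b46_nt.GL
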