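import Pool.Agent.Lib.MP_778b46_nt.GL.ZDef

set_option autoImplicit false

noncomputable section

namespace Pool.Agent.Lib.MP_778b46_nt.GL

open Complex Finset Filter
open scoped Real
open Pool.Agent.Lib.MP_778b46_nt.MA
open Pool.Agent.Lib.MP_778b46_nt.GX (DC Lp cd ord lam pr)

theorem zm_gg : ∃ C : ℝ, 0 ≤ C ∧ ∀ (s s' : ℂ) (μ : ℝ), 0 ≤ s.re → s.re ≤ 1 → 0 ≤ s'.re →
    s'.re ≤ 1 → ‖GG w1 s s' μ‖ ≤
      C * ((1 + |s.im|) ^ (-(1 / 4 : ℝ)) * (1 + |s'.im|) ^ (-(1 / 4 : ℝ))) := by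
  obtain ⟨C, h0, h⟩ := gg_decay wt_w1
  refine ⟨C, h0, fun s s' μ a1 a2 a3 a4 => (h s s' μ a1 a2 a3 a4).trans
    (mul_le_mul_of_nonneg_left ?_ h0)⟩
  have b : 0 < 1 + max |s.im| |s'.im| :=
    add_pos_of_pos_of_nonneg one_pos (le_max_of_le_left (abs_nonneg _))
  rw [show (-(1 / 2 : ℝ)) = -(1 / 4 : ℝ) + -(1 / 4 : ℝ) by norm_num, Real.rpow_add b]
  exact mul_le_mul
    (Real.rpow_le_rpow_of_nonpos (by positivity) (by linarith [le_max_left |s.im| |s'.im|])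
      (by norm_num))
    (Real.rpow_le_rpow_of_nonpos (by positivity) (by linarith [le_max_right |s.im| |s'.im|])
      (by norm_num)) (Real.rpow_nonneg b.le _) (Real.rpow_nonneg (by positivity) _)

theorem zm_pair : ∃ C : ℝ, 0 ≤ C ∧ ∀ (X δ T μ : ℝ) (N : ℕ) [NeZero N] (χ χ' : DC N),
    0 < X → δ ≤ 1 →
    ‖(∑ i ∈ insertNone (zs (Lp χ) δ T), ∑ j ∈ insertNone (zs (Lp χ') δ T),
        GG w1 (s1s i) (s1s j) μ * (s1a X χ i * s1a X χ' j)) -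
      ((s1e χ * s1e χ' * I0 w1 μ : ℝ) : ℂ)‖ ≤ C * vz X δ T χ χ' := by
  obtain ⟨C, h0, hG⟩ := zm_gg
  refine ⟨C, h0, fun X δ T μ N _ χ χ' hX hδ => ?_⟩
  have hn : ∀ ψ : DC N, ‖(s1e ψ : ℂ)‖ = s1e ψ := fun ψ => by
    rw [norm_real, Real.norm_of_nonneg (s1_e_nonneg ψ)]
  have e0 : GG w1 1 1 μ * ((s1e χ : ℂ) * s1e χ') = ((s1e χ * s1e χ' * I0 w1 μ : ℝ) : ℂ) := by
    rw [gg_one]
    push_cast
    ring
  have e1 : ‖∑ ρ' ∈ zs (Lp χ') δ T, GG w1 1 ρ' μ * ((s1e χ : ℂ) * s1c X (Lp χ') ρ')‖ ≤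
      C * (s1e χ * uz X δ T χ') := by
    rw [uz, mul_sum, mul_sum]
    refine norm_sum_le_of_le _ fun ρ hρ => ?_
    have a := s1_mem hδ hρ
    have b := hG 1 ρ μ (by simp) (by simp) a.1 a.2
    have c := s1_le_xw hX (Lp χ') a.2
    have d := s1_e_nonneg χ
    simp only [one_im, abs_zero, add_zero, Real.one_rpow, one_mul] at b
    rw [norm_mul, norm_mul, hn]
    calc _ ≤ (C * (1 + |ρ.im|) ^ (-(1 / 4 : ℝ))) * (s1e χ * xw X (Lp χ') ρ) := by gcongr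
      _ = _ := by ring
  have e2 : ‖∑ ρ ∈ zs (Lp χ) δ T, GG w1 ρ 1 μ * (s1c X (Lp χ) ρ * (s1e χ' : ℂ))‖ ≤
      C * (uz X δ T χ * s1e χ') := by
    rw [uz, sum_mul, mul_sum]
    refine norm_sum_le_of_le _ fun ρ hρ => ?_
    have a := s1_mem hδ hρ
    have b := hG ρ 1 μ a.1 a.2 (by simp) (by simp)
    have c := s1_le_xw hX (Lp χ) a.2
    have d := s1_e_nonneg χ'
    simp only [one_im, abs_zero, add_zero, Real.one_rpow, mul_one] at b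
    rw [norm_mul, norm_mul, hn]
    calc _ ≤ (C * (1 + |ρ.im|) ^ (-(1 / 4 : ℝ))) * (xw X (Lp χ) ρ * s1e χ') := by gcongr
      _ = _ := by ring
  have e3 : ‖∑ ρ ∈ zs (Lp χ) δ T, ∑ ρ' ∈ zs (Lp χ') δ T,
      GG w1 ρ ρ' μ * (s1c X (Lp χ) ρ * s1c X (Lp χ') ρ')‖ ≤
      C * (uz X δ T χ * uz X δ T χ') := by
    rw [uz, uz, sum_mul_sum, mul_sum]
    refine norm_sum_le_of_le _ fun ρ hρ => ?_
    rw [mul_sum]
    refine norm_sum_le_of_le _ fun ρ' hρ' => ?_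
    have a := s1_mem hδ hρ
    have a' := s1_mem hδ hρ'
    have b := hG ρ ρ' μ a.1 a.2 a'.1 a'.2
    have c := s1_le_xw hX (Lp χ) a.2
    have c' := s1_le_xw hX (Lp χ') a'.2
    have d := s1_xw_nonneg hX (Lp χ) ρ
    rw [norm_mul, norm_mul]
    calc _ ≤ (C * ((1 + |ρ.im|) ^ (-(1 / 4 : ℝ)) * (1 + |ρ'.im|) ^ (-(1 / 4 : ℝ)))) *
          (xw X (Lp χ) ρ * xw X (Lp χ') ρ') := by gcongr
      _ = _ := by ring
  simp only [sum_insertNone, s1s, s1a]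
  rw [sum_add_distrib, ← e0, vz, mul_add, mul_add]
  refine le_trans (le_of_eq ?_) ((norm_add₃_le.trans (add_le_add (add_le_add e1 e2) e3)))
  congr 1
  ring

/-- Two sided form of `main_lower`, for arbitrary coefficients. -/
theorem main_two : ∃ C₀ : ℝ, 1 ≤ C₀ ∧ ∀ (X P δ T₁ T E V : ℝ) (m N : ℕ) [NeZero N]
    (B : Finset (DC N)) (w : DC N → DC N → ℂ), 1 ≤ X → δ ≤ 1 → 1 ≤ T₁ → 0 ≤ E →
    1 ∈ B → B ⊆ CH N P → (∀ χ χ', ‖w χ χ'‖ ≤ V) →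
    (∀ χ ∈ B, ∀ y, |y| ≤ 2 * T₁ → ‖SS X (cf χ) y - X * VV X χ δ T y‖ ≤ E) →
    ‖∑ χ ∈ B, ∑ χ' ∈ B, w χ χ' * JJ X m T₁ (cf χ) (cf χ') -
        2 * π * X ^ 2 * (w 1 1 * I0 w1 (m / X))‖ ≤
      C₀ * X ^ 2 * ∑ χ ∈ CH N P, ∑ χ' ∈ CH N P, ‖w χ χ'‖ * vz X δ T χ χ' +
        C₀ * V * ((B.card : ℝ) ^ 2 * (T₁ * E * (X + E)) +
          X ^ 2 * T₁ ^ (-(1 / 3 : ℝ)) * (1 + Tot X N P δ T) ^ 2) := by
  obtain ⟨C₁, h1, hJ⟩ := jj_model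
  obtain ⟨C₂, h2, hP⟩ := zm_pair
  have hπ : 0 ≤ 2 * π * C₂ := by positivity
  refine ⟨1 + C₁ + 2 * π * C₂, by linarith,
    fun X P δ T₁ T E V m N _ B w hX hδ hT hE hB1 hB hw hV => ?_⟩
  have hX0 : 0 < X := one_pos.trans_le hX
  have hV0 : 0 ≤ V := (norm_nonneg _).trans (hw 1 1)
  have hxw := fun f ρ => s1_xw_nonneg hX0 f ρ
  set n : DC N → ℝ := fun χ => s1e χ + ∑ ρ ∈ zs (Lp χ) δ T, xw X (Lp χ) ρ
  have hn : ∀ χ, 0 ≤ n χ := fun χ =>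
    add_nonneg (s1_e_nonneg χ) (sum_nonneg fun ρ _ => hxw _ ρ)
  set e := T₁ * E * (X + E)
  have he : 0 ≤ e := by positivity
  set g := X ^ 2 * T₁ ^ (-(1 / 3 : ℝ))
  have hg : 0 ≤ g := by positivity
  have hp : ∀ χ ∈ B, ∀ χ' ∈ B, ‖w χ χ' * JJ X m T₁ (cf χ) (cf χ') -
      2 * π * X ^ 2 * (w χ χ' * ((s1e χ * s1e χ' * I0 w1 (m / X) : ℝ) : ℂ))‖ ≤
      2 * π * C₂ * X ^ 2 * (‖w χ χ'‖ * vz X δ T χ χ') + C₁ * V * (e + g * (n χ * n χ')) := by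
    intro χ hχ χ' hχ'
    have a1 := hJ _ _ _ _ s1s (s1a X χ) s1s (s1a X χ') X T₁ E m _ _ hX hT hE (norm_cf χ)
      (norm_cf χ') (s1_mem' (χ := χ) (T := T) hδ) (s1_mem' (χ := χ') (T := T) hδ)
      (fun y hy => by rw [← s1_VV]; exact hV χ hχ y hy)
      (fun y hy => by rw [← s1_VV]; exact hV χ' hχ' y hy)
    have a2 := hP X δ T (m / X) N χ χ' hX0 hδ
    set M := ∑ i ∈ insertNone (zs (Lp χ) δ T), ∑ j ∈ insertNone (zs (Lp χ') δ T),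
      GG w1 (s1s i) (s1s j) (m / X) * (s1a X χ i * s1a X χ' j)
    have a3 : ‖w χ χ' * (JJ X m T₁ (cf χ) (cf χ') - 2 * π * X ^ 2 * M)‖ ≤
        C₁ * V * (e + g * (n χ * n χ')) := by
      rw [norm_mul, mul_comm C₁, mul_assoc V]
      refine mul_le_mul (hw χ χ') (a1.trans ?_) (norm_nonneg _) hV0
      have b1 := s1_sum_le hX0 χ hδ T
      have b2 := s1_sum_le hX0 χ' hδ T
      have := hn χ
      gcongr
    have a4 : ‖((2 * π * X ^ 2 : ℝ) : ℂ) *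
        (w χ χ' * (M - ((s1e χ * s1e χ' * I0 w1 (m / X) : ℝ) : ℂ)))‖ ≤
        2 * π * C₂ * X ^ 2 * (‖w χ χ'‖ * vz X δ T χ χ') := by
      rw [norm_mul, norm_mul, norm_real, Real.norm_of_nonneg (by positivity)]
      calc _ ≤ 2 * π * X ^ 2 * (‖w χ χ'‖ * (C₂ * vz X δ T χ χ')) := by gcongr
        _ = _ := by ring
    refine le_trans (le_of_eq ?_) ((norm_add_le _ _).trans (add_le_add a4 a3))
    congr 1
    push_cast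
    ring
  have e0 : (2 * π * X ^ 2 * (w 1 1 * I0 w1 (m / X)) : ℂ) = ∑ χ ∈ B, ∑ χ' ∈ B,
      2 * π * X ^ 2 * (w χ χ' * ((s1e χ * s1e χ' * I0 w1 (m / X) : ℝ) : ℂ)) := by
    rw [sum_eq_single_of_mem 1 hB1 fun χ _ h => by simp [s1e, h],
      sum_eq_single_of_mem 1 hB1 fun χ _ h => by simp [s1e, h]]
    simp [s1e]
  rw [e0, ← sum_sub_distrib]
  simp only [← sum_sub_distrib]
  refine (norm_sum_le_of_le _ fun χ hχ => norm_sum_le_of_le _ fun χ' hχ' =>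
    hp χ hχ χ' hχ').trans ?_
  have t1 : ∑ χ ∈ B, n χ ≤ 1 + Tot X N P δ T := by
    rw [sum_add_distrib, s1_e_sum hB1]
    exact add_le_add le_rfl (sum_le_sum_of_subset_of_nonneg hB fun χ _ _ =>
      sum_nonneg fun ρ _ => hxw _ ρ)
  have hz : ∀ χ χ' : DC N, 0 ≤ ‖w χ χ'‖ * vz X δ T χ χ' := fun χ χ' =>
    mul_nonneg (norm_nonneg _) (vz_nonneg hX0 δ T χ χ')
  have t3 : ∑ χ ∈ B, ∑ χ' ∈ B, ‖w χ χ'‖ * vz X δ T χ χ' ≤
      ∑ χ ∈ CH N P, ∑ χ' ∈ CH N P, ‖w χ χ'‖ * vz X δ T χ χ' :=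
    (sum_le_sum fun χ _ => sum_le_sum_of_subset_of_nonneg hB fun χ' _ _ => hz χ χ').trans
      (sum_le_sum_of_subset_of_nonneg hB fun χ _ _ => sum_nonneg fun χ' _ => hz χ χ')
  have t2 : 0 ≤ ∑ χ ∈ B, ∑ χ' ∈ B, ‖w χ χ'‖ * vz X δ T χ χ' :=
    sum_nonneg fun χ _ => sum_nonneg fun χ' _ => hz χ χ'
  have t4 : (∑ χ ∈ B, n χ) * ∑ χ ∈ B, n χ ≤ (1 + Tot X N P δ T) ^ 2 := by
    rw [← sq]
    exact pow_le_pow_left₀ (sum_nonneg fun χ _ => hn χ) t1 2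
  have t5 : 0 ≤ (B.card : ℝ) ^ 2 * e + g * (1 + Tot X N P δ T) ^ 2 := by positivity
  have t6 := mul_le_mul_of_nonneg_left t4 hg
  simp only [sum_add_distrib, ← mul_sum, ← sum_mul, sum_const, nsmul_eq_mul]
  refine add_le_add (mul_le_mul (by gcongr; linarith) t3 t2 (by positivity)) ?_
  calc _ ≤ C₁ * V * ((B.card : ℝ) ^ 2 * e + g * (1 + Tot X N P δ T) ^ 2) :=
        mul_le_mul_of_nonneg_left (by linarith) (by positivity)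
    _ ≤ _ := by gcongr; linarith

end Pool.Agent.Lib.MP_778b46_nt.GL
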