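import Pool.Agent.Lib.MP_778b46_nt.GL.ZDef
import Pool.Agent.Lib.MP_778b46_nt.GX.DhE
import Pool.Agent.Lib.MP_778b46_nt.GX.SG
import Pool.Agent.Lib.MP_778b46_nt.GX.BuTB

set_option autoImplicit false

noncomputable section

namespace Pool.Agent.Lib.MP_778b46_nt.GL

open Complex Finset Filter
open scoped Real
open Pool.Agent.Lib.MP_778b46_nt.MA
open Pool.Agent.Lib.MP_778b46_nt.GX (DC Lp cd ord lam pr)

/-- Zero free region for conductors and heights up to a power of the logarithm. -/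
theorem zf_sw (A : ℕ) : ∀ᶠ X : ℝ in atTop, ∀ (Q : ℕ) [NeZero Q] (ξ : DC Q) (z : ℂ),
    cd ξ ≤ Real.log X ^ A → |z.im| ≤ Real.log X ^ A → ord ξ z ≠ 0 →
      Real.log X ^ (-(3 / 4 : ℝ)) ≤ 1 - z.re := by
  classical
  obtain ⟨η, ε2, s0, C, P0, hη, h2, h0, hd⟩ := GX.dh (by norm_num) (by norm_num) GX.tb_third GX.zfs
    2 (by norm_num) (by norm_num)
  obtain ⟨c, hc, hs⟩ := GX.sg (1 / (2 * A + 2)) (by positivity)
  obtain ⟨B, hB⟩ : ∃ B : ℝ, B = A + A / η + 1 := ⟨_, rfl⟩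
  have a0 : 0 ≤ (A : ℝ) / η := by positivity
  have a1 : (0 : ℝ) ≤ A := A.cast_nonneg
  have b0 : 0 < B := by linarith
  have b1 : (A : ℝ) ≤ B * η := by
    rw [hB, add_mul, add_mul, div_mul_cancel₀ _ hη.ne']
    nlinarith
  refine Real.tendsto_log_atTop.eventually (p := fun L => ∀ (Q : ℕ) [NeZero Q] (ξ : DC Q) (z : ℂ),
    cd ξ ≤ L ^ A → |z.im| ≤ L ^ A → ord ξ z ≠ 0 → L ^ (-(3 / 4 : ℝ)) ≤ 1 - z.re) ?_
  filter_upwards [eventually_ge_atTop 1, (tendsto_rpow_atTop b0).eventually_ge_atTop P0,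
    (tendsto_rpow_neg_atTop (y := 1 / 4) (by norm_num)).eventually_le_const
      (lt_min h2 (lt_min hc (show 0 < s0 / (2 * B) by positivity)))] with L l1 l2 l3 Q _ ξ z z1 z2 z3
  by_contra! hn
  have l0 : 0 < L := by linarith
  obtain ⟨l3, l4⟩ := le_min_iff.1 l3
  obtain ⟨l4, l5⟩ := le_min_iff.1 l4
  have l6 : 0 ≤ Real.log (L ^ B) := Real.log_nonneg (Real.one_le_rpow l1 b0.le)
  have e1 : L ^ (-(3 / 4 : ℝ)) * L ^ (1 / 2 : ℝ) = L ^ (-(1 / 4 : ℝ)) := by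
    rw [← Real.rpow_add l0]; norm_num
  have e2 : L ^ (-(1 / 4 : ℝ)) * L ^ (-(1 / 2 : ℝ)) = L ^ (-(3 / 4 : ℝ)) := by
    rw [← Real.rpow_add l0]; norm_num
  rw [← Real.rpow_natCast] at z1 z2
  obtain ⟨-, r1, r2, -⟩ := hd _ l2 Q Unit (fun _ => ξ) (fun _ => z) (fun ξ' z' => by
      unfold GX.cnt
      by_cases h : ξ = ξ' ∧ z = z'
      · obtain ⟨rfl, rfl⟩ := h
        exact (card_le_univ _).trans (Nat.one_le_iff_ne_zero.2 z3)
      · simp [h])
    (fun _ => ⟨z1.trans (Real.rpow_le_rpow_of_exponent_le l1 (by linarith)),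
      mul_le_mul_of_nonneg_right (hn.le.trans
        ((Real.rpow_le_rpow_of_exponent_le l1 (by norm_num)).trans l3)) l6, by
      rw [← Real.rpow_mul l0.le]
      exact z2.trans (Real.rpow_le_rpow_of_exponent_le l1 b1)⟩) () (by
      refine (mul_le_mul_of_nonneg_right hn.le l6).trans ?_
      rw [Real.log_rpow l0]
      rw [le_div_iff₀ (by positivity), ← e1] at l5
      refine (mul_le_mul_of_nonneg_left (mul_le_mul_of_nonneg_left
        (Real.log_le_rpow_div l0.le one_half_pos) b0.le) (by positivity)).trans (le_trans ?_ l5)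
      exact le_of_eq (by ring))
  have r3 := hs Q ξ z.re r1 (by rwa [show (z.re : ℂ) = z from Complex.ext rfl r2.symm])
  have r4 : L ^ (-(1 / 2 : ℝ)) ≤ cd ξ ^ (-(1 / (2 * (A : ℝ) + 2))) := by
    refine le_trans ?_ (Real.rpow_le_rpow_of_nonpos (one_pos.trans_le (GX.one_le_cd ξ)) z1
      (neg_nonpos.2 (by positivity)))
    rw [← Real.rpow_mul l0.le]
    refine Real.rpow_le_rpow_of_exponent_le l1 ?_
    rw [mul_neg, neg_le_neg_iff, mul_one_div, div_le_iff₀ (by positivity)]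
    linarith
  linarith [mul_le_mul l4 r4 (by positivity) hc.le]

end Pool.Agent.Lib.MP_778b46_nt.GL
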