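import Pool.Agent.Lib.MP_778b46_nt.GL.Zn
import Pool.Agent.Lib.MP_778b46_nt.GL.Zu
import Pool.Agent.Lib.MP_778b46_nt.MA.E4

set_option autoImplicit false

noncomputable section

namespace Pool.Agent.Lib.MP_778b46_nt.GL

open Complex Finset Filter
open scoped Real
open Pool.Agent.Lib.MP_778b46_nt.MA
open Pool.Agent.Lib.MP_778b46_nt.GX (DC Lp cd ord lam pr)

theorem zo_log (K : ℝ) (k : ℕ) {c : ℝ} (hc : 0 < c) :
    ∀ᶠ X : ℝ in atTop, K * Real.log X ^ k ≤ X ^ c := by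
  have h := (isLittleO_log_rpow_rpow_atTop (k : ℝ) hc).const_mul_left K
  filter_upwards [h.bound zero_lt_one, eventually_ge_atTop 0] with X a b
  rw [one_mul, Real.rpow_natCast, Real.norm_of_nonneg (Real.rpow_nonneg b c)] at a
  exact (le_abs_self _).trans a

theorem zo_exp (k : ℕ) : ∀ᶠ X : ℝ in atTop,
    Real.log X ^ k ≤ Real.exp (Real.log X ^ (1 / 4 : ℝ) / 25) := by
  have t : Tendsto (fun X : ℝ => Real.exp (Real.log X ^ (1 / 4 : ℝ))) atTop atTop :=
    Real.tendsto_exp_atTop.comp ((tendsto_rpow_atTop (by norm_num)).comp Real.tendsto_log_atTop)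
  filter_upwards [t.eventually (zo_log 1 (4 * k) (c := 1 / 25) (by norm_num)),
    eventually_ge_atTop 1] with X a b
  rw [one_mul, Real.log_exp, ← Real.exp_mul, pow_mul, ← Real.rpow_natCast _ 4,
    ← Real.rpow_mul (Real.log_nonneg b)] at a
  norm_num at a ⊢
  rwa [div_eq_mul_one_div]

theorem zo_pt (A : ℕ) : ∀ᶠ X : ℝ in atTop, ∀ (q : ℕ) [NeZero q] (χ : DC q) (z : ℂ),
    cd χ ≤ Real.log X ^ A → Lp χ z = 0 →
      Real.exp (-(lam (X ^ (1 / 5 : ℝ)) z / 5)) * (1 + |z.im|) ^ (-(1 / 8 : ℝ)) ≤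
        (Real.log X ^ (2 * A + 1))⁻¹ := by
  filter_upwards [zf_sw (8 * (2 * A + 1)), zo_exp (2 * A + 1), eventually_gt_atTop 0,
    Real.tendsto_log_atTop.eventually_ge_atTop 1] with X h1 h2 h3 h4 q _ χ z hc hz
  have o := (GX.ord_ne_zero_iff χ z).2 hz
  have r := GX.re_lt_one_of_ord o
  have L0 : 0 < Real.log X := by linarith
  rw [lam, Real.log_rpow h3]
  rcases le_total |z.im| (Real.log X ^ (8 * (2 * A + 1))) with a | a
  · have b := h1 q χ z (hc.trans (pow_le_pow_right₀ h4 (by omega))) a o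
    have c : Real.log X ^ (1 / 4 : ℝ) = Real.log X ^ (-(3 / 4 : ℝ)) * Real.log X := by
      rw [← Real.rpow_add_one L0.ne']
      norm_num
    have e : (1 + |z.im|) ^ (-(1 / 8 : ℝ)) ≤ 1 :=
      Real.rpow_le_one_of_one_le_of_nonpos (le_add_of_nonneg_right (abs_nonneg _)) (by norm_num)
    refine (mul_le_of_le_one_right (Real.exp_pos _).le e).trans ?_
    rw [Real.exp_neg]
    refine inv_anti₀ (by positivity) (h2.trans (Real.exp_le_exp.2 ?_))
    rw [c]
    nlinarith [mul_le_mul_of_nonneg_right b L0.le]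
  · have e : Real.exp (-((1 - z.re) * (1 / 5 * Real.log X) / 5)) ≤ 1 :=
      Real.exp_le_one_iff.2 (by nlinarith [mul_pos (sub_pos.2 r) L0])
    refine (mul_le_of_le_one_left (by positivity) e).trans ?_
    refine (Real.rpow_le_rpow_of_nonpos (x := Real.log X ^ (8 * (2 * A + 1))) (by positivity)
      (by linarith) (by norm_num)).trans (le_of_eq ?_)
    rw [pow_mul', ← Real.rpow_natCast _ 8, ← Real.rpow_mul (by positivity), ← Real.rpow_neg_one]
    norm_num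

theorem zo_vv : ∃ M : ℝ, 0 ≤ M ∧ ∀ (X δ T y : ℝ) (q : ℕ) [NeZero q] (χ : DC q), 0 < X → δ ≤ 1 →
    ‖VV X χ δ T y - s1e χ * MM w1 y 1‖ ≤ M * (1 + |y|) * uz X δ T χ := by
  obtain ⟨M, hM, H⟩ := mm_bd wt_w1 1
  refine ⟨M, hM, fun X δ T y q _ χ hX hδ => ?_⟩
  rw [s1_VV, sum_insertNone]
  simp only [s1s, s1a]
  rw [mul_comm (MM w1 y 1), add_sub_cancel_left, uz, mul_sum]
  refine (norm_sum_le _ _).trans (sum_le_sum fun ρ h => ?_)
  obtain ⟨a, b⟩ := s1_mem hδ h
  have c := H y ρ a (by linarith)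
  have p : 1 ≤ 1 + |ρ.im| := le_add_of_nonneg_right (abs_nonneg _)
  have d : (1 + |ρ.im|)⁻¹ ≤ (1 + |ρ.im|) ^ (-(1 / 4 : ℝ)) := by
    rw [← Real.rpow_neg_one]
    exact Real.rpow_le_rpow_of_exponent_le p (by norm_num)
  rw [pow_one, div_eq_mul_inv] at c
  rw [norm_mul]
  calc _ ≤ M * ((1 + |y|) * (1 + |ρ.im|) ^ (-(1 / 4 : ℝ))) * xw X (Lp χ) ρ :=
        mul_le_mul (c.trans (by gcongr)) (s1_le_xw hX _ b) (norm_nonneg _) (by positivity)
    _ = _ := by ring

/-- The theorem of Siegel and Walfisz for the twisted sums. -/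
theorem sw_ss (A : ℕ) : ∀ᶠ X : ℝ in atTop, ∀ (q : ℕ) [NeZero q] (χ : DC q) (y : ℝ),
    (q : ℝ) ≤ X / 4 → cd χ ≤ Real.log X ^ A → |y| ≤ Real.log X ^ A →
      ‖SS X (cf χ) y - s1e χ * X * MM w1 y 1‖ ≤ X / Real.log X ^ A := by
  obtain ⟨d, η, B, hd, hd', hη, hB, hZ⟩ :=
    zsum (th := 1 / 5) (e := 1 / 40) (by norm_num) (by norm_num) (by norm_num) le_rfl
  obtain ⟨g, g0, g1, g2⟩ : ∃ g : ℝ, 0 < g ∧ g ≤ η ∧ g ≤ d / 4 :=
    ⟨min η (d / 4), lt_min hη (by positivity), min_le_left _ _, min_le_right _ _⟩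
  obtain ⟨C, hC, hE⟩ := ef hd hd' (half_pos g0)
  obtain ⟨M, hM, hV⟩ := zo_vv
  filter_upwards [hZ, zo_pt A, zo_log 1 A (half_pos g0), zo_log (2 * C) (A + 2) (half_pos hd),
    eventually_ge_atTop 2, Real.tendsto_log_atTop.eventually_ge_atTop 1,
    Real.tendsto_log_atTop.eventually_ge_atTop (4 * M * B)]
    with X h1 h2 h3 h4 h5 h6 h7 q _ χ y hq hc hy
  have X0 : 0 < X := by linarith
  have X1 : 1 ≤ X := by linarith
  have L0 : 0 < Real.log X := by linarith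
  have LA : 1 ≤ Real.log X ^ A := one_le_pow₀ h6
  have up : ∀ {a b : ℝ}, a ≤ b → X ^ a ≤ X ^ b := Real.rpow_le_rpow_of_exponent_le X1
  rw [one_mul] at h3
  have e1 := hE X (Real.log X ^ A) (X ^ g) y q χ h5 LA
    (by
      calc _ ≤ X ^ (g / 2) * X ^ (g / 2) := by gcongr
        _ = X ^ g := by rw [← Real.rpow_add X0, add_halves])
    ((up (by linarith)).trans_eq (Real.rpow_one X))
    ((hc.trans (h3.trans (up (by linarith)))).trans_eq (Real.rpow_one X)) (by linarith)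
    fun n hn hx => (Nat.Prime.coprime_iff_not_dvd hn).2 fun e => by
      have : (n : ℝ) ≤ q := Nat.cast_le.2 (Nat.le_of_dvd (NeZero.pos q) e)
      linarith
  have e2 := (h1 d (X ^ g) le_rfl (Real.one_le_rpow X1 g0.le) (up g1) q).2 {χ}
    (Real.log X ^ (2 * A + 1))⁻¹
    (singleton_subset_iff.2 (mem_filter.2 ⟨mem_univ _, hc.trans (h3.trans (up (by linarith)))⟩))
    (by positivity) fun ξ hξ z hz => by
      rw [mem_singleton.1 hξ] at hz
      exact h2 q χ z hc ((mem_zs (GX.Lp_diff χ) (GX.Lp_ne_zero χ (by simp))).1 hz).1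
  rw [sum_singleton] at e2
  have e3 := hV X d (X ^ g) y q χ X0 (by linarith)
  have e4 : C * X ^ (1 - d) * (X ^ g) ^ 2 * Real.log X ^ 2 ≤ X / Real.log X ^ A / 2 := by
    have a : X ^ (1 - d) * (X ^ g) ^ 2 * X ^ (d / 2) ≤ X := by
      rw [sq, ← Real.rpow_add X0, ← Real.rpow_add X0, ← Real.rpow_add X0]
      exact (up (by linarith)).trans_eq (Real.rpow_one X)
    rw [div_div, le_div_iff₀ (by positivity)]
    calc _ = X ^ (1 - d) * (X ^ g) ^ 2 * (2 * C * Real.log X ^ (A + 2)) := by ring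
      _ ≤ X ^ (1 - d) * (X ^ g) ^ 2 * X ^ (d / 2) := by gcongr
      _ ≤ X := a
  have e5 : X * (M * (1 + |y|) * uz X d (X ^ g) χ) ≤ X / Real.log X ^ A / 2 := by
    calc _ ≤ X * (M * (2 * Real.log X ^ A) * (B * (Real.log X ^ (2 * A + 1))⁻¹)) := by
          have := uz_nonneg X0 d (X ^ g) χ
          gcongr
          linarith
      _ = X / Real.log X ^ A / 2 * (4 * M * B / Real.log X) := by
          field_simp
          ring
      _ ≤ _ := mul_le_of_le_one_right (by positivity) ((div_le_one L0).2 h7)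
  calc _ = ‖(SS X (cf χ) y - X * VV X χ d (X ^ g) y) +
        X * (VV X χ d (X ^ g) y - s1e χ * MM w1 y 1)‖ := by congr 1; ring
    _ ≤ _ := norm_add_le _ _
    _ ≤ X / Real.log X ^ A / 2 + X / Real.log X ^ A / 2 := by
        refine add_le_add (e1.trans e4) (le_trans ?_ e5)
        rw [norm_mul, norm_real, Real.norm_of_nonneg X0.le]
        gcongr
    _ = _ := add_halves _

end Pool.Agent.Lib.MP_778b46_nt.GL
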