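import Pool.Agent.Lib.MP_778b46_nt.GL.ZDef
import Pool.Agent.Lib.MP_778b46_nt.MA.S2

set_option autoImplicit false

noncomputable section

namespace Pool.Agent.Lib.MP_778b46_nt.GL

open Complex Finset Filter
open scoped Real
open Pool.Agent.Lib.MP_778b46_nt.MA
open Pool.Agent.Lib.MP_778b46_nt.GX (DC Lp cd ord lam pr)

theorem bb_st {κ : ℝ} (hκ : 0 < κ) : ∃ C : ℝ, 0 ≤ C ∧ ∀ (X P H Λ T : ℝ) (m N : ℕ) [NeZero N]
    (B : Finset (DC N)), 2 ≤ X → 1 ≤ P → N = ⌊P⌋₊.factorial → Rat0 N Λ →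
    1 ≤ m → 1 ≤ T → T ≤ X → P * (T * X ^ κ) ≤ H →
    ‖BB X P H m (fun _ => T) (res B (MA.dd X)) (res B (MA.dd X)) -
        ∑ χ ∈ B, ∑ χ' ∈ B, SC P m χ χ' * JJ X m T (cf χ) (cf χ')‖ ≤
      C * (B.card : ℝ) ^ 2 * Λ ^ 2 * tu m := by
  obtain ⟨C, hC, hJ⟩ := jj_trunc hκ
  refine ⟨4 * C, by positivity, fun X P H Λ T m N _ B hX hP hN hΛ hm hT hTX hH => ?_⟩
  have hT0 : 0 < T := by linarith
  have hX0 : 0 ≤ X := by linarith
  have hK : ∀ q ∈ Icc 1 ⌊P⌋₊, ∀ χ χ' : DirichletCharacter ℂ N,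
      ‖b5_K X T (H / q) m (cf χ) (cf χ') - JJ X m T (cf χ) (cf χ')‖ ≤ C := by
    intro q hq χ χ'
    obtain ⟨h1, h2⟩ := Finset.mem_Icc.1 hq
    have hq0 : (0 : ℝ) < q := by exact_mod_cast h1
    have hqP : (q : ℝ) ≤ P := (Nat.le_floor_iff (by linarith)).1 h2
    have h3 : T * X ^ κ ≤ H / q := by
      rw [le_div_iff₀ hq0, mul_comm]
      exact le_trans (mul_le_mul_of_nonneg_right hqP (by positivity)) hH
    have h4 := hJ X T (H / q) m (cf χ) (cf χ') hX hT hTX h3 (norm_cf χ) (norm_cf χ')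
    rw [b5_int X (H / q) hT0] at h4
    rw [norm_sub_rev]
    exact h4
  rw [b5_bb B X P H m hT0, ← sum_sub_distrib]
  refine (norm_sum_le _ _).trans ((sum_le_card_nsmul _ _ (B.card * (4 * Λ ^ 2 * tu m * C))
    fun χ _ => ?_).trans (le_of_eq (by rw [nsmul_eq_mul]; ring)))
  rw [← sum_sub_distrib, ← nsmul_eq_mul]
  refine (norm_sum_le _ _).trans (sum_le_card_nsmul _ _ _ fun χ' _ => ?_)
  rw [SC, sum_mul, ← sum_sub_distrib]
  refine (norm_sum_le _ _).trans (le_trans (sum_le_sum fun q hq => ?_)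
    ((sum_mul _ _ C).symm.le.trans (mul_le_mul_of_nonneg_right (ww_icc hΛ hN hm χ χ') hC)))
  rw [← mul_sub, norm_mul]
  exact mul_le_mul_of_nonneg_left (hK q hq χ χ') (norm_nonneg _)

theorem r1_st {k r ϑ θ : ℝ} (hr0 : 0 < r) (hr : 40 * r ≤ k) (h1 : k ≤ 1 / 2000)
    (hϑ : ϑ + 16 * k ≤ θ) (hθ : θ ≤ 9 / 20)
    (hm : ∃ C : ℝ, 0 ≤ C ∧ ∀ X P H : ℝ, 2 ≤ X → 1 ≤ P → P ≤ H → H ≤ X ^ (9 / 20 : ℝ) →
      mass P H (fun _ ψ t => DD X (cf ψ) t) ≤ C * X ^ 2 * Real.log X ^ 4)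
    (hs : ∃ C : ℝ, 0 ≤ C ∧ ∀ X P H : ℝ, 2 ≤ X → 1 ≤ P → P ≤ H → H ≤ X ^ θ →
      mass P H (fun _ ψ t => sml (X ^ (1 - k)) (DD X (cf ψ) t)) ≤ C * X ^ (2 - r)) :
    ∃ X₀ : ℝ, 2 ≤ X₀ ∧
    ∀ (X P : ℝ) (N : ℕ) [NeZero N], X₀ ≤ X → 2 ≤ P → P ≤ X ^ ϑ →
    N = ⌊P⌋₊.factorial → ∃ B : Finset (DC N), 1 ∈ B ∧ B ⊆ CH N P ∧
      (B.card : ℝ) ≤ X ^ (3 * k) ∧ ∀ m : ℕ, 1 ≤ m → (m : ℝ) ≤ 2 * X →
        ‖2 * π * X * R1 X P (P * X ^ (15 * k)) m -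
          ∑ χ ∈ B, ∑ χ' ∈ B, SC P m χ χ' * JJ X m (X ^ (15 * k)) (cf χ) (cf χ')‖ ≤
          X ^ (2 - 4 * r / 9) := by
  have h0 : 0 < k := by linarith
  obtain ⟨e, he⟩ : ∃ e : ℝ, e = r / 360 := ⟨_, rfl⟩
  have he0 : 0 < e := by rw [he]; positivity
  obtain ⟨C1, hC1, r1⟩ := r1_bb h0
  obtain ⟨C2, hC2, r2⟩ := bb_narrow
  obtain ⟨C3, hC3, r3⟩ := bb_res
  obtain ⟨C4, hC4, r4⟩ := bb_st h0
  obtain ⟨C5, hC5, r5⟩ := hm
  obtain ⟨C6, hC6, r6⟩ := hs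
  obtain ⟨C7, hC7, r7⟩ := rat_fact
  obtain ⟨C8, hC8, r8⟩ := MP_2a1a00_nt.card_divisors_le (e / 2) (half_pos he0)
  obtain ⟨X₀, hX₀, hbig⟩ := s2_big he0
    (show 0 ≤ 2 + C1 + C2 + C3 + C4 + C5 + C6 + C7 + C8 by linarith)
  refine ⟨X₀, hX₀, fun X P N _ hX hP hPX hN => ?_⟩
  have hX2 : 2 ≤ X := hX₀.trans hX
  have hX1 : 1 ≤ X := by linarith
  have hXp : 0 < X := by linarith
  have hlog : 0 ≤ Real.log X := Real.log_nonneg hX1
  have hb := hbig X hX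
  have hnn : ∀ a : ℝ, 0 ≤ X ^ a := fun a => Real.rpow_nonneg hXp.le a
  have hone : ∀ a : ℝ, 0 ≤ a → 1 ≤ X ^ a := fun a ha => Real.one_le_rpow hX1 ha
  have hK : ∀ C : ℝ, 0 ≤ C → C ≤ 2 + C1 + C2 + C3 + C4 + C5 + C6 + C7 + C8 →
      C * (1 + Real.log X) ≤ X ^ e := fun C _ h =>
    (mul_le_mul_of_nonneg_right h (by linarith)).trans hb
  have hK' : ∀ C : ℝ, 0 ≤ C → C ≤ 2 + C1 + C2 + C3 + C4 + C5 + C6 + C7 + C8 → C ≤ X ^ e :=
    fun C h0 h => (le_mul_of_one_le_right h0 (by linarith)).trans (hK C h0 h)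
  have u2 : 2 ≤ X ^ e := hK' 2 (by norm_num) (by linarith)
  have u1 := hK' C1 hC1 (by linarith)
  have u3 := hK' C3 hC3 (by linarith)
  have u22 := hK' C2 hC2 (by linarith)
  have u4 := hK' C4 hC4 (by linarith)
  have u5 := hK' C5 hC5 (by linarith)
  have u6 := hK' C6 hC6 (by linarith)
  have u8 := hK' C8 hC8 (by linarith)
  have uL : 1 + Real.log X ≤ X ^ e := by
    have := hK 1 (by norm_num) (by linarith)
    linarith
  have hP1 : 1 ≤ P := by linarith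
  have hP0 : 0 ≤ P := by linarith
  have hXX : X ^ (1 : ℝ) = X := Real.rpow_one X
  have hPX' : P ≤ X := hXX ▸ s2_le hX1 hPX (by linarith)
  have h4P : 4 * P ≤ X := by
    have h := s2_mul hX1 (s2_mul hX1 u2 u2 (by norm_num)) hPX hP0
    have h' := s2_le hX1 h (show e + e + ϑ ≤ 1 by linarith)
    rw [hXX] at h'
    linarith
  have hlP : Real.log P ≤ Real.log X := Real.log_le_log (by linarith) hPX'
  have hlP0 : 0 ≤ 1 + Real.log P := by have := Real.log_nonneg hP1; linarith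
  have uP : 1 + Real.log P ≤ X ^ e := by linarith
  have hfl : 2 ≤ ⌊P⌋₊ := Nat.le_floor (by exact_mod_cast hP)
  have hR : Rat0 N (C7 * Real.log (⌊P⌋₊ : ℕ)) := hN ▸ r7 _ hfl
  set Λ := C7 * Real.log (⌊P⌋₊ : ℕ) with hΛ
  have hΛ0 : 0 ≤ Λ := by have := hR.one_le; linarith
  have uΛ : Λ ≤ X ^ e := by
    refine le_trans (mul_le_mul_of_nonneg_left ?_ (by linarith)) (hK C7 (by linarith) (by linarith))
    have : Real.log (⌊P⌋₊ : ℕ) ≤ Real.log P :=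
      Real.log_le_log (by exact_mod_cast (by omega : 0 < ⌊P⌋₊)) (Nat.floor_le hP0)
    linarith
  have hT1 : 1 ≤ X ^ (15 * k) := hone _ (by positivity)
  have hH0 : P * X ^ (15 * k) ≤ X ^ (ϑ + 15 * k) := s2_mul hX1 hPX le_rfl (hnn _)
  have hH : P * X ^ (15 * k) * X ^ k ≤ X ^ θ :=
    s2_le hX1 (s2_mul hX1 hH0 le_rfl (hnn _)) (by linarith)
  have hPH0 : P ≤ P * X ^ (15 * k) := le_mul_of_one_le_right hP0 hT1
  have hPH : P ≤ P * X ^ (15 * k) * X ^ k :=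
    hPH0.trans (le_mul_of_one_le_right (by linarith) (hone _ h0.le))
  set H := P * X ^ (15 * k) * X ^ k with hHd
  have hH0' : 0 ≤ H := by linarith
  have hX2' : X ^ 2 = X ^ (2 : ℝ) := by rw [← Real.rpow_natCast]; norm_num
  have hA : nsq P H (MA.dd X : DirichletCharacter ℂ N → ℤ → ℂ) ≤ (X ^ (1 + 3 * e)) ^ 2 := by
    refine (nsq_le_mass H hXp hP0 h4P hN id).trans ((r5 X P H hX2 hP1 hPH
      (s2_le hX1 hH hθ)).trans ?_)
    have l1 : Real.log X ≤ X ^ e := by linarith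
    have l2 := s2_mul hX1 l1 l1 hlog
    have l4 := s2_mul hX1 l2 l2 (mul_nonneg hlog hlog)
    have l5 := s2_mul hX1 (s2_mul hX1 u5 hX2'.le (by positivity)) l4 (by positivity)
    rw [s2_sq hX1]
    refine s2_le hX1 (le_of_eq_of_le (by ring) l5) (by linarith)
  have hα : nsq P H (fun (χ : DirichletCharacter ℂ N) t => sml (X ^ (1 - k)) (MA.dd X χ t)) ≤
      (X ^ (1 - r / 2 + e)) ^ 2 := by
    refine (nsq_le_mass H hXp hP0 h4P hN (sml (X ^ (1 - k)))).trans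
      ((r6 X P H hX2 hP1 hPH hH).trans ?_)
    rw [s2_sq hX1]
    exact s2_le hX1 (s2_mul hX1 u6 le_rfl (hnn _)) (by linarith)
  have hY : 0 < X ^ (1 - k) := Real.rpow_pos_of_pos hXp _
  obtain ⟨B, hB1, hB2, hB3, hB4⟩ := exists_large hP1 hY _ hA
  have hcard : (B.card : ℝ) ≤ X ^ (3 * k) := by
    rw [s2_sq hX1, s2_sq hX1, ← Real.rpow_sub hXp] at hB3
    refine s2_le hX1 (hB3.trans (s2_add hX1 u2 (hone _ (by linarith)) le_rfl)) (by linarith)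
  refine ⟨B, hB1, hB2, hcard, fun m hm hmX => ?_⟩
  have ut : tu m ≤ X ^ (e + e) := by
    refine (r8 m).trans (s2_mul hX1 u8 ?_ (by positivity))
    have h2 : (m : ℝ) ≤ X ^ (2 : ℝ) := by rw [← hX2']; nlinarith
    refine (Real.rpow_le_rpow (by positivity) h2 (by positivity)).trans ?_
    rw [← Real.rpow_mul hXp.le]
    exact le_of_eq (by congr 1; ring)
  have ht0 : 0 ≤ tu m := Nat.cast_nonneg _
  have hW : ∀ q ∈ Icc 1 ⌊P⌋₊, X ^ (15 * k) ≤ P * X ^ (15 * k) / q := fun q hq => by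
    rw [mem_Icc] at hq
    have q0 : (0 : ℝ) < q := by exact_mod_cast hq.1
    have q1 : (q : ℝ) ≤ P := (Nat.cast_le.2 hq.2).trans (Nat.floor_le hP0)
    rw [le_div_iff₀ q0, mul_comm]
    exact mul_le_mul_of_nonneg_right q1 (hnn _)
  have e1 := r1 X P (P * X ^ (15 * k)) H m N hX2 hP1 h4P hPH0
    ((s2_le hX1 hH0 (by linarith)).trans hXX.le) le_rfl hN
  have e2 := r2 X P H Λ _ _ _ (X ^ (15 * k)) m N (fun q => P * X ^ (15 * k) / q)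
    (fun _ => X ^ (15 * k)) (MA.dd X) hP1 hH0' hN hR hm hT1 hW (fun _ _ => le_rfl) hY (hnn _) (hnn _)
    hA hα
  have e3 := r3 X P H Λ _ _ _ m N (fun _ => X ^ (15 * k)) (MA.dd X) B hP1 hH0' hN hR
    (fun _ _ => by linarith) (hnn _) (hnn _) hA hα hB4
  have e4 := r4 X P H Λ (X ^ (15 * k)) m N B hX2 hP1 hN hR hm hT1
    ((Real.rpow_le_rpow_of_exponent_le hX1 (by linarith)).trans hXX.le) (le_of_eq (by rw [hHd]; ring))
  have b1 : C1 * P ^ 2 ≤ X ^ (2 - r / 2 + 17 * e) := by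
    have := s2_mul hX1 u1 (s2_mul hX1 hPX hPX hP0) (by positivity)
    exact s2_le hX1 (le_of_eq_of_le (by ring) this) (by linarith)
  have a1 : Λ * (1 + Real.log P) * (X ^ (1 - r / 2 + e) * X ^ (1 + 3 * e)) ≤
      X ^ (2 - r / 2 + 6 * e) :=
    s2_le hX1 (s2_mul hX1 (s2_mul hX1 uΛ uP hlP0) (s2_mul hX1 le_rfl le_rfl (hnn _))
      (mul_nonneg (hnn _) (hnn _))) (by linarith)
  have a10 : 0 ≤ Λ * (1 + Real.log P) * (X ^ (1 - r / 2 + e) * X ^ (1 + 3 * e)) :=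
    mul_nonneg (mul_nonneg hΛ0 hlP0) (mul_nonneg (hnn _) (hnn _))
  have uΛ2 : Λ ^ 2 ≤ X ^ (e + e) := by rw [pow_two]; exact s2_mul hX1 uΛ uΛ hΛ0
  have a2 : Λ ^ 2 * tu m * (X ^ (15 * k)) ^ (-(1 / 3 : ℝ)) *
      ((X ^ (1 + 3 * e)) ^ 2 / X ^ (1 - k)) ^ 2 ≤ X ^ (2 - r / 2 + 6 * e) := by
    rw [← Real.rpow_mul hXp.le, s2_sq hX1, ← Real.rpow_sub hXp, s2_sq hX1]
    exact s2_le hX1 (s2_mul hX1 (s2_mul hX1 (s2_mul hX1 uΛ2 ut ht0) le_rfl (hnn _)) le_rfl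
      (hnn _)) (by linarith)
  have a20 : 0 ≤ Λ ^ 2 * tu m * (X ^ (15 * k)) ^ (-(1 / 3 : ℝ)) *
      ((X ^ (1 + 3 * e)) ^ 2 / X ^ (1 - k)) ^ 2 :=
    mul_nonneg (mul_nonneg (mul_nonneg (sq_nonneg _) ht0) (Real.rpow_nonneg (hnn _) _))
      (sq_nonneg _)
  have b2 := e2.trans (s2_le hX1 (s2_mul hX1 u22 (s2_add hX1 u2 a1 a2) (add_nonneg a10 a20))
    (show _ ≤ 2 - r / 2 + 17 * e by linarith))
  have b3 := e3.trans (le_of_eq_of_le (by ring) (s2_le hX1 (s2_mul hX1 u3 a1 a10)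
    (show _ ≤ 2 - r / 2 + 17 * e by linarith)))
  have uB : (B.card : ℝ) ^ 2 ≤ X ^ (3 * k + 3 * k) := by
    rw [pow_two]; exact s2_mul hX1 hcard hcard (Nat.cast_nonneg _)
  have b4 := e4.trans (s2_le hX1 (s2_mul hX1 (s2_mul hX1 (s2_mul hX1 u4 uB
    (sq_nonneg _)) uΛ2 (sq_nonneg _)) ut ht0) (show _ ≤ 2 - r / 2 + 17 * e by linarith))
  have b12 := s2_add hX1 u2 (e1.trans b1) b2
  have b34 := s2_add hX1 u2 b3 b4
  have b5 := s2_le hX1 (s2_add hX1 u2 b12 b34) (show _ ≤ 2 - 4 * r / 9 by linarith)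
  refine le_trans ?_ b5
  exact (norm_sub_le_norm_sub_add_norm_sub _ _ _).trans (add_le_add
    (norm_sub_le_norm_sub_add_norm_sub _ _ _) (norm_sub_le_norm_sub_add_norm_sub _ _ _))

end Pool.Agent.Lib.MP_778b46_nt.GL
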