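import Pool.Agent.Lib.MP_778b46_nt.GL.ZDef
import Pool.Agent.Lib.MP_778b46_nt.MA.F4

set_option autoImplicit false

noncomputable section

namespace Pool.Agent.Lib.MP_778b46_nt.GL

open Complex Finset Filter
open scoped Real
open Pool.Agent.Lib.MP_778b46_nt.MA
open Pool.Agent.Lib.MP_778b46_nt.GX (DC Lp cd ord lam pr)

theorem ram_one {q : ℕ} (hq : 1 ≤ q) :
    ∑ c ∈ cop q, ee (c / q) = ((ArithmeticFunction.moebius q : ℤ) : ℂ) := by
  have h : ∀ n > 0, ∑ d ∈ Nat.divisors n, (∑ c ∈ cop d, ee (c / d)) =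
      (if n = 1 then 1 else 0 : ℂ) := fun n hn => by
    have : NeZero n := ⟨hn.ne'⟩
    have h1 := sum_ram (N := n) 1
    simp only [Int.cast_one, one_mul] at h1
    rw [h1]
    by_cases e : n = 1
    · simp [e]
    · rw [if_neg e, if_neg fun g => e (Nat.dvd_one.1 (by exact_mod_cast g))]
  rw [← ArithmeticFunction.sum_eq_iff_sum_smul_moebius_eq.1 h q hq,
    Finset.sum_eq_single (q, 1)]
  · simp
  · intro x hx hne
    rw [if_neg, smul_zero]
    intro e
    have h2 := (Nat.mem_divisorsAntidiagonal.1 hx).1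
    exact hne (Prod.ext (by simpa [e] using h2) e)
  · intro hx
    exact absurd (Nat.mem_divisorsAntidiagonal.2 ⟨mul_one q, by omega⟩) hx

theorem zx_gs {N q : ℕ} [NeZero N] (hq : q ∣ N) (h : ℤ) :
    ∑ c ∈ cop q, ee (c * h / q) = (Nat.totient q : ℂ) / Nat.totient N * GS (1 : DC N) q h := by
  rw [sum_cop hq fun c => ee (c * h / q), gs_units]
  refine congrArg _ (Finset.sum_congr rfl fun u _ => ?_)
  have h1 := f2_ee (f2_pos hq) ((f2_mod (u : ZMod N).val q).mul_right h)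
  simp only [Int.cast_mul, Int.cast_natCast] at h1
  rw [h1, MulChar.one_apply_coe, one_mul]

theorem ww_one {N q : ℕ} [NeZero N] (hq : q ∣ N) (m : ℕ) : ww q m (1 : DC N) 1 =
    (((ArithmeticFunction.moebius q : ℤ) : ℂ) / Nat.totient q) ^ 2 *
      ∑ c ∈ cop q, ee (-(m * c / q)) := by
  have h0 := f2_tot (f2_pos hq)
  have hN := f2_tot (NeZero.pos N)
  have h1 := zx_gs hq 1
  simp only [Int.cast_one, mul_one] at h1
  rw [ram_one (f2_pos hq)] at h1
  have h2 : gc (1 : DC N) q 1 = ((ArithmeticFunction.moebius q : ℤ) : ℂ) / Nat.totient q := by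
    rw [gc, inv_one, h1, Nat.cast_one]
    field_simp
  have h3 := zx_gs hq (-(m : ℤ))
  have h4 : ∑ c ∈ cop q, ee (-(m * c / q)) = ∑ c ∈ cop q, ee (c * ((-(m : ℤ) : ℤ) : ℝ) / q) :=
    Finset.sum_congr rfl fun c _ => congrArg ee (by push_cast; ring)
  rw [ww_eq hq, h2, mul_one, h4, h3]
  ring

theorem SC_one {N : ℕ} [NeZero N] {P : ℝ} (hN : N = ⌊P⌋₊.factorial) (m : ℕ) :
    SC P m (1 : DC N) 1 = SP P m := by
  exact Finset.sum_congr rfl fun q hq => ww_one (Nat.dvd_of_mem_divisors (f4_icc hN hq)) m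

end Pool.Agent.Lib.MP_778b46_nt.GL
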