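import Pool.Agent.Lib.MP_778b46_nt.GL.Zw
import Pool.Agent.Lib.MP_778b46_nt.GL.Zx
import Pool.Agent.Lib.MP_778b46_nt.GL.Zr
import Pool.Agent.Lib.MP_778b46_nt.GL.Zm
import Pool.Agent.Lib.MP_778b46_nt.MB.Wc
import Pool.Agent.Lib.MP_778b46_nt.MA.S3

set_option autoImplicit false

noncomputable section

namespace Pool.Agent.Lib.MP_778b46_nt.GL

open Complex Finset Filter
open scoped Real
open Pool.Agent.Lib.MP_778b46_nt.MA
open Pool.Agent.Lib.MP_778b46_nt.GX (DC Lp cd ord lam pr)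

theorem zp_sc {Cw : ℝ} (h : ∀ (N : ℕ) [NeZero N] (m : ℕ) (χ χ' : DC N), 1 ≤ m →
    ∑ q ∈ N.divisors, ‖ww q m χ χ'‖ ≤ Cw * ra m ^ 3 * (MA.gg m χ χ' : ℝ) ^ (-(1 / 3 : ℝ)))
    {N : ℕ} [NeZero N] {P : ℝ} (hN : N = ⌊P⌋₊.factorial) {m : ℕ} (hm : 1 ≤ m) (χ χ' : DC N) :
    ‖SC P m χ χ'‖ ≤ Cw * ra m ^ 3 * (MA.gg m χ χ' : ℝ) ^ (-(1 / 3 : ℝ)) :=
  (norm_sum_le _ _).trans ((sum_le_sum_of_subset_of_nonneg (f4_icc hN)
    fun _ _ _ => norm_nonneg _).trans (h N m χ χ' hm))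

theorem zp_gg {N : ℕ} [NeZero N] (m : ℕ) (χ χ' : DC N) :
    (MA.gg m χ χ' : ℝ) ^ (-(1 / 3 : ℝ)) ≤ 1 :=
  Real.rpow_le_one_of_one_le_of_nonpos
    (by exact_mod_cast f4_qd_pos (f4_lcm_pos χ χ') m) (by norm_num)

theorem zp_ra {m : ℕ} (hm : 1 ≤ m) : ra m ≤ tu m :=
  (div_le_iff₀ (Nat.cast_pos.2 (Nat.totient_pos.2 hm))).2 (f5_tu m hm)

theorem zp_fin {X Y A B W : ℝ} {R S M : ℂ} (hX : 0 < X) (hY : 0 ≤ Y) (hW : 1 ≤ W) (hB : 0 ≤ B)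
    (h1 : ‖2 * π * X * R - S‖ ≤ X * Y) (h2 : ‖S - 2 * π * X * M‖ ≤ A + (X * Y + X * Y * W))
    (h3 : A ≤ X * B) : ‖R - M‖ ≤ B + Y * W := by
  have hpi := Real.pi_gt_three
  have e : ((2 * π * X : ℝ) : ℂ) * (R - M) = (2 * π * X * R - S) + (S - 2 * π * X * M) := by
    push_cast
    ring
  have h4 : 2 * π * X * ‖R - M‖ ≤ X * Y + (A + (X * Y + X * Y * W)) := by
    have := (norm_add_le _ _).trans (add_le_add h1 h2)
    rwa [← e, norm_mul, Complex.norm_real, Real.norm_of_nonneg (by positivity)] at this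
  have a0 : 0 ≤ X * Y := by positivity
  have a1 : X * Y ≤ X * Y * W := le_mul_of_one_le_right a0 hW
  have a2 : 0 ≤ X * B := by positivity
  have a3 : 3 * (X * (B + Y * W)) ≤ 2 * π * (X * (B + Y * W)) :=
    mul_le_mul_of_nonneg_right (by linarith) (by positivity)
  refine le_of_mul_le_mul_left ?_ (by positivity : 0 < 2 * π * X)
  nlinarith

/-- The major arcs for every single `m`. -/
theorem maj_pt {ϑ : ℝ} (hϑ : 0 < ϑ) (hϑ' : ϑ < 5 / 12) : ∃ K : ℝ, 0 < K ∧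
    ∀ δ ε : ℝ, 0 < δ → δ ≤ 1 / 40 → 0 < ε →
      ∃ k c C : ℝ, 0 < k ∧ 16 * k ≤ ε ∧ k / K ≤ c ∧ 1 ≤ C ∧ ∀ X : ℝ, C ≤ X →
        ∀ (N : ℕ) [NeZero N], N = ⌊X ^ ϑ⌋₊.factorial → ∀ m : ℕ, 1 ≤ m → (m : ℝ) ≤ 2 * X →
          ‖R1 X (X ^ ϑ) (X ^ ϑ * X ^ (15 * k)) m - X * I0 w1 (m / X) * SP (X ^ ϑ) m‖ ≤
            C * X * ra m ^ 3 * ∑ χ ∈ CH N (X ^ ϑ), ∑ χ' ∈ CH N (X ^ ϑ),
              (MA.gg m χ χ' : ℝ) ^ (-(1 / 3 : ℝ)) * vz X δ (X ^ (16 * k)) χ χ' +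
            X ^ (1 - c) * (1 + Tot X N (X ^ ϑ) δ (X ^ (16 * k))) ^ 2 := by
  classical
  obtain ⟨θ, hθ0, hθ⟩ := exists_between hϑ'
  obtain ⟨K, hK, hs⟩ := MB.lw_small2 hθ
  refine ⟨5 * K / 2, by linarith, fun δ ε hδ hδ' hε => ?_⟩
  obtain ⟨k, hk, hkδ, hkε, hkθ⟩ : ∃ k : ℝ, 0 < k ∧ 100 * k ≤ δ ∧ 100 * k ≤ ε ∧ ϑ + 16 * k ≤ θ := by
    refine ⟨min (min (δ / 100) (ε / 100)) ((θ - ϑ) / 16),
      lt_min (lt_min (by linarith) (by linarith)) (by linarith), ?_⟩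
    have h1 := min_le_left (min (δ / 100) (ε / 100)) ((θ - ϑ) / 16)
    have h2 := min_le_right (min (δ / 100) (ε / 100)) ((θ - ϑ) / 16)
    exact ⟨by linarith [min_le_left (δ / 100) (ε / 100)],
      by linarith [min_le_right (δ / 100) (ε / 100)], by linarith⟩
  obtain ⟨r, hrk⟩ : ∃ r : ℝ, r = k / K := ⟨_, rfl⟩
  have hK0 : 0 < K := by linarith
  have hr0 : 0 < r := by rw [hrk]; positivity
  have hr : 40 * r ≤ k := by
    rw [hrk, ← mul_div_assoc, div_le_iff₀ hK0, mul_comm k]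
    exact mul_le_mul_of_nonneg_right hK hk.le
  have hηK : k / (5 * K / 2) ≤ 2 * r / 5 := by
    rw [hrk]
    refine le_of_eq ?_
    field_simp
  obtain ⟨C₀, hC₀, hml⟩ := main_two
  obtain ⟨Cw, hCw, hww⟩ := ww_abs
  obtain ⟨X₀, hX₀, hsg⟩ := r1_st hr0 hr (by linarith) hkθ (by linarith) MB.lw_mass2 (by
    rw [hrk]
    exact hs k hk (by linarith))
  obtain ⟨Ce, hCe, hef⟩ := ef hδ hδ' hk
  obtain ⟨Cd, hCd, hdv⟩ := MP_2a1a00_nt.card_divisors_le (k / 2) (by linarith)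
  obtain ⟨X₁, e1⟩ := s3_ev 2 0 hϑ
  obtain ⟨X₂, e2⟩ := s3_ev 4 0 hk
  obtain ⟨X₃, e3⟩ := s3_ev Ce 2 hk
  obtain ⟨X₅, e5⟩ := s3_ev (2 * C₀ * Cw * Cd ^ 3 * Ce) 2 hk
  obtain ⟨X₆, e6⟩ := s3_ev (C₀ * Cw * Cd ^ 3) 0 hk
  obtain ⟨C, c0, c1, c2, c3, c4, c6, c7⟩ : ∃ C : ℝ, C₀ * Cw ≤ C ∧ X₀ ≤ C ∧ X₁ ≤ C ∧ X₂ ≤ C ∧
      X₃ ≤ C ∧ X₅ ≤ C ∧ X₆ ≤ C := by
    refine ⟨|C₀ * Cw| + |X₀| + |X₁| + |X₂| + |X₃| + |X₅| + |X₆|, ?_⟩
    have := abs_nonneg (C₀ * Cw)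
    have := abs_nonneg X₀
    have := abs_nonneg X₁
    have := abs_nonneg X₂
    have := abs_nonneg X₃
    have := abs_nonneg X₅
    have := abs_nonneg X₆
    refine ⟨?_, ?_, ?_, ?_, ?_, ?_, ?_⟩ <;> refine (le_abs_self _).trans ?_ <;> linarith
  refine ⟨k, 2 * r / 5, C, hk, by linarith, hηK, (one_le_mul_of_one_le_of_one_le hC₀ hCw).trans c0,
    fun X hX N _ hN m hm1 hm2 => ?_⟩
  have hX2 : 2 ≤ X := hX₀.trans (c1.trans hX)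
  have hX1 : 1 ≤ X := by linarith
  have hX0 : 0 < X := by linarith
  replace e1 := e1 X (c2.trans hX)
  replace e2 := e2 X (c3.trans hX)
  replace e3 := e3 X (c4.trans hX)
  replace e5 := e5 X (c6.trans hX)
  replace e6 := e6 X (c7.trans hX)
  rw [pow_zero, mul_one] at e1 e2 e6
  have mono : ∀ {a b : ℝ}, a ≤ b → X ^ a ≤ X ^ b := fun h =>
    Real.rpow_le_rpow_of_exponent_le hX1 h
  have add : ∀ a b : ℝ, X ^ a * X ^ b = X ^ (a + b) := fun a b => (Real.rpow_add hX0 a b).symm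
  have one : ∀ {a : ℝ}, 0 ≤ a → 1 ≤ X ^ a := fun h => Real.one_le_rpow hX1 h
  have top : ∀ {a : ℝ}, a ≤ 1 → X ^ a ≤ X := fun h => (mono h).trans (Real.rpow_one X).le
  have pos : ∀ a : ℝ, 0 < X ^ a := fun a => Real.rpow_pos_of_pos hX0 a
  have two : X ^ 2 = X ^ (2 : ℝ) := (Real.rpow_two X).symm
  have hlog : 0 ≤ Real.log X ^ 2 := sq_nonneg _
  obtain ⟨B, hB1, hB2, hB3, hB⟩ := hsg X (X ^ ϑ) N (c1.trans hX) e1 le_rfl hN
  have hT₁ : 1 ≤ X ^ (15 * k) := one (by linarith)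
  have h4P : 4 * X ^ ϑ ≤ X :=
    (s3_key hX1 e2 (b := 1) (by linarith)).trans (Real.rpow_one X).le
  have g2 := hB m hm1 hm2
  set F : ℝ := Ce * X ^ (1 - δ) * (X ^ (16 * k)) ^ 2 * Real.log X ^ 2 with hF
  have hF0 : 0 ≤ F := by
    have := pos (1 - δ)
    positivity
  have hF1 : F = Ce * Real.log X ^ 2 * X ^ (1 - δ + 32 * k) := by
    rw [hF, show 1 - δ + 32 * k = 1 - δ + (16 * k + 16 * k) by ring, ← add, ← add]
    ring
  have hF2 : F ≤ X := by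
    rw [hF1]
    exact (s3_key hX1 e3 (b := 1) (by linarith)).trans (Real.rpow_one X).le
  have hra : ra m ≤ Cd * X ^ k := by
    refine (zp_ra hm1).trans ((hdv m).trans (mul_le_mul_of_nonneg_left ?_ hCd))
    have a1 : (m : ℝ) ≤ X ^ (2 : ℝ) := by
      rw [← two]
      nlinarith only [hm2, hX2]
    refine (Real.rpow_le_rpow (Nat.cast_nonneg _) a1 (by linarith)).trans (le_of_eq ?_)
    rw [← Real.rpow_mul hX0.le]
    congr 1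
    ring
  have hra0 := ra_nonneg m
  have hV : ∀ χ χ' : DC N, ‖SC (X ^ ϑ) m χ χ'‖ ≤ Cw * Cd ^ 3 * X ^ (3 * k) := fun χ χ' => by
    refine (zp_sc hww hN hm1 χ χ').trans ((mul_le_of_le_one_right (by positivity)
      (zp_gg m χ χ')).trans ?_)
    have a1 : X ^ (3 * k) = (X ^ k) ^ 3 := by
      rw [mul_comm, Real.rpow_mul hX0.le]
      exact_mod_cast Real.rpow_natCast (X ^ k) 3
    rw [a1, mul_assoc, ← mul_pow]
    gcongr
  have g4 := hml X (X ^ ϑ) δ (X ^ (15 * k)) (X ^ (16 * k)) F _ m N B (SC (X ^ ϑ) m) hX1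
    (by linarith) hT₁ hF0 hB1 hB2 hV fun χ hχ y hy => hef X (X ^ (15 * k)) (X ^ (16 * k)) y N χ hX2 hT₁
      (by rw [add]; exact mono (by linarith)) (top (by linarith))
      (le_trans (mem_filter.1 (hB2 hχ)).2 (top (by linarith))) hy
      fun n hn hn' => hN ▸ coprime_fact (pos _).le h4P hn hn'
  have hT := s3_tot hX0.le N (X ^ ϑ) δ (X ^ (16 * k))
  have hY : X * X ^ (1 - 2 * r / 5) = X ^ (2 - 2 * r / 5) := by
    rw [show 2 - 2 * r / 5 = 1 + (1 - 2 * r / 5) by ring, ← add, Real.rpow_one]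
  have hvz : ∀ χ χ' : DC N, 0 ≤ vz X δ (X ^ (16 * k)) χ χ' := fun χ χ' => vz_nonneg hX0 _ _ χ χ'
  have hsum : 0 ≤ ∑ χ ∈ CH N (X ^ ϑ), ∑ χ' ∈ CH N (X ^ ϑ),
      (MA.gg m χ χ' : ℝ) ^ (-(1 / 3 : ℝ)) * vz X δ (X ^ (16 * k)) χ χ' :=
    sum_nonneg fun χ _ => sum_nonneg fun χ' _ =>
      mul_nonneg (Real.rpow_nonneg (Nat.cast_nonneg _) _) (hvz χ χ')
  have hC0 : 0 ≤ C := by linarith
  rw [SC_one hN] at g4
  refine zp_fin (A := C₀ * X ^ 2 * ∑ χ ∈ CH N (X ^ ϑ), ∑ χ' ∈ CH N (X ^ ϑ),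
      ‖SC (X ^ ϑ) m χ χ'‖ * vz X δ (X ^ (16 * k)) χ χ') hX0 (pos _).le
    (one_le_pow₀ (by linarith)) (by positivity) (g2.trans ?_) ?_ ?_
  · rw [hY]
    exact mono (by linarith)
  · refine le_trans (le_of_eq ?_) (g4.trans (add_le_add le_rfl ?_))
    · congr 2
      ring
    rw [mul_add, hY]
    refine add_le_add ?_ ?_
    · have a1 : (B.card : ℝ) ^ 2 * (X ^ (15 * k) * F * (X + F)) ≤
          (X ^ (3 * k)) ^ 2 * (X ^ (15 * k) * F * (X + X)) := by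
        gcongr
      have a2 : X ^ (2 - δ + 56 * k) = X ^ (3 * k) * X ^ (3 * k) * X ^ (3 * k) * X ^ (15 * k) *
          X ^ (1 - δ + 32 * k) * X ^ (1 : ℝ) := by
        simp only [add]
        congr 1
        ring
      have a3 := s3_key hX1 e5 (a := 2 - δ + 56 * k) (b := 2 - 2 * r / 5) (by linarith)
      refine le_trans ?_ a3
      rw [a2, Real.rpow_one]
      refine (mul_le_mul_of_nonneg_left a1 (by have := pos (3 * k); positivity)).trans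
        (le_of_eq ?_)
      rw [hF1]
      ring
    · rw [← mul_assoc]
      refine mul_le_mul_of_nonneg_right ?_ (sq_nonneg _)
      have a2 : X ^ (2 - 2 * k) = X ^ (3 * k) * (X ^ 2 * (X ^ (15 * k)) ^ (-(1 / 3 : ℝ))) := by
        rw [← Real.rpow_mul hX0.le, two, add, add]
        congr 1
        ring
      have a3 := s3_key hX1 e6 (a := 2 - 2 * k) (b := 2 - 2 * r / 5) (by linarith)
      refine le_trans (le_of_eq ?_) a3
      rw [a2]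
      ring
  · have a1 : ∑ χ ∈ CH N (X ^ ϑ), ∑ χ' ∈ CH N (X ^ ϑ),
        ‖SC (X ^ ϑ) m χ χ'‖ * vz X δ (X ^ (16 * k)) χ χ' ≤ Cw * ra m ^ 3 *
          ∑ χ ∈ CH N (X ^ ϑ), ∑ χ' ∈ CH N (X ^ ϑ),
            (MA.gg m χ χ' : ℝ) ^ (-(1 / 3 : ℝ)) * vz X δ (X ^ (16 * k)) χ χ' := by
      rw [mul_sum]
      refine sum_le_sum fun χ _ => ?_
      rw [mul_sum]
      refine sum_le_sum fun χ' _ => ?_
      rw [← mul_assoc]
      exact mul_le_mul_of_nonneg_right (zp_sc hww hN hm1 χ χ') (hvz χ χ')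
    refine (mul_le_mul_of_nonneg_left a1 (by positivity)).trans ?_
    have a2 := mul_le_mul_of_nonneg_right c0 (mul_nonneg (mul_nonneg (sq_nonneg X)
      (pow_nonneg hra0 3)) hsum)
    refine le_trans (le_of_eq ?_) (a2.trans (le_of_eq ?_)) <;> ring

end Pool.Agent.Lib.MP_778b46_nt.GL
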