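import Pool.Agent.Lib.MP_778b46_nt.GL.ZDef
import Pool.Agent.Lib.MP_778b46_nt.MA.F4
import Pool.Agent.Lib.MP_2a1a00_nt.Div

set_option autoImplicit false

noncomputable section

namespace Pool.Agent.Lib.MP_778b46_nt.GL

open Complex Finset Filter
open scoped Real
open Pool.Agent.Lib.MP_778b46_nt.MA
open Pool.Agent.Lib.MP_778b46_nt.GX (DC Lp cd ord lam pr)

theorem zw_phi {n : ℕ} (hn : 0 < n) : (0 : ℝ) < Nat.totient n :=
  Nat.cast_pos.2 (Nat.totient_pos.2 hn)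

theorem zw_super (a b : ℕ) : (Nat.totient a : ℝ) * Nat.totient b ≤ Nat.totient (a * b) := by
  exact_mod_cast Nat.totient_super_multiplicative a b

theorem zw_mono {d m : ℕ} (hm : 1 ≤ m) (h : d ∣ m) : ra d ≤ ra m := by
  have hd : 1 ≤ d := Nat.pos_of_dvd_of_pos h hm
  have h1 : ∀ p : ℕ, p.Prime → (1 : ℝ) ≤ (p : ℝ) / (p - 1) := fun p hp => by
    have : (2 : ℝ) ≤ p := by exact_mod_cast hp.two_le
    rw [one_le_div (by linarith)]
    linarith
  rw [ra_eq hm, ra_eq hd, ← prod_sdiff (Nat.primeFactors_mono h (by omega))]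
  exact le_mul_of_one_le_left
    (prod_nonneg fun p hp => zero_le_one.trans (h1 p (Nat.prime_of_mem_primeFactors hp)))
    (one_le_prod fun p hp => h1 p (Nat.prime_of_mem_primeFactors (mem_sdiff.1 hp).1))

theorem zw_mul {a b : ℕ} (ha : 0 < a) (hb : 0 < b) : ra (a * b) ≤ ra a * ra b := by
  rw [ra, ra, ra, div_mul_div_comm, Nat.cast_mul]
  exact div_le_div_of_nonneg_left (by positivity) (mul_pos (zw_phi ha) (zw_phi hb)) (zw_super a b)

theorem zw_div {m : ℕ} (hm : 1 ≤ m) : ∑ d ∈ m.divisors, (Nat.totient d : ℝ)⁻¹ ≤ ra m ^ 2 := by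
  have hm' : (0 : ℝ) < m := Nat.cast_pos.2 hm
  have h1 : ∑ d ∈ m.divisors, (Nat.totient (m / d) : ℝ) = m := by
    rw [Nat.sum_div_divisors m fun d => (Nat.totient d : ℝ)]
    exact_mod_cast Nat.sum_totient m
  calc _ ≤ ∑ d ∈ m.divisors, ra m ^ 2 / m * (Nat.totient (m / d) : ℝ) := by
        refine sum_le_sum fun d hd => ?_
        obtain ⟨k, hk⟩ := Nat.dvd_of_mem_divisors hd
        have hd0 : 0 < d := Nat.pos_of_mem_divisors hd
        have hk0 : 0 < k := Nat.pos_of_ne_zero fun h => by rw [h] at hk; omega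
        have e : m / d = k := by rw [hk, Nat.mul_div_cancel_left _ hd0]
        have a1 := zw_mono hm ⟨k, hk⟩
        have a2 := zw_mono hm (Dvd.intro_left d hk.symm)
        have a3 := mul_le_mul a1 a2 (ra_nonneg k) (ra_nonneg m)
        have b1 := zw_phi hd0
        have b2 := zw_phi hk0
        have b3 : (m : ℝ) = d * k := by exact_mod_cast hk
        rw [e, sq, div_mul_eq_mul_div, le_div_iff₀ hm']
        refine le_trans (le_of_eq ?_) (mul_le_mul_of_nonneg_right a3 b2.le)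
        rw [ra, ra, b3]
        field_simp
    _ = _ := by
        rw [← mul_sum, h1]
        field_simp

theorem zw_tu {C : ℝ} (hC : ∀ n : ℕ, tu n ≤ C * (n : ℝ) ^ (1 / 12 : ℝ)) {g : ℕ} (hg : 0 < g) :
    ((Nat.totient g : ℝ) ^ 2)⁻¹ ≤ C ^ 2 * (g : ℝ) ^ (-(11 / 6 : ℝ)) := by
  have hg' : (0 : ℝ) < g := Nat.cast_pos.2 hg
  have h1 := zw_phi hg
  have h2 : (Nat.totient g : ℝ)⁻¹ ≤ C * (g : ℝ) ^ (-(11 / 12 : ℝ)) := by
    have h3 := (f5_tu g hg).trans (mul_le_mul_of_nonneg_right (hC g) h1.le)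
    rw [show (-(11 / 12 : ℝ)) = 1 / 12 - 1 by norm_num, Real.rpow_sub_one hg'.ne', ← mul_div_assoc,
      le_div_iff₀ hg', inv_mul_le_iff₀ h1]
    linarith
  calc _ = (Nat.totient g : ℝ)⁻¹ ^ 2 := (inv_pow _ _).symm
    _ ≤ (C * (g : ℝ) ^ (-(11 / 12 : ℝ))) ^ 2 := pow_le_pow_left₀ (by positivity) h2 2
    _ = _ := by
      rw [mul_pow, ← Real.rpow_natCast ((g : ℝ) ^ _), ← Real.rpow_mul hg'.le]
      norm_num

theorem zw_sum : ∃ K : ℝ, 0 ≤ K ∧ ∀ {m : ℕ}, 1 ≤ m → ∀ S : Finset ℕ, (∀ t ∈ S, 0 < t) →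
    ∑ t ∈ S, (Nat.totient (Nat.gcd t m) : ℝ)⁻¹ * ((Nat.totient (qd t m) : ℝ) ^ 2)⁻¹ ≤
      ra m ^ 2 * K := by
  obtain ⟨C, -, hC⟩ := Pool.Agent.Lib.MP_2a1a00_nt.card_divisors_le (1 / 12) (by norm_num)
  have hs : Summable fun u : ℕ => C ^ 2 * (u : ℝ) ^ (-(11 / 6 : ℝ)) :=
    (Real.summable_nat_rpow.2 (by norm_num)).mul_left _
  refine ⟨∑' u : ℕ, C ^ 2 * (u : ℝ) ^ (-(11 / 6 : ℝ)), tsum_nonneg fun u => by positivity,
    fun {m} hm S hS => ?_⟩
  have h1 : ∑ u ∈ S.image (qd · m), ((Nat.totient u : ℝ) ^ 2)⁻¹ ≤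
      ∑' u : ℕ, C ^ 2 * (u : ℝ) ^ (-(11 / 6 : ℝ)) := by
    refine le_trans (sum_le_sum fun u hu => ?_) (hs.sum_le_tsum _ fun u _ => by positivity)
    obtain ⟨t, ht, rfl⟩ := mem_image.1 hu
    exact zw_tu hC (f4_qd_pos (hS t ht) m)
  refine le_trans ?_ (mul_le_mul (zw_div hm) h1 (sum_nonneg fun _ _ => by positivity)
    (by positivity))
  rw [sum_mul_sum, ← sum_product']
  rw [← sum_image (s := S) (g := fun t => (Nat.gcd t m, qd t m))
    (f := fun x : ℕ × ℕ => (Nat.totient x.1 : ℝ)⁻¹ * ((Nat.totient x.2 : ℝ) ^ 2)⁻¹)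
    fun t _ t' _ e => by
      rw [← f4_qd_mul t m, ← f4_qd_mul t' m, (Prod.mk.inj e).1, (Prod.mk.inj e).2]]
  refine sum_le_sum_of_subset_of_nonneg (fun x hx => ?_) fun _ _ _ => by positivity
  obtain ⟨t, ht, rfl⟩ := mem_image.1 hx
  exact mem_product.2 ⟨Nat.mem_divisors.2 ⟨Nat.gcd_dvd_right t m, by omega⟩,
    mem_image_of_mem _ ht⟩

theorem zw_qd {r t : ℕ} (hr : 0 < r) (ht : 0 < t) (m : ℕ) : qd r m * qd t m ∣ qd (r * t) m := by
  obtain ⟨c, hc⟩ := Nat.gcd_mul_left_dvd_mul_gcd m r t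
  have h0 : 0 < Nat.gcd (r * t) m := Nat.gcd_pos_of_pos_left m (Nat.mul_pos hr ht)
  refine ⟨c, Nat.eq_of_mul_eq_mul_left h0 ?_⟩
  calc _ = r * t := f4_qd_mul _ _
    _ = (Nat.gcd r m * qd r m) * (Nat.gcd t m * qd t m) := by rw [f4_qd_mul, f4_qd_mul]
    _ = (Nat.gcd r m * Nat.gcd t m) * (qd r m * qd t m) := by ring
    _ = _ := by rw [hc]; ring

/-- The absolute singular series, without logarithms. -/
theorem ww_abs : ∃ C : ℝ, 1 ≤ C ∧ ∀ (N : ℕ) [NeZero N] (m : ℕ) (χ χ' : DC N), 1 ≤ m →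
    ∑ q ∈ N.divisors, ‖ww q m χ χ'‖ ≤ C * ra m ^ 3 * (MA.gg m χ χ' : ℝ) ^ (-(1 / 3 : ℝ)) := by
  obtain ⟨C, -, hC⟩ := Pool.Agent.Lib.MP_2a1a00_nt.card_divisors_le (1 / 12) (by norm_num)
  obtain ⟨K, hK, H⟩ := zw_sum
  refine ⟨1 + C ^ 2 * K, le_add_of_nonneg_right (by positivity), fun N _ m χ χ' hm => ?_⟩
  have hr : 0 < Nat.lcm χ.conductor χ'.conductor := f4_lcm_pos χ χ'
  set r := Nat.lcm χ.conductor χ'.conductor with hrd
  have hr' : (0 : ℝ) < r := by exact_mod_cast hr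
  have hg : 0 < qd r m := f4_qd_pos hr m
  have hg' : (0 : ℝ) < qd r m := by exact_mod_cast hg
  have e : MA.gg m χ χ' = qd r m := rfl
  have hm0 := ra_nonneg m
  rw [← sum_filter_of_ne (p := fun q => r ∣ q) fun q hq h => by
    obtain ⟨h1, h2, -⟩ := ww_ne (Nat.dvd_of_mem_divisors hq) m χ χ' (norm_ne_zero_iff.1 h)
    exact Nat.lcm_dvd h1 h2, f4_sum_mul r, e]
  set S := (N.divisors.filter fun q => r ∣ q).image (· / r)
  have hS : ∀ t ∈ S, r * t ∣ N ∧ 0 < t := fun t ht =>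
    ⟨Nat.dvd_of_mem_divisors (f4_mem ht),
      Nat.pos_of_mul_pos_left (Nat.pos_of_mem_divisors (f4_mem ht))⟩
  have h1 : ra r ≤ ra m * ra (qd r m) := by
    have h2 := zw_mul (Nat.gcd_pos_of_pos_left m hr) hg
    rw [f4_qd_mul] at h2
    exact h2.trans (mul_le_mul_of_nonneg_right (zw_mono hm (Nat.gcd_dvd_right r m)) (ra_nonneg _))
  have h2 : ra (qd r m) * (√(qd r m : ℝ) / Nat.totient (qd r m)) ≤
      C ^ 2 * (qd r m : ℝ) ^ (-(1 / 3 : ℝ)) := by
    have h3 := mul_le_mul_of_nonneg_right (zw_tu hC hg) (Real.rpow_nonneg hg'.le (3 / 2))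
    rw [mul_assoc, ← Real.rpow_add hg', show (-(11 / 6) + 3 / 2 : ℝ) = -(1 / 3) by norm_num] at h3
    refine le_trans (le_of_eq ?_) h3
    rw [ra, Real.sqrt_eq_rpow, show (3 / 2 : ℝ) = 1 + 1 / 2 by norm_num, Real.rpow_add hg',
      Real.rpow_one]
    ring
  have h3 : ra r * (√(qd r m : ℝ) / Nat.totient (qd r m)) ≤
      ra m * (C ^ 2 * (qd r m : ℝ) ^ (-(1 / 3 : ℝ))) :=
    (mul_le_mul_of_nonneg_right h1 (by positivity)).trans
      ((mul_assoc _ _ _).le.trans (mul_le_mul_of_nonneg_left h2 hm0))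
  calc _ ≤ ∑ t ∈ S, ra m * (C ^ 2 * (qd r m : ℝ) ^ (-(1 / 3 : ℝ))) *
        ((Nat.totient (Nat.gcd t m) : ℝ)⁻¹ * ((Nat.totient (qd t m) : ℝ) ^ 2)⁻¹) := by
        refine sum_le_sum fun t ht => ?_
        obtain ⟨a1, a2⟩ := hS t ht
        by_cases h0 : ww (r * t) m χ χ' = 0
        · rw [h0, norm_zero]; positivity
        refine (ww_bd a1 m χ χ').trans (le_trans ?_ (mul_le_mul_of_nonneg_right h3 (by positivity)))
        have hu := f4_qd_pos a2 m
        have b1 := zw_phi hr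
        have b2 := zw_phi hg
        have b3 := zw_phi hu
        have b4 := zw_phi (Nat.gcd_pos_of_pos_left m a2)
        have c1 : (Nat.totient r : ℝ) * (Nat.totient (Nat.gcd t m) * Nat.totient (qd t m)) ≤
            Nat.totient (r * t) := by
          have c2 := zw_super (Nat.gcd t m) (qd t m)
          rw [f4_qd_mul] at c2
          exact (mul_le_mul_of_nonneg_left c2 b1.le).trans (zw_super r t)
        have c2 : (Nat.totient (qd r m) : ℝ) * Nat.totient (qd t m) ≤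
            Nat.totient (qd (r * t) m) :=
          (zw_super _ _).trans (Nat.cast_le.2 (Nat.le_of_dvd
            (Nat.totient_pos.2 (f4_qd_pos (Nat.mul_pos hr a2) m))
            (Nat.totient_dvd_of_dvd (zw_qd hr a2 m))))
        have c3 : √(χ.conductor : ℝ) * √(χ'.conductor : ℝ) ≤ r := by
          rw [← Real.mul_self_sqrt hr'.le]
          have k1 : (χ.conductor : ℝ) ≤ r := by
            exact_mod_cast Nat.le_of_dvd hr (Nat.dvd_lcm_left _ _)
          have k2 : (χ'.conductor : ℝ) ≤ r := by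
            exact_mod_cast Nat.le_of_dvd hr (Nat.dvd_lcm_right _ _)
          gcongr
        have c4 : √((χ * χ').conductor : ℝ) ≤ √(qd r m : ℝ) :=
          Real.sqrt_le_sqrt (by exact_mod_cast Nat.le_of_dvd hg (ww_ne a1 m χ χ' h0).2.2)
        refine (div_le_div₀ (by positivity) (mul_le_mul c3 c4 (Real.sqrt_nonneg _) hr'.le)
          (by positivity) (mul_le_mul c1 c2 (by positivity) (Nat.cast_nonneg _))).trans
          (le_of_eq ?_)
        rw [ra]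
        field_simp
    _ ≤ ra m * (C ^ 2 * (qd r m : ℝ) ^ (-(1 / 3 : ℝ))) * (ra m ^ 2 * K) := by
        rw [← mul_sum]
        exact mul_le_mul_of_nonneg_left (H hm S fun t ht => (hS t ht).2) (by positivity)
    _ = C ^ 2 * K * (ra m ^ 3 * (qd r m : ℝ) ^ (-(1 / 3 : ℝ))) := by ring
    _ ≤ _ := by
        rw [mul_assoc (1 + _)]
        exact mul_le_mul_of_nonneg_right (le_add_of_nonneg_left zero_le_one) (by positivity)

end Pool.Agent.Lib.MP_778b46_nt.GL
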